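import Pool.Agent.Lib.MP_2f3286_ag.Compl
import Mathlib

/-!
# The homomorphism of completions and the valuations
-/

open NumberField IsDedekindDomain Filter Topology WithZero

namespace Pool.Agent.Lib.MP_2f3286_ag.PA

/-- the homomorphism of completions raises the valuation to the power of the ramification index -/
theorem exists_completion_hom_val {k L : Type*} [Field k] [NumberField k] [Field L] [NumberField L]
    [Algebra k L] (v : HeightOneSpectrum (𝓞 k)) (w : HeightOneSpectrum (𝓞 L))
    [w.asIdeal.LiesOver v.asIdeal] :
    ∃ j : v.adicCompletion k →+* w.adicCompletion L,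
      (∀ a : k, j (algebraMap k (v.adicCompletion k) a) =
        algebraMap L (w.adicCompletion L) (algebraMap k L a)) ∧
      ∀ y, Valued.v (j y) = Valued.v y ^ (v.asIdeal.ramificationIdx' w.asIdeal) := by
  have hu := HeightOneSpectrum.uniformContinuous_algebraMap_liesOver k L v w
  let f : (v.valuation k).Completion →+* (w.valuation L).Completion :=
    UniformSpace.Completion.mapRingHom (algebraMap (WithVal (v.valuation k)) (WithVal (w.valuation L)))
      hu.continuous
  let j : v.adicCompletion k →+* w.adicCompletion L :=
    ((HeightOneSpectrum.adicCompletion.equiv L w).symm.toRingHom.comp f).comp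
      (HeightOneSpectrum.adicCompletion.equiv k v).toRingHom
  have hj : ∀ a : k, j (algebraMap k (v.adicCompletion k) a) =
        algebraMap L (w.adicCompletion L) (algebraMap k L a) := by
    intro a
    rw [HeightOneSpectrum.algebraMap_adicCompletion, HeightOneSpectrum.algebraMap_adicCompletion]
    apply HeightOneSpectrum.adicCompletion.ext
    simp only [Function.comp_apply, Algebra.algebraMap_self, RingHom.id_apply]
    change f ((WithVal.equiv (v.valuation k)).symm a : WithVal (v.valuation k)) =
      ((WithVal.equiv (w.valuation L)).symm (algebraMap k L a) : WithVal (w.valuation L))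
    exact UniformSpace.Completion.mapRingHom_coe hu.continuous _
  have hcont : Continuous j := by
    have h1 : Continuous f := UniformSpace.Completion.continuous_map
    exact (HeightOneSpectrum.adicCompletion.continuous_ofCompletion L w).comp
      (h1.comp (HeightOneSpectrum.adicCompletion.continuous_toCompletion k v))
  have he : v.asIdeal.ramificationIdx' w.asIdeal ≠ 0 :=
    Ideal.IsDedekindDomain.ramificationIdx'_ne_zero_of_liesOver w.asIdeal v.ne_bot
  refine ⟨j, hj, fun y => ?_⟩
  rcases eq_or_ne y 0 with rfl | hy
  · rw [map_zero, map_zero, map_zero, zero_pow he]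
  · have hjy : j y ≠ 0 := by rw [_root_.map_ne_zero]; exact hy
    have h1 : {z : v.adicCompletion k | Valued.v z = Valued.v y} ∈ 𝓝 y :=
      Valued.locally_const ((Valuation.ne_zero_iff _).mpr hy)
    have h2 : {z : w.adicCompletion L | Valued.v z = Valued.v (j y)} ∈ 𝓝 (j y) :=
      Valued.locally_const ((Valuation.ne_zero_iff _).mpr hjy)
    have h3 := Filter.inter_mem h1 (hcont.continuousAt h2)
    have hd := HeightOneSpectrum.denseRange_algebraMap (K := k) (R := 𝓞 k) (v := v)
    obtain ⟨a, ha⟩ := hd.mem_nhds h3
    have h4 : Valued.v (algebraMap k (v.adicCompletion k) a) = Valued.v y := ha.1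
    have h5 : Valued.v (j (algebraMap k (v.adicCompletion k) a)) = Valued.v (j y) := ha.2
    rw [← h5, hj, val_alg, ← h4, val_alg, HeightOneSpectrum.valuation_liesOver L v w]

end Pool.Agent.Lib.MP_2f3286_ag.PA
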