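import Mathlib

/-!
# Polynomial relations between two elements
-/

open Polynomial

namespace Pool.Agent.Lib.MP_2f3286_ag.PA

/-- the value of a polynomial in two variables -/
noncomputable def biv {k A : Type*} [CommRing k] [CommRing A] (f : k →+* A) (a b : A) (P : k[X][X]) : A :=
  P.eval₂ (eval₂RingHom f a) b

theorem map_biv {k A B : Type*} [CommRing k] [CommRing A] [CommRing B] (f : k →+* A) (g : A →+* B)
    (a b : A) (P : k[X][X]) : g (biv f a b P) = biv (g.comp f) (g a) (g b) P := by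
  unfold biv
  rw [hom_eval₂]
  congr 1
  refine Polynomial.ringHom_ext (fun c => ?_) ?_
  · simp
  · simp

theorem biv_eq_sum {k A : Type*} [CommRing k] [CommRing A] (f : k →+* A) (a b : A) (P : k[X][X]) :
    biv f a b P = ∑ j ∈ Finset.range (P.natDegree + 1), (P.coeff j).eval₂ f a * b ^ j := by
  unfold biv
  rw [eval₂_eq_sum_range]
  rfl

theorem biv_congr {k A : Type*} [CommRing k] [CommRing A] {f g : k →+* A} (h : f = g) (a b : A)
    (P : k[X][X]) : biv f a b P = biv g a b P := by rw [h]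

section

variable {k M : Type*} [Field k] [Field M] [Algebra k M]

/-- a relation for an element integral over the ring generated by one element -/
theorem exists_biv_of_integral (a b : M) (hb : IsIntegral (Algebra.adjoin k {a}) b) :
    ∃ P : k[X][X], P.Monic ∧ biv (algebraMap k M) a b P = 0 := by
  obtain ⟨p, hp, hpb⟩ := hb
  let f : k[X] →+* Algebra.adjoin k {a} :=
    ((aeval (⟨a, Algebra.self_mem_adjoin_singleton k a⟩ : Algebra.adjoin k {a}) :
      k[X] →ₐ[k] Algebra.adjoin k {a}) : k[X] →+* Algebra.adjoin k {a})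
  have hf : ∀ q : k[X], ((f q : Algebra.adjoin k {a}) : M) = aeval a q := by
    intro q
    change ((Algebra.adjoin k {a}).val ((aeval _) q)) = _
    rw [← aeval_algHom_apply]
    rfl
  have hsurj : Function.Surjective f := by
    intro z
    have hz : (z : M) ∈ (aeval (R := k) a).range := by
      rw [← Algebra.adjoin_singleton_eq_range_aeval]; exact z.2
    obtain ⟨q, hq⟩ := hz
    refine ⟨q, Subtype.ext ?_⟩
    rw [hf]
    exact hq
  have hlift : p ∈ lifts f := by
    rw [lifts_iff_coeff_lifts]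
    intro n
    exact hsurj _
  obtain ⟨P, hP, -, hPm⟩ := lifts_and_natDegree_eq_and_monic hlift hp
  refine ⟨P, hPm, ?_⟩
  have h1 : eval₂ (algebraMap (Algebra.adjoin k {a}) M) b (P.map f) = 0 := by rw [hP]; exact hpb
  rw [eval₂_map] at h1
  unfold biv
  refine Eq.trans ?_ h1
  congr 1
  refine Polynomial.ringHom_ext (fun c => ?_) ?_
  · simp only [coe_eval₂RingHom, eval₂_C, RingHom.comp_apply]
    change _ = ((f (C c) : Algebra.adjoin k {a}) : M)
    rw [hf, aeval_C]
  · simp only [coe_eval₂RingHom, eval₂_X, RingHom.comp_apply]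
    change _ = ((f X : Algebra.adjoin k {a}) : M)
    rw [hf, aeval_X]

/-- the elements of the ring generated by a unit and its inverse -/
theorem exists_pow_mul (e : M) (he : e ≠ 0) (a : M) (ha : a ∈ Algebra.adjoin k {e, e⁻¹}) :
    ∃ (m : ℕ) (B : k[X]), e ^ m * a = aeval e B := by
  induction ha using Algebra.adjoin_induction with
  | mem a ha =>
    rcases ha with rfl | rfl
    · exact ⟨0, X, by rw [pow_zero, one_mul, aeval_X]⟩
    · exact ⟨1, 1, by rw [pow_one, mul_inv_cancel₀ he, map_one]⟩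
  | algebraMap c => exact ⟨0, C c, by rw [pow_zero, one_mul, aeval_C]⟩
  | add a b _ _ ha hb =>
    obtain ⟨m, A, hA⟩ := ha
    obtain ⟨n, B, hB⟩ := hb
    refine ⟨m + n, X ^ n * A + X ^ m * B, ?_⟩
    rw [map_add, map_mul, map_mul, map_pow, map_pow, aeval_X, ← hA, ← hB]
    ring
  | mul a b _ _ ha hb =>
    obtain ⟨m, A, hA⟩ := ha
    obtain ⟨n, B, hB⟩ := hb
    refine ⟨m + n, A * B, ?_⟩
    rw [map_mul, ← hA, ← hB]
    ring

/-- a relation for an element integral over the ring generated by a unit and its inverse -/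
theorem exists_biv_of_integral_unit (e b : M) (he : e ≠ 0)
    (hb : IsIntegral (Algebra.adjoin k {e, e⁻¹}) b) :
    ∃ (m : ℕ) (P : k[X][X]), P.leadingCoeff = X ^ m ∧ biv (algebraMap k M) e b P = 0 := by
  classical
  obtain ⟨p, hp, hpb⟩ := hb
  choose m B hB using fun i : ℕ => exists_pow_mul e he ((p.coeff i : Algebra.adjoin k {e, e⁻¹}) : M)
    (p.coeff i).2
  set r := p.natDegree with hr
  let N : ℕ := ∑ i ∈ Finset.range r, m i
  have hN : ∀ i ∈ Finset.range r, m i ≤ N := fun i hi =>
    Finset.single_le_sum (fun _ _ => Nat.zero_le _) hi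
  let Q : k[X][X] := ∑ i ∈ Finset.range r, C (X ^ (N - m i) * B i) * X ^ i
  have hQdeg : Q.degree < r := by
    refine lt_of_le_of_lt (degree_sum_le _ _) ?_
    refine (Finset.sup_lt_iff (WithBot.bot_lt_coe r)).mpr fun i hi => ?_
    refine lt_of_le_of_lt (degree_C_mul_X_pow_le _ _) ?_
    exact WithBot.coe_lt_coe.mpr (Finset.mem_range.mp hi)
  have hXN : (X ^ N : k[X]) ≠ 0 := pow_ne_zero _ X_ne_zero
  let P : k[X][X] := C (X ^ N) * X ^ r + Q
  have hP : P.leadingCoeff = X ^ N := by
    have h1 : (C (X ^ N : k[X]) * X ^ r : k[X][X]).degree = r := degree_C_mul_X_pow r hXN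
    change (C (X ^ N) * X ^ r + Q).leadingCoeff = _
    rw [leadingCoeff_add_of_degree_lt' (by rw [h1]; exact hQdeg), leadingCoeff_C_mul_X_pow]
  refine ⟨N, P, hP, ?_⟩
  have hpb' : ∑ i ∈ Finset.range (r + 1), ((p.coeff i : Algebra.adjoin k {e, e⁻¹}) : M) * b ^ i = 0 := by
    rw [← hpb, eval₂_eq_sum_range]
    rfl
  rw [Finset.sum_range_succ] at hpb'
  have hlead : ((p.coeff r : Algebra.adjoin k {e, e⁻¹}) : M) = 1 := by
    have h1 : p.coeff r = 1 := hp
    rw [h1]; rfl
  rw [hlead, one_mul] at hpb'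
  have hQ : biv (algebraMap k M) e b Q = e ^ N * ∑ i ∈ Finset.range r,
      ((p.coeff i : Algebra.adjoin k {e, e⁻¹}) : M) * b ^ i := by
    unfold biv
    simp only [Q]
    rw [eval₂_finsetSum, Finset.mul_sum]
    refine Finset.sum_congr rfl fun i hi => ?_
    rw [eval₂_mul, eval₂_C, eval₂_pow, eval₂_X, map_mul, map_pow, coe_eval₂RingHom, eval₂_X,
      ← aeval_def, ← hB i]
    have h1 : e ^ N = e ^ (N - m i) * e ^ m i := by rw [← pow_add, Nat.sub_add_cancel (hN i hi)]
    rw [h1]
    ring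
  have h2 : biv (algebraMap k M) e b P = e ^ N * b ^ r + biv (algebraMap k M) e b Q := by
    unfold biv
    simp only [P]
    rw [eval₂_add, eval₂_mul, eval₂_C, eval₂_pow, eval₂_X, map_pow, coe_eval₂RingHom, eval₂_X]
  rw [h2, hQ, ← mul_add, add_comm (b ^ r), hpb', mul_zero]

end

end Pool.Agent.Lib.MP_2f3286_ag.PA
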