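import Pool.Agent.Lib.MP_2f3286_ag.PA.Val
import Pool.Agent.Lib.MP_2f3286_ag.GU.LClass
import Pool.Agent.Lib.MP_2f3286_ag.NormClass
import Pool.Agent.Lib.MP_2f3286_ag.SelmerCore
import Pool.Agent.Lib.MP_2f3286_ag.Aux2

/-!
# Kummer classes of a unit of the integral closure fixed by the section over a finite extension
-/

open IsDedekindDomain NumberField IntermediateField

namespace Pool.Agent.Lib.MP_2f3286_ag.PA

universe u

section

variable {k : Type u} [Field k] [NumberField k]
    {K : Type*} [Field K] [Algebra k K]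
    (R : Subalgebra k K)
    {M : Type*} [Field M] [Algebra K M]
    [Algebra (AlgebraicClosure k) M] [Algebra k M]
    [IsScalarTower k K M] [IsScalarTower k (AlgebraicClosure k) M]

omit [NumberField k] in
theorem const_int (a : AlgebraicClosure k) : IsIntegral R (algebraMap (AlgebraicClosure k) M a) := by
  have htow' : IsScalarTower k R M := IsScalarTower.of_algebraMap_eq fun x => by
    rw [IsScalarTower.algebraMap_apply k K M]; rfl
  have h1 : IsIntegral k a := Algebra.IsIntegral.isIntegral a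
  have h2 : IsIntegral k (algebraMap (AlgebraicClosure k) M a) := h1.algebraMap
  exact h2.tower_top

omit [NumberField k] [Algebra (AlgebraicClosure k) M] [Algebra k M]
    [IsScalarTower k K M] [IsScalarTower k (AlgebraicClosure k) M] in
theorem gal_int (s : Gal(AlgebraicClosure k/k) →* Gal(M/K)) (σ : Gal(AlgebraicClosure k/k)) (b : M)
    (hb : IsIntegral R b) : IsIntegral R (s σ b) :=
  hb.map (((s σ).toAlgHom.restrictScalars R : M →ₐ[R] M))

/-- The classes `G n` of the unit `e` give its values at all points at which the section comes from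
a point. -/
def HasClasses (L : IntermediateField k (AlgebraicClosure k))
    (s : Gal(AlgebraicClosure k/k) →* Gal(M/K)) (e : integralClosure R M) (G : ℕ → Lˣ) : Prop :=
  ∀ (F : Type u) (_ : Field F) (_ : CharZero F) (σ : L →+* F)
    (ι' : AlgebraicClosure k →+* AlgebraicClosure F)
    (φ' : integralClosure R M →+* AlgebraicClosure F),
    Respects s F ι' φ' → (∀ l : L, ι' (l : AlgebraicClosure k) = algebraMap F _ (σ l)) →
    ∀ n, 1 ≤ n → ∃ h : F, φ' e = algebraMap F (AlgebraicClosure F) (σ (G n : L) * h ^ n)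

theorem exists_hasClasses (s : Gal(AlgebraicClosure k/k) →* Gal(M/K)) (hs : Continuous s)
    (hsec : ∀ σ a, s σ (algebraMap (AlgebraicClosure k) M a) =
      algebraMap (AlgebraicClosure k) M (σ a))
    (L : IntermediateField k (AlgebraicClosure k)) [FiniteDimensional k L]
    (e : integralClosure R M) (he0 : (e : M) ≠ 0)
    (hroots : ∀ n : ℕ, 1 ≤ n → ∃ b : M, b ^ n = (e : M))
    (hfix : ∀ σ ∈ L.fixingSubgroup, s σ (e : M) = e) :
    ∃ G : ℕ → Lˣ, (∀ n m, 1 ≤ n → 1 ≤ m → ∃ y : Lˣ, G (n * m) = G n * y ^ n) ∧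
      HasClasses R L s e G := by
  classical
  obtain ⟨T, hT1, hTn, hTc⟩ := exists_roots_compatible hroots
  have hTint : ∀ n, 1 ≤ n → IsIntegral R (T n) := fun n hn =>
    IsIntegral.of_pow hn (by rw [hTn n hn]; exact e.2)
  obtain ⟨z, g, hz, hzσ, hζ, hcompat⟩ := GU.exists_classes_L s hs hsec L
    (fun _ : Unit => (e : M)) (fun _ => he0) (fun _ => T) (fun _ => hTn) (fun _ => hTc)
    (fun _ n hn => (hTint n hn).tower_top) (fun σ hσ _ => hfix σ hσ)
  refine ⟨g (), fun n m hn hm => hcompat () n m hn hm, ?_⟩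
  intro F _ _ σ ι' φ' hres hι n hn
  have hL : ∀ x : L, ∃ y : F, algebraMap F (AlgebraicClosure F) y = ι' x := fun x => ⟨σ x, (hι x).symm⟩
  obtain ⟨w, hw⟩ := quot_mem (B := integralClosure R M) s (fun a => const_int R a) hres L hL
    ⟨T n, hTint n hn⟩ (hζ () n hn) (z () n) (hzσ () n hn)
  refine ⟨w, ?_⟩
  have hz0 : ι' (z () n) ≠ 0 := by
    rw [_root_.map_ne_zero]; exact (z () n).ne_zero
  have h1 : φ' e = φ' ⟨T n, hTint n hn⟩ ^ n := by
    rw [← map_pow]
    congr 1
    apply Subtype.ext
    exact (hTn n hn).symm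
  have h2 : φ' ⟨T n, hTint n hn⟩ = algebraMap F (AlgebraicClosure F) w * ι' (z () n) := by
    rw [hw, div_mul_cancel₀ _ hz0]
  have h3 : ι' (z () n) ^ n = algebraMap F (AlgebraicClosure F) (σ (g () n : L)) := by
    rw [← map_pow, hz () n hn, ← hι]
    rfl
  rw [h1, h2, mul_pow, h3, map_mul, map_pow, mul_comm]

/-- the classes are the product of a fixed element, an `S`-unit and a power -/
theorem exists_alpha_of_values (s : Gal(AlgebraicClosure k/k) →* Gal(M/K))
    (L : IntermediateField k (AlgebraicClosure k)) [NumberField L]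
    (e : integralClosure R M) (G : ℕ → Lˣ)
    (hcompat : ∀ n m, 1 ≤ n → 1 ≤ m → ∃ y : Lˣ, G (n * m) = G n * y ^ n)
    (hG : HasClasses R L s e G)
    (S : Finset (HeightOneSpectrum (𝓞 L)))
    (y : ∀ w : HeightOneSpectrum (𝓞 L), w.adicCompletion L) (hy0 : ∀ w ∉ S, y w ≠ 0)
    (hy : ∀ w ∉ S, ∃ (ι' : AlgebraicClosure k →+* AlgebraicClosure (w.adicCompletion L))
      (φ' : integralClosure R M →+* AlgebraicClosure (w.adicCompletion L)),
      Respects s (w.adicCompletion L) ι' φ' ∧
      (∀ l : L, ι' (l : AlgebraicClosure k) = algebraMap _ _ (algebraMap L (w.adicCompletion L) l)) ∧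
      φ' e = algebraMap _ _ (y w))
    (T : Finset (HeightOneSpectrum (𝓞 L))) (hT : ∀ w ∉ T, Valued.v (y w) = 1) :
    ∃ α : Lˣ, ∀ n, 1 ≤ n → ∃ ε ∈ (placesOf S).Γ, ∃ β : Lˣ, G n = α * ε * β ^ n := by
  refine exists_alpha S G hcompat y T hy0 hT fun w hw n hn => ?_
  have : CharZero (w.adicCompletion L) := charZero_of_injective_algebraMap
    (algebraMap L (w.adicCompletion L)).injective
  obtain ⟨ι', φ', h1, h2, h3⟩ := hy w hw
  obtain ⟨h, hh⟩ := hG (w.adicCompletion L) inferInstance this (algebraMap L (w.adicCompletion L)) ι' φ'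
    h1 h2 n hn
  refine ⟨h, ?_⟩
  apply (algebraMap (w.adicCompletion L) (AlgebraicClosure (w.adicCompletion L))).injective
  rw [← h3, hh]

end

end Pool.Agent.Lib.MP_2f3286_ag.PA
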