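import Pool.Agent.Lib.MP_2f3286_ag.PA.UCon

/-!
# Local units from bounded contact, for a unit integral over the ring generated by finitely many functions
-/

open IsDedekindDomain NumberField Polynomial WithZero

namespace Pool.Agent.Lib.MP_2f3286_ag.PA

/-- two monomials with the same value -/
theorem false_of_monomials {k L : Type*} [Field k] [NumberField k] [Field L] [NumberField L]
    [Algebra k L] (v : HeightOneSpectrum (𝓞 k)) (w : HeightOneSpectrum (𝓞 L))
    (hl : w.asIdeal.LiesOver v.asIdeal)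
    (θ : v.adicCompletion k →+* w.adicCompletion L)
    (hθ : ∀ y, Valued.v (θ y) = Valued.v y ^ (v.asIdeal.ramificationIdx' w.asIdeal))
    (x : v.adicCompletion k) (y : w.adicCompletion L) (hy : y ≠ 0)
    (hne : (Valued.v y : ℤᵐ⁰) ≠ 1) (hx : 1 < (Valued.v (θ x) : ℤᵐ⁰))
    (N D : ℕ) (g : L) (hg : w.valuation L g = 1) (h : w.adicCompletion L)
    (hh : algebraMap L _ g * h ^ (N * ((Module.finrank k L).factorial * D.factorial)) = y)
    (hcont : ∀ z : v.adicCompletion k, Valued.v x = Valued.v z ^ N → Valued.v x ≤ 1)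
    (i j i' j' : ℕ) (hij : ¬ (i = i' ∧ j = j')) (hi : i ≤ D) (hi' : i' ≤ D)
    (hval : (Valued.v (θ x) : ℤᵐ⁰) ^ i * Valued.v y ^ j = Valued.v (θ x) ^ i' * Valued.v y ^ j') : False := by
  classical
  set V : Valuation (w.adicCompletion L) ℤᵐ⁰ := Valued.v with hV
  have hy0 : V y ≠ 0 := (Valuation.ne_zero_iff _).mpr hy
  have hX0 : V (θ x) ≠ 0 := fun h => by rw [h] at hx; exact not_lt_zero hx
  have key : ∀ i j i' j' : ℕ, ¬ (i = i' ∧ j = j') → i' ≤ D → V (θ x) ^ i * V y ^ j = V (θ x) ^ i' * V y ^ j' →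
      i ≤ i' → False := by
    intro i j i' j' hij hi' hval hle
    rcases Nat.eq_or_lt_of_le hle with heq | hlt
    · rw [heq] at hval
      have h4 := mul_left_cancel₀ (pow_ne_zero _ hX0) hval
      -- powers
      have h5 : ∀ a b : ℕ, a < b → V y ^ a = V y ^ b → False := by
        intro a b hab h6
        obtain ⟨d, rfl⟩ := Nat.exists_eq_add_of_lt hab
        rw [add_assoc, pow_add] at h6
        have h7 : V y ^ (d + 1) = 1 := by
          have h8 : V y ^ a * 1 = V y ^ a * V y ^ (d + 1) := by rw [mul_one]; exact h6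
          exact (mul_left_cancel₀ (pow_ne_zero _ hy0) h8).symm
        exact hne ((pow_eq_one_iff_of_nonneg zero_le (Nat.succ_ne_zero d)).mp h7)
      rcases Nat.lt_or_gt_of_ne (fun h => hij ⟨heq, h⟩ : j ≠ j') with h6 | h6
      · exact h5 j j' h6 h4
      · exact h5 j' j h6 h4.symm
    · obtain ⟨d, hd⟩ := Nat.exists_eq_add_of_lt hlt
      set ram := v.asIdeal.ramificationIdx' w.asIdeal with hram
      have hram0 : ram ≠ 0 := Ideal.IsDedekindDomain.ramificationIdx'_ne_zero_of_liesOver w.asIdeal v.ne_bot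
      have hramle : ram ≤ Module.finrank k L := by
        have := v.isMaximal
        have : NoZeroSMulDivisors (𝓞 k) (𝓞 L) := ⟨fun {c x} h => by
          rw [Algebra.smul_def, mul_eq_zero] at h
          exact h.imp_left fun h => (FaithfulSMul.algebraMap_eq_zero_iff (𝓞 k) (𝓞 L)).mp h⟩
        exact Ideal.ramificationIdx_le_finrank (𝓞 L) k L w.asIdeal
      obtain ⟨q₁, hq₁⟩ : ram ∣ (Module.finrank k L).factorial :=
        Nat.dvd_factorial (Nat.pos_of_ne_zero hram0) hramle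
      obtain ⟨q₂, hq₂⟩ : (d + 1) ∣ D.factorial := Nat.dvd_factorial (Nat.succ_pos d) (by omega)
      have hVy : V y = V h ^ (N * ((Module.finrank k L).factorial * D.factorial)) := by
        rw [← hh, map_mul, map_pow, hV, val_alg, hg, one_mul]
      have hh0 : V h ≠ 0 := by
        intro h4
        rw [h4] at hVy
        rcases Nat.eq_zero_or_pos (N * ((Module.finrank k L).factorial * D.factorial)) with h5 | h5
        · rw [h5, pow_zero] at hVy
          exact hne hVy
        · rw [zero_pow h5.ne'] at hVy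
          exact hy0 hVy
      have h4 : V y ^ j = V (θ x) ^ (d + 1) * V y ^ j' := by
        have h5 : i' = i + (d + 1) := by omega
        rw [h5, pow_add, mul_assoc] at hval
        exact mul_left_cancel₀ (pow_ne_zero _ hX0) hval
      have h5 : (Valued.v x) ^ (ram * (d + 1)) = ((V h ^ ((q₁ * q₂ : ℤ) * (j - j'))) ^ N) ^ (ram * (d + 1)) := by
        have h6 : V (θ x) ^ (d + 1) = V y ^ j * (V y ^ j')⁻¹ := by
          rw [h4, mul_assoc, mul_inv_cancel₀ (pow_ne_zero _ hy0), mul_one]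
        rw [pow_mul, ← hθ, h6, hVy, hq₁, hq₂]
        rw [← zpow_natCast (V h ^ _) j, ← zpow_natCast (V h ^ _) j', ← zpow_neg, ← zpow_add₀ (pow_ne_zero _ hh0),
          ← zpow_natCast (V h), ← zpow_mul, ← zpow_natCast, ← zpow_natCast, ← zpow_mul, ← zpow_mul]
        congr 1
        push_cast
        ring
      have h6 := (pow_left_inj₀ zero_le zero_le (Nat.mul_ne_zero hram0 (Nat.succ_ne_zero d))).mp h5
      obtain ⟨z, hz⟩ := HeightOneSpectrum.valuedAdicCompletion_surjective k v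
        (V h ^ ((q₁ * q₂ : ℤ) * (j - j')))
      have h7 := hcont z (by rw [hz]; exact h6)
      rw [hV, hθ] at hx
      exact absurd hx (not_lt.mpr (pow_le_one' h7 _))
  rcases le_total i i' with h4 | h4
  · exact key i j i' j' hij hi' hval h4
  · exact key i' j' i j (fun h5 => hij ⟨h5.1.symm, h5.2.symm⟩) hi hval.symm h4

/-- values of the elements of a finitely generated algebra -/
theorem exists_le_one_adjoin {k : Type*} [Field k] [NumberField k] {R : Type*} [CommRing R] [Algebra k R]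
    (A : Set R) (c : R) (hc : c ∈ Algebra.adjoin k A) :
    ∃ T₀ : Finset (HeightOneSpectrum (𝓞 k)), ∀ v ∉ T₀, ∀ x : R →ₐ[k] v.adicCompletion k,
      (∀ a ∈ A, Valued.v (x a) ≤ 1) → Valued.v (x c) ≤ 1 := by
  classical
  induction hc using Algebra.adjoin_induction with
  | mem a ha => exact ⟨∅, fun v _ x hx => hx a ha⟩
  | algebraMap r =>
    rcases eq_or_ne r 0 with rfl | hr
    · exact ⟨∅, fun v _ x _ => by rw [map_zero, map_zero, map_zero]; exact zero_le_one⟩
    · refine ⟨(finite_val_ne_one hr).toFinset, fun v hv x _ => ?_⟩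
      rw [Set.Finite.mem_toFinset, Set.mem_ofPred_eq, not_not] at hv
      rw [AlgHom.commutes, val_alg, hv]
  | add a b _ _ ha hb =>
    obtain ⟨T₁, h₁⟩ := ha
    obtain ⟨T₂, h₂⟩ := hb
    refine ⟨T₁ ∪ T₂, fun v hv x hx => ?_⟩
    rw [Finset.mem_union, not_or] at hv
    rw [map_add]
    exact (Valuation.map_add _ _ _).trans (max_le (h₁ v hv.1 x hx) (h₂ v hv.2 x hx))
  | mul a b _ _ ha hb =>
    obtain ⟨T₁, h₁⟩ := ha
    obtain ⟨T₂, h₂⟩ := hb
    refine ⟨T₁ ∪ T₂, fun v hv x hx => ?_⟩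
    rw [Finset.mem_union, not_or] at hv
    rw [map_mul, map_mul]
    exact mul_le_one' (h₁ v hv.1 x hx) (h₂ v hv.2 x hx)

/-- a monic relation for an element integral over the algebra generated by a set of functions -/
theorem exists_monic_adjoin {k R M : Type*} [Field k] [CommRing R] [Algebra k R] [Field M] [Algebra k M] [Algebra R M]
    [IsScalarTower k R M] (A : Set R) (e : M) (he : IsIntegral (Algebra.adjoin k (algebraMap R M '' A)) e) :
    ∃ P : R[X], P.Monic ∧ (∀ i, P.coeff i ∈ Algebra.adjoin k A) ∧ P.eval₂ (algebraMap R M) e = 0 := by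
  obtain ⟨p, hp, hpe⟩ := he
  let C := Algebra.adjoin k A
  let C' := Algebra.adjoin k (algebraMap R M '' A)
  have hmap : C.map (IsScalarTower.toAlgHom k R M) = C' := by
    change (Algebra.adjoin k A).map _ = _
    rw [AlgHom.map_adjoin]
    rfl
  have hmem : ∀ c : C, algebraMap R M (c : R) ∈ C' := by
    intro c
    rw [← hmap]
    exact ⟨c, c.2, rfl⟩
  let j : C →+* C' := ((algebraMap R M).comp (algebraMap C R)).codRestrict C'.toSubring hmem
  have hsurj : Function.Surjective j := by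
    rintro ⟨z, hz⟩
    rw [← hmap] at hz
    obtain ⟨c, hc, rfl⟩ := hz
    exact ⟨⟨c, hc⟩, rfl⟩
  have hlift : p ∈ lifts j := by
    rw [lifts_iff_coeff_lifts]
    intro n
    exact hsurj _
  obtain ⟨P, hP, -, hPm⟩ := lifts_and_natDegree_eq_and_monic hlift hp
  refine ⟨P.map (algebraMap C R), hPm.map _, fun i => ?_, ?_⟩
  · rw [coeff_map]
    exact (P.coeff i).2
  · rw [eval₂_map]
    have h1 : eval₂ (algebraMap C' M) e (P.map j) = 0 := by rw [hP]; exact hpe
    rw [eval₂_map] at h1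
    exact h1

/-- the values are units at almost all places -/
theorem exists_val_one_A {k L : Type*} [Field k] [NumberField k] [Field L] [NumberField L]
    [Algebra k L] (S T : Finset (HeightOneSpectrum (𝓞 k)))
    (vb : HeightOneSpectrum (𝓞 L) → HeightOneSpectrum (𝓞 k))
    (hvb : ∀ w : HeightOneSpectrum (𝓞 L), w.asIdeal.LiesOver (vb w).asIdeal)
    (θ : ∀ w : HeightOneSpectrum (𝓞 L), (vb w).adicCompletion k →+* w.adicCompletion L)
    (hθ : ∀ (w : HeightOneSpectrum (𝓞 L)) (y : (vb w).adicCompletion k), Valued.v (θ w y) = Valued.v y ^ ((vb w).asIdeal.ramificationIdx' w.asIdeal))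
    {R : Type*} [CommRing R] [Algebra k R] (A : Finset R)
    (x : ∀ v : {v : HeightOneSpectrum (𝓞 k) // v ∉ S}, R →ₐ[k] v.1.adicCompletion k)
    (y : ∀ w : HeightOneSpectrum (𝓞 L), w.adicCompletion L) (hy : ∀ w, vb w ∉ S → y w ≠ 0)
    (P₁ P₂ : R[X]) (hP₁ : P₁.Monic) (hP₂ : P₂.Monic)
    (hc₁ : ∀ i, P₁.coeff i ∈ Algebra.adjoin k (A : Set R))
    (hc₂ : ∀ i, P₂.coeff i ∈ Algebra.adjoin k (A : Set R))
    (h1 : ∀ w (hw : vb w ∉ S), P₁.eval₂ ((θ w).comp (x ⟨vb w, hw⟩ : R →+* (vb w).adicCompletion k)) (y w) = 0)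
    (h2 : ∀ w (hw : vb w ∉ S), P₂.eval₂ ((θ w).comp (x ⟨vb w, hw⟩ : R →+* (vb w).adicCompletion k)) (y w)⁻¹ = 0)
    (F : R → MvPolynomial (Fin 2) k) (hF : ∀ a ∈ A, F a ≠ 0)
    (h3 : ∀ a ∈ A, ∀ w (hw : vb w ∉ S), MvPolynomial.eval₂ ((algebraMap L (w.adicCompletion L)).comp (algebraMap k L))
      ![θ w (x ⟨vb w, hw⟩ a), y w] (F a) = 0)
    (N : ℕ) (hN : 1 ≤ N) (G : ℕ → Lˣ)
    (hG : ∀ w, vb w ∉ S → ∀ n, 1 ≤ n → ∃ h : w.adicCompletion L, algebraMap L _ (G n : L) * h ^ n = y w)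
    (hcont : ∀ v (hv : v ∉ S), v ∉ T → ∀ a ∈ A, ∀ z : v.adicCompletion k,
      Valued.v (x ⟨v, hv⟩ a) = Valued.v z ^ N → Valued.v (x ⟨v, hv⟩ a) ≤ 1) :
    ∃ T' : Finset (HeightOneSpectrum (𝓞 L)), ∀ w ∉ T', Valued.v (y w) = 1 := by
  classical
  let D : ℕ := ∑ a ∈ A, (F a).totalDegree
  have hD : ∀ a ∈ A, ∀ m ∈ (F a).support, m 0 ≤ D := by
    intro a ha m hm
    have h4 : m 0 ≤ (F a).totalDegree := by
      refine le_trans ?_ (MvPolynomial.le_totalDegree hm)
      by_cases h5 : m 0 = 0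
      · rw [h5]; exact Nat.zero_le _
      · exact Finset.single_le_sum (f := fun i => m i) (fun _ _ => Nat.zero_le _) (Finsupp.mem_support_iff.mpr h5)
    exact h4.trans (Finset.single_le_sum (f := fun a => (F a).totalDegree) (fun _ _ => Nat.zero_le _) ha)
  set n := N * ((Module.finrank k L).factorial * D.factorial) with hn
  have hn1 : 1 ≤ n := Nat.mul_pos hN (Nat.mul_pos (Nat.factorial_pos _) (Nat.factorial_pos _))
  -- the coefficients of the relations
  have hco : ∀ c : k, ∃ T₀ : Finset (HeightOneSpectrum (𝓞 L)), ∀ w ∉ T₀, c ≠ 0 →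
      w.valuation L (algebraMap k L c) = 1 := by
    intro c
    rcases eq_or_ne c 0 with h0 | h0
    · exact ⟨∅, fun w _ h => absurd h0 h⟩
    · have h4 : algebraMap k L c ≠ 0 := by rw [_root_.map_ne_zero]; exact h0
      refine ⟨(finite_val_ne_one h4).toFinset, fun w hw _ => ?_⟩
      rwa [Set.Finite.mem_toFinset, Set.mem_ofPred_eq, not_not] at hw
  choose Tc hTc using hco
  let T₁ : Finset (HeightOneSpectrum (𝓞 L)) := A.biUnion fun a => (F a).support.biUnion fun m => Tc ((F a).coeff m)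
  choose! Ta hTa using fun (c : R) (hc : c ∈ Algebra.adjoin k (A : Set R)) => exists_le_one_adjoin (A : Set R) c hc
  let T₂ : Finset (HeightOneSpectrum (𝓞 k)) := (Finset.range (P₁.natDegree + 1)).biUnion (fun i => Ta (P₁.coeff i)) ∪
    (Finset.range (P₂.natDegree + 1)).biUnion (fun i => Ta (P₂.coeff i))
  refine ⟨(finite_above (F := L) (S ∪ T ∪ T₂)).toFinset ∪ (finite_val_ne_one (G n).ne_zero).toFinset ∪ T₁,
    fun w hw => ?_⟩
  simp only [Finset.mem_union, Set.Finite.mem_toFinset, Set.mem_ofPred_eq, not_or, not_exists, not_and,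
    not_not] at hw
  obtain ⟨⟨hw1, hw2⟩, hw3⟩ := hw
  have hS : vb w ∉ S := fun h => hw1 (vb w) (Or.inl (Or.inl h)) (hvb w)
  have hT : vb w ∉ T := fun h => hw1 (vb w) (Or.inl (Or.inr h)) (hvb w)
  have hT₂ : vb w ∉ T₂ := fun h => hw1 (vb w) (Or.inr h) (hvb w)
  obtain ⟨h, hh⟩ := hG w hS n hn1
  by_contra hne
  set V : Valuation (w.adicCompletion L) ℤᵐ⁰ := Valued.v with hV
  have hy0 := hy w hS
  -- the functions have no pole
  have hpole : ∀ a ∈ A, (Valued.v (x ⟨vb w, hS⟩ a) : ℤᵐ⁰) ≤ 1 := by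
    intro a ha
    by_contra hgt
    push Not at hgt
    have hx : 1 < V (θ w (x ⟨vb w, hS⟩ a)) := by
      rw [hV, hθ]
      refine one_lt_pow₀ hgt ?_
      exact Ideal.IsDedekindDomain.ramificationIdx'_ne_zero_of_liesOver w.asIdeal (vb w).ne_bot
    have hx0 : θ w (x ⟨vb w, hS⟩ a) ≠ 0 := by
      intro h0
      rw [h0, map_zero] at hx
      exact not_lt_zero hx
    set f : k →+* w.adicCompletion L := (algebraMap L (w.adicCompletion L)).comp (algebraMap k L) with hf
    have hrel := h3 a ha w hS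
    rw [MvPolynomial.eval₂_eq'] at hrel
    have hcoef : ∀ m ∈ (F a).support, V (f ((F a).coeff m)) = 1 := by
      intro m hm
      change Valued.v (algebraMap L (w.adicCompletion L) (algebraMap k L _)) = _
      rw [val_alg]
      refine hTc _ w (fun h4 => hw3 ?_) (MvPolynomial.mem_support_iff.mp hm)
      exact Finset.mem_biUnion.mpr ⟨a, ha, Finset.mem_biUnion.mpr ⟨m, hm, h4⟩⟩
    have hterm : ∀ m : Fin 2 →₀ ℕ, ∏ i, ![θ w (x ⟨vb w, hS⟩ a), y w] i ^ m i =
        θ w (x ⟨vb w, hS⟩ a) ^ m 0 * y w ^ m 1 := by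
      intro m
      rw [Fin.prod_univ_two]
      rfl
    obtain ⟨m₀, hm₀⟩ := MvPolynomial.support_nonempty.mpr (hF a ha)
    obtain ⟨m, hm, m', hm', hmm', hval, -⟩ := exists_two_max V (F a).support _ hrel m₀ hm₀ (by
      rw [hterm]
      refine mul_ne_zero ?_ (mul_ne_zero (pow_ne_zero _ hx0) (pow_ne_zero _ hy0))
      intro h4
      have h5 := hcoef m₀ hm₀
      rw [h4, map_zero] at h5
      exact zero_ne_one h5)
    rw [hterm, hterm, map_mul, map_mul, map_mul, map_mul, hcoef m hm, hcoef m' hm', one_mul, one_mul, map_pow,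
      map_pow, map_pow, map_pow] at hval
    refine false_of_monomials (vb w) w (hvb w) (θ w) (hθ w) (x ⟨vb w, hS⟩ a) (y w) hy0 hne hx N D (G n : L) hw2 h hh
      (hcont (vb w) hS hT a ha) (m 0) (m 1) (m' 0) (m' 1) (fun h4 => hmm' ?_) (hD a ha m hm) (hD a ha m' hm') hval
    ext i
    fin_cases i
    · exact h4.1
    · exact h4.2
  -- integrality
  have hmon : ∀ (P : R[X]), P.Monic → (∀ i, P.coeff i ∈ Algebra.adjoin k (A : Set R)) →
      (∀ i ∈ Finset.range (P.natDegree + 1), vb w ∉ Ta (P.coeff i)) → ∀ b : w.adicCompletion L,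
      P.eval₂ ((θ w).comp (x ⟨vb w, hS⟩ : R →+* (vb w).adicCompletion k)) b = 0 → V b ≤ 1 := by
    intro P hm hc hTP b hb
    have hle : ∀ i ∈ Finset.range (P.natDegree + 1), V (θ w (x ⟨vb w, hS⟩ (P.coeff i))) ≤ 1 := by
      intro i hi
      rw [hV, hθ]
      exact pow_le_one' (hTa _ (hc i) (vb w) (hTP i hi) (x ⟨vb w, hS⟩) hpole) _
    rw [eval₂_eq_sum_range] at hb
    refine le_one_of_sum V (fun i => θ w (x ⟨vb w, hS⟩ (P.coeff i))) P.natDegree b
      (fun j hj => hle j (Finset.mem_range.mpr (by omega))) ?_ hb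
    have h4 : P.coeff P.natDegree = 1 := hm
    rw [h4, map_one, map_one, map_one]
  have hT₂' : (∀ i ∈ Finset.range (P₁.natDegree + 1), vb w ∉ Ta (P₁.coeff i)) ∧
      ∀ i ∈ Finset.range (P₂.natDegree + 1), vb w ∉ Ta (P₂.coeff i) := by
    refine ⟨fun i hi h4 => hT₂ ?_, fun i hi h4 => hT₂ ?_⟩
    · exact Finset.mem_union_left _ (Finset.mem_biUnion.mpr ⟨i, hi, h4⟩)
    · exact Finset.mem_union_right _ (Finset.mem_biUnion.mpr ⟨i, hi, h4⟩)
  have e1 := hmon P₁ hP₁ hc₁ hT₂'.1 (y w) (h1 w hS)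
  have e2 := hmon P₂ hP₂ hc₂ hT₂'.2 (y w)⁻¹ (h2 w hS)
  rw [map_inv₀] at e2
  have h5 : V (y w) ≠ 0 := (Valuation.ne_zero_iff _).mpr hy0
  exact hne (le_antisymm e1 ((inv_le_one₀ (zero_lt_iff.mpr h5)).mp e2))

end Pool.Agent.Lib.MP_2f3286_ag.PA
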