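import Pool.Agent.Lib.MP_2f3286_ag.PA.UBiv

/-!
# A primitive relation between a nonconstant unit and a function
-/

open Polynomial

namespace Pool.Agent.Lib.MP_2f3286_ag.PA

theorem biv_swap {k A : Type*} [CommRing k] [CommRing A] (f : k →+* A) (a b : A) (P : k[X][X]) :
    biv f b a (Polynomial.Bivariate.swap P) = biv f a b P := by
  have h : (eval₂RingHom (eval₂RingHom f b) a).comp
      ((Polynomial.Bivariate.swap (R := k) : k[X][X] ≃ₐ[k] k[X][X]) : k[X][X] →+* k[X][X]) =
      eval₂RingHom (eval₂RingHom f a) b := by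
    refine Polynomial.ringHom_ext (fun c => ?_) ?_
    · induction c using Polynomial.induction_on with
      | C a => simp [Polynomial.Bivariate.swap_C_C]
      | add p q hp hq => simp only [map_add, hp, hq]
      | monomial n a h => simp [Polynomial.Bivariate.swap_C_C, Polynomial.Bivariate.swap_X, eval₂_pow]
    · simp [Polynomial.Bivariate.swap_Y]
  exact congrArg (fun g : k[X][X] →+* A => g P) h

theorem exists_prim_rel {k kb M : Type*} [Field k] [Field kb] [Field M] [Algebra k kb] [Algebra k M]
    [Algebra.IsAlgebraic k kb] (a b : M) (P : k[X][X]) (hP : P ≠ 0)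
    (h : biv (algebraMap k M) a b P = 0) (hb : ¬ IsAlgebraic k b) :
    ∃ Q : k[X][X], biv (algebraMap k M) b a Q = 0 ∧
      ∀ ε : kb, Q.map (eval₂RingHom (algebraMap k kb) ε) ≠ 0 := by
  classical
  let _ : NormalizedGCDMonoid k[X] := UniqueFactorizationMonoid.toNormalizedGCDMonoid k[X]
  set S := Polynomial.Bivariate.swap (R := k) P with hS
  have hS0 : S ≠ 0 := by
    rw [hS, Ne, EmbeddingLike.map_eq_zero_iff]
    exact hP
  have hSr : biv (algebraMap k M) b a S = 0 := by rw [hS, biv_swap, h]
  have hc0 : S.content ≠ 0 := by rw [Ne, content_eq_zero_iff]; exact hS0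
  refine ⟨S.primPart, ?_, fun ε hε => ?_⟩
  · have h1 : biv (algebraMap k M) b a (C S.content * S.primPart) = 0 := by
      rw [← S.eq_C_content_mul_primPart]; exact hSr
    unfold biv at h1 ⊢
    rw [eval₂_mul, eval₂_C] at h1
    rcases mul_eq_zero.mp h1 with h2 | h2
    · exact absurd ⟨S.content, hc0, h2⟩ hb
    · exact h2
  · have hint : IsIntegral k ε := Algebra.IsIntegral.isIntegral ε
    have h1 : C (minpoly k ε) ∣ S.primPart := by
      rw [C_dvd_iff_dvd_coeff]
      intro i
      refine minpoly.dvd k ε ?_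
      have h2 := congrArg (fun T : kb[X] => T.coeff i) hε
      simp only [coeff_map, coeff_zero] at h2
      exact h2
    exact minpoly.not_isUnit k ε ((isPrimitive_primPart S) _ h1)

end Pool.Agent.Lib.MP_2f3286_ag.PA
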