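import Mathlib
import Pool.Agent.Lib.MP_2f3286_ag.Local

/-!
# Rational numbers of even valuation at all primes
-/

open IsDedekindDomain NumberField

namespace Pool.Agent.Lib.MP_2f3286_ag.PA

variable {k : Type*} [Field k] [NumberField k]

/-- the place of a prime number, for a number field with ring of integers `ℤ` -/
noncomputable def placeOf (E : 𝓞 k ≃+* ℤ) (q : ℕ) (hq : q.Prime) : HeightOneSpectrum (𝓞 k) where
  asIdeal := Ideal.span {(q : 𝓞 k)}
  isPrime := by
    have h0 : (q : 𝓞 k) ≠ 0 := Nat.cast_ne_zero.mpr hq.ne_zero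
    rw [Ideal.span_singleton_prime h0]
    rw [← MulEquiv.prime_iff (E : 𝓞 k ≃* ℤ)]
    have h1 : (E : 𝓞 k ≃* ℤ) (q : 𝓞 k) = (q : ℤ) := by
      exact map_natCast E q
    rw [h1]
    exact Nat.prime_iff_prime_int.mp hq
  ne_bot := by
    rw [Ne, Ideal.span_singleton_eq_bot]
    exact Nat.cast_ne_zero.mpr hq.ne_zero

theorem not_square_val (E : 𝓞 k ≃+* ℤ) (a : ℕ) (ha : Squarefree a) (q : ℕ) (hq : q.Prime) (hqa : q ∣ a)
    (g : WithZero (Multiplicative ℤ))
    (h : (placeOf E q hq).valuation k (a : k) = g ^ 2) : False := by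
  have h1 : (placeOf E q hq).valuation k (a : k) = (placeOf E q hq).intValuation (a : 𝓞 k) := by
    have h3 : algebraMap (𝓞 k) k (a : 𝓞 k) = (a : k) := map_natCast _ a
    rw [← h3]
    exact (placeOf E q hq).valuation_of_algebraMap (K := k) (a : 𝓞 k)
  have hmem : (a : 𝓞 k) ∈ (placeOf E q hq).asIdeal := by
    change (a : 𝓞 k) ∈ Ideal.span {(q : 𝓞 k)}
    rw [Ideal.mem_span_singleton]
    exact_mod_cast (Nat.cast_dvd_cast hqa : (q : 𝓞 k) ∣ (a : 𝓞 k))
  have h2 : (placeOf E q hq).intValuation (a : 𝓞 k) < 1 :=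
    ((placeOf E q hq).intValuation_lt_one_iff_mem _).mpr hmem
  have hg1 : g < 1 := by
    by_contra hg
    rw [not_lt] at hg
    have h3 : (1 : WithZero (Multiplicative ℤ)) ≤ g ^ 2 := one_le_pow₀ hg
    rw [← h, h1] at h3
    exact absurd h2 (not_lt.mpr h3)
  have hg2 : g ≤ WithZero.exp (-1 : ℤ) := by
    rcases eq_or_ne g 0 with rfl | hg0
    · exact zero_le
    · obtain ⟨n, hn⟩ : ∃ n : ℤ, g = WithZero.exp n := ⟨WithZero.log g, (WithZero.exp_log hg0).symm⟩
      rw [hn] at hg1 ⊢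
      rw [← WithZero.exp_zero, WithZero.exp_lt_exp] at hg1
      rw [WithZero.exp_le_exp]
      omega
  have h3 : (placeOf E q hq).intValuation (a : 𝓞 k) ≤ WithZero.exp (-((2 : ℕ) : ℤ)) := by
    rw [← h1, h]
    calc g ^ 2 ≤ (WithZero.exp (-1 : ℤ)) ^ 2 := pow_le_pow_left₀ zero_le hg2 2
      _ = WithZero.exp (-((2 : ℕ) : ℤ)) := by
        rw [← WithZero.exp_nsmul]
        norm_num
  rw [(placeOf E q hq).intValuation_le_pow_iff_mem] at h3
  change (a : 𝓞 k) ∈ (Ideal.span {(q : 𝓞 k)}) ^ 2 at h3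
  rw [Ideal.span_singleton_pow, Ideal.mem_span_singleton] at h3
  have h4 : ((q : ℤ)) ^ 2 ∣ (a : ℤ) := by
    have h5 := map_dvd E h3
    rw [map_pow, map_natCast, map_natCast] at h5
    exact h5
  have h5 : q * q ∣ a := by
    have h6 : ((q * q : ℕ) : ℤ) ∣ (a : ℤ) := by
      rw [Nat.cast_mul, ← pow_two]; exact h4
    exact_mod_cast h6
  have h6 := ha q h5
  rw [Nat.isUnit_iff] at h6
  exact hq.one_lt.ne' h6

/-- A rational number whose valuations are all squares is a square up to sign. -/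
theorem sq_or_neg_sq (E : 𝓞 k ≃+* ℤ) (d : ℚ) (hd : d ≠ 0)
    (h : ∀ v : HeightOneSpectrum (𝓞 k), ∃ e : v.adicCompletion k, e ≠ 0 ∧
      Valued.v (algebraMap k (v.adicCompletion k) (algebraMap ℚ k d)) = Valued.v e ^ 2) :
    ∃ e : ℚ, e ≠ 0 ∧ (d = e ^ 2 ∨ d = -e ^ 2) := by
  classical
  have hnum : d.num.natAbs ≠ 0 := Int.natAbs_ne_zero.mpr (Rat.num_ne_zero.mpr hd)
  obtain ⟨a, b, hab, ha⟩ := Nat.sq_mul_squarefree (d.num.natAbs * d.den)
  have hb0 : b ≠ 0 := by
    rintro rfl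
    rw [zero_pow two_ne_zero, zero_mul] at hab
    exact (Nat.mul_ne_zero hnum d.den_ne_zero) hab.symm
  have hden : (d.den : ℚ) ≠ 0 := Nat.cast_ne_zero.mpr d.den_ne_zero
  have hbq : (b : ℚ) ≠ 0 := Nat.cast_ne_zero.mpr hb0
  -- `|d| = a (b / den)²`
  have habs : |d| = a * ((b : ℚ) / d.den) ^ 2 := by
    have h1 : |d| = (d.num.natAbs : ℚ) / d.den := by
      conv_lhs => rw [← Rat.num_div_den d]
      rw [abs_div, Nat.abs_cast]
      congr 1
      rw [Nat.cast_natAbs, Int.cast_abs]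
    have h2 : ((b : ℚ) ^ 2 * a) = d.num.natAbs * d.den := by exact_mod_cast hab
    rw [h1, div_pow]
    field_simp
    linarith
  have ha1 : a = 1 := by
    by_contra hne
    obtain ⟨q, hq, hqa⟩ := Nat.exists_prime_and_dvd hne
    obtain ⟨e, he, hv⟩ := h (placeOf E q hq)
    let c : (placeOf E q hq).adicCompletion k := algebraMap k _ (algebraMap ℚ k ((b : ℚ) / d.den))
    have hc0 : c ≠ 0 := (map_ne_zero _).mpr ((map_ne_zero _).mpr (div_ne_zero hbq hden))
    have hv1 : Valued.v (algebraMap k ((placeOf E q hq).adicCompletion k) (algebraMap ℚ k |d|)) =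
        Valued.v (algebraMap k ((placeOf E q hq).adicCompletion k) (algebraMap ℚ k d)) := by
      rcases abs_choice d with h1 | h1
      · rw [h1]
      · rw [h1, map_neg, map_neg, Valuation.map_neg]
    have hv2 : Valued.v (algebraMap k ((placeOf E q hq).adicCompletion k) (a : k)) =
        (Valued.v (e / c)) ^ 2 := by
      have h1 : algebraMap k ((placeOf E q hq).adicCompletion k) (algebraMap ℚ k |d|) =
          algebraMap k ((placeOf E q hq).adicCompletion k) (a : k) * c ^ 2 := by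
        rw [habs, map_mul, map_pow, map_mul, map_pow, map_natCast (algebraMap ℚ k)]
      rw [h1, map_mul, hv, map_pow] at hv1
      have hvc : Valued.v c ≠ 0 := (Valuation.ne_zero_iff _).mpr hc0
      rw [map_div₀, div_pow, eq_div_iff (pow_ne_zero 2 hvc)]
      exact hv1
    rw [val_alg] at hv2
    exact not_square_val E a ha q hq hqa _ hv2
  refine ⟨(b : ℚ) / d.den, div_ne_zero hbq hden, ?_⟩
  rw [ha1, Nat.cast_one, one_mul] at habs
  rcases abs_choice d with h1 | h1
  · left; rw [← habs, h1]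
  · right; rw [← habs, h1, neg_neg]

/-- a number field of degree one -/
theorem exists_equiv_int (hk : Module.finrank ℚ k = 1) :
    Nonempty (𝓞 k ≃+* ℤ) ∧ ∀ a : k, ∃ q : ℚ, algebraMap ℚ k q = a := by
  have h1 : Function.Surjective (algebraMap ℚ k) := by
    have h2 := Subalgebra.bot_eq_top_of_finrank_eq_one hk
    intro a
    have h3 : a ∈ (⊥ : Subalgebra ℚ k) := by rw [h2]; trivial
    exact Algebra.mem_bot.mp h3
  refine ⟨⟨?_⟩, h1⟩
  let e : ℚ ≃+* k := RingEquiv.ofBijective (algebraMap ℚ k) ⟨(algebraMap ℚ k).injective, h1⟩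
  exact (RingOfIntegers.mapRingEquiv e.symm).trans Rat.ringOfIntegersEquiv

end Pool.Agent.Lib.MP_2f3286_ag.PA
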