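import Pool.Agent.Lib.MP_2f3286_ag.PA.Contact
import Mathlib

/-!
# Rational numbers with even valuations, and the local step
-/

open IsDedekindDomain NumberField Polynomial WithZero

namespace Pool.Agent.Lib.MP_2f3286_ag.PA

/-- the place of a prime number -/
theorem exists_place_of_prime {k : Type*} [Field k] [NumberField k]
    (hk : Function.Surjective (algebraMap ℚ k)) (p : ℕ) (hp : p.Prime) :
    ∃ v : HeightOneSpectrum (𝓞 k), v.valuation k (p : k) = exp (-1 : ℤ) ∧
      ∀ n : ℕ, ¬ p ∣ n → v.valuation k (n : k) = 1 := by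
  let f : ℚ ≃+* k := RingEquiv.ofBijective (algebraMap ℚ k) ⟨(algebraMap ℚ k).injective, hk⟩
  let e : 𝓞 k ≃+* ℤ := (NumberField.RingOfIntegers.mapRingEquiv f).symm.trans Rat.ringOfIntegersEquiv
  have he : ∀ n : ℕ, e (n : 𝓞 k) = n := fun n => map_natCast e n
  have hprime : Prime (p : 𝓞 k) := by
    rw [← MulEquiv.prime_iff e.toMulEquiv]
    change Prime (e (p : 𝓞 k))
    rw [he]
    exact Nat.prime_iff_prime_int.mp hp
  have hp0 : (p : 𝓞 k) ≠ 0 := hprime.ne_zero
  let v : HeightOneSpectrum (𝓞 k) :=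
    ⟨Ideal.span {(p : 𝓞 k)}, (Ideal.span_singleton_prime hp0).mpr hprime, by
      rw [ne_eq, Ideal.span_singleton_eq_bot]; exact hp0⟩
  have hcast : ∀ n : ℕ, ((n : 𝓞 k) : k) = n := fun n => map_natCast (algebraMap (𝓞 k) k) n
  refine ⟨v, ?_, fun n hn => ?_⟩
  · rw [← hcast, HeightOneSpectrum.valuation_of_algebraMap]
    exact v.intValuation_singleton hp0 rfl
  · rw [← hcast, HeightOneSpectrum.valuation_eq_one_iff_notMem]
    intro h
    have h1 : (p : 𝓞 k) ∣ n := Ideal.mem_span_singleton.mp h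
    apply hn
    have h2 := map_dvd e h1
    rw [he, he] at h2
    exact Int.natCast_dvd_natCast.mp h2

theorem exists_sq_or_neg_sq {k : Type*} [Field k] [NumberField k]
    (hk : Function.Surjective (algebraMap ℚ k)) (a : k) (ha : a ≠ 0)
    (h : ∀ v : HeightOneSpectrum (𝓞 k), ∃ g : ℤᵐ⁰, v.valuation k a = g ^ 2) :
    ∃ b : k, a = b ^ 2 ∨ a = -b ^ 2 := by
  obtain ⟨q, rfl⟩ := hk a
  have hq0 : q ≠ 0 := by rintro rfl; exact ha (map_zero _)
  have hd0 : (q.den : ℚ) ≠ 0 := by exact_mod_cast q.den_nz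
  -- the integer
  let m : ℕ := q.num.natAbs * q.den
  have hm0 : m ≠ 0 := Nat.mul_ne_zero (by rw [Int.natAbs_ne_zero]; exact Rat.num_ne_zero.mpr hq0) q.den_nz
  have hm : q * (q.den : ℚ) ^ 2 = m ∨ q * (q.den : ℚ) ^ 2 = -m := by
    have h1 : q * (q.den : ℚ) ^ 2 = q.num * q.den := by
      rw [pow_two, ← mul_assoc, Rat.mul_den_eq_num]
    rw [h1]
    rcases Int.natAbs_eq q.num with h2 | h2
    · left
      have h3 : (q.num : ℚ) = (q.num.natAbs : ℚ) := by
        rw [← Int.cast_natCast (R := ℚ), ← h2]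
      rw [h3, ← Nat.cast_mul]
    · right
      have h3 : (q.num : ℚ) = -(q.num.natAbs : ℚ) := by
        rw [← Int.cast_natCast (R := ℚ), ← Int.cast_neg, ← h2]
      rw [h3, neg_mul, ← Nat.cast_mul]
  obtain ⟨s, t, hst, hs⟩ := Nat.sq_mul_squarefree m
  have ht0 : (t : ℚ) ≠ 0 := by
    intro h0
    have h1 : t = 0 := by exact_mod_cast h0
    rw [h1] at hst
    simp at hst
    exact hm0 hst.symm
  have hs1 : s = 1 := by
    by_contra hne
    obtain ⟨p, hp, hps⟩ := Nat.exists_prime_and_dvd hne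
    obtain ⟨s', hs'⟩ := hps
    have hps' : ¬ p ∣ s' := by
      intro h1
      obtain ⟨s'', hs''⟩ := h1
      have h2 := hs p ⟨s'', by rw [hs', hs'']; ring⟩
      exact hp.one_lt.ne' (Nat.isUnit_iff.mp h2)
    obtain ⟨v, hv1, hv2⟩ := exists_place_of_prime hk p hp
    obtain ⟨g, hg⟩ := h v
    have h1 : v.valuation k (algebraMap ℚ k q) * v.valuation k (algebraMap ℚ k q.den) ^ 2 =
        v.valuation k (m : k) := by
      rw [← map_pow, ← map_mul, ← map_pow, ← map_mul]
      rcases hm with h2 | h2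
      · rw [h2, map_natCast]
      · rw [h2, map_neg, Valuation.map_neg, map_natCast]
    have h2 : v.valuation k (m : k) = exp (-1 : ℤ) * v.valuation k (t : k) ^ 2 := by
      rw [← hst, hs']
      push_cast
      rw [map_mul, map_mul, map_pow, hv1, hv2 s' hps', mul_one, mul_comm]
    have h3 : v.valuation k (t : k) ≠ 0 := by
      rw [Valuation.ne_zero_iff]
      intro h0
      apply ht0
      apply (algebraMap ℚ k).injective
      rw [map_natCast, h0, map_zero]
    have h4 : exp (-1 : ℤ) = (g * v.valuation k (algebraMap ℚ k q.den) / v.valuation k (t : k)) ^ 2 := by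
      rw [div_pow, mul_pow, ← hg, h1, h2, mul_div_cancel_right₀ _ (pow_ne_zero 2 h3)]
    have h5 := congrArg log h4
    rw [log_exp, log_pow, nsmul_eq_mul] at h5
    have h6 : (-1 : ℤ) = 2 * log (g * v.valuation k (algebraMap ℚ k q.den) / v.valuation k (t : k)) := h5
    omega
  rw [hs1, mul_one] at hst
  refine ⟨algebraMap ℚ k (t / q.den), ?_⟩
  have hmt : (m : ℚ) = (t : ℚ) ^ 2 := by
    rw [← hst]; push_cast; rfl
  rcases hm with h2 | h2
  · left
    rw [← map_pow, div_pow, ← hmt, ← h2, mul_div_cancel_right₀ _ (pow_ne_zero 2 hd0)]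
  · right
    rw [← map_pow, div_pow, ← hmt, ← map_neg]
    congr 1
    rw [eq_neg_iff_add_eq_zero]
    field_simp
    linear_combination h2

/-- the valuations of integers -/
theorem val_int_le {k : Type*} [Field k] [NumberField k] (v : HeightOneSpectrum (𝓞 k)) (n : ℤ) :
    Valued.v (n : v.adicCompletion k) ≤ 1 := by
  have h1 : (n : v.adicCompletion k) = algebraMap k _ (algebraMap (𝓞 k) k (n : 𝓞 k)) := by
    rw [map_intCast, map_intCast]
  rw [h1, val_alg]
  exact v.valuation_le_one _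

/-- the local step -/
theorem even_of_local {k : Type*} [Field k] [NumberField k] (v : HeightOneSpectrum (𝓞 k))
    (P Q A B : ℤ[X]) (hAB : A * P + B * Q = 1) (hQ : Q.Monic) (hQe : Even Q.natDegree)
    (x Z Z' : v.adicCompletion k) (a : k) (ha : a ≠ 0)
    (h1 : Q.eval₂ (Int.castRingHom _) x = algebraMap k _ a * Z ^ 2)
    (h2 : P.eval₂ (Int.castRingHom _) x = algebraMap k _ a * Z' ^ 2) :
    ∃ g : ℤᵐ⁰, v.valuation k a = g ^ 2 := by
  have ha0 : v.valuation k a ≠ 0 := (Valuation.ne_zero_iff _).mpr ha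
  have hsol : ∀ (r : ℤᵐ⁰) (z : v.adicCompletion k), r ≠ 0 → r ^ 2 = v.valuation k a * Valued.v z ^ 2 →
      ∃ g : ℤᵐ⁰, v.valuation k a = g ^ 2 := by
    intro r z hr h
    have hz : Valued.v z ≠ 0 := by
      intro h0
      rw [h0, zero_pow two_ne_zero, mul_zero] at h
      exact pow_ne_zero 2 hr h
    refine ⟨r / Valued.v z, ?_⟩
    rw [div_pow, h, mul_div_cancel_right₀ _ (pow_ne_zero 2 hz)]
  have hcoef : ∀ (S : ℤ[X]) (i : ℕ), Valued.v ((S.map (Int.castRingHom (v.adicCompletion k))).coeff i) ≤ 1 := by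
    intro S i
    rw [coeff_map]
    exact val_int_le v _
  rcases lt_or_ge 1 (Valued.v x) with hx | hx
  · have h3 := val_eval_of_gt Valued.v (Q.map (Int.castRingHom (v.adicCompletion k))) (hcoef Q)
      (by rw [(hQ.map _).leadingCoeff, map_one]) x hx
    rw [eval_map, h1, map_mul, map_pow, val_alg, hQ.natDegree_map] at h3
    obtain ⟨m, hm⟩ := hQe
    refine hsol (Valued.v x ^ m) Z (pow_ne_zero _ ?_) ?_
    · intro h0
      rw [h0] at hx
      exact not_lt_zero hx
    · rw [h3, hm, ← pow_mul]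
      congr 1
      ring
  · have hle : ∀ S : ℤ[X], Valued.v (S.eval₂ (Int.castRingHom (v.adicCompletion k)) x) ≤ 1 := by
      intro S
      have h3 := val_eval_of_le Valued.v (S.map (Int.castRingHom (v.adicCompletion k))) (hcoef S) x hx
      rw [eval_map] at h3
      exact h3
    have h3 : Valued.v (Q.eval₂ (Int.castRingHom (v.adicCompletion k)) x) = 1 ∨
        Valued.v (P.eval₂ (Int.castRingHom (v.adicCompletion k)) x) = 1 := by
      by_contra hcon
      push Not at hcon
      have h4 := lt_of_le_of_ne (hle Q) hcon.1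
      have h5 := lt_of_le_of_ne (hle P) hcon.2
      have h6 := congrArg (fun S : ℤ[X] => Valued.v (S.eval₂ (Int.castRingHom (v.adicCompletion k)) x)) hAB
      simp only [eval₂_add, eval₂_mul, eval₂_one, map_one] at h6
      have h7 : Valued.v (A.eval₂ (Int.castRingHom (v.adicCompletion k)) x *
          P.eval₂ (Int.castRingHom (v.adicCompletion k)) x +
          B.eval₂ (Int.castRingHom (v.adicCompletion k)) x *
          Q.eval₂ (Int.castRingHom (v.adicCompletion k)) x) < 1 := by
        refine lt_of_le_of_lt (Valuation.map_add _ _ _) (max_lt ?_ ?_)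
        · rw [map_mul]
          exact lt_of_le_of_lt (mul_le_of_le_one_left' (hle A)) h5
        · rw [map_mul]
          exact lt_of_le_of_lt (mul_le_of_le_one_left' (hle B)) h4
      rw [h6] at h7
      exact lt_irrefl _ h7
    rcases h3 with h3 | h3
    · refine hsol 1 Z one_ne_zero ?_
      rw [one_pow, ← h3, h1, map_mul, map_pow, val_alg]
    · refine hsol 1 Z' one_ne_zero ?_
      rw [one_pow, ← h3, h2, map_mul, map_pow, val_alg]

end Pool.Agent.Lib.MP_2f3286_ag.PA
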