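import Pool.Agent.Lib.MP_2f3286_ag.PA.RealCase
import Pool.Agent.Lib.MP_2f3286_ag.PA.RatNum

/-!
# The class of the section over the rational numbers
-/

open IsDedekindDomain NumberField IntermediateField Polynomial

namespace Pool.Agent.Lib.MP_2f3286_ag.PA

universe u

section

variable {k : Type u} [Field k] [NumberField k]
    {K : Type*} [Field K] [Algebra k K]
    (R : Subalgebra k K)
    {M : Type*} [Field M] [Algebra K M]
    [Algebra (AlgebraicClosure k) M] [Algebra k M]
    [IsScalarTower k K M] [IsScalarTower k (AlgebraicClosure k) M]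

/-- an integer polynomial over the algebraic closure -/
noncomputable def intP (k : Type*) [Field k] (P : ℤ[X]) : (AlgebraicClosure k)[X] :=
  P.map (Int.castRingHom (AlgebraicClosure k))

/-- one infinite place -/
theorem card_bot (hk : Function.Surjective (algebraMap ℚ k)) :
    Nat.card (InfinitePlace (⊥ : IntermediateField k (AlgebraicClosure k))) = 1 := by
  classical
  have hnf : NumberField (⊥ : IntermediateField k (AlgebraicClosure k)) := NumberField.of_module_finite k _
  have h1 : Module.finrank ℚ (⊥ : IntermediateField k (AlgebraicClosure k)) = 1 := by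
    have h2 : Module.finrank ℚ k = 1 := by
      let f : ℚ ≃ₐ[ℚ] k := AlgEquiv.ofBijective (Algebra.ofId ℚ k) ⟨(algebraMap ℚ k).injective, hk⟩
      rw [← f.toLinearEquiv.finrank_eq, Module.finrank_self]
    have h3 := Module.finrank_mul_finrank ℚ k (⊥ : IntermediateField k (AlgebraicClosure k))
    rw [h2, IntermediateField.finrank_bot, mul_one] at h3
    exact h3.symm
  have h2 := InfinitePlace.card_add_two_mul_card_eq_rank (⊥ : IntermediateField k (AlgebraicClosure k))
  rw [h1] at h2
  have h3 := InfinitePlace.card_eq_nrRealPlaces_add_nrComplexPlaces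
    (⊥ : IntermediateField k (AlgebraicClosure k))
  rw [Nat.card_eq_fintype_card]
  omega

/-- the minus or the plus case -/
theorem rat_case (hk : Function.Surjective (algebraMap ℚ k))
    (s : Gal(AlgebraicClosure k/k) →* Gal(M/K)) (hs : Continuous s)
    (hsec : ∀ σ a, s σ (algebraMap (AlgebraicClosure k) M a) =
      algebraMap (AlgebraicClosure k) M (σ a))
    (ι : ∀ v : HeightOneSpectrum (𝓞 k),
      AlgebraicClosure k →ₐ[k] AlgebraicClosure (v.adicCompletion k))
    (φ : ∀ v : HeightOneSpectrum (𝓞 k),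
      integralClosure R M →+* AlgebraicClosure (v.adicCompletion k))
    (hφ : ∀ v, Respects s (v.adicCompletion k)
      (ι v : _ →+* AlgebraicClosure (v.adicCompletion k)) (φ v))
    (x y : R) (P Q A B : ℤ[X]) (hAB : A * P + B * Q = 1) (hQ : Q.Monic) (hQe : Even Q.natDegree)
    (hy : algebraMap R M y ^ 2 = evM R M x (intP k P) * evM R M x (intP k Q))
    (ξ₀ : M) (hξ0 : ξ₀ ≠ 0) (hξ : ξ₀ ^ 2 = evM R M x (intP k Q)) :
    (∀ τ : AlgebraicClosure k →+* ℂ, ∃ c : Gal(AlgebraicClosure k/k),
      (∀ a, τ (c a) = starRingEnd ℂ (τ a)) ∧ s c ξ₀ = -ξ₀) ∨ ∀ σ, s σ ξ₀ = ξ₀ := by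
  classical
  have hM2 : CharZero M := charZero_of_injective_algebraMap (algebraMap (AlgebraicClosure k) M).injective
  -- the function over `k`
  have hQK : ∀ S : ℤ[X], evM R M x (intP k S) = algebraMap K M (S.eval₂ (Int.castRingHom K) (x : K)) := by
    intro S
    rw [hom_eval₂]
    change eval₂ _ _ (S.map _) = _
    rw [eval₂_map]
    exact eval₂_congr (RingHom.ext_int _ _) rfl rfl
  have hη : (algebraMap R M y / ξ₀) ^ 2 = evM R M x (intP k P) := by
    rw [div_pow, hy, ← hξ, mul_div_cancel_right₀ _ (pow_ne_zero 2 hξ0)]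
  set η₀ : M := algebraMap R M y / ξ₀ with hη₀
  have hg0 : Q.eval₂ (Int.castRingHom K) (x : K) ≠ 0 := by
    intro h
    rw [hQK, h, map_zero] at hξ
    exact hξ0 (pow_eq_zero_iff two_ne_zero |>.mp hξ)
  obtain ⟨c, z, a, hc, hz, hza⟩ := exists_kummer s hs hsec (T := ξ₀) (n := 2) (by norm_num) hg0
    (by rw [hξ, hQK])
  -- the signs
  have hsq : ∀ σ, (s σ ξ₀) ^ 2 = ξ₀ ^ 2 := by
    intro σ
    rw [← map_pow, hξ, hQK, AlgEquiv.commutes]
  have hc1 : ∀ σ, (c σ : AlgebraicClosure k) ^ 2 = 1 := by
    intro σ
    apply (algebraMap (AlgebraicClosure k) M).injective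
    have h1 := hsq σ
    rw [hc, mul_pow] at h1
    rw [map_pow, map_one]
    exact mul_right_cancel₀ (pow_ne_zero 2 hξ0) (by rw [one_mul]; exact h1)
  have hcη : ∀ σ, s σ η₀ = algebraMap (AlgebraicClosure k) M (c σ) * η₀ := by
    intro σ
    have h1 : s σ (algebraMap R M y) = algebraMap R M y := AlgEquiv.commutes (s σ) (y : K)
    have h2 : algebraMap (AlgebraicClosure k) M (c σ) ≠ 0 := by
      rw [_root_.map_ne_zero]; exact (c σ).ne_zero
    have h3 : algebraMap (AlgebraicClosure k) M (c σ) ^ 2 = 1 := by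
      rw [← map_pow, hc1, map_one]
    rw [hη₀, map_div₀, h1, hc, div_eq_iff (mul_ne_zero h2 hξ0)]
    calc algebraMap R M y = 1 * (algebraMap R M y / ξ₀ * ξ₀) := by
          rw [one_mul, div_mul_cancel₀ _ hξ0]
      _ = algebraMap (AlgebraicClosure k) M (c σ) ^ 2 * (algebraMap R M y / ξ₀ * ξ₀) := by rw [h3]
      _ = _ := by ring
  have hint : ∀ (u : M) (S : ℤ[X]), u ^ 2 = evM R M x (intP k S) → IsIntegral R u := by
    intro u S hu
    refine IsIntegral.of_pow (n := 2) (by norm_num) ?_
    rw [hu, ← coe_evB]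
    exact (evB R x _).2
  -- the valuations of the class
  have hev : ∀ v : HeightOneSpectrum (𝓞 k), ∃ g, v.valuation k (a : k) = g ^ 2 := by
    intro v
    obtain ⟨xv, hxv⟩ := exists_local_point R s v (ι v) (φ v) (hφ v)
    have hchar : CharZero (v.adicCompletion k) := charZero_of_injective_algebraMap
      (algebraMap k (v.adicCompletion k)).injective
    have hιz : (ι v : AlgebraicClosure k →+* AlgebraicClosure (v.adicCompletion k))
        (z : AlgebraicClosure k) ≠ 0 := by
      rw [_root_.map_ne_zero]; exact z.ne_zero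
    have key : ∀ (u : M) (S : ℤ[X]) (hu : u ^ 2 = evM R M x (intP k S)),
        (∀ σ, s σ u = algebraMap (AlgebraicClosure k) M (c σ) * u) → u ≠ 0 ∨ u = 0 →
        ∃ Z : v.adicCompletion k, S.eval₂ (Int.castRingHom _) (xv x) =
          algebraMap k _ (a : k) * Z ^ 2 := by
      intro u S hu hcu _
      have hui := hint u S hu
      have hinj := (algebraMap (v.adicCompletion k) (AlgebraicClosure (v.adicCompletion k))).injective
      have hS : φ v ⟨u, hui⟩ ^ 2 = algebraMap _ _ (S.eval₂ (Int.castRingHom _) (xv x)) := by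
        have h2 : (⟨u, hui⟩ : integralClosure R M) ^ 2 = evB R x (intP k S) := by
          apply Subtype.ext
          rw [coe_evB, ← hu]
          rfl
        rw [← map_pow, h2, pt_evB R x _ (φ v) (hφ v).1, ← hxv, hom_eval₂, intP, eval₂_map]
        exact eval₂_congr (RingHom.ext_int _ _) rfl rfl
      by_cases hu0 : u = 0
      · refine ⟨0, ?_⟩
        rw [zero_pow two_ne_zero, mul_zero]
        apply hinj
        rw [← hS, map_zero]
        have h3 : (⟨u, hui⟩ : integralClosure R M) = 0 := Subtype.ext hu0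
        rw [h3, map_zero, zero_pow two_ne_zero]
      · have hL : ∀ b : (⊥ : IntermediateField k (AlgebraicClosure k)), ∃ w : v.adicCompletion k,
            algebraMap (v.adicCompletion k) (AlgebraicClosure (v.adicCompletion k)) w =
              (ι v : AlgebraicClosure k →+* AlgebraicClosure (v.adicCompletion k))
                (b : AlgebraicClosure k) := by
          intro b
          obtain ⟨b', hb'⟩ := IntermediateField.mem_bot.mp b.2
          refine ⟨algebraMap k _ b', ?_⟩
          rw [← hb', ← IsScalarTower.algebraMap_apply]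
          exact ((ι v).commutes b').symm
        obtain ⟨Z, hZ⟩ := quot_mem (B := integralClosure R M) s (fun a => const_int R a) (hφ v) ⊥ hL
          ⟨u, hui⟩ (fun σ _ => ⟨c σ, hcu σ⟩) z (fun σ _ ζ hζ => by
            have h3 : algebraMap (AlgebraicClosure k) M ζ = algebraMap _ M (c σ : AlgebraicClosure k) := by
              have h4 : s σ u = algebraMap (AlgebraicClosure k) M ζ * u := hζ
              rw [hcu σ] at h4
              exact (mul_right_cancel₀ hu0 h4).symm
            rw [(algebraMap (AlgebraicClosure k) M).injective h3]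
            exact (hz σ).symm)
        refine ⟨Z, ?_⟩
        apply hinj
        rw [← hS, map_mul, map_pow, hZ, div_pow]
        have h5 : algebraMap (v.adicCompletion k) (AlgebraicClosure (v.adicCompletion k))
            (algebraMap k _ (a : k)) = (ι v : _ →+* AlgebraicClosure (v.adicCompletion k))
              (z : AlgebraicClosure k) ^ 2 := by
          rw [← map_pow, hza, ← IsScalarTower.algebraMap_apply]
          exact ((ι v).commutes (a : k)).symm
        rw [h5, mul_div_cancel₀ _ (pow_ne_zero 2 hιz)]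
    obtain ⟨Z, hZ⟩ := key ξ₀ Q hξ hc (Or.inl hξ0)
    obtain ⟨Z', hZ'⟩ := key η₀ P hη hcη (em' _)
    exact even_of_local v P Q A B hAB hQ hQe (xv x) Z Z' a a.ne_zero hZ hZ'
  obtain ⟨b, hb⟩ := exists_sq_or_neg_sq hk (a : k) a.ne_zero hev
  rcases hb with hb | hb
  · right
    intro σ
    have h1 : (z : AlgebraicClosure k) ^ 2 = algebraMap k _ b ^ 2 := by rw [hza, hb, map_pow]
    have h2 : σ (z : AlgebraicClosure k) = z := by
      rcases sq_eq_sq_iff_eq_or_eq_neg.mp h1 with h | h
      · rw [h, AlgEquiv.commutes]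
      · rw [h, map_neg, AlgEquiv.commutes]
    have h3 : (c σ : AlgebraicClosure k) = 1 := by
      have h4 := hz σ
      rw [h2] at h4
      exact mul_right_cancel₀ z.ne_zero (by rw [one_mul]; exact h4)
    rw [hc, h3, map_one, one_mul]
  · left
    intro τ
    obtain ⟨γ, -, hγ⟩ := exists_conj (⊥ : IntermediateField k (AlgebraicClosure k)) τ (fun a => by
      obtain ⟨a', ha'⟩ := IntermediateField.mem_bot.mp a.2
      obtain ⟨q, rfl⟩ := hk a'
      rw [← ha', ← IsScalarTower.algebraMap_apply ℚ k (AlgebraicClosure k), eq_ratCast, map_ratCast,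
        map_ratCast])
    refine ⟨γ, hγ, ?_⟩
    obtain ⟨q, hq⟩ := hk b
    have h1 : τ (z : AlgebraicClosure k) ^ 2 = ((-(q ^ 2 : ℚ) : ℚ) : ℂ) := by
      rw [← map_pow, hza, hb, ← hq, ← map_pow, ← map_neg,
        ← IsScalarTower.algebraMap_apply ℚ k (AlgebraicClosure k), eq_ratCast, map_ratCast]
    have hq0 : q ≠ 0 := by
      rintro rfl
      rw [← hq, map_zero, zero_pow two_ne_zero, neg_zero] at hb
      exact a.ne_zero hb
    have h2 : starRingEnd ℂ (τ z) = -τ z := by
      refine (conj_of_sq_neg ?_ ?_).1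
      · rw [h1, map_ratCast]
      · rw [h1, Complex.ratCast_re]
        have h3 : (0 : ℝ) < (q : ℝ) ^ 2 := by positivity
        push_cast
        linarith
    have h3 : γ (z : AlgebraicClosure k) = -z := by
      apply τ.injective
      rw [hγ, h2, map_neg]
    have h4 : (c γ : AlgebraicClosure k) = -1 := by
      have h5 := hz γ
      rw [h3] at h5
      exact mul_right_cancel₀ z.ne_zero (by rw [neg_one_mul]; exact h5)
    rw [hc, h4, map_neg, map_one, neg_one_mul]

end

end Pool.Agent.Lib.MP_2f3286_ag.PA
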