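import Pool.Agent.Lib.MP_2f3286_ag.PA.Fin
import Pool.Agent.Lib.MP_2f3286_ag.PA.RatCase

/-!
# The cases
-/

open IsDedekindDomain NumberField IntermediateField Polynomial

namespace Pool.Agent.Lib.MP_2f3286_ag.PA

universe u

section

variable {k : Type u} [Field k] [NumberField k]
    {K : Type*} [Field K] [Algebra k K]
    (R : Subalgebra k K)
    {M : Type*} [Field M] [Algebra K M] [IsGalois K M]
    [Algebra (AlgebraicClosure k) M] [Algebra k M]
    [IsScalarTower k K M] [IsScalarTower k (AlgebraicClosure k) M]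

/-- the data of the criterion -/
def CritData (s : Gal(AlgebraicClosure k/k) →* Gal(M/K)) (x : R) : Prop :=
  ∃ (F : IntermediateField k (AlgebraicClosure k)) (_ : FiniteDimensional k F) (w : F[X]) (c₀ : F)
    (ξ : M), 0 < w.natDegree ∧ c₀ ≠ 0 ∧
      ξ ^ 2 = evM R M x (w.map (algebraMap F (AlgebraicClosure k))) ^ 2 -
        algebraMap (AlgebraicClosure k) M (c₀ : AlgebraicClosure k) ∧
      (MinusCase F s ξ ∨ PlusCase F s ξ)

omit [IsGalois K M] in
theorem crit_of_real (hmax : Pt.IsRadClosed R M (AlgebraicClosure k))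
    (s : Gal(AlgebraicClosure k/k) →* Gal(M/K))
    (hsec : ∀ σ a, s σ (algebraMap (AlgebraicClosure k) M a) =
      algebraMap (AlgebraicClosure k) M (σ a))
    (x y : R) (hx : Transcendental k (x : K))
    (F : IntermediateField k (AlgebraicClosure k)) [FiniteDimensional k F]
    (P Q w g : F[X]) (hw : 0 < w.natDegree) (c₀ : F) (hc₀ : c₀ ≠ 0)
    (hwg : w ^ 2 - C c₀ = Q * g ^ 2) (hPQ : IsCoprime P Q)
    (hy : algebraMap R M y ^ 2 = evM R M x (P.map (algebraMap F (AlgebraicClosure k))) *
      evM R M x (Q.map (algebraMap F (AlgebraicClosure k))))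
    (hreal : RealCond R (M := M) s x F P Q) : CritData R (M := M) s x := by
  have hQ0 : Q ≠ 0 := by
    rintro rfl
    rw [zero_mul, sub_eq_zero] at hwg
    have h1 := congrArg natDegree hwg
    rw [natDegree_pow, natDegree_C] at h1
    omega
  have hQ0' : Q.map (algebraMap F (AlgebraicClosure k)) ≠ 0 :=
    (Polynomial.map_ne_zero_iff (algebraMap F (AlgebraicClosure k)).injective).mpr hQ0
  obtain ⟨ξ₀, hξ₀⟩ := sqrt_coprime R hmax x hx _ _ (hPQ.map (mapRingHom (algebraMap F (AlgebraicClosure k))))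
    hQ0' (algebraMap R M y) hy
  have hξ₀' : ξ₀ ^ 2 = evM R M x (Q.map (algebraMap F (AlgebraicClosure k))) := hξ₀
  have hξ0 : ξ₀ ≠ 0 := by
    rintro rfl
    rw [zero_pow two_ne_zero] at hξ₀'
    exact evM_ne_zero R x hx hQ0' hξ₀'.symm
  refine ⟨F, inferInstance, w, c₀, evM R M x (g.map (algebraMap F (AlgebraicClosure k))) * ξ₀, hw, hc₀, ?_,
    Or.inl (minus_of_real R s hsec x y F P Q ξ₀ hξ0 hξ₀' hy hreal g)⟩
  have h1 := congrArg (fun S : F[X] => evM R M x (S.map (algebraMap F (AlgebraicClosure k)))) hwg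
  simp only [Polynomial.map_sub, Polynomial.map_mul, Polynomial.map_pow, map_C, map_sub, map_mul,
    map_pow, evM_C] at h1
  rw [mul_pow, hξ₀', mul_comm]
  exact h1.symm

omit [IsGalois K M] in
theorem crit_of_rat (hmax : Pt.IsRadClosed R M (AlgebraicClosure k))
    (hk : Function.Surjective (algebraMap ℚ k))
    (s : Gal(AlgebraicClosure k/k) →* Gal(M/K)) (hs : Continuous s)
    (hsec : ∀ σ a, s σ (algebraMap (AlgebraicClosure k) M a) =
      algebraMap (AlgebraicClosure k) M (σ a))
    (ι : ∀ v : HeightOneSpectrum (𝓞 k),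
      AlgebraicClosure k →ₐ[k] AlgebraicClosure (v.adicCompletion k))
    (φ : ∀ v : HeightOneSpectrum (𝓞 k),
      integralClosure R M →+* AlgebraicClosure (v.adicCompletion k))
    (hφ : ∀ v, Respects s (v.adicCompletion k)
      (ι v : _ →+* AlgebraicClosure (v.adicCompletion k)) (φ v))
    (x y : R) (hx : Transcendental k (x : K))
    (P Q A B : ℤ[X]) (w g : k[X]) (c₀ : k) (hw : 0 < w.natDegree) (hc₀ : c₀ ≠ 0)
    (hwg : w ^ 2 - C c₀ = Q.map (Int.castRingHom k) * g ^ 2)
    (hAB : A * P + B * Q = 1) (hQ : Q.Monic) (hQe : Even Q.natDegree)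
    (hy : algebraMap R M y ^ 2 = evM R M x (intP k P) * evM R M x (intP k Q)) :
    CritData R (M := M) s x := by
  have hQ0' : intP k Q ≠ 0 := (hQ.map _).ne_zero
  have hcop : IsCoprime (intP k P) (intP k Q) := by
    refine ⟨intP k A, intP k B, ?_⟩
    have h1 := congrArg (Polynomial.map (Int.castRingHom (AlgebraicClosure k))) hAB
    rw [Polynomial.map_add, Polynomial.map_mul, Polynomial.map_mul, Polynomial.map_one] at h1
    exact h1
  obtain ⟨ξ₀, hξ₀⟩ := sqrt_coprime R hmax x hx _ _ hcop hQ0' (algebraMap R M y) hy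
  have hξ0 : ξ₀ ≠ 0 := by
    rintro rfl
    rw [zero_pow two_ne_zero] at hξ₀
    exact evM_ne_zero R x hx hQ0' hξ₀.symm
  let F : IntermediateField k (AlgebraicClosure k) := ⊥
  have hmap : ∀ S : k[X], (S.map (algebraMap k F)).map (algebraMap F (AlgebraicClosure k)) =
      S.map (algebraMap k (AlgebraicClosure k)) := by
    intro S
    rw [Polynomial.map_map]
    rfl
  have hfixg : ∀ σ : Gal(AlgebraicClosure k/k), s σ (evM R M x (g.map (algebraMap k (AlgebraicClosure k)))) =
      evM R M x (g.map (algebraMap k (AlgebraicClosure k))) := by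
    intro σ
    have h1 := gal_evM R s hsec x σ F (by
      rw [IntermediateField.fixingSubgroup_bot]; trivial) (g.map (algebraMap k F))
    rw [hmap] at h1
    exact h1
  refine ⟨F, inferInstance, w.map (algebraMap k F), algebraMap k F c₀,
    evM R M x (g.map (algebraMap k (AlgebraicClosure k))) * ξ₀, by rw [natDegree_map]; exact hw,
    by rw [_root_.map_ne_zero]; exact hc₀, ?_, ?_⟩
  · rw [hmap]
    have h1 := congrArg (fun S : k[X] => evM R M x (S.map (algebraMap k (AlgebraicClosure k)))) hwg
    simp only [Polynomial.map_sub, Polynomial.map_mul, Polynomial.map_pow, map_C, map_sub, map_mul,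
      map_pow, evM_C, Polynomial.map_map] at h1
    have h2 : (algebraMap k (AlgebraicClosure k)).comp (Int.castRingHom k) =
        Int.castRingHom (AlgebraicClosure k) := RingHom.ext_int _ _
    rw [h2] at h1
    rw [mul_pow, hξ₀, mul_comm]
    exact h1.symm
  · rcases rat_case R hk s hs hsec ι φ hφ x y P Q A B hAB hQ hQe hy ξ₀ hξ0 hξ₀ with h | h
    · left
      intro τ
      obtain ⟨c, hc, hcξ⟩ := h τ
      refine ⟨c, by rw [IntermediateField.fixingSubgroup_bot]; trivial, hc, ?_⟩
      rw [map_mul, hfixg, hcξ, mul_neg]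
    · right
      refine ⟨card_bot hk, fun σ _ => ?_⟩
      rw [map_mul, hfixg, h]

/-- the functions in the ring generated by `x` and `y` are sums of units -/
theorem adjoin_mem (hmax : Pt.IsRadClosed R M (AlgebraicClosure k))
    (s : Gal(AlgebraicClosure k/k) →* Gal(M/K)) (x y : R) (hx : Transcendental k (x : K))
    (hcrit : CritData R (M := M) s x) (S : (AlgebraicClosure k)[X])
    (hy : algebraMap R M y ^ 2 = evM R M x S)
    (hR : (R : Set K) ⊆ Algebra.adjoin k {(x : K), (y : K)}) (r : R) :
    algebraMap R M r ∈ Subring.closure {b : M | IsIntegral R b ∧ IsIntegral R b⁻¹} := by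
  obtain ⟨F, _, w, c₀, ξ, hw, hc₀, hξ, -⟩ := hcrit
  have hc₀' : (c₀ : AlgebraicClosure k) ≠ 0 := fun h => hc₀ (Subtype.ext h)
  obtain ⟨β₁, β₂, z₁, z₂, hne, h1, h2⟩ := exists_two_sqrt R hmax x hx
    (w.map (algebraMap F (AlgebraicClosure k))) (by rw [natDegree_map]; exact hw) _ hc₀' ξ hξ
  have hxU := x_mem R x β₁ β₂ hne z₁ z₂ h1 h2
  have hyU : algebraMap R M y ∈ unitRing R M := by
    by_cases hS : S = 0
    · have h3 : algebraMap R M y = 0 := by
        rw [hS, map_zero] at hy
        exact pow_eq_zero_iff two_ne_zero |>.mp hy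
      rw [h3]
      exact zero_mem _
    · exact y_mem R hmax x hx S hS (algebraMap R M y) hy β₁ β₂ hne z₁ z₂ h1 h2
  have key : ∀ b : K, b ∈ Algebra.adjoin k {(x : K), (y : K)} → algebraMap K M b ∈ unitRing R M := by
    intro b hb
    induction hb using Algebra.adjoin_induction with
    | mem b hb =>
      rcases hb with rfl | rfl
      · exact hxU
      · exact hyU
    | algebraMap a =>
      have h3 : algebraMap K M (algebraMap k K a) =
          algebraMap (AlgebraicClosure k) M (algebraMap k (AlgebraicClosure k) a) := by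
        rw [← IsScalarTower.algebraMap_apply, ← IsScalarTower.algebraMap_apply]
      rw [h3]
      exact const_mem R _
    | add a b _ _ ha hb => rw [map_add]; exact add_mem ha hb
    | mul a b _ _ ha hb => rw [map_mul]; exact mul_mem ha hb
  exact key r (hR r.2)

end

end Pool.Agent.Lib.MP_2f3286_ag.PA
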