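import Pool.Agent.Lib.MP_2f3286_ag.PA.Val
import Pool.Agent.Lib.MP_2f3286_ag.LG
import Mathlib

/-!
# Local units from bounded contact
-/

open IsDedekindDomain NumberField Polynomial WithZero

namespace Pool.Agent.Lib.MP_2f3286_ag.PA

/-- the valuation of a value of a polynomial with integral coefficients and unit leading coefficient -/
theorem val_eval_of_gt {F : Type*} [Field F] (v : Valuation F ℤᵐ⁰) (P : F[X])
    (h1 : ∀ i, v (P.coeff i) ≤ 1) (h2 : v P.leadingCoeff = 1) (x : F) (hx : 1 < v x) :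
    v (P.eval x) = v x ^ P.natDegree := by
  rw [eval_eq_sum_range, Finset.sum_range_succ]
  have h3 : v (P.coeff P.natDegree * x ^ P.natDegree) = v x ^ P.natDegree := by
    rw [map_mul, map_pow]
    have h4 : v (P.coeff P.natDegree) = 1 := h2
    rw [h4, one_mul]
  rw [Valuation.map_add_eq_of_lt_right, h3]
  rw [h3]
  have hx0 : v x ≠ 0 := fun h => by rw [h] at hx; exact not_lt_zero hx
  refine Valuation.map_sum_lt _ (pow_ne_zero _ hx0) fun i hi => ?_
  rw [map_mul, map_pow]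
  refine lt_of_le_of_lt (mul_le_of_le_one_left' (h1 i)) ?_
  exact pow_lt_pow_right₀ hx (Finset.mem_range.mp hi)

theorem val_eval_of_le {F : Type*} [Field F] (v : Valuation F ℤᵐ⁰) (P : F[X])
    (h1 : ∀ i, v (P.coeff i) ≤ 1) (x : F) (hx : v x ≤ 1) : v (P.eval x) ≤ 1 := by
  rw [eval_eq_sum_range]
  refine Valuation.map_sum_le _ fun i _ => ?_
  rw [map_mul, map_pow]
  exact mul_le_one' (h1 i) (pow_le_one' hx i)

/-- the local step -/
theorem val_one_local {k L : Type*} [Field k] [NumberField k] [Field L] [NumberField L]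
    [Algebra k L] (v : HeightOneSpectrum (𝓞 k)) (w : HeightOneSpectrum (𝓞 L))
    (hl : w.asIdeal.LiesOver v.asIdeal)
    (θ : v.adicCompletion k →+* w.adicCompletion L)
    (hθ : ∀ y, Valued.v (θ y) = Valued.v y ^ (v.asIdeal.ramificationIdx' w.asIdeal))
    (x : v.adicCompletion k) (y : w.adicCompletion L) (c₀ : L) (P : L[X]) (hP : 0 < P.natDegree)
    (hc₀ : w.valuation L c₀ = 1) (hP1 : ∀ i, w.valuation L (P.coeff i) ≤ 1)
    (hP2 : w.valuation L P.leadingCoeff = 1) (hy : y ≠ 0)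
    (hrel : y + algebraMap L _ c₀ / y = (P.map (algebraMap L (w.adicCompletion L))).eval (θ x))
    (N : ℕ) (g : L) (hg : w.valuation L g = 1) (h : w.adicCompletion L)
    (hh : algebraMap L _ g * h ^ (N * (Module.finrank k L).factorial * P.natDegree) = y)
    (hcont : ∀ z : v.adicCompletion k, Valued.v x = Valued.v z ^ N → Valued.v x ≤ 1) :
    Valued.v y = 1 := by
  by_contra hne
  set A := algebraMap L (w.adicCompletion L) with hA
  set n := N * (Module.finrank k L).factorial * P.natDegree with hn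
  have hy0 : Valued.v y ≠ 0 := (Valuation.ne_zero_iff _).mpr hy
  have hyh : Valued.v y = Valued.v h ^ n := by
    rw [← hh, map_mul, map_pow, val_alg, hg, one_mul]
  have hcv : Valued.v (A c₀ / y) = (Valued.v y)⁻¹ := by
    rw [map_div₀, val_alg, hc₀, one_div]
  -- the valuation of the sum
  obtain ⟨t, ht1, ht⟩ : ∃ t : ℤᵐ⁰, 1 < t ^ n ∧ Valued.v (y + A c₀ / y) = t ^ n := by
    rcases lt_or_gt_of_ne hne with hlt | hgt
    · refine ⟨(Valued.v h)⁻¹, ?_, ?_⟩
      · rw [inv_pow, ← hyh]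
        exact (one_lt_inv₀ (zero_lt_iff.mpr hy0)).mpr hlt
      · rw [Valuation.map_add_eq_of_lt_right, hcv, inv_pow, hyh]
        rw [hcv]
        exact hlt.trans ((one_lt_inv₀ (zero_lt_iff.mpr hy0)).mpr hlt)
    · refine ⟨Valued.v h, by rw [← hyh]; exact hgt, ?_⟩
      rw [Valuation.map_add_eq_of_lt_left, hyh]
      rw [hcv]
      exact (inv_lt_one_of_one_lt₀ hgt).trans hgt
  have hQ1 : ∀ i, Valued.v ((P.map A).coeff i) ≤ 1 := by
    intro i
    rw [coeff_map, val_alg]
    exact hP1 i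
  have hQ2 : Valued.v (P.map A).leadingCoeff = 1 := by
    rw [leadingCoeff_map, val_alg]
    exact hP2
  have hQd : (P.map A).natDegree = P.natDegree := natDegree_map _
  have hx1 : 1 < Valued.v (θ x) := by
    by_contra hle
    push Not at hle
    have h1 := val_eval_of_le Valued.v (P.map A) hQ1 (θ x) hle
    rw [← hrel, ht] at h1
    exact absurd ht1 (not_lt.mpr h1)
  have h2 := val_eval_of_gt Valued.v (P.map A) hQ1 hQ2 (θ x) hx1
  rw [← hrel, ht, hQd, hθ] at h2
  set e := v.asIdeal.ramificationIdx' w.asIdeal with he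
  have he0 : e ≠ 0 := Ideal.IsDedekindDomain.ramificationIdx'_ne_zero_of_liesOver w.asIdeal v.ne_bot
  have hele : e ≤ Module.finrank k L := by
    have := v.isMaximal
    have : NoZeroSMulDivisors (𝓞 k) (𝓞 L) := ⟨fun {c x} h => by
      rw [Algebra.smul_def, mul_eq_zero] at h
      exact h.imp_left fun h => (FaithfulSMul.algebraMap_eq_zero_iff (𝓞 k) (𝓞 L)).mp h⟩
    exact Ideal.ramificationIdx_le_finrank (𝓞 L) k L w.asIdeal
  obtain ⟨q, hq⟩ : e ∣ (Module.finrank k L).factorial := Nat.dvd_factorial (Nat.pos_of_ne_zero he0) hele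
  have h3 : Valued.v x = (t ^ q) ^ N := by
    have h4 : (Valued.v x) ^ (e * P.natDegree) = ((t ^ q) ^ N) ^ (e * P.natDegree) := by
      rw [pow_mul, ← h2, hn, hq, ← pow_mul, ← pow_mul]
      congr 1
      ring
    exact (pow_left_inj₀ zero_le zero_le (Nat.mul_ne_zero he0 hP.ne')).mp h4
  obtain ⟨z, hz⟩ := HeightOneSpectrum.valuedAdicCompletion_surjective k v (t ^ q)
  have h5 := hcont z (by rw [hz]; exact h3)
  rw [hθ] at hx1
  exact absurd hx1 (not_lt.mpr (pow_le_one' h5 _))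

/-- the values are units at almost all places -/
theorem exists_val_one {k L : Type*} [Field k] [NumberField k] [Field L] [NumberField L]
    [Algebra k L] (S T : Finset (HeightOneSpectrum (𝓞 k)))
    (vb : HeightOneSpectrum (𝓞 L) → HeightOneSpectrum (𝓞 k))
    (hvb : ∀ w : HeightOneSpectrum (𝓞 L), w.asIdeal.LiesOver (vb w).asIdeal)
    (θ : ∀ w : HeightOneSpectrum (𝓞 L), (vb w).adicCompletion k →+* w.adicCompletion L)
    (hθ : ∀ (w : HeightOneSpectrum (𝓞 L)) (y : (vb w).adicCompletion k), Valued.v (θ w y) = Valued.v y ^ ((vb w).asIdeal.ramificationIdx' w.asIdeal))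
    (x : ∀ v : HeightOneSpectrum (𝓞 k), v.adicCompletion k)
    (y : ∀ w : HeightOneSpectrum (𝓞 L), w.adicCompletion L) (c₀ : L) (hc₀ : c₀ ≠ 0)
    (P : L[X]) (hP : 0 < P.natDegree) (hy : ∀ w, vb w ∉ S → y w ≠ 0)
    (hrel : ∀ w, vb w ∉ S → y w + algebraMap L _ c₀ / y w =
      (P.map (algebraMap L (w.adicCompletion L))).eval (θ w (x (vb w))))
    (N : ℕ) (hN : 1 ≤ N) (G : ℕ → Lˣ)
    (hG : ∀ w, vb w ∉ S → ∀ n, 1 ≤ n → ∃ h : w.adicCompletion L, algebraMap L _ (G n : L) * h ^ n = y w)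
    (hcont : ∀ v ∉ S, v ∉ T → ∀ z : v.adicCompletion k, Valued.v (x v) = Valued.v z ^ N →
      Valued.v (x v) ≤ 1) :
    ∃ T' : Finset (HeightOneSpectrum (𝓞 L)), ∀ w ∉ T', Valued.v (y w) = 1 := by
  classical
  set n := N * (Module.finrank k L).factorial * P.natDegree with hn
  have hn1 : 1 ≤ n := Nat.mul_pos (Nat.mul_pos hN (Nat.factorial_pos _)) hP
  have hP0 : P ≠ 0 := by rintro rfl; simp at hP
  have hco : ∀ i, ∃ T₀ : Finset (HeightOneSpectrum (𝓞 L)), ∀ w ∉ T₀, w.valuation L (P.coeff i) ≤ 1 := by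
    intro i
    rcases eq_or_ne (P.coeff i) 0 with h0 | h0
    · exact ⟨∅, fun w _ => by rw [h0, map_zero]; exact zero_le_one⟩
    · refine ⟨(finite_val_ne_one h0).toFinset, fun w hw => ?_⟩
      rw [Set.Finite.mem_toFinset, Set.mem_ofPred_eq, not_not] at hw
      exact hw.le
  choose T₀ hT₀ using hco
  refine ⟨(finite_above (F := L) (S ∪ T)).toFinset ∪ (finite_val_ne_one (G n).ne_zero).toFinset ∪
    (finite_val_ne_one hc₀).toFinset ∪ (finite_val_ne_one (leadingCoeff_ne_zero.mpr hP0)).toFinset ∪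
    (Finset.range (P.natDegree + 1)).biUnion T₀, fun w hw => ?_⟩
  simp only [Finset.mem_union, Set.Finite.mem_toFinset, Set.mem_ofPred_eq, not_or, not_exists, not_and,
    Finset.mem_biUnion, not_not] at hw
  obtain ⟨⟨⟨⟨hw1, hw2⟩, hw3⟩, hw4⟩, hw5⟩ := hw
  have hS : vb w ∉ S := fun h => hw1 (vb w) (Or.inl h) (hvb w)
  have hT : vb w ∉ T := fun h => hw1 (vb w) (Or.inr h) (hvb w)
  obtain ⟨h, hh⟩ := hG w hS n hn1
  refine val_one_local (vb w) w (hvb w) (θ w) (hθ w) (x (vb w)) (y w) c₀ P hP hw3 (fun i => ?_) hw4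
    (hy w hS) (hrel w hS) N (G n : L) hw2 h hh (hcont (vb w) hS hT)
  rcases Nat.lt_or_ge P.natDegree i with h1 | h1
  · rw [coeff_eq_zero_of_natDegree_lt h1, map_zero]; exact zero_le_one
  · exact hT₀ i w (hw5 i (Finset.mem_range.mpr (by omega)))

end Pool.Agent.Lib.MP_2f3286_ag.PA
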