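import Pool.Agent.Lib.MP_2f3286_ag.PA.Pow
import Pool.Agent.Lib.MP_2f3286_ag.PA.Contact
import Pool.Agent.Lib.MP_2f3286_ag.NormStage
import Pool.Agent.Lib.MP_2f3286_ag.NormPoly

/-!
# The functions take finitely many values at the local points
-/

open IsDedekindDomain NumberField IntermediateField Polynomial

namespace Pool.Agent.Lib.MP_2f3286_ag.PA

universe u

/-- a polynomial over `k` vanishing at the solutions -/
theorem exists_chi {k kb : Type*} [Field k] [Field kb] [Algebra k kb] [IsAlgClosed kb]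
    [Algebra.IsAlgebraic k kb] (P : kb[X]) (hP : 0 < P.natDegree) (D : ℕ) (hD : 0 < D) (g c : kb) :
    ∃ χ : k[X], χ ≠ 0 ∧ ∀ ε η : kb, ε ^ D = g → P.eval η = ε + c / ε → aeval η χ = 0 := by
  classical
  let Z : Finset kb := (X ^ D - C g : kb[X]).roots.toFinset
  let Q : kb → kb[X] := fun ε => P - C (ε + c / ε)
  have hQ0 : ∀ ε, Q ε ≠ 0 := by
    intro ε h
    have h1 : P = C (ε + c / ε) := sub_eq_zero.mp h
    rw [h1, natDegree_C] at hP
    exact lt_irrefl _ hP
  refine ⟨∏ ε ∈ Z, ∏ η ∈ (Q ε).roots.toFinset, minpoly k η, ?_, fun ε η hε hη => ?_⟩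
  · refine Finset.prod_ne_zero_iff.mpr fun ε _ => Finset.prod_ne_zero_iff.mpr fun η _ => ?_
    exact minpoly.ne_zero (Algebra.IsIntegral.isIntegral η)
  · have h1 : ε ∈ Z := by
      rw [Multiset.mem_toFinset, mem_roots (X_pow_sub_C_ne_zero hD _), IsRoot.def, eval_sub, eval_pow,
        eval_X, eval_C, hε, sub_self]
    have h2 : η ∈ (Q ε).roots.toFinset := by
      rw [Multiset.mem_toFinset, mem_roots (hQ0 ε), IsRoot.def]
      simp only [Q]
      rw [eval_sub, eval_C, hη, sub_self]
    rw [map_prod, Finset.prod_eq_zero h1]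
    rw [map_prod, Finset.prod_eq_zero h2]
    exact minpoly.aeval k η

section

variable {k : Type u} [Field k] [NumberField k]
    {K : Type*} [Field K] [Algebra k K]
    (R : Subalgebra k K)
    {M : Type*} [Field M] [Algebra K M]
    [Algebra (AlgebraicClosure k) M] [Algebra k M]
    [IsScalarTower k K M] [IsScalarTower k (AlgebraicClosure k) M]

/-- the constants of `L` in `M` -/
noncomputable def cM (L : IntermediateField k (AlgebraicClosure k)) (M : Type*) [Field M]
    [Algebra (AlgebraicClosure k) M] : L →+* M :=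
  (algebraMap (AlgebraicClosure k) M).comp (algebraMap L (AlgebraicClosure k))

/-- the two cases of the criterion -/
def UnitCase (S : Finset (HeightOneSpectrum (𝓞 k)))
    (L : IntermediateField k (AlgebraicClosure k)) [NumberField L]
    (s : Gal(AlgebraicClosure k/k) →* Gal(M/K)) (e : M) (c₀ : L) : Prop :=
  (S = ∅ ∧ Fintype.card (InfinitePlace L) = 1) ∨
  ∃ (c : L ≃+* L) (γ : Gal(AlgebraicClosure k/k)),
    (∀ (σ : L →+* ℂ) (x : L), σ (c x) = starRingEnd ℂ (σ x)) ∧
    (∀ w : HeightOneSpectrum (𝓞 L), (∃ v ∈ S, w.asIdeal.LiesOver v.asIdeal) →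
      ∀ x : L, w.valuation L (c x) = w.valuation L x) ∧
    (∀ l : L, γ (l : AlgebraicClosure k) = (c l : L)) ∧
    s γ e * e = algebraMap (AlgebraicClosure k) M (c₀ : AlgebraicClosure k)

theorem finite_values (s : Gal(AlgebraicClosure k/k) →* Gal(M/K)) (hs : Continuous s)
    (hsec : ∀ σ a, s σ (algebraMap (AlgebraicClosure k) M a) =
      algebraMap (AlgebraicClosure k) M (σ a))
    (S : Finset (HeightOneSpectrum (𝓞 k)))
    (ι : ∀ v : {v : HeightOneSpectrum (𝓞 k) // v ∉ S},
      AlgebraicClosure k →ₐ[k] AlgebraicClosure (v.1.adicCompletion k))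
    (φ : ∀ v : {v : HeightOneSpectrum (𝓞 k) // v ∉ S},
      integralClosure R M →+* AlgebraicClosure (v.1.adicCompletion k))
    (hφ : ∀ v, Respects s (v.1.adicCompletion k)
      (ι v : _ →+* AlgebraicClosure (v.1.adicCompletion k)) (φ v))
    (L : IntermediateField k (AlgebraicClosure k)) [FiniteDimensional k L] [NumberField L]
    (e e' : integralClosure R M) (c₀ : L) (hc₀ : c₀ ≠ 0)
    (hee' : (e : M) * e' = algebraMap (AlgebraicClosure k) M (c₀ : AlgebraicClosure k))
    (hroots : ∀ n : ℕ, 1 ≤ n → ∃ b : M, b ^ n = (e : M))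
    (hfix : ∀ σ ∈ L.fixingSubgroup, s σ (e : M) = e)
    (x : R) (P : L[X]) (hP : 0 < P.natDegree)
    (hrel : (e : M) + e' = P.eval₂ (cM L M) (algebraMap R M x))
    (hcase : UnitCase S L s (e : M) c₀)
    (T : Finset (HeightOneSpectrum (𝓞 k))) (N : ℕ) (hN : 1 ≤ N)
    (hint : ∀ v, v.1 ∉ T → ∀ y z : v.1.adicCompletion k,
      φ v (algebraMap R (integralClosure R M) x) = algebraMap _ _ y →
      Valued.v y = Valued.v z ^ N → Valued.v y ≤ 1) :
    ∃ χ : k[X], χ ≠ 0 ∧ ∀ v, φ v (algebraMap R (integralClosure R M) (aeval x χ)) = 0 := by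
  classical
  have hc₀' : algebraMap (AlgebraicClosure k) M (c₀ : AlgebraicClosure k) ≠ 0 := by
    rw [_root_.map_ne_zero]
    exact fun h => hc₀ (Subtype.ext h)
  have he0 : (e : M) ≠ 0 := fun h => hc₀' (by rw [← hee', h, zero_mul])
  -- the classes
  obtain ⟨G, hcompat, hG⟩ := exists_hasClasses R s hs hsec L e he0 hroots hfix
  -- places
  choose vb hvb using exists_below (L := k) (F := L)
  choose θ hθ hθv using fun w : HeightOneSpectrum (𝓞 L) =>
    @exists_completion_hom_val k L _ _ _ _ _ (vb w) w (hvb w)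
  choose xv hxv using fun v => exists_local_point R s v.1 (ι v) (φ v) (hφ v)
  have hchar : ∀ w : HeightOneSpectrum (𝓞 L), CharZero (w.adicCompletion L) := fun w =>
    charZero_of_injective_algebraMap (algebraMap L (w.adicCompletion L)).injective
  choose ι' φ' h1 h2 h3 using fun (w : HeightOneSpectrum (𝓞 L)) (hw : vb w ∉ S) =>
    @GU.exists_pair_E k _ _ K _ _ R M _ _ _ L _ _ L.val s hsec (vb w) (ι ⟨vb w, hw⟩)
      (φ ⟨vb w, hw⟩) (hφ _) (xv ⟨vb w, hw⟩) (hxv _) (w.adicCompletion L) _ (hchar w)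
      (algebraMap L (w.adicCompletion L)) (θ w) (hθ w) inferInstance
  replace h2 : ∀ (w : HeightOneSpectrum (𝓞 L)) (hw : vb w ∉ S) (l : L),
      ι' w hw (l : AlgebraicClosure k) =
        algebraMap _ (AlgebraicClosure (w.adicCompletion L)) (algebraMap L (w.adicCompletion L) l) := h2
  choose h hh using fun (w : HeightOneSpectrum (𝓞 L)) (hw : vb w ∉ S) =>
    hG (w.adicCompletion L) inferInstance (hchar w) (algebraMap L (w.adicCompletion L)) (ι' w hw)
      (φ' w hw) (h1 w hw) (h2 w hw) 1 le_rfl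
  let y : ∀ w : HeightOneSpectrum (𝓞 L), w.adicCompletion L := fun w =>
    if hw : vb w ∉ S then algebraMap L _ (G 1 : L) * h w hw ^ 1 else 1
  have hy : ∀ w (hw : vb w ∉ S), φ' w hw e = algebraMap _ _ (y w) := by
    intro w hw
    simp only [y]
    rw [dif_pos hw]
    exact hh w hw
  have hee : ∀ w (hw : vb w ∉ S), φ' w hw e * φ' w hw e' =
      algebraMap _ _ (algebraMap L (w.adicCompletion L) c₀) := by
    intro w hw
    rw [← map_mul, ← h2 w hw]
    exact (h1 w hw).1 _ _ hee'
  have hAc : ∀ w : HeightOneSpectrum (𝓞 L), algebraMap L (w.adicCompletion L) c₀ ≠ 0 := by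
    intro w
    rw [_root_.map_ne_zero]
    exact hc₀
  have hinj : ∀ w : HeightOneSpectrum (𝓞 L), Function.Injective
      (algebraMap (w.adicCompletion L) (AlgebraicClosure (w.adicCompletion L))) := fun w =>
    (algebraMap (w.adicCompletion L) (AlgebraicClosure (w.adicCompletion L))).injective
  have hy0 : ∀ w, vb w ∉ S → y w ≠ 0 := by
    intro w hw h0
    have h4 := hee w hw
    rw [hy w hw, h0, map_zero, zero_mul] at h4
    exact hAc w (hinj w (by rw [← h4, map_zero]))
  -- the local relation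
  let cB : L →+* integralClosure R M := (cM L M).codRestrict (integralClosure R M)
    fun l => const_int R (l : AlgebraicClosure k)
  have hcB : ∀ w (hw : vb w ∉ S) (l : L), φ' w hw (cB l) =
      algebraMap _ _ (algebraMap L (w.adicCompletion L) l) := by
    intro w hw l
    rw [← h2 w hw]
    exact (h1 w hw).1 _ _ rfl
  have hrelB : e + e' = P.eval₂ cB (algebraMap R (integralClosure R M) x) := by
    apply Subtype.ext
    have h4 := hom_eval₂ P cB ((integralClosure R M).val : integralClosure R M →+* M)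
      (algebraMap R (integralClosure R M) x)
    exact hrel.trans h4.symm
  have hrelw : ∀ w (hw : vb w ∉ S), y w + algebraMap L _ c₀ / y w =
      (P.map (algebraMap L (w.adicCompletion L))).eval (θ w (xv ⟨vb w, hw⟩ x)) := by
    intro w hw
    apply hinj w
    have h4 : φ' w hw e' = algebraMap _ _ (algebraMap L _ c₀ / y w) := by
      have h5 := hee w hw
      rw [hy w hw] at h5
      rw [map_div₀, ← h5, mul_div_cancel_left₀]
      rw [_root_.map_ne_zero]
      exact hy0 w hw
    rw [map_add, ← hy w hw, ← h4, ← map_add, hrelB, hom_eval₂, eval_map, hom_eval₂, ← h3 w hw]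
    congr 1
    ext l
    exact hcB w hw l
  -- the values are units at almost all places
  let xt : ∀ v : HeightOneSpectrum (𝓞 k), v.adicCompletion k := fun v =>
    if hv : v ∉ S then xv ⟨v, hv⟩ x else 0
  have hxt : ∀ v (hv : v ∉ S), xt v = xv ⟨v, hv⟩ x := fun v hv => dif_pos hv
  have hGw : ∀ w, vb w ∉ S → ∀ n, 1 ≤ n → ∃ h : w.adicCompletion L,
      algebraMap L _ (G n : L) * h ^ n = y w := by
    intro w hw n hn
    obtain ⟨h, hh⟩ := hG (w.adicCompletion L) inferInstance (hchar w)
      (algebraMap L (w.adicCompletion L)) (ι' w hw) (φ' w hw) (h1 w hw) (h2 w hw) n hn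
    refine ⟨h, hinj w ?_⟩
    rw [← hh, hy w hw]
  obtain ⟨T', hT'⟩ := exists_val_one S T vb hvb θ hθv xt y c₀ hc₀ P hP hy0 (fun w hw => by
    rw [hxt _ hw]
    exact hrelw w hw) N hN G hGw (fun v hv hvT z hz => by
      rw [hxt v hv] at hz ⊢
      exact hint ⟨v, hv⟩ hvT _ z (hxv _ x).symm hz)
  -- alpha
  set SL : Finset (HeightOneSpectrum (𝓞 L)) := (finite_above (F := L) S).toFinset with hSL
  have hSL' : ∀ w, w ∉ SL → vb w ∉ S := by
    intro w hw hS
    apply hw
    rw [hSL, Set.Finite.mem_toFinset]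
    exact ⟨vb w, hS, hvb w⟩
  have hpair : ∀ w ∉ SL, ∃ (ι' : AlgebraicClosure k →+* AlgebraicClosure (w.adicCompletion L))
      (φ' : integralClosure R M →+* AlgebraicClosure (w.adicCompletion L)),
      Respects s (w.adicCompletion L) ι' φ' ∧
      (∀ l : L, ι' (l : AlgebraicClosure k) = algebraMap _ _ (algebraMap L (w.adicCompletion L) l)) ∧
      φ' e = algebraMap _ _ (y w) := fun w hw =>
    ⟨ι' w (hSL' w hw), φ' w (hSL' w hw), h1 w _, h2 w _, hy w _⟩
  obtain ⟨α, hα⟩ := exists_alpha_of_values R s L e G hcompat hG SL y (fun w hw => hy0 w (hSL' w hw))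
    hpair T' hT'
  -- the power
  obtain ⟨D, g, hD, hg, hyD⟩ : ∃ (D : ℕ) (g : L), 0 < D ∧ g ≠ 0 ∧
      ∀ w ∉ SL, y w ^ D = algebraMap L (w.adicCompletion L) g := by
    rcases hcase with ⟨hS, hL⟩ | ⟨c, γ, hc, hcS, hγ, hγe⟩
    · have hSL0 : SL = ∅ := by
        rw [hSL, Finset.eq_empty_iff_forall_notMem]
        intro w hw
        rw [Set.Finite.mem_toFinset, hS] at hw
        obtain ⟨v, hv, -⟩ := hw
        exact absurd hv (Finset.notMem_empty v)
      have hvS : ∀ w, vb w ∉ S := fun w => by rw [hS]; exact Finset.notMem_empty _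
      rw [hSL0] at hα
      obtain ⟨D, g, hD, hg, h4⟩ := pow_plus L hL G y (fun w => hy0 w (hvS w)) (fun w => hGw w (hvS w)) α hα
      exact ⟨D, g, hD, hg, fun w _ => h4 w⟩
    · exact pow_minus R s hsec L c hc S hcS γ hγ e c₀ hc₀ hγe G hG y
        (fun w hw => hy0 w (hSL' w hw)) hpair α hα
  -- the polynomial
  obtain ⟨χ, hχ0, hχ⟩ := exists_chi (k := k) (P.map (algebraMap L (AlgebraicClosure k)))
    (by rw [natDegree_map]; exact hP) D hD (g : AlgebraicClosure k) (c₀ : AlgebraicClosure k)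
  refine ⟨χ, hχ0, fun v => ?_⟩
  obtain ⟨w, hw⟩ := exists_prime_over (F := k) (E := L) v.1
  have hvw : vb w = v.1 := by
    apply HeightOneSpectrum.ext
    have h4 := (hvb w).over
    have h5 := hw.over
    rw [h4, h5]
  obtain ⟨v, hv⟩ := v
  change vb w = v at hvw
  subst hvw
  have hwSL : w ∉ SL := by
    rw [hSL, Set.Finite.mem_toFinset]
    rintro ⟨v', hv', hl⟩
    have h6 : v' = vb w := by
      apply HeightOneSpectrum.ext
      rw [hl.over, (hvb w).over]
    exact hv (h6 ▸ hv')
  -- the value in the algebraic closure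
  have h4 : (X ^ D - C (g : AlgebraicClosure k) : (AlgebraicClosure k)[X]).eval₂ (ι' w hv)
      (algebraMap _ (AlgebraicClosure (w.adicCompletion L)) (y w)) = 0 := by
    rw [eval₂_sub, eval₂_pow, eval₂_X, eval₂_C, ← map_pow, hyD w hwSL, h2 w hv, sub_self]
  obtain ⟨ε, hε, hε'⟩ := root_mem (ι' w hv) (X_pow_sub_C_ne_zero hD _) h4
  have hεD : ε ^ D = g := by
    rw [IsRoot.def, eval_sub, eval_pow, eval_X, eval_C, sub_eq_zero] at hε
    exact hε
  let Q : (AlgebraicClosure k)[X] := P.map (algebraMap L (AlgebraicClosure k)) -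
    C (ε + (c₀ : AlgebraicClosure k) / ε)
  have hQ0 : Q ≠ 0 := by
    intro h
    have h5 : P.map (algebraMap L (AlgebraicClosure k)) = C (ε + (c₀ : AlgebraicClosure k) / ε) :=
      sub_eq_zero.mp h
    have h6 : 0 < (P.map (algebraMap L (AlgebraicClosure k))).natDegree := by
      rw [natDegree_map]; exact hP
    rw [h5, natDegree_C] at h6
    exact lt_irrefl _ h6
  have h5 : Q.eval₂ (ι' w hv) (algebraMap _ (AlgebraicClosure (w.adicCompletion L))
      (θ w (xv ⟨vb w, hv⟩ x))) = 0 := by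
    have h6 := congrArg (algebraMap _ (AlgebraicClosure (w.adicCompletion L))) (hrelw w hv)
    rw [map_add, map_div₀, ← hε', ← h2 w hv, eval_map, hom_eval₂] at h6
    simp only [Q]
    rw [eval₂_sub, eval₂_C, map_add, map_div₀, eval₂_map, sub_eq_zero]
    refine Eq.trans ?_ h6.symm
    congr 1
    ext l
    exact h2 w hv l
  obtain ⟨η, hη, hη'⟩ := root_mem (ι' w hv) hQ0 h5
  have h7 : aeval η χ = 0 := by
    refine hχ ε η hεD ?_
    simp only [Q] at hη
    rw [IsRoot.def, eval_sub, eval_C, sub_eq_zero] at hη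
    exact hη
  -- conclusion
  have h8 : aeval (xv ⟨vb w, hv⟩ x) χ = 0 := by
    apply (θ w).injective
    apply hinj w
    rw [map_zero, map_zero, aeval_def, hom_eval₂, hom_eval₂, ← hη']
    have h9 : (algebraMap (w.adicCompletion L) (AlgebraicClosure (w.adicCompletion L))).comp
        ((θ w).comp (algebraMap k ((vb w).adicCompletion k))) =
        (ι' w hv).comp (algebraMap k (AlgebraicClosure k)) := by
      ext a
      change algebraMap _ _ (θ w (algebraMap k _ a)) = ι' w hv (algebraMap k _ a)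
      rw [hθ]
      exact (h2 w hv (algebraMap k L a)).symm
    rw [h9, ← hom_eval₂, ← aeval_def, h7, map_zero]
  have h9 : φ ⟨vb w, hv⟩ (algebraMap R (integralClosure R M) (aeval x χ)) =
      algebraMap _ _ (xv ⟨vb w, hv⟩ (aeval x χ)) := (hxv ⟨vb w, hv⟩ _).symm
  rw [h9, ← aeval_algHom_apply, h8, map_zero]

end

end Pool.Agent.Lib.MP_2f3286_ag.PA
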