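import Pool.Agent.Lib.MP_2f3286_ag.PA.CopLoc
import Pool.Agent.Lib.MP_2f3286_ag.PA.CopQ

/-!
# The class of a square root of `G(x)` for coprime integral polynomials `F, G` with `F(x) G(x)` a square
-/

open IsDedekindDomain NumberField Polynomial

namespace Pool.Agent.Lib.MP_2f3286_ag.PA

/-- `G(x)` is a square in `M`. -/
theorem exists_sqrt {R M kb : Type*} [CommRing R] [Field M] [Field kb] [Algebra R M]
    [Algebra kb M] (hmax : Pt.IsRadClosed R M kb) (F G A B : ℤ[X]) (hAB : A * F + B * G = 1)
    (x y : R) (hxy : y ^ 2 = aeval x F * aeval x G) (hG0 : algebraMap R M (aeval x G) ≠ 0) :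
    ∃ ξ : M, ξ ^ 2 = algebraMap R M (aeval x G) := by
  refine hmax 2 _ (by norm_num) hG0 fun Ψ _ => ?_
  let g : integralClosure R M := algebraMap R _ (aeval x G)
  let f : integralClosure R M := algebraMap R _ (aeval x F)
  have hone : algebraMap R (integralClosure R M) (aeval x A) * f +
      algebraMap R (integralClosure R M) (aeval x B) * g = 1 := by
    have h1 := congrArg (aeval x) hAB
    rw [map_add, map_mul, map_mul, map_one] at h1
    have h2 := congrArg (algebraMap R (integralClosure R M)) h1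
    rw [map_add, map_mul, map_mul, map_one] at h2
    exact h2
  by_cases hg : Ψ g = 0
  · refine ⟨algebraMap R M y, f, 1, ?_, ?_, ?_⟩
    · intro hf
      have h1 := congrArg Ψ hone
      rw [map_add, map_mul, map_mul, hf, hg, mul_zero, mul_zero, add_zero, map_one] at h1
      exact zero_ne_one h1
    · rw [map_one]; exact one_ne_zero
    · have h1 : ((f : integralClosure R M) : M) = algebraMap R M (aeval x F) := rfl
      rw [h1, ← map_mul, mul_comm, ← hxy, map_pow]
      simp
  · exact ⟨1, 1, g, by rw [map_one]; exact one_ne_zero, hg, by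
      have h1 : ((g : integralClosure R M) : M) = algebraMap R M (aeval x G) := rfl
      rw [h1]; simp⟩

/-- The class of `√G(x)` under a section over `ℚ` with local points at all primes is `1` or `-1`. -/
theorem class_of_coprime {k : Type*} [Field k] [NumberField k] (hk : Module.finrank ℚ k = 1)
    {K : Type*} [Field K] [Algebra k K] (R : Subalgebra k K)
    {M : Type*} [Field M] [Algebra K M] [Algebra (AlgebraicClosure k) M] [Algebra k M]
    [IsScalarTower k K M] [IsScalarTower k (AlgebraicClosure k) M]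
    (s : Gal(AlgebraicClosure k/k) →* Gal(M/K)) (hs : Continuous s)
    (hsec : ∀ σ a, s σ (algebraMap (AlgebraicClosure k) M a) =
      algebraMap (AlgebraicClosure k) M (σ a))
    (ι : ∀ v : HeightOneSpectrum (𝓞 k),
      AlgebraicClosure k →ₐ[k] AlgebraicClosure (v.adicCompletion k))
    (φ : ∀ v : HeightOneSpectrum (𝓞 k),
      integralClosure R M →+* AlgebraicClosure (v.adicCompletion k))
    (hφ : ∀ v, Respects s (v.adicCompletion k)
      (ι v : _ →+* AlgebraicClosure (v.adicCompletion k)) (φ v))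
    (F G A B : ℤ[X]) (hAB : A * F + B * G = 1) (hG : G.Monic) (hGe : Even G.natDegree)
    (x y : R) (hxy : y ^ 2 = aeval x F * aeval x G) (ξ : M) (hξ0 : ξ ≠ 0)
    (hξ : ξ ^ 2 = algebraMap R M (aeval x G)) :
    (∀ σ, s σ ξ = ξ) ∨
    ∀ (τ : AlgebraicClosure k →+* ℂ) (σ : Gal(AlgebraicClosure k/k)),
      (∀ a, τ (σ a) = starRingEnd ℂ (τ a)) → s σ ξ = -ξ := by
  classical
  have hg0 : ((aeval x G : R) : K) ≠ 0 := by
    intro h
    apply pow_ne_zero 2 hξ0
    rw [hξ]
    have h1 : algebraMap R M (aeval x G) = algebraMap K M ((aeval x G : R) : K) := rfl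
    rw [h1, h, map_zero]
  obtain ⟨c, z, a, hc, hcz, hza⟩ := exists_kummer s hs hsec (T := ξ) (n := 2) (by norm_num) hg0
    (by rw [hξ]; rfl)
  have hsz : ∀ σ, s σ ξ * algebraMap (AlgebraicClosure k) M z =
      ξ * algebraMap (AlgebraicClosure k) M (σ z) := by
    intro σ
    rw [hc, ← hcz, map_mul]
    ring
  obtain ⟨⟨E⟩, hQ⟩ := exists_equiv_int hk
  obtain ⟨d, hd⟩ := hQ a
  have hd0 : d ≠ 0 := by
    rintro rfl
    rw [map_zero] at hd
    exact a.ne_zero hd.symm
  obtain ⟨e, he, hae⟩ := sq_or_neg_sq E d hd0 fun v => by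
    rw [hd]
    exact even_class R s v (ι v) (φ v) (hφ v) F G A B hAB hG hGe x y hxy ξ hξ0 hξ z a a.ne_zero
      hza hsz
  have hMz : algebraMap (AlgebraicClosure k) M z ≠ 0 := (_root_.map_ne_zero _).mpr z.ne_zero
  set e' : AlgebraicClosure k := algebraMap k (AlgebraicClosure k) (algebraMap ℚ k e) with he'
  have hze : (d = e ^ 2 → (z : AlgebraicClosure k) ^ 2 = e' ^ 2) ∧
      (d = -e ^ 2 → (z : AlgebraicClosure k) ^ 2 = -e' ^ 2) := by
    constructor
    · intro h
      rw [hza, ← hd, h, map_pow, map_pow]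
    · intro h
      rw [hza, ← hd, h, map_neg, map_neg, map_pow, map_pow]
  rcases hae with h | h
  · left
    intro σ
    have h1 := hze.1 h
    have h2 : σ (z : AlgebraicClosure k) = z := by
      rcases sq_eq_sq_iff_eq_or_eq_neg.mp h1 with h3 | h3
      · rw [h3, he', AlgEquiv.commutes]
      · rw [h3, he', map_neg, AlgEquiv.commutes]
    have h3 := hsz σ
    rw [h2] at h3
    exact mul_right_cancel₀ hMz h3
  · right
    intro τ σ hτ
    have hτQ : τ e' = ((e : ℝ) : ℂ) := by
      have h1 : (τ.comp (algebraMap k (AlgebraicClosure k))).comp (algebraMap ℚ k) e =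
          (algebraMap ℚ ℂ) e := DFunLike.congr_fun (Subsingleton.elim _ _) e
      rw [he']
      refine Eq.trans h1 ?_
      simp
    have h1 : τ z ^ 2 = -(((e : ℝ) : ℂ)) ^ 2 := by
      rw [← map_pow, hze.2 h, map_neg, map_pow, hτQ]
    have h2 : starRingEnd ℂ (τ z) = -τ z := by
      have h3 : (τ z) ^ 2 = (Complex.I * (e : ℝ)) ^ 2 := by
        rw [h1, mul_pow, Complex.I_sq]
        ring
      rcases sq_eq_sq_iff_eq_or_eq_neg.mp h3 with h4 | h4
      · rw [h4, map_mul, Complex.conj_I, Complex.conj_ofReal]; ring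
      · rw [h4, map_neg, map_mul, Complex.conj_I, Complex.conj_ofReal]; ring
    have h3 : σ (z : AlgebraicClosure k) = -z := by
      apply τ.injective
      rw [hτ, h2, map_neg]
    have h4 := hsz σ
    rw [h3, map_neg, mul_neg, ← neg_mul] at h4
    exact mul_right_cancel₀ hMz h4

end Pool.Agent.Lib.MP_2f3286_ag.PA
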