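import Pool.Agent.Lib.MP_2f3286_ag.NormStage
import Pool.Agent.Lib.MP_2f3286_ag.Pt.Defs

/-!
# The class of a square root of `G(x)` for coprime integral polynomials `F, G` with `F(x) G(x)` a square: local part
-/

open IsDedekindDomain NumberField Polynomial

namespace Pool.Agent.Lib.MP_2f3286_ag.PA

/-- Valuations: if `G(x)` and `F(x)` are `d` times a square, `F` and `G` coprime and integral, `G` monic of even degree,
then the valuation of `d` is a square. -/
theorem even_val {L Γ : Type*} [Field L] [LinearOrderedCommGroupWithZero Γ] (v : Valuation L Γ)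
    {O : Type*} [CommRing O] (h : O →+* L) (hO : ∀ a, v (h a) ≤ 1)
    (F G A B : O[X]) (hAB : A * F + B * G = 1) (hG : G.Monic) (hGe : Even G.natDegree)
    (x d c c' : L) (h1 : G.eval₂ h x = d * c ^ 2) (h2 : F.eval₂ h x = d * c' ^ 2) :
    ∃ e : L, e ≠ 0 ∧ v d = v e ^ 2 := by
  classical
  by_contra hcon
  push Not at hcon
  -- values of polynomials at integral elements are integral
  have hint : v x ≤ 1 → ∀ P : O[X], v (P.eval₂ h x) ≤ 1 := by
    intro hx P
    rw [eval₂_eq_sum_range]
    refine Valuation.map_sum_le v fun i _ => ?_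
    rw [map_mul, map_pow]
    exact mul_le_one' (hO _) (pow_le_one' hx _)
  -- an element of the form `d * c ^ 2` does not have valuation one
  have hsmall : ∀ y : L, v (d * y ^ 2) ≤ 1 → v (d * y ^ 2) < 1 := by
    intro y hy
    refine lt_of_le_of_ne hy fun h1 => ?_
    have hy0 : y ≠ 0 := by
      rintro rfl
      rw [zero_pow two_ne_zero, mul_zero, map_zero] at h1
      exact zero_ne_one h1
    refine hcon y⁻¹ (inv_ne_zero hy0) ?_
    rw [map_mul, map_pow] at h1
    rw [map_inv₀, inv_pow]
    exact eq_inv_of_mul_eq_one_left h1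
  rcases le_or_gt (v x) 1 with hx | hx
  · -- the integral case
    have hG1 : v (G.eval₂ h x) < 1 := by
      rw [h1]
      refine hsmall c ?_
      rw [← h1]; exact hint hx G
    have hF1 : v (F.eval₂ h x) < 1 := by
      rw [h2]
      refine hsmall c' ?_
      rw [← h2]; exact hint hx F
    have h3 : v ((A * F + B * G).eval₂ h x) < 1 := by
      rw [eval₂_add, eval₂_mul, eval₂_mul]
      refine Valuation.map_add_lt v ?_ ?_
      · rw [map_mul]
        exact mul_lt_one_of_nonneg_of_lt_one_right (hint hx A) zero_le hF1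
      · rw [map_mul]
        exact mul_lt_one_of_nonneg_of_lt_one_right (hint hx B) zero_le hG1
    rw [hAB, eval₂_one, map_one] at h3
    exact lt_irrefl _ h3
  · -- the case of a pole
    have hx0 : x ≠ 0 := by
      rintro rfl
      rw [map_zero] at hx
      exact absurd hx (not_lt.mpr zero_le)
    obtain ⟨m, hm⟩ := hGe
    have h3 : v (G.eval₂ h x) = v x ^ G.natDegree := by
      have h4 : G.eval₂ h x = x ^ G.natDegree + G.eraseLead.eval₂ h x := by
        conv_lhs => rw [← G.eraseLead_add_monomial_natDegree_leadingCoeff]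
        rw [eval₂_add, eval₂_monomial, hG.leadingCoeff, map_one, one_mul, add_comm]
      have h5 : v (G.eraseLead.eval₂ h x) < v x ^ G.natDegree := by
        rcases Nat.eq_zero_or_pos G.natDegree with h6 | h6
        · have h7 : G.eraseLead = 0 := by
            have h8 := eq_C_of_natDegree_eq_zero h6
            rw [h8, eraseLead_C]
          rw [h7, eval₂_zero, map_zero]
          exact pow_pos (lt_of_le_of_lt zero_le hx) _
        · have h7 : ∀ i ∈ Finset.range G.natDegree, v (h (G.eraseLead.coeff i) * x ^ i) <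
              v x ^ G.natDegree := by
            intro i hi
            rw [map_mul, map_pow]
            refine lt_of_le_of_lt (mul_le_of_le_one_left' (hO _)) ?_
            exact pow_lt_pow_right₀ hx (Finset.mem_range.mp hi)
          have h8 : G.eraseLead.natDegree < G.natDegree := by
            have := eraseLead_natDegree_le G
            omega
          rw [eval₂_eq_sum_range' h h8]
          exact Valuation.map_sum_lt v (pow_ne_zero _ (fun h => by
            rw [h] at hx; exact absurd hx (not_lt.mpr zero_le))) h7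
      rw [h4, Valuation.map_add_eq_of_lt_left, map_pow]
      rw [map_pow]; exact h5
    rw [h1, map_mul, map_pow, hm] at h3
    have hc0 : v c ≠ 0 := by
      intro h4
      rw [h4, zero_pow two_ne_zero, mul_zero] at h3
      exact (pow_ne_zero _ (fun h => by
            rw [h] at hx; exact absurd hx (not_lt.mpr zero_le))) h3.symm
    have hc0' : c ≠ 0 := (Valuation.ne_zero_iff v).mp hc0
    refine hcon (x ^ m / c) (div_ne_zero (pow_ne_zero _ hx0) hc0') ?_
    rw [map_div₀, map_pow, div_pow, ← pow_mul, mul_two, ← h3, mul_div_assoc,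
      div_self (pow_ne_zero 2 hc0), mul_one]

universe u

/-- The class of `√G(x)` under a section is at a place `v` over which the section comes from a point even. -/
theorem even_class {k : Type u} [Field k] [NumberField k]
    {K : Type*} [Field K] [Algebra k K] (R : Subalgebra k K)
    {M : Type*} [Field M] [Algebra K M] [Algebra (AlgebraicClosure k) M] [Algebra k M]
    [IsScalarTower k K M] [IsScalarTower k (AlgebraicClosure k) M]
    (s : Gal(AlgebraicClosure k/k) →* Gal(M/K))
    (v : HeightOneSpectrum (𝓞 k))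
    (ι : AlgebraicClosure k →ₐ[k] AlgebraicClosure (v.adicCompletion k))
    (φ : integralClosure R M →+* AlgebraicClosure (v.adicCompletion k))
    (hφ : Respects s (v.adicCompletion k) (ι : _ →+* AlgebraicClosure (v.adicCompletion k)) φ)
    (F G A B : ℤ[X]) (hAB : A * F + B * G = 1) (hG : G.Monic) (hGe : Even G.natDegree)
    (x y : R) (hxy : y ^ 2 = aeval x F * aeval x G) (ξ : M) (hξ0 : ξ ≠ 0)
    (hξ : ξ ^ 2 = algebraMap R M (aeval x G))
    (z : AlgebraicClosure k) (d : k) (hd : d ≠ 0) (hz : z ^ 2 = algebraMap k _ d)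
    (hs : ∀ σ, s σ ξ * algebraMap (AlgebraicClosure k) M z =
      ξ * algebraMap (AlgebraicClosure k) M (σ z)) :
    ∃ e : v.adicCompletion k, e ≠ 0 ∧
      Valued.v (algebraMap k (v.adicCompletion k) d) = Valued.v e ^ 2 := by
  classical
  have hchar : CharZero (v.adicCompletion k) :=
    charZero_of_injective_algebraMap (algebraMap k (v.adicCompletion k)).injective
  obtain ⟨p, hp⟩ := exists_local_point R s v ι φ hφ
  have hz0 : z ≠ 0 := by
    rintro rfl
    rw [zero_pow two_ne_zero] at hz
    exact hd ((map_eq_zero _).mp hz.symm)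
  -- the second square root
  have hξint : IsIntegral R ξ := IsIntegral.of_pow (n := 2) (by norm_num) (by
    rw [hξ]; exact isIntegral_algebraMap)
  set ξ' : M := algebraMap R M y / ξ with hξ'def
  have hξξ' : ξ' * ξ = algebraMap R M y := div_mul_cancel₀ _ hξ0
  have hξ' : ξ' ^ 2 = algebraMap R M (aeval x F) := by
    rw [hξ'def, div_pow, hξ, ← map_pow, hxy, map_mul, mul_div_assoc, div_self, mul_one]
    rw [← hξ]; exact pow_ne_zero 2 hξ0
  have hξ'int : IsIntegral R ξ' := IsIntegral.of_pow (n := 2) (by norm_num) (by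
    rw [hξ']; exact isIntegral_algebraMap)
  -- the algebraic numbers are integral
  have hBk : ∀ a : AlgebraicClosure k, IsIntegral R (algebraMap (AlgebraicClosure k) M a) := by
    intro a
    have htow' : IsScalarTower k R M := IsScalarTower.of_algebraMap_eq fun x => by
      rw [IsScalarTower.algebraMap_apply k K M]; rfl
    have h1 : IsIntegral k a := Algebra.IsIntegral.isIntegral a
    have h2 : IsIntegral k (algebraMap (AlgebraicClosure k) M a) := h1.algebraMap
    exact h2.tower_top
  have hsR : ∀ σ, ∀ r : R, s σ (algebraMap R M r) = algebraMap R M r := by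
    intro σ r
    have h1 : algebraMap R M r = algebraMap K M (r : K) := rfl
    rw [h1, AlgEquiv.commutes]
  have hzσ : ∀ σ : Gal(AlgebraicClosure k/k), σ z * σ z = z * z := by
    intro σ
    rw [← pow_two, ← pow_two, ← map_pow, hz, AlgEquiv.commutes]
  have hMz : algebraMap (AlgebraicClosure k) M z ≠ 0 := (_root_.map_ne_zero _).mpr hz0
  have hs' : ∀ σ, s σ ξ' * algebraMap (AlgebraicClosure k) M z =
      ξ' * algebraMap (AlgebraicClosure k) M (σ z) := by
    intro σ
    have h1 : s σ ξ' * s σ ξ = ξ' * ξ := by rw [← map_mul, hξξ', hsR]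
    have hsξ0 : s σ ξ ≠ 0 := (_root_.map_ne_zero _).mpr hξ0
    apply mul_right_cancel₀ hsξ0
    apply mul_right_cancel₀ hMz
    have h2 : algebraMap (AlgebraicClosure k) M (σ z) * algebraMap (AlgebraicClosure k) M (σ z) =
        algebraMap (AlgebraicClosure k) M z * algebraMap (AlgebraicClosure k) M z := by
      rw [← map_mul (algebraMap (AlgebraicClosure k) M), hzσ, map_mul]
    calc s σ ξ' * algebraMap (AlgebraicClosure k) M z * s σ ξ * algebraMap (AlgebraicClosure k) M z
        = (s σ ξ' * s σ ξ) * (algebraMap (AlgebraicClosure k) M z *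
            algebraMap (AlgebraicClosure k) M z) := by ring
      _ = (ξ' * ξ) * (algebraMap (AlgebraicClosure k) M (σ z) *
            algebraMap (AlgebraicClosure k) M (σ z)) := by rw [h1, h2]
      _ = ξ' * algebraMap (AlgebraicClosure k) M (σ z) * (ξ *
            algebraMap (AlgebraicClosure k) M (σ z)) := by ring
      _ = ξ' * algebraMap (AlgebraicClosure k) M (σ z) * (s σ ξ *
            algebraMap (AlgebraicClosure k) M z) := by rw [hs]
      _ = ξ' * algebraMap (AlgebraicClosure k) M (σ z) * s σ ξ *
            algebraMap (AlgebraicClosure k) M z := by ring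
  -- the local descent
  have hdesc : ∀ η : M, ∀ hη : IsIntegral R η, (∀ σ, s σ η * algebraMap (AlgebraicClosure k) M z =
      η * algebraMap (AlgebraicClosure k) M (σ z)) →
      ∃ c : v.adicCompletion k, φ ⟨η, hη⟩ = ι z * algebraMap _ _ c := by
    intro η hη hsη
    have hιz : ι z ≠ 0 := (_root_.map_ne_zero _).mpr hz0
    obtain ⟨c, hc⟩ := mem_of_fixed (F := v.adicCompletion k)
      (Fb := AlgebraicClosure (v.adicCompletion k)) (y := φ ⟨η, hη⟩ / ι z) (by
      intro τ
      obtain ⟨σ, hσ⟩ := exists_restrict ι τ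
      have hint : IsIntegral R (s σ η) := by
        have h1 : IsIntegral R (s σ η * algebraMap (AlgebraicClosure k) M z) := by
          rw [hsη]; exact hη.mul (hBk _)
        have h2 := h1.mul (hBk z⁻¹)
        rwa [mul_assoc, ← map_mul, mul_inv_cancel₀ hz0, map_one, mul_one] at h2
      have h3 := hφ.2 σ τ hσ ⟨η, hη⟩ ⟨s σ η, hint⟩ rfl
      have h4 : φ ⟨s σ η, hint⟩ * ι z = φ ⟨η, hη⟩ * ι (σ z) := by
        have h5 := hφ.1 z ⟨_, hBk z⟩ rfl
        have h6 := hφ.1 (σ z) ⟨_, hBk (σ z)⟩ rfl
        have h7 : (⟨s σ η, hint⟩ * ⟨_, hBk z⟩ : integralClosure R M) =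
            ⟨η, hη⟩ * ⟨_, hBk (σ z)⟩ := Subtype.ext (hsη σ)
        have h8 := congrArg φ h7
        rw [map_mul, map_mul, h5, h6] at h8
        exact h8
      rw [map_div₀, ← h3, ← hσ]
      have hισz : ι (σ z) ≠ 0 := (_root_.map_ne_zero _).mpr ((_root_.map_ne_zero _).mpr hz0)
      rw [div_eq_div_iff hισz hιz]
      exact h4)
    refine ⟨c, ?_⟩
    rw [hc, mul_div_cancel₀ _ hιz]
  obtain ⟨c, hc⟩ := hdesc ξ hξint hs
  obtain ⟨c', hc'⟩ := hdesc ξ' hξ'int hs'
  have hval : ∀ (P : ℤ[X]), φ (algebraMap R (integralClosure R M) (aeval x P)) =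
      algebraMap (v.adicCompletion k) _ (P.eval₂ (Int.castRingHom _) (p x)) := by
    intro P
    rw [← hp]
    congr 1
    have h1 : (p : R →+* v.adicCompletion k) (aeval x P) =
        P.eval₂ ((p : R →+* v.adicCompletion k).comp (algebraMap ℤ R)) (p x) := by
      rw [aeval_def, hom_eval₂]
      rfl
    rw [RingHom.eq_intCast' ((p : R →+* v.adicCompletion k).comp (algebraMap ℤ R))] at h1
    exact h1
  have hι2 : ι z * ι z = algebraMap (v.adicCompletion k) _ (algebraMap k _ d) := by
    rw [← map_mul, ← pow_two, hz, AlgHom.commutes]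
    rfl
  have key : ∀ (η : M) (hη : IsIntegral R η) (P : ℤ[X]) (c : v.adicCompletion k),
      η ^ 2 = algebraMap R M (aeval x P) → φ ⟨η, hη⟩ = ι z * algebraMap _ _ c →
      P.eval₂ (Int.castRingHom _) (p x) = algebraMap k _ d * c ^ 2 := by
    intro η hη P c h1 h2
    apply (algebraMap (v.adicCompletion k) (AlgebraicClosure (v.adicCompletion k))).injective
    rw [← hval, map_mul, map_pow, ← hι2]
    have h3 : algebraMap R (integralClosure R M) (aeval x P) = ⟨η, hη⟩ ^ 2 := Subtype.ext h1.symm
    rw [h3, map_pow, h2]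
    ring
  exact even_val Valued.v (Int.castRingHom (v.adicCompletion k)) (fun a => by
    have h1 : ((a : v.adicCompletion k)) ∈ (Valued.v (R := v.adicCompletion k)).integer := intCast_mem _ a
    exact h1) F G A B hAB hG hGe (p x) (algebraMap k _ d) c c' (key ξ hξint G c hξ hc)
    (key ξ' hξ'int F c' hξ' hc')

end Pool.Agent.Lib.MP_2f3286_ag.PA
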