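import Mathlib

/-!
# Roots of odd multiplicity
-/

open Polynomial

namespace Pool.Agent.Lib.MP_2f3286_ag.PA

variable {F : Type*} [Field F] [IsAlgClosed F]

/-- a polynomial is the product of the linear factors at its roots of odd multiplicity and a square -/
theorem exists_odd_part (P : F[X]) : ∃ (O : Finset F) (g : F[X]),
    (∀ β ∈ O, Odd (P.rootMultiplicity β)) ∧ P = (∏ β ∈ O, (X - C β)) * g ^ 2 := by
  classical
  have hs : P.Splits := IsAlgClosed.splits P
  obtain ⟨a, ha⟩ : ∃ a : F, a ^ 2 = P.leadingCoeff := by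
    obtain ⟨a, ha⟩ := IsAlgClosed.exists_pow_nat_eq P.leadingCoeff (n := 2) (by norm_num)
    exact ⟨a, ha⟩
  refine ⟨P.roots.toFinset.filter fun β => Odd (P.rootMultiplicity β),
    C a * ∏ β ∈ P.roots.toFinset, (X - C β) ^ (P.rootMultiplicity β / 2), ?_, ?_⟩
  · intro β hβ
    exact (Finset.mem_filter.mp hβ).2
  · have h1 : P = C P.leadingCoeff * ∏ β ∈ P.roots.toFinset, (X - C β) ^ (P.rootMultiplicity β) := by
      conv_lhs => rw [hs.eq_prod_roots]
      rw [Finset.prod_multiset_map_count]
      simp only [count_roots]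
    conv_lhs => rw [h1]
    rw [mul_pow, ← C_pow, ha, ← Finset.prod_pow, Finset.prod_filter, mul_left_comm, ← Finset.prod_mul_distrib]
    congr 1
    refine Finset.prod_congr rfl fun β _ => ?_
    split_ifs with h
    · rw [← pow_mul, ← pow_succ']
      congr 1
      obtain ⟨m, hm⟩ := h
      omega
    · rw [one_mul, ← pow_mul]
      congr 1
      rw [Nat.not_odd_iff_even] at h
      obtain ⟨m, hm⟩ := h
      omega

/-- a difference of a square and a constant has two roots of odd multiplicity -/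
theorem exists_two_odd [CharZero F] (w : F[X]) (hw : 0 < w.natDegree) (c : F) (hc : c ≠ 0) :
    ∃ β₁ β₂ : F, β₁ ≠ β₂ ∧ Odd ((w ^ 2 - C c).rootMultiplicity β₁) ∧
      Odd ((w ^ 2 - C c).rootMultiplicity β₂) := by
  classical
  set P := w ^ 2 - C c with hP
  have hdeg : P.natDegree = 2 * w.natDegree := by
    rw [hP, natDegree_sub_C, natDegree_pow]
  have hP0 : P ≠ 0 := by
    intro h
    rw [h, natDegree_zero] at hdeg
    omega
  obtain ⟨O, g, hO, hg⟩ := exists_odd_part P
  have hg0 : g ≠ 0 := by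
    rintro rfl
    rw [zero_pow two_ne_zero, mul_zero] at hg
    exact hP0 hg
  have hprod0 : ∏ β ∈ O, (X - C β) ≠ 0 := Finset.prod_ne_zero_iff.mpr fun β _ => X_sub_C_ne_zero β
  have hcard : P.natDegree = O.card + 2 * g.natDegree := by
    conv_lhs => rw [hg]
    rw [natDegree_mul hprod0 (pow_ne_zero 2 hg0), natDegree_pow, natDegree_finsetProd_X_sub_C_eq_card]
  -- the number of odd roots is not zero
  have hne : O.card ≠ 0 := by
    intro h0
    rw [Finset.card_eq_zero] at h0
    rw [h0, Finset.prod_empty, one_mul] at hg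
    have h1 : (w - g) * (w + g) = C c := by
      have h2 : w ^ 2 - C c = g ^ 2 := hg
      linear_combination h2
    have h3 : IsUnit ((w - g) * (w + g)) := by
      rw [h1]; exact isUnit_C.mpr hc.isUnit
    have h4 := natDegree_eq_zero_of_isUnit (isUnit_of_mul_isUnit_left h3)
    have h5 := natDegree_eq_zero_of_isUnit (isUnit_of_mul_isUnit_right h3)
    have h2 : (2 : F) ≠ 0 := two_ne_zero
    have h6 : C (2 : F) * w = (w - g) + (w + g) := by
      simp only [map_ofNat]; ring
    have h7 : (C (2 : F) * w).natDegree = 0 := by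
      rw [h6, eq_C_of_natDegree_eq_zero h4, eq_C_of_natDegree_eq_zero h5, ← C_add, natDegree_C]
    rw [natDegree_C_mul h2] at h7
    omega
  have hne1 : O.card ≠ 1 := by
    intro h1
    omega
  obtain ⟨β₁, h₁, β₂, h₂, hne'⟩ := Finset.one_lt_card.mp (by omega : 1 < O.card)
  exact ⟨β₁, β₂, hne', hO β₁ h₁, hO β₂ h₂⟩

end Pool.Agent.Lib.MP_2f3286_ag.PA
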