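import Pool.Agent.Lib.MP_2f3286_ag.PA.Cls
import Pool.Agent.Lib.MP_2f3286_ag.PA.Odd
import Pool.Agent.Lib.MP_2f3286_ag.Full.FullFinal2

/-!
# Square roots of linear functions in `M` and the ring generated by the units
-/

open IsDedekindDomain NumberField IntermediateField Polynomial

namespace Pool.Agent.Lib.MP_2f3286_ag.PA

universe u

section

variable {k : Type u} [Field k] [NumberField k]
    {K : Type*} [Field K] [Algebra k K]
    (R : Subalgebra k K)
    {M : Type*} [Field M] [Algebra K M]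
    [Algebra (AlgebraicClosure k) M] [Algebra k M]
    [IsScalarTower k K M] [IsScalarTower k (AlgebraicClosure k) M]

/-- the constants in the integral closure -/
noncomputable def constB : AlgebraicClosure k →+* integralClosure R M :=
  (algebraMap (AlgebraicClosure k) M).codRestrict (integralClosure R M) fun a => const_int R a

/-- values of polynomials at `x` -/
noncomputable def evB (x : R) : (AlgebraicClosure k)[X] →+* integralClosure R M :=
  eval₂RingHom (constB R) (algebraMap R (integralClosure R M) x)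

/-- values of polynomials at `x` in `M` -/
noncomputable def evM (M : Type*) [Field M] [Algebra K M] [Algebra (AlgebraicClosure k) M] (x : R) :
    (AlgebraicClosure k)[X] →+* M :=
  eval₂RingHom (algebraMap (AlgebraicClosure k) M) (algebraMap R M x)

omit [NumberField k] in
theorem coe_evB (x : R) (P : (AlgebraicClosure k)[X]) :
    ((evB R x P : integralClosure R M) : M) = evM R M x P := by
  change (integralClosure R M).val (P.eval₂ _ _) = P.eval₂ _ _
  exact hom_eval₂ P (constB R) ((integralClosure R M).val : integralClosure R M →+* M)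
    (algebraMap R (integralClosure R M) x)

omit [NumberField k] in
theorem pt_evB (x : R) {Ω : Type*} [Field Ω] (ι : AlgebraicClosure k →+* Ω)
    (Ψ : integralClosure R M →+* Ω)
    (hΨ : ∀ (a : AlgebraicClosure k) (b : integralClosure R M), (b : M) = algebraMap _ M a → Ψ b = ι a)
    (P : (AlgebraicClosure k)[X]) :
    Ψ (evB R x P) = P.eval₂ ι (Ψ (algebraMap R (integralClosure R M) x)) := by
  change Ψ (P.eval₂ _ _) = _
  rw [hom_eval₂]
  congr 1
  ext a
  exact hΨ a _ rfl

omit [NumberField k] in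
theorem evM_ne_zero (x : R) (hx : Transcendental k (x : K)) {P : (AlgebraicClosure k)[X]} (hP : P ≠ 0) :
    evM R M x P ≠ 0 := by
  intro h
  have h1 : IsAlgebraic (AlgebraicClosure k) (algebraMap K M (x : K)) := ⟨P, hP, h⟩
  have h2 : IsAlgebraic k (algebraMap K M (x : K)) := h1.restrictScalars k
  have h3 : IsAlgebraic k (x : K) := (isAlgebraic_algebraMap_iff (algebraMap K M).injective).mp h2
  exact hx h3

omit [NumberField k] in
theorem evM_X (x : R) : evM R M x X = algebraMap R M x := eval₂_X _ _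

omit [NumberField k] in
theorem evM_C (x : R) (a : AlgebraicClosure k) : evM R M x (C a) = algebraMap _ M a := eval₂_C _ _

theorem sqrt_linear (hmax : Pt.IsRadClosed R M (AlgebraicClosure k)) (x : R)
    (hx : Transcendental k (x : K)) (P : (AlgebraicClosure k)[X]) (hP : P ≠ 0) (ξ : M)
    (hξ : ξ ^ 2 = evM R M x P) (β : AlgebraicClosure k) (hβ : Odd (P.rootMultiplicity β)) :
    ∃ z : M, z ^ 2 = algebraMap R M x - algebraMap _ M β := by
  have hX : evM R M x (X - C β) = algebraMap R M x - algebraMap _ M β := by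
    rw [map_sub, evM_X, evM_C]
  have hX0 : evM R M x (X - C β) ≠ 0 := evM_ne_zero R x hx (X_sub_C_ne_zero β)
  rw [← hX]
  obtain ⟨j, hj⟩ := hβ
  obtain ⟨Q, hQ, hQβ⟩ := exists_eq_pow_rootMultiplicity_mul_and_not_dvd P hP β
  rw [dvd_iff_isRoot, IsRoot.def] at hQβ
  refine hmax 2 _ (by norm_num) hX0 fun Ψ hΨ => ?_
  have hev : ∀ P : (AlgebraicClosure k)[X], Ψ (evB R x P) =
      P.eval (Ψ (algebraMap R (integralClosure R M) x)) := by
    intro P
    rw [pt_evB R x (RingHom.id _) Ψ (fun a b hb => hΨ a b hb) P, eval₂_id]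
  by_cases h : Ψ (algebraMap R (integralClosure R M) x) = β
  · refine ⟨ξ / evM R M x (X - C β) ^ j, evB R x Q, 1, ?_, ?_, ?_⟩
    · rw [hev, h]; exact hQβ
    · rw [map_one]; exact one_ne_zero
    · rw [coe_evB, div_pow, hξ]
      have h1 : evM R M x P = evM R M x (X - C β) ^ (2 * j + 1) * evM R M x Q := by
        conv_lhs => rw [hQ, map_mul, map_pow, hj]
      rw [h1]
      have h2 : (evM R M x (X - C β) ^ j) ^ 2 ≠ 0 := pow_ne_zero 2 (pow_ne_zero j hX0)
      rw [OneMemClass.coe_one, mul_one, eq_div_iff h2]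
      ring
  · refine ⟨1, 1, evB R x (X - C β), ?_, ?_, ?_⟩
    · rw [map_one]; exact one_ne_zero
    · rw [hev, eval_sub, eval_X, eval_C, sub_ne_zero]
      exact h
    · rw [coe_evB, OneMemClass.coe_one, mul_one, one_pow, one_mul]

/-- the ring generated by the units -/
def unitRing (M : Type*) [Field M] [Algebra K M] : Subring M :=
  Subring.closure {b : M | IsIntegral R b ∧ IsIntegral R b⁻¹}

omit [NumberField k] in
theorem const_mem (a : AlgebraicClosure k) : algebraMap (AlgebraicClosure k) M a ∈ unitRing R M :=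
  Subring.subset_closure ⟨const_int R a, by rw [← map_inv₀]; exact const_int R _⟩

/-- two square roots -/
theorem sqrt_mem (x : R) (β₁ β₂ : AlgebraicClosure k) (hne : β₁ ≠ β₂) (z₁ z₂ : M)
    (h₁ : z₁ ^ 2 = algebraMap R M x - algebraMap _ M β₁)
    (h₂ : z₂ ^ 2 = algebraMap R M x - algebraMap _ M β₂) : z₁ ∈ unitRing R M := by
  have hint : ∀ z : M, ∀ β : AlgebraicClosure k, z ^ 2 = algebraMap R M x - algebraMap _ M β →
      IsIntegral R z := by
    intro z β hz
    refine IsIntegral.of_pow (n := 2) (by norm_num) ?_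
    rw [hz]
    exact isIntegral_algebraMap.sub (const_int R β)
  have hi₁ := hint z₁ β₁ h₁
  have hi₂ := hint z₂ β₂ h₂
  have hc : (z₁ - z₂) * (z₁ + z₂) = algebraMap (AlgebraicClosure k) M (β₂ - β₁) := by
    rw [map_sub]; linear_combination h₁ - h₂
  have hc0 : algebraMap (AlgebraicClosure k) M (β₂ - β₁) ≠ 0 := by
    rw [_root_.map_ne_zero, sub_ne_zero]; exact hne.symm
  have hu : ∀ a b : M, IsIntegral R a → IsIntegral R b →
      a * b = algebraMap (AlgebraicClosure k) M (β₂ - β₁) → a ∈ unitRing R M := by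
    intro a b ha hb hab
    refine Subring.subset_closure ⟨ha, ?_⟩
    have h3 : a⁻¹ = b * algebraMap (AlgebraicClosure k) M (β₂ - β₁)⁻¹ := by
      apply inv_eq_of_mul_eq_one_right
      rw [← mul_assoc, hab, map_inv₀, mul_inv_cancel₀ hc0]
    rw [h3]
    exact hb.mul (const_int R _)
  have h3 : z₁ - z₂ ∈ unitRing R M := hu _ _ (hi₁.sub hi₂) (hi₁.add hi₂) hc
  have h4 : z₁ + z₂ ∈ unitRing R M := hu _ _ (hi₁.add hi₂) (hi₁.sub hi₂) (by rw [mul_comm]; exact hc)
  have hM2 : (2 : M) ≠ 0 := by
    have : CharZero M := charZero_of_injective_algebraMap (algebraMap (AlgebraicClosure k) M).injective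
    exact two_ne_zero
  have h5 : z₁ = algebraMap (AlgebraicClosure k) M (2⁻¹) * ((z₁ - z₂) + (z₁ + z₂)) := by
    rw [map_inv₀, map_ofNat]
    field_simp
    ring
  rw [h5]
  exact mul_mem (const_mem R _) (add_mem h3 h4)

/-- the function `x` is a sum of units -/
theorem x_mem (x : R) (β₁ β₂ : AlgebraicClosure k) (hne : β₁ ≠ β₂) (z₁ z₂ : M)
    (h₁ : z₁ ^ 2 = algebraMap R M x - algebraMap _ M β₁)
    (h₂ : z₂ ^ 2 = algebraMap R M x - algebraMap _ M β₂) : algebraMap R M x ∈ unitRing R M := by
  have h3 : algebraMap R M x = z₁ ^ 2 + algebraMap _ M β₁ := by rw [h₁, sub_add_cancel]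
  rw [h3]
  exact add_mem (pow_mem (sqrt_mem R x β₁ β₂ hne z₁ z₂ h₁ h₂) 2) (const_mem R β₁)

/-- a square root of a polynomial in `x` is in the ring generated by the units, if `x` is and each root of odd
multiplicity has a partner -/
theorem y_mem (hmax : Pt.IsRadClosed R M (AlgebraicClosure k)) (x : R)
    (hx : Transcendental k (x : K)) (P : (AlgebraicClosure k)[X]) (hP : P ≠ 0) (y : M)
    (hy : y ^ 2 = evM R M x P) (β₁ β₂ : AlgebraicClosure k) (hne : β₁ ≠ β₂) (z₁ z₂ : M)
    (h₁ : z₁ ^ 2 = algebraMap R M x - algebraMap _ M β₁)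
    (h₂ : z₂ ^ 2 = algebraMap R M x - algebraMap _ M β₂) : y ∈ unitRing R M := by
  classical
  have hxU := x_mem R x β₁ β₂ hne z₁ z₂ h₁ h₂
  have hpoly : ∀ Q : (AlgebraicClosure k)[X], evM R M x Q ∈ unitRing R M := by
    intro Q
    induction Q using Polynomial.induction_on with
    | C a => rw [evM_C]; exact const_mem R a
    | add p q hp hq => rw [map_add]; exact add_mem hp hq
    | monomial n a _ => rw [map_mul, map_pow, evM_X, evM_C]; exact mul_mem (const_mem R a) (pow_mem hxU _)
  obtain ⟨O, g, hO, hg⟩ := exists_odd_part P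
  choose! z hz using fun (β : AlgebraicClosure k) (hβ : β ∈ O) =>
    sqrt_linear R hmax x hx P hP y hy β (hO β hβ)
  have hzU : ∀ β ∈ O, z β ∈ unitRing R M := by
    intro β hβ
    by_cases h : β = β₁
    · exact sqrt_mem R x β β₂ (by rw [h]; exact hne) _ z₂ (hz β hβ) h₂
    · exact sqrt_mem R x β β₁ h _ z₁ (hz β hβ) h₁
  have h3 : y ^ 2 = ((∏ β ∈ O, z β) * evM R M x g) ^ 2 := by
    rw [hy]
    conv_lhs => rw [hg]
    rw [map_mul, map_prod, map_pow, mul_pow, ← Finset.prod_pow]
    congr 1
    refine Finset.prod_congr rfl fun β hβ => ?_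
    rw [hz β hβ, map_sub, evM_X, evM_C]
  have h4 : (∏ β ∈ O, z β) * evM R M x g ∈ unitRing R M :=
    mul_mem (prod_mem fun β hβ => hzU β hβ) (hpoly g)
  rcases sq_eq_sq_iff_eq_or_eq_neg.mp h3 with h | h
  · rw [h]; exact h4
  · rw [h]; exact neg_mem h4

end

end Pool.Agent.Lib.MP_2f3286_ag.PA
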