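import Pool.Agent.Lib.MP_2f3286_ag.PA.Chi
import Pool.Agent.Lib.MP_2f3286_ag.PA.Rad

/-!
# The criterion: a square root of a square minus a constant
-/

open IsDedekindDomain NumberField IntermediateField Polynomial

namespace Pool.Agent.Lib.MP_2f3286_ag.PA

universe u

section

variable {k : Type u} [Field k] [NumberField k]
    {K : Type*} [Field K] [Algebra k K]
    (R : Subalgebra k K)
    {M : Type*} [Field M] [Algebra K M]
    [Algebra (AlgebraicClosure k) M] [Algebra k M]
    [IsScalarTower k K M] [IsScalarTower k (AlgebraicClosure k) M]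

omit [NumberField k] in
theorem mem_fixing_sup (F : IntermediateField k (AlgebraicClosure k)) (z : AlgebraicClosure k)
    (σ : Gal(AlgebraicClosure k/k)) (hF : σ ∈ F.fixingSubgroup) (hz : σ z = z) :
    σ ∈ (F ⊔ k⟮z⟯).fixingSubgroup := by
  rw [IntermediateField.fixingSubgroup_sup]
  refine ⟨hF, ?_⟩
  have h1 : k⟮z⟯ ≤ IntermediateField.fixedField (Subgroup.zpowers σ) := by
    rw [IntermediateField.adjoin_simple_le_iff, IntermediateField.mem_fixedField_iff]
    intro τ hτ
    obtain ⟨n, rfl⟩ := Subgroup.mem_zpowers_iff.mp hτ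
    have h2 : ∀ m : ℕ, (σ ^ m) z = z := by
      intro m
      induction m with
      | zero => rfl
      | succ m ih => rw [pow_succ, AlgEquiv.mul_apply, hz, ih]
    rcases n with n | n
    · exact h2 n
    · rw [zpow_negSucc]
      have h3 := h2 (n + 1)
      calc (σ ^ (n + 1))⁻¹ z = (σ ^ (n + 1))⁻¹ ((σ ^ (n + 1)) z) := by rw [h3]
        _ = z := by rw [← AlgEquiv.mul_apply, inv_mul_cancel]; rfl
  exact (IntermediateField.le_iff_le _ _).mp h1 (Subgroup.mem_zpowers σ)

omit [NumberField k] in
theorem gal_evM (s : Gal(AlgebraicClosure k/k) →* Gal(M/K))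
    (hsec : ∀ σ a, s σ (algebraMap (AlgebraicClosure k) M a) =
      algebraMap (AlgebraicClosure k) M (σ a)) (x : R) (σ : Gal(AlgebraicClosure k/k))
    (F : IntermediateField k (AlgebraicClosure k)) (hσ : σ ∈ F.fixingSubgroup) (w : F[X]) :
    s σ (evM R M x (w.map (algebraMap F (AlgebraicClosure k)))) =
      evM R M x (w.map (algebraMap F (AlgebraicClosure k))) := by
  change (s σ : M →+* M) (eval₂ _ _ _) = eval₂ _ _ _
  rw [hom_eval₂, eval₂_map, eval₂_map]
  have h1 : (s σ : M →+* M) (algebraMap R M x) = algebraMap R M x := AlgEquiv.commutes (s σ) (x : K)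
  rw [h1]
  congr 1
  ext a
  change s σ (algebraMap (AlgebraicClosure k) M (a : AlgebraicClosure k)) = _
  rw [hsec]
  have h2 : σ (a : AlgebraicClosure k) = a := by
    rw [IntermediateField.mem_fixingSubgroup_iff] at hσ
    exact hσ a a.2
  rw [h2]
  rfl

/-- the case in which complex conjugations change the sign -/
def MinusCase (F : IntermediateField k (AlgebraicClosure k))
    (s : Gal(AlgebraicClosure k/k) →* Gal(M/K)) (ξ : M) : Prop :=
  ∀ τ : AlgebraicClosure k →+* ℂ, ∃ c ∈ F.fixingSubgroup,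
    (∀ a, τ (c a) = starRingEnd ℂ (τ a)) ∧ s c ξ = -ξ

/-- the case of a fixed square root over a field with one infinite place -/
def PlusCase (F : IntermediateField k (AlgebraicClosure k))
    (s : Gal(AlgebraicClosure k/k) →* Gal(M/K)) (ξ : M) : Prop :=
  Nat.card (InfinitePlace F) = 1 ∧ ∀ σ ∈ F.fixingSubgroup, s σ ξ = ξ

/-- the field `L` and the unit case -/
theorem exists_field (s : Gal(AlgebraicClosure k/k) →* Gal(M/K)) (hs : Continuous s)
    (hsec : ∀ σ a, s σ (algebraMap (AlgebraicClosure k) M a) =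
      algebraMap (AlgebraicClosure k) M (σ a))
    (F : IntermediateField k (AlgebraicClosure k)) [FiniteDimensional k F]
    (W ξ : M) (hW : ∀ σ ∈ F.fixingSubgroup, s σ W = W) (hξ0 : ξ ≠ 0) (hξ1 : IsIntegral K ξ)
    (c₀ : F) (hξ : ξ ^ 2 = W ^ 2 - algebraMap (AlgebraicClosure k) M (c₀ : AlgebraicClosure k))
    (hcase : MinusCase F s ξ ∨ PlusCase F s ξ) :
    ∃ (L : IntermediateField k (AlgebraicClosure k)) (hFL : F ≤ L) (_ : FiniteDimensional k L)
      (_ : NumberField L), (∀ σ ∈ L.fixingSubgroup, s σ ξ = ξ) ∧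
      UnitCase ∅ L s (W + ξ) (IntermediateField.inclusion hFL c₀) := by
  classical
  have hM2 : CharZero M := charZero_of_injective_algebraMap (algebraMap (AlgebraicClosure k) M).injective
  have hFnf : NumberField F := NumberField.of_module_finite k F
  rcases hcase with hm | ⟨hp1, hp2⟩
  · have hc₀s : ∀ σ ∈ F.fixingSubgroup, σ (c₀ : AlgebraicClosure k) = c₀ := by
      intro σ hσ
      rw [IntermediateField.mem_fixingSubgroup_iff] at hσ
      exact hσ c₀ c₀.2
    have hsq : ∀ σ ∈ F.fixingSubgroup, s σ (ξ ^ 2) = ξ ^ 2 := by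
      intro σ hσ
      rw [hξ, map_sub, map_pow, hW σ hσ, hsec, hc₀s σ hσ]
    obtain ⟨z, a, hza, hz⟩ := exists_kummer_L s hs hsec F hξ0 hξ1 (n := 2) (by norm_num) hsq
    let L : IntermediateField k (AlgebraicClosure k) := F ⊔ k⟮(z : AlgebraicClosure k)⟯
    have hzint : IsIntegral k (z : AlgebraicClosure k) := Algebra.IsIntegral.isIntegral _
    have hadj : FiniteDimensional k k⟮(z : AlgebraicClosure k)⟯ := adjoin.finiteDimensional hzint
    have hLfin : FiniteDimensional k L := IntermediateField.finiteDimensional_sup _ _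
    have hLnf : NumberField L := NumberField.of_module_finite k L
    have hFL : F ≤ L := le_sup_left
    have hzL : (z : AlgebraicClosure k) ∈ L :=
      (le_sup_right : k⟮(z : AlgebraicClosure k)⟯ ≤ L) (mem_adjoin_simple_self k _)
    have hFix : ∀ σ ∈ L.fixingSubgroup, σ ∈ F.fixingSubgroup ∧ σ (z : AlgebraicClosure k) = z := by
      intro σ hσ
      rw [IntermediateField.mem_fixingSubgroup_iff] at hσ
      refine ⟨?_, hσ _ hzL⟩
      rw [IntermediateField.mem_fixingSubgroup_iff]
      exact fun x hx => hσ x (hFL hx)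
    have hneg : ∀ σ ∈ F.fixingSubgroup, s σ ξ = -ξ → σ (z : AlgebraicClosure k) = -z := by
      intro σ hσ h
      have h1 := hz σ hσ (-1) (by rw [map_neg, map_one, neg_one_mul]; exact h)
      rw [neg_one_mul] at h1
      exact h1
    have hLξ : ∀ σ ∈ L.fixingSubgroup, s σ ξ = ξ := by
      intro σ hσ
      obtain ⟨h1, h2⟩ := hFix σ hσ
      have h3 : (s σ ξ) ^ 2 = ξ ^ 2 := by rw [← map_pow, hsq σ h1]
      rcases sq_eq_sq_iff_eq_or_eq_neg.mp h3 with h | h
      · exact h
      · exfalso
        have h4 := hneg σ h1 h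
        rw [h2] at h4
        exact z.ne_zero (self_eq_neg.mp h4)
    -- an embedding and the conjugation
    have halgQ : Algebra.IsAlgebraic ℚ (AlgebraicClosure k) :=
      Algebra.IsAlgebraic.trans ℚ k (AlgebraicClosure k)
    let τ₀ : AlgebraicClosure k →ₐ[ℚ] ℂ := IsAlgClosed.lift
    obtain ⟨γ, hγF, hγτ, hγξ⟩ := hm (τ₀ : AlgebraicClosure k →+* ℂ)
    have hγz : γ (z : AlgebraicClosure k) = -z := hneg γ hγF hγξ
    have hγF' : ∀ x ∈ F, γ x = x := by
      rw [IntermediateField.mem_fixingSubgroup_iff] at hγF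
      exact hγF
    have hγγ : ∀ x ∈ L, γ (γ x) = x := by
      have h1 : γ * γ ∈ L.fixingSubgroup := by
        refine mem_fixing_sup F z (γ * γ) (mul_mem hγF hγF) ?_
        rw [AlgEquiv.mul_apply, hγz, map_neg, hγz, neg_neg]
      rw [IntermediateField.mem_fixingSubgroup_iff] at h1
      exact h1
    have hγL : ∀ x ∈ L, γ x ∈ L := by
      have h1 : L ≤ L.comap (γ : AlgebraicClosure k →ₐ[k] AlgebraicClosure k) := by
        refine sup_le (fun x hx => ?_) ?_
        · change γ x ∈ L
          rw [hγF' x hx]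
          exact hFL hx
        · rw [IntermediateField.adjoin_simple_le_iff]
          change γ (z : AlgebraicClosure k) ∈ L
          rw [hγz]
          exact neg_mem hzL
      exact fun x hx => h1 hx
    let c : L ≃+* L :=
      { toFun := fun l => ⟨γ l, hγL l l.2⟩
        invFun := fun l => ⟨γ l, hγL l l.2⟩
        left_inv := fun l => Subtype.ext (hγγ l l.2)
        right_inv := fun l => Subtype.ext (hγγ l l.2)
        map_mul' := fun a b => Subtype.ext (map_mul γ _ _)
        map_add' := fun a b => Subtype.ext (map_add γ _ _) }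
    refine ⟨L, hFL, hLfin, hLnf, hLξ, Or.inr ⟨c, γ, fun σ x => ?_, fun w hw => ?_, fun l => rfl, ?_⟩⟩
    · -- extend the embedding
      let _ : Algebra L ℂ := σ.toAlgebra
      have : Algebra.IsAlgebraic L (AlgebraicClosure k) := Algebra.IsAlgebraic.tower_top (K := k) L
      let τ : AlgebraicClosure k →ₐ[L] ℂ := IsAlgClosed.lift
      have hτ : ∀ l : L, τ (l : AlgebraicClosure k) = σ l := fun l => τ.commutes l
      obtain ⟨c', hc'F, hc'τ, hc'ξ⟩ := hm (τ : AlgebraicClosure k →+* ℂ)
      have hc'z : c' (z : AlgebraicClosure k) = -z := hneg c' hc'F hc'ξ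
      have h1 : γ⁻¹ * c' ∈ L.fixingSubgroup := by
        refine mem_fixing_sup F z (γ⁻¹ * c') (mul_mem (inv_mem hγF) hc'F) ?_
        rw [AlgEquiv.mul_apply, hc'z]
        have h2 : γ⁻¹ (γ (z : AlgebraicClosure k)) = z := by
          rw [← AlgEquiv.mul_apply, inv_mul_cancel]; rfl
        rw [hγz] at h2
        exact h2
      rw [IntermediateField.mem_fixingSubgroup_iff] at h1
      have h2 : γ (x : AlgebraicClosure k) = c' x := by
        have h3 := congrArg γ (h1 x x.2)
        rw [AlgEquiv.mul_apply] at h3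
        have h4 : γ (γ⁻¹ (c' (x : AlgebraicClosure k))) = c' x := by
          rw [← AlgEquiv.mul_apply, mul_inv_cancel]; rfl
        rw [h4] at h3
        exact h3.symm
      rw [← hτ, ← hτ]
      change τ (γ (x : AlgebraicClosure k)) = _
      rw [h2]
      exact hc'τ x
    · obtain ⟨v, hv, -⟩ := hw
      exact absurd hv (Finset.notMem_empty v)
    · rw [map_add, hW γ hγF, hγξ]
      have h1 : ((IntermediateField.inclusion hFL c₀ : L) : AlgebraicClosure k) = c₀ := rfl
      rw [h1]
      linear_combination -hξ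
  · refine ⟨F, le_rfl, inferInstance, hFnf, hp2, Or.inl ⟨rfl, ?_⟩⟩
    rw [← Nat.card_eq_fintype_card]
    exact hp1

/-- the functions take finitely many values -/
theorem crit_chi (s : Gal(AlgebraicClosure k/k) →* Gal(M/K)) (hs : Continuous s)
    (hsec : ∀ σ a, s σ (algebraMap (AlgebraicClosure k) M a) =
      algebraMap (AlgebraicClosure k) M (σ a))
    (hmax : Pt.IsRadClosed R M (AlgebraicClosure k))
    (ι : ∀ v : HeightOneSpectrum (𝓞 k),
      AlgebraicClosure k →ₐ[k] AlgebraicClosure (v.adicCompletion k))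
    (φ : ∀ v : HeightOneSpectrum (𝓞 k),
      integralClosure R M →+* AlgebraicClosure (v.adicCompletion k))
    (hφ : ∀ v, Respects s (v.adicCompletion k)
      (ι v : _ →+* AlgebraicClosure (v.adicCompletion k)) (φ v))
    (x : R) (hx : Transcendental k (x : K))
    (F : IntermediateField k (AlgebraicClosure k)) [FiniteDimensional k F]
    (w : F[X]) (hw : 0 < w.natDegree) (c₀ : F) (hc₀ : c₀ ≠ 0) (ξ : M)
    (hξ : ξ ^ 2 = evM R M x (w.map (algebraMap F (AlgebraicClosure k))) ^ 2 -
      algebraMap (AlgebraicClosure k) M (c₀ : AlgebraicClosure k))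
    (hcase : MinusCase F s ξ ∨ PlusCase F s ξ)
    (T : Finset (HeightOneSpectrum (𝓞 k))) (N : ℕ) (hN : 1 ≤ N)
    (hint : ∀ v ∉ T, ∀ y z : v.adicCompletion k,
      φ v (algebraMap R (integralClosure R M) x) = algebraMap _ _ y →
      Valued.v y = Valued.v z ^ N → Valued.v y ≤ 1) :
    ∃ χ : k[X], χ ≠ 0 ∧ ∀ v, φ v (algebraMap R (integralClosure R M) (aeval x χ)) = 0 := by
  classical
  set W : M := evM R M x (w.map (algebraMap F (AlgebraicClosure k))) with hWdef
  have hw0 : (w.map (algebraMap F (AlgebraicClosure k))) ^ 2 - C (c₀ : AlgebraicClosure k) ≠ 0 := by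
    intro h
    have h1 := congrArg natDegree (sub_eq_zero.mp h)
    rw [natDegree_pow, natDegree_map, natDegree_C] at h1
    omega
  have hξP : ξ ^ 2 = evM R M x ((w.map (algebraMap F (AlgebraicClosure k))) ^ 2 -
      C (c₀ : AlgebraicClosure k)) := by
    rw [map_sub, map_pow, evM_C, hξ]
  have hξ0 : ξ ≠ 0 := by
    intro h
    rw [h, zero_pow two_ne_zero] at hξP
    exact evM_ne_zero R x hx hw0 hξP.symm
  have hξint : IsIntegral R ξ := by
    refine IsIntegral.of_pow (n := 2) (by norm_num) ?_
    rw [hξP, ← coe_evB]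
    exact (evB R x _).2
  have hWint : IsIntegral R W := by
    rw [hWdef, ← coe_evB]
    exact (evB R x _).2
  have hWfix : ∀ σ ∈ F.fixingSubgroup, s σ W = W := fun σ hσ => gal_evM R s hsec x σ F hσ w
  obtain ⟨L, hFL, hLfin, hLnf, hLξ, hcase'⟩ := exists_field s hs hsec F W ξ hWfix hξ0 hξint.tower_top c₀
    hξ hcase
  let P : L[X] := C 2 * w.map (IntermediateField.inclusion hFL : F →+* L)
  have hP : 0 < P.natDegree := by
    rw [natDegree_C_mul two_ne_zero, natDegree_map]
    exact hw
  let e : integralClosure R M := ⟨W + ξ, hWint.add hξint⟩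
  let e' : integralClosure R M := ⟨W - ξ, hWint.sub hξint⟩
  have hc₀M : algebraMap (AlgebraicClosure k) M (c₀ : AlgebraicClosure k) ≠ 0 := by
    rw [_root_.map_ne_zero]
    exact fun h => hc₀ (Subtype.ext h)
  have hee' : (e : M) * e' = algebraMap (AlgebraicClosure k) M
      ((IntermediateField.inclusion hFL c₀ : L) : AlgebraicClosure k) := by
    change (W + ξ) * (W - ξ) = algebraMap (AlgebraicClosure k) M (c₀ : AlgebraicClosure k)
    linear_combination -hξ
  have heinv : IsIntegral R (e : M)⁻¹ := by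
    have h1 : (e : M)⁻¹ = e' * algebraMap (AlgebraicClosure k) M (c₀ : AlgebraicClosure k)⁻¹ := by
      apply inv_eq_of_mul_eq_one_right
      rw [← mul_assoc, hee', map_inv₀]
      exact mul_inv_cancel₀ hc₀M
    rw [h1]
    exact e'.2.mul (const_int R _)
  have hfixL : ∀ σ ∈ L.fixingSubgroup, s σ (e : M) = e := by
    intro σ hσ
    have hσF : σ ∈ F.fixingSubgroup := by
      rw [IntermediateField.mem_fixingSubgroup_iff] at hσ ⊢
      exact fun x hx => hσ x (hFL hx)
    change s σ (W + ξ) = W + ξ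
    rw [map_add, hWfix σ hσF, hLξ σ hσ]
  have hrel : (e : M) + e' = P.eval₂ (cM L M) (algebraMap R M x) := by
    change (W + ξ) + (W - ξ) = _
    simp only [P]
    rw [eval₂_mul, eval₂_C, eval₂_map, map_ofNat]
    have h1 : W = w.eval₂ ((cM L M).comp (IntermediateField.inclusion hFL : F →+* L)) (algebraMap R M x) := by
      rw [hWdef]
      change eval₂ _ _ (w.map _) = _
      rw [eval₂_map]
      rfl
    rw [← h1]
    ring
  obtain ⟨χ, hχ, h⟩ := finite_values R s hs hsec ∅ (fun v => ι v.1) (fun v => φ v.1) (fun v => hφ v.1) L e e'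
    (IntermediateField.inclusion hFL c₀) (fun h => hc₀
      ((IntermediateField.inclusion hFL).toRingHom.injective (h.trans (map_zero _).symm))) hee'
    (fun n hn => Full.root_of_unit hmax _ e.2 heinv n hn) hfixL x P hP hrel hcase' T N hN
    (fun v hv y z => hint v.1 hv y z)
  exact ⟨χ, hχ, fun v => h ⟨v, Finset.notMem_empty v⟩⟩

end

end Pool.Agent.Lib.MP_2f3286_ag.PA
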