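import Pool.Agent.Lib.MP_2f3286_ag.PA.SData

/-!
# Selmer sets: the classes of a section and local solubility
-/

open IsDedekindDomain NumberField IntermediateField Polynomial

namespace Pool.Agent.Lib.MP_2f3286_ag.PA

universe u

/-- over the field `F` some point `(t, u)` of `m u ^ 2 = f(t)` has the class `d`: `t - α` is `d(α)` times a square
of `F(α)`, for each root `α` of `f` -/
def IsLocClass {k : Type*} [Field k] (F : Type*) {Fb : Type*} [Field F] [Field Fb] [Algebra F Fb]
    (ι : AlgebraicClosure k →+* Fb) (f : k[X]) (m : k)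
    (d : AlgebraicClosure k → AlgebraicClosure k) : Prop :=
  ∃ t u : F, ι (algebraMap k (AlgebraicClosure k) m) * algebraMap F Fb u ^ 2 =
      f.eval₂ (ι.comp (algebraMap k (AlgebraicClosure k))) (algebraMap F Fb t) ∧
    ∀ α, aeval α f = 0 → ∃ b ∈ IntermediateField.adjoin F {ι α},
      algebraMap F Fb t - ι α = ι (d α) * b ^ 2

/-- each class in the Selmer set of `m y ^ 2 = f(x)` is trivial enough on some pair of roots -/
def SelmerCond (k : Type*) [Field k] [NumberField k] (f : k[X]) (m : k) : Prop :=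
  ∀ d : AlgebraicClosure k → AlgebraicClosure k,
    (∀ α, aeval α f = 0 → d α ≠ 0 ∧ ∀ σ : Gal(AlgebraicClosure k/k), d (σ α) = σ (d α)) →
    (∃ q : k, algebraMap k (AlgebraicClosure k) (q ^ 2) = algebraMap k _ (m * f.leadingCoeff) *
      ((f.aroots (AlgebraicClosure k)).map d).prod) →
    (∀ v : HeightOneSpectrum (𝓞 k), ∃ ι : AlgebraicClosure k →ₐ[k] AlgebraicClosure (v.adicCompletion k),
      IsLocClass (v.adicCompletion k) (ι : _ →+* AlgebraicClosure (v.adicCompletion k)) f m d) →
    (∀ τ : AlgebraicClosure k →+* ℂ, (∀ a : k, starRingEnd ℂ (τ (algebraMap k _ a)) = τ (algebraMap k _ a)) →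
      IsLocClass ℝ τ f m d) →
    ∃ (E : IntermediateField k (AlgebraicClosure k)) (_ : FiniteDimensional k E)
      (α β δ w : AlgebraicClosure k), aeval α f = 0 ∧ aeval β f = 0 ∧ α ≠ β ∧ δ ∈ E ∧ δ ≠ 0 ∧
      w ^ 2 = δ * (d α * d β) ∧
      (∀ σ ∈ E.fixingSubgroup, (σ α = α ∧ σ β = β) ∨ (σ α = β ∧ σ β = α) → σ w = w) ∧
      ((δ = 1 ∧ Nat.card (InfinitePlace E) = 1) ∨
        ∀ τ : AlgebraicClosure k →+* ℂ, (∀ a ∈ E, starRingEnd ℂ (τ a) = τ a) ∧ (τ δ).re < 0)

section

variable {k : Type u} [Field k] [NumberField k]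
    {K : Type*} [Field K] [Algebra k K]
    (R : Subalgebra k K)
    {M : Type*} [Field M] [Algebra K M]
    [Algebra (AlgebraicClosure k) M] [Algebra k M]
    [IsScalarTower k K M] [IsScalarTower k (AlgebraicClosure k) M]

/-- the local class of a section which is that of a point over `F` -/
theorem isLocClass_of_respects {F Fb : Type*} [Field F] [Field Fb] [Algebra F Fb] [IsGalois F Fb]
    (ι : AlgebraicClosure k →+* Fb)
    (hk : ∀ a : k, ∃ y : F, algebraMap F Fb y = ι (algebraMap k (AlgebraicClosure k) a))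
    (s : Gal(AlgebraicClosure k/k) →* Gal(M/K))
    (φ : integralClosure R M →+* Fb) (hφ : Respects s F ι φ)
    (f : k[X]) (m : k) (x y : R)
    (hy : algebraMap (AlgebraicClosure k) M (algebraMap k _ m) * algebraMap R M y ^ 2 =
      evM R M x (f.map (algebraMap k (AlgebraicClosure k))))
    (g : AlgebraicClosure k → M) (d : AlgebraicClosure k → AlgebraicClosure k)
    (heq : EqvRoots R s 2 f x g d) : IsLocClass F ι f m d := by
  have hres : ∀ τ : Gal(Fb/F), ∃ σ : Gal(AlgebraicClosure k/k), ∀ a, ι (σ a) = τ (ι a) := by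
    intro τ
    refine exists_restrict' (k := k) ι (τ : Fb →+* Fb) fun a => ?_
    obtain ⟨y, hy⟩ := hk a
    rw [← hy]
    exact τ.commutes y
  have hR : ∀ r : R, ∃ y : F, algebraMap F Fb y = φ (algebraMap R (integralClosure R M) r) := by
    intro r
    apply mem_of_fixed
    intro τ
    obtain ⟨σ, hσ⟩ := hres τ
    refine (hφ.2 σ τ hσ _ _ ?_).symm
    exact (AlgEquiv.commutes (s σ) (r : K)).symm
  obtain ⟨t, ht⟩ := hR x
  obtain ⟨u, hu⟩ := hR y
  refine ⟨t, u, ?_, fun α hα => ?_⟩
  · rw [ht, hu]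
    have h1 : constB R (algebraMap k (AlgebraicClosure k) m) * algebraMap R (integralClosure R M) y ^ 2 =
        evB R x (f.map (algebraMap k (AlgebraicClosure k))) := by
      apply Subtype.ext
      rw [coe_evB]
      exact hy
    have h2 := congrArg φ h1
    rw [map_mul, map_pow, hφ.1 (algebraMap k (AlgebraicClosure k) m) _ rfl, pt_evB R x ι φ hφ.1,
      eval₂_map] at h2
    exact h2
  · have hd0 := heq.d0 α hα
    have hint : IsIntegral R (g α) := by
      refine IsIntegral.of_pow (n := 2) (by norm_num) ?_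
      have h1 : g α ^ 2 = algebraMap _ M (d α)⁻¹ * (algebraMap R M x - algebraMap _ M α) := by
        rw [← heq.eqn α hα, map_inv₀, inv_mul_cancel_left₀]
        rw [_root_.map_ne_zero]
        exact hd0
      rw [h1]
      exact (const_int R _).mul (isIntegral_algebraMap.sub (const_int R α))
    refine ⟨φ ⟨g α, hint⟩, ?_, ?_⟩
    · apply mem_of_fixed_L
      intro τ hτ
      obtain ⟨σ, hσ⟩ := hres τ
      have h1 : σ α = α := by
        apply ι.injective
        rw [hσ]
        rw [IntermediateField.mem_fixingSubgroup_iff] at hτ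
        exact hτ _ (IntermediateField.mem_adjoin_simple_self F (ι α))
      refine (hφ.2 σ τ hσ ⟨g α, hint⟩ ⟨g α, hint⟩ ?_).symm
      change g α = s σ (g α)
      rw [← heq.geqv α hα σ, h1]
    · have h1 : constB R (d α) * (⟨g α, hint⟩ : integralClosure R M) ^ 2 =
          algebraMap R (integralClosure R M) x - constB R α := by
        apply Subtype.ext
        exact heq.eqn α hα
      have h2 := congrArg φ h1
      rw [map_mul, map_pow, hφ.1 (d α) (constB R (d α)) rfl, map_sub, hφ.1 α (constB R α) rfl] at h2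
      rw [ht, h2]

/-- the product of the classes -/
theorem prod_class_square (x y : R) (hx : Transcendental k (x : K))
    (s : Gal(AlgebraicClosure k/k) →* Gal(M/K))
    (hsec : ∀ σ a, s σ (algebraMap (AlgebraicClosure k) M a) =
      algebraMap (AlgebraicClosure k) M (σ a))
    (f : k[X]) (m : k) (hf : f.Separable)
    (hy : algebraMap (AlgebraicClosure k) M (algebraMap k _ m) * algebraMap R M y ^ 2 =
      evM R M x (f.map (algebraMap k (AlgebraicClosure k))))
    (g : AlgebraicClosure k → M) (d : AlgebraicClosure k → AlgebraicClosure k)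
    (heq : EqvRoots R s 2 f x g d) :
    ∃ q : k, algebraMap k (AlgebraicClosure k) (q ^ 2) = algebraMap k _ (m * f.leadingCoeff) *
      ((f.aroots (AlgebraicClosure k)).map d).prod := by
  classical
  let S : Finset (AlgebraicClosure k) := (f.aroots (AlgebraicClosure k)).toFinset
  have hS : ∀ a, a ∈ S ↔ aeval a f = 0 := by
    intro a
    rw [Multiset.mem_toFinset, mem_aroots]
    exact ⟨fun h => h.2, fun h => ⟨hf.ne_zero, h⟩⟩
  have hinj := (algebraMap (AlgebraicClosure k) M).injective
  have hxM : ∀ a : AlgebraicClosure k, algebraMap R M x - algebraMap _ M a ≠ 0 := by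
    intro a h
    have h1 := evM_ne_zero (M := M) R x hx (X_sub_C_ne_zero a)
    rw [map_sub, evM_X, evM_C] at h1
    exact h1 h
  have hg0 : ∀ a ∈ S, g a ≠ 0 := by
    intro a ha h
    have h1 := heq.eqn a ((hS a).mp ha)
    rw [h, zero_pow two_ne_zero, mul_zero] at h1
    exact hxM a h1.symm
  have hprod : ∀ {A : Type _} [CommMonoid A] (F : AlgebraicClosure k → A),
      ((f.aroots (AlgebraicClosure k)).map F).prod = ∏ a ∈ S, F a := by
    intro A _ F
    have h2 : (f.aroots (AlgebraicClosure k)).Nodup := nodup_roots hf.map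
    have h3 : S.val = f.aroots (AlgebraicClosure k) := by
      rw [Multiset.toFinset_val, Multiset.dedup_eq_self.mpr h2]
    rw [Finset.prod_eq_multiset_prod, h3]
  have hsplit : f.map (algebraMap k (AlgebraicClosure k)) =
      C (algebraMap k (AlgebraicClosure k) f.leadingCoeff) * ∏ a ∈ S, (X - C a) := by
    have h1 : (f.map (algebraMap k (AlgebraicClosure k))).Splits := IsAlgClosed.splits _
    conv_lhs => rw [h1.eq_prod_roots]
    rw [leadingCoeff_map]
    congr 1
    exact hprod fun a => X - C a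
  have hev : evM R M x (f.map (algebraMap k (AlgebraicClosure k))) =
      algebraMap _ M (algebraMap k (AlgebraicClosure k) f.leadingCoeff) *
        ((∏ a ∈ S, algebraMap _ M (d a)) * (∏ a ∈ S, g a) ^ 2) := by
    rw [hsplit, map_mul, evM_C, map_prod, ← Finset.prod_pow, ← Finset.prod_mul_distrib]
    congr 1
    refine Finset.prod_congr rfl fun a ha => ?_
    rw [map_sub, evM_X, evM_C, heq.eqn a ((hS a).mp ha)]
  set Γ : M := ∏ a ∈ S, g a with hΓ
  have hΓ0 : Γ ≠ 0 := Finset.prod_ne_zero_iff.mpr hg0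
  set mM : M := algebraMap (AlgebraicClosure k) M (algebraMap k _ m) with hmM
  let η : M := mM * algebraMap R M y / Γ
  let c : AlgebraicClosure k := algebraMap k _ (m * f.leadingCoeff) * ∏ a ∈ S, d a
  have hη : η ^ 2 = algebraMap _ M c := by
    simp only [η, c]
    rw [div_pow, mul_pow, div_eq_iff (pow_ne_zero 2 hΓ0), pow_two mM, mul_assoc, hy, hev, map_mul, map_mul,
      map_mul, map_prod]
    ring
  obtain ⟨r, hr⟩ := IsAlgClosed.exists_pow_nat_eq c two_pos
  obtain ⟨q', hq', hqη⟩ : ∃ q' : AlgebraicClosure k, q' ^ 2 = c ∧ algebraMap _ M q' = η := by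
    have h1 : η ^ 2 = (algebraMap _ M r) ^ 2 := by rw [hη, ← map_pow, hr]
    rcases sq_eq_sq_iff_eq_or_eq_neg.mp h1 with h | h
    · exact ⟨r, hr, h.symm⟩
    · exact ⟨-r, by rw [neg_sq, hr], by rw [map_neg, h]⟩
  have hfix : ∀ σ : Gal(AlgebraicClosure k/k), σ q' = q' := by
    intro σ
    apply hinj
    rw [← hsec, hqη]
    change s σ (mM * algebraMap R M y / Γ) = _
    have h1 : s σ (algebraMap R M y) = algebraMap R M y := AlgEquiv.commutes (s σ) (y : K)
    have h2 : s σ Γ = Γ := by
      rw [hΓ, map_prod]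
      refine Finset.prod_bij' (fun a _ => σ a) (fun a _ => σ⁻¹ a)
        (fun a ha => (hS _).mpr (root_smul f σ ((hS a).mp ha)))
        (fun a ha => (hS _).mpr (root_smul f σ⁻¹ ((hS a).mp ha))) (fun a _ => ?_) (fun a _ => ?_)
        (fun a ha => ?_)
      · simp only [← AlgEquiv.mul_apply, inv_mul_cancel, AlgEquiv.one_apply]
      · simp only [← AlgEquiv.mul_apply, mul_inv_cancel, AlgEquiv.one_apply]
      · exact (heq.geqv a ((hS a).mp ha) σ).symm
    rw [map_div₀, map_mul (s σ), h1, h2, hmM, hsec, σ.commutes]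
  have hmem : q' ∈ (⊥ : IntermediateField k (AlgebraicClosure k)) := by
    rw [InfiniteGalois.mem_bot_iff_fixed]
    exact hfix
  obtain ⟨q, hq⟩ := IntermediateField.mem_bot.mp hmem
  refine ⟨q, ?_⟩
  rw [map_pow, hq, hq', hprod]

theorem isGalois_complex : IsGalois ℝ ℂ := by
  have h1 : IsAlgClosure ℝ ℂ := ⟨inferInstance, inferInstance⟩
  have h2 : Normal ℝ ℂ := IsAlgClosure.normal ℝ ℂ
  exact ⟨⟩

/-- roots of two linear functions -/
theorem sel_roots (hmax : Pt.IsRadClosed R M (AlgebraicClosure k)) (x y : R)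
    (hx : Transcendental k (x : K)) (f : k[X]) (m : k) (hf : f.Separable)
    (hy : algebraMap (AlgebraicClosure k) M (algebraMap k _ m) * algebraMap R M y ^ 2 =
      evM R M x (f.map (algebraMap k (AlgebraicClosure k))))
    (α β : AlgebraicClosure k) (hα : aeval α f = 0) (hβ : aeval β f = 0) :
    ∃ (S : (AlgebraicClosure k)[X]) (z₁ z₂ : M), z₁ ^ 2 = algebraMap R M x - algebraMap _ M α ∧
      z₂ ^ 2 = algebraMap R M x - algebraMap _ M β ∧ algebraMap R M y ^ 2 = evM R M x S := by
  have hfm : (f.map (algebraMap k (AlgebraicClosure k))) ≠ 0 :=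
    (Polynomial.map_ne_zero_iff (algebraMap k (AlgebraicClosure k)).injective).mpr hf.ne_zero
  obtain ⟨q, hq⟩ := IsAlgClosed.exists_pow_nat_eq (algebraMap k (AlgebraicClosure k) m) two_pos
  have hroot : ∀ a : AlgebraicClosure k, aeval a f = 0 →
      ∃ z : M, z ^ 2 = algebraMap R M x - algebraMap _ M a := by
    intro a ha
    refine root_linear R hmax 2 Nat.prime_two x hx _ hfm (algebraMap _ M q * algebraMap R M y)
      (by rw [mul_pow, ← map_pow, hq, hy]) a ?_
    have h1 : (f.map (algebraMap k (AlgebraicClosure k))).rootMultiplicity a ≤ 1 :=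
      rootMultiplicity_le_one_of_separable (hf.map) a
    have h2 : 0 < (f.map (algebraMap k (AlgebraicClosure k))).rootMultiplicity a := by
      rw [rootMultiplicity_pos hfm, IsRoot.def, eval_map_algebraMap]
      exact ha
    intro h3
    have h4 := Nat.le_of_dvd h2 h3
    omega
  obtain ⟨z₁, h₁⟩ := hroot α hα
  obtain ⟨z₂, h₂⟩ := hroot β hβ
  have hm : algebraMap k (AlgebraicClosure k) m ≠ 0 := by
    intro h
    rw [h, map_zero, zero_mul] at hy
    exact evM_ne_zero R x hx hfm hy.symm
  refine ⟨C (algebraMap k (AlgebraicClosure k) m)⁻¹ * f.map (algebraMap k (AlgebraicClosure k)), z₁, z₂, h₁, h₂, ?_⟩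
  rw [map_mul, evM_C, ← hy, map_inv₀, inv_mul_cancel_left₀]
  rw [_root_.map_ne_zero]
  exact hm

/-- the data of the criterion from the Selmer set -/
theorem data_of_selmer (hmax : Pt.IsRadClosed R M (AlgebraicClosure k)) (x y : R)
    (hx : Transcendental k (x : K))
    [FiniteDimensional (IntermediateField.adjoin k {(x : K)}) K] [Algebra.IsAlgebraic K M]
    (s : Gal(AlgebraicClosure k/k) →* Gal(M/K)) (hs : Continuous s)
    (hsec : ∀ σ a, s σ (algebraMap (AlgebraicClosure k) M a) =
      algebraMap (AlgebraicClosure k) M (σ a))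
    (ι : ∀ v : HeightOneSpectrum (𝓞 k),
      AlgebraicClosure k →ₐ[k] AlgebraicClosure (v.adicCompletion k))
    (φ : ∀ v : HeightOneSpectrum (𝓞 k),
      integralClosure R M →+* AlgebraicClosure (v.adicCompletion k))
    (hφ : ∀ v, Respects s (v.adicCompletion k)
      (ι v : _ →+* AlgebraicClosure (v.adicCompletion k)) (φ v))
    (hreal : ∀ τ : AlgebraicClosure k →+* ℂ,
      (∀ a : k, starRingEnd ℂ (τ (algebraMap k _ a)) = τ (algebraMap k _ a)) →
      ∃ ψ : integralClosure R M →+* ℂ, Respects s ℝ τ ψ)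
    (f : k[X]) (m : k) (hf : f.Separable)
    (hy : algebraMap (AlgebraicClosure k) M (algebraMap k _ m) * algebraMap R M y ^ 2 =
      evM R M x (f.map (algebraMap k (AlgebraicClosure k))))
    (hsel : SelmerCond k f m) : NUnitData R (M := M) s x ∧
      ∃ α β : AlgebraicClosure k, aeval α f = 0 ∧ aeval β f = 0 ∧ α ≠ β := by
  classical
  obtain ⟨r, hr⟩ := IsAlgClosed.exists_pow_nat_eq (algebraMap k (AlgebraicClosure k) m) two_pos
  obtain ⟨g, d, heq⟩ := exists_eqvRoots R hmax x hx s hs hsec 2 Nat.prime_two f hf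
    (algebraMap _ M r * algebraMap R M y) (by rw [mul_pow, ← map_pow, hr, hy])
  obtain ⟨E, hE, α, β, δ, w, h1, h2, h3, h4, h5, h6, h7, h8⟩ := hsel d
    (fun α hα => ⟨heq.d0 α hα, fun σ => heq.deqv α hα σ⟩)
    (prod_class_square R x y hx s hsec f m hf hy g d heq)
    (fun v => ⟨ι v, by
      have hchar : CharZero (v.adicCompletion k) := charZero_of_injective_algebraMap
        (algebraMap k (v.adicCompletion k)).injective
      exact isLocClass_of_respects R (ι v : _ →+* AlgebraicClosure (v.adicCompletion k))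
        (fun a => ⟨algebraMap k _ a, by
          rw [← IsScalarTower.algebraMap_apply]
          exact ((ι v).commutes a).symm⟩) s (φ v) (hφ v) f m x y hy g d heq⟩)
    (fun τ hτ => by
      obtain ⟨ψ, hψ⟩ := hreal τ hτ
      have := isGalois_complex
      exact isLocClass_of_respects R τ (fun a => ⟨(τ (algebraMap k _ a)).re, by
        exact Complex.conj_eq_iff_re.mp (hτ a)⟩) s ψ hψ f m x y hy g d heq)
  exact ⟨ndata_of_pair R x hx s hsec f hf.ne_zero g d heq E α β δ w h1 h2 h3 h4 h5 h6 h7 h8, α, β, h1, h2, h3⟩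

end

end Pool.Agent.Lib.MP_2f3286_ag.PA
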