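import Pool.Agent.Lib.MP_2f3286_ag.PA.RClassic
import Pool.Agent.Lib.MP_2f3286_ag.PA.SSet

/-!
# Two families of coprime radicals
-/

open IsDedekindDomain NumberField IntermediateField Polynomial

namespace Pool.Agent.Lib.MP_2f3286_ag.PA

universe u

section

variable {k : Type u} [Field k] [NumberField k]
    {K : Type*} [Field K] [Algebra k K]
    (R : Subalgebra k K)
    {M : Type*} [Field M] [Algebra K M]
    [Algebra (AlgebraicClosure k) M] [Algebra k M]
    [IsScalarTower k K M] [IsScalarTower k (AlgebraicClosure k) M]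

/-- the functions `x` and `y` are sums of units -/
theorem xy_mem (hmax : Pt.IsRadClosed R M (AlgebraicClosure k)) (x y : R)
    (hx : Transcendental k (x : K)) (p : ℕ) (hp : p.Prime)
    (β₁ β₂ : AlgebraicClosure k) (hne : β₁ ≠ β₂) (z₁ z₂ : M)
    (h₁ : z₁ ^ p = algebraMap R M x - algebraMap _ M β₁)
    (h₂ : z₂ ^ p = algebraMap R M x - algebraMap _ M β₂)
    (S : (AlgebraicClosure k)[X]) (hy : algebraMap R M y ^ p = evM R M x S) :
    algebraMap R M x ∈ Subring.closure {b : M | IsIntegral R b ∧ IsIntegral R b⁻¹} ∧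
    algebraMap R M y ∈ Subring.closure {b : M | IsIntegral R b ∧ IsIntegral R b⁻¹} := by
  have hxU := x_mem_p R p hp.two_le x β₁ β₂ hne z₁ z₂ h₁ h₂
  refine ⟨hxU, ?_⟩
  by_cases hS : S = 0
  · have h3 : algebraMap R M y = 0 := by
      rw [hS, map_zero] at hy
      exact (pow_eq_zero_iff hp.ne_zero).mp hy
    rw [h3]
    exact zero_mem _
  · exact y_mem_p R hmax p hp x hx S hS (algebraMap R M y) hy β₁ β₂ hne z₁ z₂ h₁ h₂

omit [NumberField k] [Algebra k M] [IsScalarTower k K M] [IsScalarTower k (AlgebraicClosure k) M] in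
theorem valueInt_map {E : IntermediateField k (AlgebraicClosure k)} [NumberField E] (P : ℤ[X]) (x : R) :
    valueInt R M (P.map (algebraMap ℤ (𝓞 E))) x = algebraMap K M (aeval (x : K) P) := by
  have h1 : algebraMap K M (aeval (x : K) P) = P.eval₂ ((algebraMap K M).comp (algebraMap ℤ K))
      (algebraMap R M x) := by
    rw [aeval_def, hom_eval₂]
    rfl
  rw [h1]
  unfold valueInt
  rw [eval₂_map]
  congr 1
  exact RingHom.ext_int _ _

/-- the family over the rational numbers -/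
theorem quad_data (hmax : Pt.IsRadClosed R M (AlgebraicClosure k)) (hk : Module.finrank ℚ k = 1)
    (s : Gal(AlgebraicClosure k/k) →* Gal(M/K)) (hs : Continuous s)
    (hsec : ∀ σ a, s σ (algebraMap (AlgebraicClosure k) M a) =
      algebraMap (AlgebraicClosure k) M (σ a))
    (ι : ∀ v : HeightOneSpectrum (𝓞 k),
      AlgebraicClosure k →ₐ[k] AlgebraicClosure (v.adicCompletion k))
    (φ : ∀ v : HeightOneSpectrum (𝓞 k),
      integralClosure R M →+* AlgebraicClosure (v.adicCompletion k))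
    (hφ : ∀ v, Respects s (v.adicCompletion k)
      (ι v : _ →+* AlgebraicClosure (v.adicCompletion k)) (φ v))
    (x y : R) (hx : Transcendental k (x : K)) (a b : ℤ) (hab : a ^ 2 ≠ 4 * b) (P A B : ℤ[X])
    (hAB : A * P + B * (X ^ 2 + C a * X + C b) = 1)
    (hy : (y : K) ^ 2 = aeval (x : K) (P * (X ^ 2 + C a * X + C b))) :
    UnitData R (M := M) s x ∧
    algebraMap R M x ∈ Subring.closure {b : M | IsIntegral R b ∧ IsIntegral R b⁻¹} ∧
    algebraMap R M y ∈ Subring.closure {b : M | IsIntegral R b ∧ IsIntegral R b⁻¹} := by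
  let E : IntermediateField k (AlgebraicClosure k) := ⊥
  have hEnf : NumberField E := NumberField.of_module_finite k _
  have hE1 : Module.finrank ℚ E = 1 := by
    have h3 := Module.finrank_mul_finrank ℚ k E
    rw [hk, IntermediateField.finrank_bot, mul_one] at h3
    exact h3.symm
  have hsurj : Function.Surjective (algebraMap ℚ E) := by
    intro z
    have h3 := Subalgebra.bot_eq_top_of_finrank_eq_one hE1
    have h4 : z ∈ (⊥ : Subalgebra ℚ E) := by rw [h3]; trivial
    exact Algebra.mem_bot.mp h4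
  have hcard : Nat.card (InfinitePlace E) = 1 := by
    classical
    have h2 := InfinitePlace.card_add_two_mul_card_eq_rank E
    rw [hE1] at h2
    have h3 := InfinitePlace.card_eq_nrRealPlaces_add_nrComplexPlaces E
    rw [Nat.card_eq_fintype_card]
    omega
  have hZinj : Function.Injective (algebraMap ℤ (𝓞 E)) := FaithfulSMul.algebraMap_injective ℤ (𝓞 E)
  have hOinj : Function.Injective (algebraMap (𝓞 E) E) := FaithfulSMul.algebraMap_injective (𝓞 E) E
  have hZsurj : Function.Surjective (algebraMap ℤ (𝓞 E)) := by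
    intro z
    obtain ⟨q, hq⟩ := hsurj (z : E)
    have h1 : IsIntegral ℤ (algebraMap ℚ E q) := by rw [hq]; exact z.isIntegral_coe
    have h2 : IsIntegral ℤ q := (isIntegral_algebraMap_iff (algebraMap ℚ E).injective).mp h1
    obtain ⟨n, hn⟩ := IsIntegrallyClosed.isIntegral_iff.mp h2
    refine ⟨n, hOinj ?_⟩
    have h3 : algebraMap (𝓞 E) E z = (z : E) := rfl
    rw [h3, ← hq, ← hn, ← IsScalarTower.algebraMap_apply, ← IsScalarTower.algebraMap_apply]
  have hcl : classNumber E = 1 := by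
    rw [classNumber_eq_one_iff]
    exact IsPrincipalIdealRing.of_surjective (algebraMap ℤ (𝓞 E)) hZsurj
  have hunits : ∀ u : (𝓞 E)ˣ, ∃ w : (𝓞 E)ˣ, (u : 𝓞 E) = (w : 𝓞 E) ^ 2 ∨ (u : 𝓞 E) = -(w : 𝓞 E) ^ 2 := by
    intro u
    obtain ⟨n, hn⟩ := hZsurj (u : 𝓞 E)
    obtain ⟨m, hm⟩ := hZsurj ((u⁻¹ : (𝓞 E)ˣ) : 𝓞 E)
    have h1 : n * m = 1 := by
      apply hZinj
      rw [map_mul, hn, hm, map_one, Units.mul_inv]
    refine ⟨1, ?_⟩
    rw [Units.val_one, one_pow, ← hn]
    rcases Int.isUnit_iff.mp (IsUnit.of_mul_eq_one m h1) with h | h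
    · left; rw [h, map_one]
    · right; rw [h, map_neg, map_one]
  let f : ℤ[X] →+* (𝓞 E)[X] := mapRingHom (algebraMap ℤ (𝓞 E))
  set Q : ℤ[X] := X ^ 2 + C a * X + C b with hQ
  have hQm : Q.Monic := by
    rw [hQ]
    monicity!
  have hQd : Q.natDegree = 2 := by
    rw [hQ]
    compute_degree!
  have hQd' : (f Q).natDegree = 2 := by
    have h1 := hQm.natDegree_map (algebraMap ℤ (𝓞 E))
    rw [hQd] at h1
    exact h1
  have hQE : (Q.map (algebraMap ℤ (𝓞 E))).map (algebraMap (𝓞 E) E) = X ^ 2 + C (a : E) * X + C (b : E) := by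
    rw [Polynomial.map_map, hQ]
    simp
  suffices hcase : ClassicalCase M 2 x y by
    obtain ⟨hdata, S, β₁, β₂, z₁, z₂, hne, e1, e2, e3⟩ :=
      classical_data R hmax s hs hsec ι φ hφ 2 Nat.prime_two x y hx hcase
    obtain ⟨h1, h2⟩ := xy_mem R hmax x y hx 2 Nat.prime_two β₁ β₂ hne z₁ z₂ e1 e2 S e3
    exact ⟨hdata, h1, h2⟩
  refine ⟨E, hEnf, f Q, 1, f P, f B, f A, 1, 0, 1, 1, 1, X + C ((a : E) / 2), (b : E) - (a : E) ^ 2 / 4,
      ⟨hcard, by rw [hcl]; norm_num, hunits, fun _ => hE1⟩, ⟨?_, ?_, ?_⟩, ?_, ⟨?_, ?_, one_ne_zero, one_dvd _, ?_, ?_⟩,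
      Or.inl ⟨?_, ?_⟩, Or.inl isUnit_one⟩
  · change (1 : E[X]) ^ 2 * (Q.map (algebraMap ℤ (𝓞 E))).map (algebraMap (𝓞 E) E) - _ = _
    rw [hQE, one_pow, one_mul, Polynomial.map_one, mul_one]
    have h4 : (C ((b : E) - (a : E) ^ 2 / 4) : E[X]) = C (b : E) - C ((a : E) / 2) ^ 2 := by
      rw [← C_pow, ← C_sub]
      congr 1
      ring
    have h5 : (C (a : E) : E[X]) = 2 * C ((a : E) / 2) := by
      rw [← C_ofNat, ← C_mul]
      congr 1
      ring
    rw [h4, h5]
    ring
  · intro h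
    apply hab
    have h2 : (((a ^ 2 : ℤ)) : E) = ((4 * b : ℤ) : E) := by
      push_cast
      linear_combination (-4) * h
    exact_mod_cast h2
  · change 0 < ((1 : E[X]) ^ 2 * (Q.map (algebraMap ℤ (𝓞 E))).map (algebraMap (𝓞 E) E)).natDegree
    rw [one_pow, one_mul, Monic.natDegree_map (hQm.map _), hQm.natDegree_map, hQd]
    norm_num
  · have h1 : (algebraMap R M y) ^ 2 = algebraMap K M (aeval (x : K) P) * algebraMap K M (aeval (x : K) Q) := by
      rw [← map_mul, ← map_mul, ← hy, map_pow]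
      rfl
    have h2 : valueInt R M (1 : (𝓞 E)[X]) x = 1 := by
      unfold valueInt
      rw [eval₂_one]
    have h3 : valueInt R M (f Q) x = algebraMap K M (aeval (x : K) Q) := valueInt_map R Q x
    have h4 : valueInt R M (f P) x = algebraMap K M (aeval (x : K) P) := valueInt_map R P x
    have h5 : algebraMap (AlgebraicClosure k) M (((1 : 𝓞 E) : E) : AlgebraicClosure k) = 1 := by
      simp
    rw [h5, one_mul, h1, h2, h3, h4]
    ring
  · rw [one_mul, ← map_mul, ← map_mul, ← map_add, add_comm, hAB, map_one, C_1]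
  · rw [one_mul, zero_mul, add_zero, C_1]
  · change (Q.map (algebraMap ℤ (𝓞 E))).leadingCoeff ∣ 1
    rw [(hQm.map _).leadingCoeff]
  · rw [leadingCoeff_one]
  · rw [hQd']
  · rw [natDegree_one]
    exact dvd_zero 2

/-- the family over imaginary quadratic fields -/
theorem norm_data (hmax : Pt.IsRadClosed R M (AlgebraicClosure k))
    (s : Gal(AlgebraicClosure k/k) →* Gal(M/K)) (hs : Continuous s)
    (hsec : ∀ σ a, s σ (algebraMap (AlgebraicClosure k) M a) =
      algebraMap (AlgebraicClosure k) M (σ a))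
    (ι : ∀ v : HeightOneSpectrum (𝓞 k),
      AlgebraicClosure k →ₐ[k] AlgebraicClosure (v.adicCompletion k))
    (φ : ∀ v : HeightOneSpectrum (𝓞 k),
      integralClosure R M →+* AlgebraicClosure (v.adicCompletion k))
    (hφ : ∀ v, Respects s (v.adicCompletion k)
      (ι v : _ →+* AlgebraicClosure (v.adicCompletion k)) (φ v))
    (p : ℕ) (hp : p.Prime) (hp2 : p ≠ 2) (x y : R) (hx : Transcendental k (x : K))
    (E : IntermediateField k (AlgebraicClosure k)) [NumberField E] (hE : Nat.card (InfinitePlace E) = 1)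
    (hcl : ¬ p ∣ classNumber E) (hun : ¬ p ∣ Nat.card (𝓞 E)ˣ)
    (F : (𝓞 E)[X]) (hF : F.Monic) (c : E ≃ₐ[k] E) (δ : 𝓞 E) (hδ : δ ≠ 0)
    (hFc : F.map (algebraMap (𝓞 E) E) - (F.map (algebraMap (𝓞 E) E)).map (c : E →+* E) = C (δ : E))
    (hw : ∀ w : HeightOneSpectrum (𝓞 E), δ ∈ w.asIdeal → ∀ a, w.valuation E (c a) = w.valuation E a)
    (hy : algebraMap R M y ^ p = evE R M x (F.map (algebraMap (𝓞 E) E)) *
      evE R M x ((F.map (algebraMap (𝓞 E) E)).map (c : E →+* E))) :
    UnitData R (M := M) s x ∧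
    algebraMap R M x ∈ Subring.closure {b : M | IsIntegral R b ∧ IsIntegral R b⁻¹} ∧
    algebraMap R M y ∈ Subring.closure {b : M | IsIntegral R b ∧ IsIntegral R b⁻¹} := by
  have hOinj : Function.Injective (algebraMap (𝓞 E) E) := FaithfulSMul.algebraMap_injective (𝓞 E) E
  -- the units are `p`-th powers
  have hunits : ∀ u : (𝓞 E)ˣ, ∃ w : (𝓞 E)ˣ, (u : 𝓞 E) = (w : 𝓞 E) ^ p ∨ (u : 𝓞 E) = -(w : 𝓞 E) ^ p := by
    intro u
    have hcop : (Nat.card (𝓞 E)ˣ).Coprime p := (Nat.coprime_comm.mp ((Nat.Prime.coprime_iff_not_dvd hp).mpr hun))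
    have hfin : Finite (𝓞 E)ˣ := Nat.finite_of_card_ne_zero fun h => hun (by rw [h]; exact dvd_zero p)
    obtain ⟨w, hw⟩ := (powCoprime hcop).surjective u
    refine ⟨w, Or.inl ?_⟩
    rw [← Units.val_pow_eq_pow_val]
    congr 1
    exact hw.symm
  -- the conjugate polynomial
  let c₀ : 𝓞 E →+* 𝓞 E := (RingOfIntegers.mapRingHom (c : E →+* E))
  have hc₀ : ∀ z : 𝓞 E, ((c₀ z : 𝓞 E) : E) = c (z : E) := fun z => rfl
  set G : (𝓞 E)[X] := F.map c₀ with hG
  have hGm : G.Monic := hF.map c₀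
  have hGE : G.map (algebraMap (𝓞 E) E) = (F.map (algebraMap (𝓞 E) E)).map (c : E →+* E) := by
    rw [hG, Polynomial.map_map, Polynomial.map_map]
    congr 1
  have hGd : G.natDegree = F.natDegree := hF.natDegree_map c₀
  have hFG : F - G = C δ := by
    apply Polynomial.map_injective _ hOinj
    rw [Polynomial.map_sub, hGE, hFc, map_C]
  have hF0 : 0 < F.natDegree := by
    by_contra h
    have h1 : F = 1 := hF.natDegree_eq_zero.mp (by omega)
    rw [hG, h1, Polynomial.map_one, sub_self] at hFG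
    exact hδ (C_injective (hFG.symm.trans C_0.symm))
  have hval : ∀ P : (𝓞 E)[X], valueInt R M P x = evE R M x (P.map (algebraMap (𝓞 E) E)) := by
    intro P
    change _ = eval₂ (algebraMap (AlgebraicClosure k) M) (algebraMap R M x)
      ((P.map (algebraMap (𝓞 E) E)).map (algebraMap E (AlgebraicClosure k)))
    rw [Polynomial.map_map, eval₂_map]
    rfl
  suffices hcase : ClassicalCase M p x y by
    obtain ⟨hdata, S, β₁, β₂, z₁, z₂, hne, e1, e2, e3⟩ :=
      classical_data R hmax s hs hsec ι φ hφ p hp x y hx hcase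
    obtain ⟨h1, h2⟩ := xy_mem R hmax x y hx p hp β₁ β₂ hne z₁ z₂ e1 e2 S e3
    exact ⟨hdata, h1, h2⟩
  refine ⟨E, inferInstance, F, G, 1, 1, -1, -1, 1, 1, δ, 1, 1, (δ : E),
      ⟨hE, hcl, hunits, fun h => absurd h hp2⟩, ⟨?_, ?_, ?_⟩, ?_, ⟨?_, ?_, hδ, one_dvd _, ?_, ?_⟩,
      ?_, Or.inr ⟨c, hGE, hw⟩⟩
  · rw [one_pow, one_mul, one_mul, hGE, hFc]
  · intro h
    exact hδ (hOinj (h.trans (map_zero _).symm))
  · rw [one_pow, one_mul, hF.natDegree_map]
    exact hF0
  · have h2 : valueInt R M (1 : (𝓞 E)[X]) x = 1 := by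
      unfold valueInt
      rw [eval₂_one]
    have h5 : algebraMap (AlgebraicClosure k) M (((1 : 𝓞 E) : E) : AlgebraicClosure k) = 1 := by
      simp
    rw [h5, one_mul, hy, h2, mul_one, hval, hval, hGE]
  · rw [one_mul, mul_one, neg_mul, one_mul, ← sub_eq_add_neg, hFG]
  · rw [mul_one, one_mul, neg_mul, one_mul, neg_add_eq_sub, hFG]
  · rw [hF.leadingCoeff]
    exact one_dvd _
  · rw [hGm.leadingCoeff]
    exact one_dvd _
  · by_cases h : p ∣ F.natDegree
    · left
      exact ⟨h, by rw [hGd]; exact h⟩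
    · right
      rw [mul_one, hF.natDegree_mul hGm, hGd, (hF.mul hGm).leadingCoeff]
      refine ⟨fun h1 => ?_, one_dvd _⟩
      rw [← two_mul] at h1
      rcases (Nat.Prime.dvd_mul hp).mp h1 with h3 | h3
      · exact hp2 ((Nat.prime_dvd_prime_iff_eq hp Nat.prime_two).mp h3)
      · exact h h3

/-- the Selmer set -/
theorem selmer_data (hmax : Pt.IsRadClosed R M (AlgebraicClosure k)) (x y : R)
    (hx : Transcendental k (x : K))
    [FiniteDimensional (IntermediateField.adjoin k {(x : K)}) K] [Algebra.IsAlgebraic K M]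
    (s : Gal(AlgebraicClosure k/k) →* Gal(M/K)) (hs : Continuous s)
    (hsec : ∀ σ a, s σ (algebraMap (AlgebraicClosure k) M a) =
      algebraMap (AlgebraicClosure k) M (σ a))
    (ι : ∀ v : HeightOneSpectrum (𝓞 k),
      AlgebraicClosure k →ₐ[k] AlgebraicClosure (v.adicCompletion k))
    (φ : ∀ v : HeightOneSpectrum (𝓞 k),
      integralClosure R M →+* AlgebraicClosure (v.adicCompletion k))
    (hφ : ∀ v, Respects s (v.adicCompletion k)
      (ι v : _ →+* AlgebraicClosure (v.adicCompletion k)) (φ v))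
    (hreal : ∀ τ : AlgebraicClosure k →+* ℂ,
      (∀ a : k, starRingEnd ℂ (τ (algebraMap k _ a)) = τ (algebraMap k _ a)) →
      ∃ ψ : integralClosure R M →+* ℂ, Respects s ℝ τ ψ)
    (f : k[X]) (m : k) (hf : f.Separable)
    (hy : algebraMap k K m * (y : K) ^ 2 = aeval (x : K) f)
    (hsel : SelmerCond k f m) : NUnitData R (M := M) s x ∧
    algebraMap R M x ∈ Subring.closure {b : M | IsIntegral R b ∧ IsIntegral R b⁻¹} ∧
    algebraMap R M y ∈ Subring.closure {b : M | IsIntegral R b ∧ IsIntegral R b⁻¹} := by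
  have hy' : algebraMap (AlgebraicClosure k) M (algebraMap k _ m) * algebraMap R M y ^ 2 =
      evM R M x (f.map (algebraMap k (AlgebraicClosure k))) := by
    have h1 : algebraMap (AlgebraicClosure k) M (algebraMap k _ m) = algebraMap K M (algebraMap k K m) := by
      rw [← IsScalarTower.algebraMap_apply, ← IsScalarTower.algebraMap_apply]
    have h2 : algebraMap R M y = algebraMap K M (y : K) := rfl
    rw [h1, h2, ← map_pow, ← map_mul, hy, aeval_def, hom_eval₂]
    change _ = eval₂ (algebraMap (AlgebraicClosure k) M) (algebraMap K M (x : K)) (f.map _)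
    rw [eval₂_map]
    congr 1
    rw [← IsScalarTower.algebraMap_eq, ← IsScalarTower.algebraMap_eq]
  obtain ⟨hdata, α, β, hα, hβ, hne⟩ := data_of_selmer R hmax x y hx s hs hsec ι φ hφ hreal f m hf hy' hsel
  obtain ⟨S, z₁, z₂, e1, e2, e3⟩ := sel_roots R hmax x y hx f m hf hy' α β hα hβ
  obtain ⟨h1, h2⟩ := xy_mem R hmax x y hx 2 Nat.prime_two α β hne z₁ z₂ e1 e2 S e3
  exact ⟨hdata, h1, h2⟩

end

end Pool.Agent.Lib.MP_2f3286_ag.PA
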