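import Pool.Agent.Lib.MP_2f3286_ag.PA.Crit
import Pool.Agent.Lib.MP_2f3286_ag.GU.Final

/-!
# The criterion
-/

open IsDedekindDomain NumberField IntermediateField Polynomial

namespace Pool.Agent.Lib.MP_2f3286_ag.PA

open Full

universe u

section

variable {k : Type u} [Field k] [NumberField k]
    {K : Type*} [Field K] [Algebra k K]
    (R : Subalgebra k K)
    {M : Type*} [Field M] [Algebra K M] [IsGalois K M]
    [Algebra (AlgebraicClosure k) M] [Algebra k M]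
    [IsScalarTower k K M] [IsScalarTower k (AlgebraicClosure k) M]

/-- two square roots of linear functions -/
theorem exists_two_sqrt (hmax : Pt.IsRadClosed R M (AlgebraicClosure k)) (x : R)
    (hx : Transcendental k (x : K)) (w : (AlgebraicClosure k)[X]) (hw : 0 < w.natDegree)
    (c₀ : AlgebraicClosure k) (hc₀ : c₀ ≠ 0) (ξ : M)
    (hξ : ξ ^ 2 = evM R M x w ^ 2 - algebraMap (AlgebraicClosure k) M c₀) :
    ∃ (β₁ β₂ : AlgebraicClosure k) (z₁ z₂ : M), β₁ ≠ β₂ ∧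
      z₁ ^ 2 = algebraMap R M x - algebraMap _ M β₁ ∧
      z₂ ^ 2 = algebraMap R M x - algebraMap _ M β₂ := by
  have hP0 : w ^ 2 - C c₀ ≠ 0 := by
    intro h
    have h1 := congrArg natDegree (sub_eq_zero.mp h)
    rw [natDegree_pow, natDegree_C] at h1
    omega
  have hξP : ξ ^ 2 = evM R M x (w ^ 2 - C c₀) := by
    rw [map_sub, map_pow, evM_C, hξ]
  obtain ⟨β₁, β₂, hne, h1, h2⟩ := exists_two_odd w hw c₀ hc₀
  obtain ⟨z₁, hz₁⟩ := sqrt_linear R hmax x hx _ hP0 ξ hξP β₁ h1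
  obtain ⟨z₂, hz₂⟩ := sqrt_linear R hmax x hx _ hP0 ξ hξP β₂ h2
  exact ⟨β₁, β₂, z₁, z₂, hne, hz₁, hz₂⟩

theorem crit_final (hRn : ∀ y : K, IsIntegral R y → y ∈ R) (hfg : R.FG)
    (x : R) (hx : Transcendental k (x : K))
    [FiniteDimensional (IntermediateField.adjoin k {(x : K)}) K]
    (hun : ∀ Ψ : integralClosure R M →+* AlgebraicClosure k,
      (∀ (a : AlgebraicClosure k) (b : integralClosure R M), (b : M) = algebraMap _ M a → Ψ b = a) →
      ∀ g ∈ geomGroup K M (AlgebraicClosure k),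
        (∀ b b' : integralClosure R M, (b' : M) = g b → Ψ b' = Ψ b) → g = 1)
    (hmax : Pt.IsRadClosed R M (AlgebraicClosure k))
    (s : Gal(AlgebraicClosure k/k) →* Gal(M/K)) (hs : Continuous s)
    (hsec : ∀ σ a, s σ (algebraMap (AlgebraicClosure k) M a) =
      algebraMap (AlgebraicClosure k) M (σ a))
    (ι : ∀ v : HeightOneSpectrum (𝓞 k),
      AlgebraicClosure k →ₐ[k] AlgebraicClosure (v.adicCompletion k))
    (φ : ∀ v : HeightOneSpectrum (𝓞 k),
      integralClosure R M →+* AlgebraicClosure (v.adicCompletion k))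
    (hφ : ∀ v, Respects s (v.adicCompletion k)
      (ι v : _ →+* AlgebraicClosure (v.adicCompletion k)) (φ v))
    (F : IntermediateField k (AlgebraicClosure k)) [FiniteDimensional k F]
    (w : F[X]) (hw : 0 < w.natDegree) (c₀ : F) (hc₀ : c₀ ≠ 0) (ξ : M)
    (hξ : ξ ^ 2 = evM R M x (w.map (algebraMap F (AlgebraicClosure k))) ^ 2 -
      algebraMap (AlgebraicClosure k) M (c₀ : AlgebraicClosure k))
    (hcase : MinusCase F s ξ ∨ PlusCase F s ξ)
    (T : Finset (HeightOneSpectrum (𝓞 k))) (N : ℕ) (hN : 1 ≤ N)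
    (hint : ∀ v ∉ T, ∀ y z : v.adicCompletion k,
      φ v (algebraMap R (integralClosure R M) x) = algebraMap _ _ y →
      Valued.v y = Valued.v z ^ N → Valued.v y ≤ 1) :
    ∃ (c₀ : k) (Δ : Subgroup Gal(AlgebraicClosure k/k))
      (Ψ : integralClosure R M →+* AlgebraicClosure k),
      IsOpen (Δ : Set Gal(AlgebraicClosure k/k)) ∧
      (∀ (a : AlgebraicClosure k) (b : integralClosure R M), (b : M) = algebraMap _ M a → Ψ b = a) ∧
      (∀ σ ∈ Δ, ∀ b b' : integralClosure R M, (b' : M) = s σ b → Ψ b' = σ (Ψ b)) ∧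
      Ψ (algebraMap R _ x) = algebraMap k _ c₀ ∧
      (∀ v, φ v (algebraMap R _ x) = ι v (algebraMap k _ c₀)) ∧
      (∀ Ψ' : integralClosure R M →+* AlgebraicClosure k,
        (∀ (a : AlgebraicClosure k) (b : integralClosure R M), (b : M) = algebraMap _ M a →
          Ψ' b = a) → (∀ r : R, Ψ' (algebraMap R _ r) = Ψ (algebraMap R _ r)) →
        (∃ Δ' : Subgroup Gal(AlgebraicClosure k/k), IsOpen (Δ' : Set Gal(AlgebraicClosure k/k)) ∧
          ∀ σ ∈ Δ', ∀ b b' : integralClosure R M, (b' : M) = s σ b → Ψ' b' = σ (Ψ' b)) → Ψ' = Ψ) ∧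
      ((∀ r : R, ∃ c : k, Ψ (algebraMap R _ r) = algebraMap k _ c) →
        Respects s k (RingHom.id _) Ψ) ∧
      ((∀ r : R, algebraMap R M r ∈
        Subring.closure {b : M | IsIntegral R b ∧ IsIntegral R b⁻¹}) →
        (∀ r : R, ∃ c : k, Ψ (algebraMap R _ r) = algebraMap k _ c ∧
          ∀ v, φ v (algebraMap R _ r) = ι v (algebraMap k _ c)) ∧
        ∀ Ψ' : integralClosure R M →+* AlgebraicClosure k,
          Respects s k (RingHom.id _) Ψ' → Ψ' = Ψ) := by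
  have hc₀' : (c₀ : AlgebraicClosure k) ≠ 0 := fun h => hc₀ (Subtype.ext h)
  obtain ⟨β₁, β₂, z₁, z₂, hne, h1, h2⟩ := exists_two_sqrt R hmax x hx
    (w.map (algebraMap F (AlgebraicClosure k))) (by rw [natDegree_map]; exact hw) _ hc₀' ξ hξ
  have hxU := x_mem R x β₁ β₂ hne z₁ z₂ h1 h2
  obtain ⟨χ, hχ, hvan⟩ := crit_chi R s hs hsec hmax ι φ hφ x hx F w hw c₀ hc₀ ξ hξ hcase T N hN hint
  obtain ⟨d, Δ, Ψ, g1, g2, g3, g4, g5, g6, g7, g8⟩ := GU.gu_final R hRn hfg x hx hxU hun hmax s hs hsec ∅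
    (fun v => ι v.1) (fun v => φ v.1) (fun v => hφ v.1) ∅ (Finset.Subset.refl _) χ hχ (fun v _ => hvan v.1)
  have hv : ∀ v : HeightOneSpectrum (𝓞 k), v ∉ (∅ : Finset (HeightOneSpectrum (𝓞 k))) :=
    fun v => Finset.notMem_empty v
  refine ⟨d, Δ, Ψ, g1, g2, g3, g4, fun v => g5 ⟨v, hv v⟩, g6, g7, fun h => ⟨fun r => ?_, (g8 h).2⟩⟩
  obtain ⟨c, hc, hc'⟩ := (g8 h).1 r
  exact ⟨c, hc, fun v => hc' ⟨v, hv v⟩⟩

end

end Pool.Agent.Lib.MP_2f3286_ag.PA
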