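import Pool.Agent.Lib.MP_2f3286_ag.Pt.Defs

/-!
# The functions `x, y` with `y² = P(x)` are in the ring generated by the units
-/

open Polynomial

namespace Pool.Agent.Lib.MP_2f3286_ag.PA

variable {k K M kb : Type*} [Field k] [Field K] [Algebra k K] [Field M] [Algebra K M]
  [Field kb] [CharZero kb] [Algebra k kb] [IsAlgClosed kb] [Algebra.IsAlgebraic k kb] [Algebra kb M] [Algebra k M]
  [IsScalarTower k K M] [IsScalarTower k kb M] (R : Subalgebra k K)

/-- the square root of `x - α` for a simple zero `α` of `P`, if `P(x)` is a square in `R` -/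
theorem exists_sqrt_sub (hmax : Pt.IsRadClosed R M kb) (P : k[X]) (x y : R)
    (hxy : y ^ 2 = aeval x P) (α : kb) (Q : kb[X]) (hQ : P.map (algebraMap k kb) = (X - C α) * Q)
    (hα : Q.eval α ≠ 0) (hx : algebraMap R M x ≠ algebraMap kb M α) :
    ∃ z : M, z ^ 2 = algebraMap R M x - algebraMap kb M α := by
  have hBk : ∀ a : kb, IsIntegral R (algebraMap kb M a) := by
    intro a
    have htow' : IsScalarTower k R M := IsScalarTower.of_algebraMap_eq fun x => by
      rw [IsScalarTower.algebraMap_apply k K M]; rfl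
    have h1 : IsIntegral k a := Algebra.IsIntegral.isIntegral a
    have h2 : IsIntegral k (algebraMap kb M a) := h1.algebraMap
    exact h2.tower_top
  let κ : kb →+* integralClosure R M := (algebraMap kb M).codRestrict (integralClosure R M) hBk
  let x' : integralClosure R M := algebraMap R _ x
  let t : integralClosure R M := x' - κ α
  have hPx : (P.map (algebraMap k kb)).eval₂ κ x' = algebraMap R _ y ^ 2 := by
    rw [← map_pow, hxy]
    apply Subtype.ext
    have h1 : ((P.map (algebraMap k kb)).eval₂ (algebraMap kb M) (algebraMap R M x)) =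
        algebraMap R M (aeval x P) := by
      rw [eval₂_map, ← IsScalarTower.algebraMap_eq]
      have h2 : algebraMap R M (aeval x P) = algebraMap K M (aeval (x : K) P) := by
        have h3 : ((aeval x P : R) : K) = aeval (x : K) P := (aeval_algHom_apply R.val x P).symm
        rw [← h3]
        rfl
      rw [h2, ← aeval_algebraMap_apply]
      rfl
    have h2 := hom_eval₂ (P.map (algebraMap k kb)) κ (integralClosure R M).val.toRingHom x'
    refine Eq.trans h2 ?_
    exact h1
  have hmul : t * Q.eval₂ κ x' = algebraMap R _ y ^ 2 := by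
    rw [← hPx, hQ, eval₂_mul, eval₂_sub, eval₂_X, eval₂_C]
  refine hmax 2 (algebraMap R M x - algebraMap kb M α) (by norm_num) (sub_ne_zero.mpr hx) fun Ψ hΨ => ?_
  by_cases ht : Ψ t = 0
  · refine ⟨algebraMap R M y, Q.eval₂ κ x', 1, ?_, ?_, ?_⟩
    · have h1 : Ψ x' = α := by
        have h2 : Ψ t = Ψ x' - Ψ (κ α) := map_sub _ _ _
        have h3 : Ψ (κ α) = α := hΨ α (κ α) rfl
        rw [ht, h3] at h2
        exact (sub_eq_zero.mp h2.symm)
      have h4 : Ψ (Q.eval₂ κ x') = Q.eval α := by
        rw [hom_eval₂, h1]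
        have h5 : Ψ.comp κ = RingHom.id kb := RingHom.ext fun a => hΨ a (κ a) rfl
        rw [h5, eval₂_id]
      rw [h4]; exact hα
    · rw [map_one]; exact one_ne_zero
    · have h1 := congrArg Subtype.val hmul
      rw [show ((1 : integralClosure R M) : M) = 1 from rfl, mul_one]
      exact h1
  · refine ⟨1, 1, t, ?_, ht, ?_⟩
    · rw [map_one]; exact one_ne_zero
    · rw [show ((1 : integralClosure R M) : M) = 1 from rfl, mul_one, one_pow, one_mul]
      rfl

/-- If `P` is separable of degree at least two, the functions of `k[x, y]` are in the ring generated by the units. -/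
theorem gen_by_units (hmax : Pt.IsRadClosed R M kb) (P : k[X]) (hP : P.Separable)
    (hdeg : 2 ≤ P.natDegree) (x y : R) (hxy : y ^ 2 = aeval x P)
    (hx : ∀ α : kb, algebraMap R M x ≠ algebraMap kb M α)
    (hgen : ∀ r : R, (r : K) ∈ Algebra.adjoin k {(x : K), (y : K)}) :
    ∀ r : R, algebraMap R M r ∈ Subring.closure {b : M | IsIntegral R b ∧ IsIntegral R b⁻¹} := by
  classical
  have hBk : ∀ a : kb, IsIntegral R (algebraMap kb M a) := by
    intro a
    have htow' : IsScalarTower k R M := IsScalarTower.of_algebraMap_eq fun x => by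
      rw [IsScalarTower.algebraMap_apply k K M]; rfl
    have h1 : IsIntegral k a := Algebra.IsIntegral.isIntegral a
    have h2 : IsIntegral k (algebraMap kb M a) := h1.algebraMap
    exact h2.tower_top
  set C₀ := Subring.closure {b : M | IsIntegral R b ∧ IsIntegral R b⁻¹} with hC₀
  have hconst : ∀ a : kb, algebraMap kb M a ∈ C₀ := by
    intro a
    by_cases ha : a = 0
    · rw [ha, map_zero]; exact zero_mem _
    · exact Subring.subset_closure ⟨hBk a, by rw [← map_inv₀]; exact hBk _⟩
  set Pb := P.map (algebraMap k kb) with hPb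
  have hPbs : Pb.Separable := hP.map
  have hPbd : Pb.natDegree = P.natDegree := natDegree_map _
  have hP0 : Pb ≠ 0 := by
    intro h
    rw [h, natDegree_zero] at hPbd
    omega
  have hsplit : Pb.Splits := IsAlgClosed.splits Pb
  have hcard : Pb.roots.card = Pb.natDegree := hsplit.natDegree_eq_card_roots.symm
  have hnodup : Pb.roots.Nodup := nodup_roots hPbs
  have hprod : Pb = C Pb.leadingCoeff * (Pb.roots.map fun a => X - C a).prod :=
    hsplit.eq_prod_roots
  have hsq : ∀ α ∈ Pb.roots, ∃ z : M, z ^ 2 = algebraMap R M x - algebraMap kb M α := by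
    intro α hα
    obtain ⟨Q, hQ⟩ := dvd_iff_isRoot.mpr ((mem_roots hP0).mp hα)
    refine exists_sqrt_sub R hmax P x y hxy α Q hQ ?_ (hx α)
    intro h0
    obtain ⟨Q', hQ'⟩ := dvd_iff_isRoot.mpr (show Q.IsRoot α from h0)
    have h1 : (X - C α) * (X - C α) ∣ Pb := ⟨Q', by rw [hQ, hQ', mul_assoc]⟩
    have h2 := hPbs.squarefree _ h1
    exact not_isUnit_X_sub_C α h2
  have hz : ∀ α : kb, ∃ z : M, α ∈ Pb.roots → z ^ 2 = algebraMap R M x - algebraMap kb M α := by
    intro α
    by_cases hα : α ∈ Pb.roots
    · obtain ⟨z, hz⟩ := hsq α hα; exact ⟨z, fun _ => hz⟩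
    · exact ⟨0, fun h => absurd h hα⟩
  choose z hz using hz
  have hzint : ∀ α ∈ Pb.roots, IsIntegral R (z α) := by
    intro α hα
    refine IsIntegral.of_pow (n := 2) (by norm_num) ?_
    rw [hz α hα]
    exact isIntegral_algebraMap.sub (hBk α)
  have hunit : ∀ α ∈ Pb.roots, ∀ β ∈ Pb.roots, α ≠ β → z α + z β ∈ C₀ ∧ z α - z β ∈ C₀ := by
    intro α hα β hβ hαβ
    have h1 : (z α + z β) * (z α - z β) = algebraMap kb M (β - α) := by
      have h2 : (z α + z β) * (z α - z β) = z α ^ 2 - z β ^ 2 := by ring
      rw [h2, hz α hα, hz β hβ, map_sub]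
      ring
    have h0 : algebraMap kb M (β - α) ≠ 0 :=
      (_root_.map_ne_zero _).mpr (sub_ne_zero.mpr (Ne.symm hαβ))
    have ha : IsIntegral R (z α + z β) := (hzint α hα).add (hzint β hβ)
    have hb : IsIntegral R (z α - z β) := (hzint α hα).sub (hzint β hβ)
    have hc : IsIntegral R (algebraMap kb M (β - α)⁻¹) := hBk _
    have h3 : (z α + z β)⁻¹ = (z α - z β) * algebraMap kb M (β - α)⁻¹ := by
      apply inv_eq_of_mul_eq_one_right
      rw [← mul_assoc, h1, map_inv₀, mul_inv_cancel₀ h0]
    have h4 : (z α - z β)⁻¹ = (z α + z β) * algebraMap kb M (β - α)⁻¹ := by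
      apply inv_eq_of_mul_eq_one_right
      rw [← mul_assoc, mul_comm (z α - z β), h1, map_inv₀, mul_inv_cancel₀ h0]
    exact ⟨Subring.subset_closure ⟨ha, by rw [h3]; exact hb.mul hc⟩,
      Subring.subset_closure ⟨hb, by rw [h4]; exact ha.mul hc⟩⟩
  have hzmem : ∀ α ∈ Pb.roots, z α ∈ C₀ := by
    intro α hα
    obtain ⟨β, hβ, hβα⟩ : ∃ β ∈ Pb.roots, β ≠ α := by
      have h1 : 1 < Pb.roots.toFinset.card := by
        rw [Multiset.toFinset_card_of_nodup hnodup]
        omega
      obtain ⟨β, hβ, hβα⟩ := Finset.exists_mem_ne h1 α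
      exact ⟨β, Multiset.mem_toFinset.mp hβ, hβα⟩
    obtain ⟨h1, h2⟩ := hunit α hα β hβ (Ne.symm hβα)
    have h3 : (2 : kb) ≠ 0 := two_ne_zero
    have h4 : z α = algebraMap kb M 2⁻¹ * ((z α + z β) + (z α - z β)) := by
      have h5 : (algebraMap kb M 2⁻¹) * 2 = 1 := by
        have h6 : (2 : M) = algebraMap kb M 2 := (map_ofNat _ 2).symm
        rw [h6, ← map_mul, inv_mul_cancel₀ h3, map_one]
      have h7 : (z α + z β) + (z α - z β) = 2 * z α := by ring
      rw [h7, ← mul_assoc, h5, one_mul]
    rw [h4]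
    exact mul_mem (hconst _) (add_mem h1 h2)
  -- `x` and `y`
  have hxC : algebraMap R M x ∈ C₀ := by
    obtain ⟨α, hα⟩ : ∃ α, α ∈ Pb.roots := by
      refine Multiset.exists_mem_of_ne_zero ?_
      intro h
      rw [h, Multiset.card_zero] at hcard
      omega
    have h1 : algebraMap R M x = z α ^ 2 + algebraMap kb M α := by rw [hz α hα]; ring
    rw [h1]
    exact add_mem (pow_mem (hzmem α hα) 2) (hconst α)
  have hyC : algebraMap R M y ∈ C₀ := by
    obtain ⟨l, hl⟩ := IsAlgClosed.exists_pow_nat_eq Pb.leadingCoeff (n := 2) (by norm_num)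
    let w : M := algebraMap kb M l * (Pb.roots.map z).prod
    have hwC : w ∈ C₀ := by
      refine mul_mem (hconst l) (Subring.multiset_prod_mem _ _ ?_)
      intro a ha
      obtain ⟨α, hα, rfl⟩ := Multiset.mem_map.mp ha
      exact hzmem α hα
    have h1 : w ^ 2 = algebraMap R M y ^ 2 := by
      have h2 : algebraMap R M y ^ 2 = Pb.eval₂ (algebraMap kb M) (algebraMap R M x) := by
        have h3 : algebraMap R M (aeval x P) = algebraMap K M (aeval (x : K) P) := by
          have h4 : ((aeval x P : R) : K) = aeval (x : K) P := (aeval_algHom_apply R.val x P).symm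
          rw [← h4]
          rfl
        rw [← map_pow, hxy, h3, ← aeval_algebraMap_apply, hPb, eval₂_map,
          ← IsScalarTower.algebraMap_eq]
        rfl
      have h3 : (Pb.roots.map z).prod ^ 2 =
          (Pb.roots.map fun a => algebraMap R M x - algebraMap kb M a).prod := by
        rw [← Multiset.prod_map_pow]
        congr 1
        exact Multiset.map_congr rfl fun a ha => hz a ha
      have h4 : Pb.eval₂ (algebraMap kb M) (algebraMap R M x) =
          algebraMap kb M Pb.leadingCoeff *
            (Pb.roots.map fun a => algebraMap R M x - algebraMap kb M a).prod := by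
        conv_lhs => rw [hprod]
        rw [eval₂_mul, eval₂_C]
        congr 1
        change (eval₂RingHom (algebraMap kb M) (algebraMap R M x))
          (Pb.roots.map fun a => X - C a).prod = _
        rw [map_multiset_prod, Multiset.map_map]
        congr 1
        refine Multiset.map_congr rfl fun a _ => ?_
        simp
      rw [h2, h4, mul_pow, ← map_pow, hl, h3]
    rcases sq_eq_sq_iff_eq_or_eq_neg.mp h1 with h2 | h2
    · rw [← h2]; exact hwC
    · have h3 : algebraMap R M y = -w := by rw [h2, neg_neg]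
      rw [h3]; exact neg_mem hwC
  intro r
  have h1 : algebraMap R M r = algebraMap K M (r : K) := rfl
  rw [h1]
  refine Algebra.adjoin_induction (p := fun a _ => algebraMap K M a ∈ C₀) ?_ ?_ ?_ ?_ (hgen r)
  · rintro a (rfl | rfl)
    · exact hxC
    · exact hyC
  · intro a
    rw [← IsScalarTower.algebraMap_apply, IsScalarTower.algebraMap_apply k kb M]
    exact hconst _
  · intro a b _ _ ha hb
    rw [map_add]; exact add_mem ha hb
  · intro a b _ _ ha hb
    rw [map_mul]; exact mul_mem ha hb

end Pool.Agent.Lib.MP_2f3286_ag.PA
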