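import Pool.Agent.Lib.MP_2f3286_ag.PA.Cls
import Pool.Agent.Lib.MP_2f3286_ag.GU.CM

/-!
# A power of the local values of the unit is one algebraic number
-/

open IsDedekindDomain NumberField IntermediateField

namespace Pool.Agent.Lib.MP_2f3286_ag.PA

universe u

/-- a bound for the orders of the roots of unity -/
theorem exists_torsion_bound (L : Type*) [Field L] [NumberField L] :
    ∃ W : ℕ, 0 < W ∧ ∀ ζ : L, (∃ m : ℕ, 0 < m ∧ ζ ^ m = 1) → ζ ^ W = 1 := by
  classical
  have hfinT : {ζ : Lˣ | IsOfFinOrder ζ}.Finite :=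
    (K0_finite (k := L) ∅).subset fun ζ hζ => mem_K0_of_finOrder ∅ hζ
  let m := ∏ ζ ∈ hfinT.toFinset, orderOf ζ
  have hm : ∀ ζ : Lˣ, IsOfFinOrder ζ → ζ ^ m = 1 := by
    intro ζ hζ
    apply orderOf_dvd_iff_pow_eq_one.mp
    exact Finset.dvd_prod_of_mem _ (by rw [Set.Finite.mem_toFinset]; exact hζ)
  have hm0 : 0 < m := by
    rw [Nat.pos_iff_ne_zero, Finset.prod_ne_zero_iff]
    intro ζ hζ
    apply Nat.pos_iff_ne_zero.mp
    rw [Set.Finite.mem_toFinset] at hζ
    exact IsOfFinOrder.orderOf_pos hζ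
  refine ⟨m, hm0, ?_⟩
  rintro ζ ⟨n, hn, h⟩
  have hζ0 : ζ ≠ 0 := by
    rintro rfl
    rw [zero_pow hn.ne'] at h
    exact zero_ne_one h
  have h1 := hm (Units.mk0 ζ hζ0) (isOfFinOrder_iff_pow_eq_one.mpr ⟨n, hn, by
    ext; simpa using h⟩)
  have h2 := congrArg (Units.val) h1
  simpa using h2

/-- the units of a number field with one infinite place are roots of unity -/
theorem torsion_of_card_le (L : Type*) [Field L] [NumberField L] (hL : Fintype.card (InfinitePlace L) = 1)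
    (x : Lˣ) (hx : x ∈ (placesOf (k := L) ∅).Γ) : ∃ m : ℕ, 0 < m ∧ (x : L) ^ m = 1 := by
  classical
  have hcard : Fintype.card (InfinitePlace L ⊕ {v // v ∈ (∅ : Finset (HeightOneSpectrum (𝓞 L)))}) = 1 := by
    rw [Fintype.card_sum, Fintype.card_coe, hL, Finset.card_empty]
  obtain ⟨w₀, hw₀⟩ := Fintype.card_eq_one_iff.mp hcard
  have h1 := (placesOf (k := L) ∅).prod_unit hx
  have h2 : ∏ w, (placesOf (k := L) ∅).nv w x = (placesOf (k := L) ∅).nv w₀ x := by
    refine Fintype.prod_eq_single w₀ fun w hw => absurd (hw₀ w) hw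
  have hK : x ∈ (placesOf (k := L) ∅).K0 := by
    refine ⟨hx, fun w => ?_⟩
    rw [hw₀ w, ← h2, h1]
  have hfin : IsOfFinOrder x := by
    by_contra hinf
    have h3 : Set.MapsTo (fun n : ℕ => x ^ n) Set.univ
        {ζ : Lˣ | ζ ∈ (placesOf (k := L) (∅ : Finset (HeightOneSpectrum (𝓞 L)))).K0} :=
      fun n _ => pow_mem hK n
    obtain ⟨a, -, b, -, hab, heq⟩ := Set.Infinite.exists_ne_map_eq_of_mapsTo
      Set.infinite_univ h3 (K0_finite ∅)
    exact hab (injective_pow_iff_not_isOfFinOrder.mpr hinf heq)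
  obtain ⟨m, hm, h4⟩ := isOfFinOrder_iff_pow_eq_one.mp hfin
  refine ⟨m, hm, ?_⟩
  have h5 := congrArg Units.val h4
  simpa using h5

section

variable {k : Type u} [Field k] [NumberField k]
    {K : Type*} [Field K] [Algebra k K]
    (R : Subalgebra k K)
    {M : Type*} [Field M] [Algebra K M]
    [Algebra (AlgebraicClosure k) M] [Algebra k M]
    [IsScalarTower k K M] [IsScalarTower k (AlgebraicClosure k) M]

/-- the plus case: the units are roots of unity -/
theorem pow_plus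
    (L : IntermediateField k (AlgebraicClosure k)) [NumberField L]
    (hL : Fintype.card (InfinitePlace L) = 1) (G : ℕ → Lˣ)
    (y : ∀ w : HeightOneSpectrum (𝓞 L), w.adicCompletion L) (hy0 : ∀ w, y w ≠ 0)
    (hG : ∀ w, ∀ n, 1 ≤ n → ∃ h : w.adicCompletion L, algebraMap L _ (G n : L) * h ^ n = y w)
    (α : Lˣ) (hα : ∀ n, 1 ≤ n → ∃ ε ∈ (placesOf (k := L) ∅).Γ, ∃ β : Lˣ, G n = α * ε * β ^ n) :
    ∃ (D : ℕ) (g : L), 0 < D ∧ g ≠ 0 ∧ ∀ w, y w ^ D = algebraMap L (w.adicCompletion L) g := by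
  obtain ⟨W, hW0, hW⟩ := exists_torsion_bound L
  refine ⟨W, (α : L) ^ W, hW0, pow_ne_zero _ α.ne_zero, fun w => ?_⟩
  have hinj := (algebraMap L (w.adicCompletion L)).injective
  have hα0 : algebraMap L (w.adicCompletion L) (α : L) ≠ 0 := by
    rw [_root_.map_ne_zero]; exact α.ne_zero
  have key : y w ^ W / algebraMap L (w.adicCompletion L) ((α : L) ^ W) = 1 := by
    refine eq_one_of_divisible w (div_ne_zero (pow_ne_zero _ (hy0 w)) ?_) fun n hn => ?_
    · rw [map_pow]; exact pow_ne_zero _ hα0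
    · obtain ⟨h, hh⟩ := hG w n hn
      obtain ⟨ε, hε, β, hβ⟩ := hα n hn
      have h1 : (ε : L) ^ W = 1 := hW _ (torsion_of_card_le L hL ε hε)
      refine ⟨(algebraMap L (w.adicCompletion L) (β : L) * h) ^ W, ?_⟩
      rw [eq_div_iff (by rw [map_pow]; exact pow_ne_zero _ hα0), ← hh, hβ]
      have h2 : ((α * ε * β ^ n : Lˣ) : L) = (α : L) * ε * (β : L) ^ n := by simp
      have h3 : (algebraMap L (w.adicCompletion L) (ε : L)) ^ W = 1 := by
        rw [← map_pow, h1, map_one]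
      rw [h2, map_mul, map_mul, map_pow, map_pow]
      set A := algebraMap L (w.adicCompletion L)
      calc ((A (β : L) * h) ^ W) ^ n * A (α : L) ^ W
          = A (ε : L) ^ W * ((A (β : L) * h) ^ W) ^ n * A (α : L) ^ W := by rw [h3, one_mul]
        _ = _ := by ring
  rw [div_eq_one_iff_eq (by rw [map_pow]; exact pow_ne_zero _ hα0)] at key
  exact key

/-- the minus case: `L` is a CM field and the unit times its conjugate is constant -/
theorem pow_minus
    (s : Gal(AlgebraicClosure k/k) →* Gal(M/K))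
    (hsec : ∀ σ a, s σ (algebraMap (AlgebraicClosure k) M a) =
      algebraMap (AlgebraicClosure k) M (σ a))
    (L : IntermediateField k (AlgebraicClosure k)) [NumberField L]
    (c : L ≃+* L) (hc : ∀ (σ : L →+* ℂ) (x : L), σ (c x) = starRingEnd ℂ (σ x))
    (S : Finset (HeightOneSpectrum (𝓞 k)))
    (hcS : ∀ w : HeightOneSpectrum (𝓞 L), (∃ v ∈ S, w.asIdeal.LiesOver v.asIdeal) →
      ∀ x : L, w.valuation L (c x) = w.valuation L x)
    (γ : Gal(AlgebraicClosure k/k)) (hγ : ∀ l : L, γ (l : AlgebraicClosure k) = (c l : L))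
    (e : integralClosure R M) (c₀ : L) (hc₀ : c₀ ≠ 0)
    (hγe : s γ (e : M) * e = algebraMap (AlgebraicClosure k) M (c₀ : AlgebraicClosure k))
    (G : ℕ → Lˣ) (hG : HasClasses R L s e G)
    (y : ∀ w : HeightOneSpectrum (𝓞 L), w.adicCompletion L)
    (hy0 : ∀ w ∉ (finite_above (F := L) S).toFinset, y w ≠ 0)
    (hy : ∀ w ∉ (finite_above (F := L) S).toFinset,
      ∃ (ι' : AlgebraicClosure k →+* AlgebraicClosure (w.adicCompletion L))
      (φ' : integralClosure R M →+* AlgebraicClosure (w.adicCompletion L)),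
      Respects s (w.adicCompletion L) ι' φ' ∧
      (∀ l : L, ι' (l : AlgebraicClosure k) = algebraMap _ _ (algebraMap L (w.adicCompletion L) l)) ∧
      φ' e = algebraMap _ _ (y w))
    (α : Lˣ) (hα : ∀ n, 1 ≤ n → ∃ ε ∈ (placesOf (finite_above (F := L) S).toFinset).Γ,
      ∃ β : Lˣ, G n = α * ε * β ^ n) :
    ∃ (D : ℕ) (g : L), 0 < D ∧ g ≠ 0 ∧
      ∀ w ∉ (finite_above (F := L) S).toFinset, y w ^ D = algebraMap L (w.adicCompletion L) g := by
  obtain ⟨W, hW0, hW⟩ := exists_torsion_bound L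
  have hcα0 : c (α : L) ≠ 0 := by
    rw [ne_eq, EmbeddingLike.map_eq_zero_iff]; exact α.ne_zero
  have hg0 : c₀ ^ W * ((α : L) / c α) ^ W ≠ 0 :=
    mul_ne_zero (pow_ne_zero _ hc₀) (pow_ne_zero _ (div_ne_zero α.ne_zero hcα0))
  refine ⟨2 * W, c₀ ^ W * ((α : L) / c α) ^ W, by omega, hg0, fun w hw => ?_⟩
  set A := algebraMap L (w.adicCompletion L) with hA
  have hchar : CharZero (w.adicCompletion L) := charZero_of_injective_algebraMap A.injective
  obtain ⟨ι', φ', h1, h2, h3⟩ := hy w hw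
  have hBs : ∀ σ, ∀ b ∈ integralClosure R M, s σ b ∈ integralClosure R M := fun σ b hb =>
    gal_int R s σ b hb
  have h1' := Resp.translate (B := integralClosure R M) hsec hBs h1 γ
  set φ'' := φ'.comp ((s γ : M →+* M).restrict (integralClosure R M) (integralClosure R M) (hBs γ))
    with hφ''
  have h2' : ∀ l : L, (ι'.comp (γ : AlgebraicClosure k →+* AlgebraicClosure k)) (l : AlgebraicClosure k) =
      algebraMap (w.adicCompletion L) _ ((A.comp (c : L →+* L)) l) := by
    intro l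
    change ι' (γ (l : AlgebraicClosure k)) = _
    rw [hγ, h2]
    rfl
  -- the value of the conjugate
  have h4 : φ'' e * algebraMap _ _ (y w) = algebraMap (w.adicCompletion L) _ (A c₀) := by
    rw [← h3, ← h2]
    have h5 : φ'' e = φ' ⟨s γ (e : M), hBs γ _ e.2⟩ := rfl
    rw [h5, ← map_mul]
    exact h1.1 _ _ hγe
  have hinj := (algebraMap (w.adicCompletion L) (AlgebraicClosure (w.adicCompletion L))).injective
  have hval : ∀ n, 1 ≤ n → ∃ z : w.adicCompletion L,
      y w ^ 2 = A c₀ * (A (G n : L) / A (c (G n : L))) * z ^ n := by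
    intro n hn
    obtain ⟨h, hh⟩ := hG _ inferInstance hchar A ι' φ' h1 h2 n hn
    obtain ⟨h', hh'⟩ := hG _ inferInstance hchar (A.comp (c : L →+* L)) _ φ'' h1' h2' n hn
    rw [h3] at hh
    have e1 : y w = A (G n : L) * h ^ n := hinj hh
    have e2 : (A.comp (c : L →+* L)) (G n : L) * h' ^ n * y w = A c₀ := by
      apply hinj
      rw [map_mul, ← hh', h4]
    have e2' : A (c (G n : L)) * h' ^ n * y w = A c₀ := e2
    have hcG0 : A (c (G n : L)) ≠ 0 := by
      rw [_root_.map_ne_zero, ne_eq, EmbeddingLike.map_eq_zero_iff]; exact (G n).ne_zero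
    have hAc0 : A c₀ ≠ 0 := by rw [_root_.map_ne_zero]; exact hc₀
    have hh'0 : h' ≠ 0 := by
      rintro rfl
      rw [zero_pow (by omega), mul_zero, zero_mul] at e2'
      exact hAc0 e2'.symm
    refine ⟨h / h', ?_⟩
    have hpn : h' ^ n ≠ 0 := pow_ne_zero _ hh'0
    rw [div_pow]
    field_simp
    rw [← e2']
    calc y w ^ 2 * A (c (G n : L)) * h' ^ n = A (c (G n : L)) * h' ^ n * y w * y w := by ring
      _ = A (c (G n : L)) * h' ^ n * y w * (A (G n : L) * h ^ n) := by rw [← e1]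
      _ = _ := by ring
  have hAg0 : A (c₀ ^ W * ((α : L) / c α) ^ W) ≠ 0 := by rw [_root_.map_ne_zero]; exact hg0
  have key : y w ^ (2 * W) / A (c₀ ^ W * ((α : L) / c α) ^ W) = 1 := by
    refine eq_one_of_divisible w (div_ne_zero (pow_ne_zero _ (hy0 w hw)) hAg0) fun n hn => ?_
    obtain ⟨z, hz⟩ := hval n hn
    obtain ⟨ε, hε, β, hβ⟩ := hα n hn
    have h6 : ((ε : L) * (c ε)⁻¹) ^ W = 1 := by
      refine hW _ (GU.exists_pow_eq_one_of_conj c hc S hcS ε fun w' hw' => ?_)
      rw [Places.mem_Γ] at hε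
      have hwS : w' ∉ (finite_above (F := L) S).toFinset := by
        rw [Set.Finite.mem_toFinset]
        rintro ⟨v, hv, hl⟩
        exact hw' v hv hl
      have h7 : w'.valuation L (ε : L) ≤ 1 := hε.1 w' hwS
      have h8 : w'.valuation L ((ε⁻¹ : Lˣ) : L) ≤ 1 := hε.2 w' hwS
      refine le_antisymm h7 ?_
      have h9 : w'.valuation L (ε : L) * w'.valuation L ((ε⁻¹ : Lˣ) : L) = 1 := by
        rw [← map_mul, Units.mul_inv, map_one]
      rw [← h9]
      exact mul_le_of_le_one_right' h8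
    have hcε0 : c (ε : L) ≠ 0 := by
      rw [ne_eq, EmbeddingLike.map_eq_zero_iff]; exact ε.ne_zero
    have hcβ0 : c (β : L) ≠ 0 := by
      rw [ne_eq, EmbeddingLike.map_eq_zero_iff]; exact β.ne_zero
    refine ⟨(A ((β : L) / c β) * z) ^ W, ?_⟩
    rw [eq_div_iff hAg0, pow_mul, hz, hβ]
    have h10 : ((α * ε * β ^ n : Lˣ) : L) = (α : L) * ε * (β : L) ^ n := by simp
    have h11 : A ((α : L) * ε * (β : L) ^ n) / A (c ((α : L) * ε * (β : L) ^ n)) =
        A ((α : L) / c α) * A ((ε : L) * (c ε)⁻¹) * A ((β : L) / c β) ^ n := by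
      have h13 : (α : L) * ε * (β : L) ^ n / c ((α : L) * ε * (β : L) ^ n) =
          (α : L) / c α * ((ε : L) * (c ε)⁻¹) * ((β : L) / c β) ^ n := by
        rw [map_mul c, map_mul c, map_pow c, div_pow]
        field_simp
      rw [← map_div₀, h13, map_mul, map_mul, map_pow]
    rw [h10, h11]
    have h12 : A ((ε : L) * (c ε)⁻¹) ^ W = 1 := by rw [← map_pow, h6, map_one]
    rw [map_mul A (c₀ ^ W), map_pow, map_pow]
    calc ((A ((β : L) / c β) * z) ^ W) ^ n * (A c₀ ^ W * A ((α : L) / c α) ^ W)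
        = (A c₀ * (A ((α : L) / c α) * A ((β : L) / c β) ^ n) * z ^ n) ^ W := by ring
      _ = A ((ε : L) * (c ε)⁻¹) ^ W * (A c₀ * (A ((α : L) / c α) * A ((β : L) / c β) ^ n) * z ^ n) ^ W := by
          rw [h12, one_mul]
      _ = _ := by ring
  rw [div_eq_one_iff_eq hAg0] at key
  exact key

end

end Pool.Agent.Lib.MP_2f3286_ag.PA
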