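import Pool.Agent.Lib.MP_2f3286_ag.PA.RDefs
import Pool.Agent.Lib.MP_2f3286_ag.LN.Ratio

/-!
# Coprime radicals: the classical case
-/

open IsDedekindDomain NumberField IntermediateField Polynomial

namespace Pool.Agent.Lib.MP_2f3286_ag.PA

universe u

section

variable {k : Type u} [Field k] [NumberField k]
    {K : Type*} [Field K] [Algebra k K]
    (R : Subalgebra k K)
    {M : Type*} [Field M] [Algebra K M]
    [Algebra (AlgebraicClosure k) M] [Algebra k M]
    [IsScalarTower k K M] [IsScalarTower k (AlgebraicClosure k) M]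

omit [NumberField k] [Algebra k M] [IsScalarTower k K M]
    [IsScalarTower k (AlgebraicClosure k) M] in
theorem evE_eq {E : IntermediateField k (AlgebraicClosure k)} (x : R) (S : E[X]) :
    evE R M x S = S.eval₂ (LN.cE E.val M) (algebraMap R M x) := by
  change eval₂ (algebraMap (AlgebraicClosure k) M) (algebraMap R M x) (S.map (algebraMap E (AlgebraicClosure k))) = _
  rw [eval₂_map]
  rfl

/-- the class of a root exists -/
theorem exists_class_E (s : Gal(AlgebraicClosure k/k) →* Gal(M/K)) (hs : Continuous s)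
    (hsec : ∀ σ a, s σ (algebraMap (AlgebraicClosure k) M a) =
      algebraMap (AlgebraicClosure k) M (σ a))
    (E : IntermediateField k (AlgebraicClosure k)) [FiniteDimensional k E] (p : ℕ) (hp : 1 ≤ p)
    (x : R) (hx : Transcendental k (x : K)) (F : E[X]) (hF : F ≠ 0) (γ : M) (hγ : γ ^ p = evE R M x F) :
    ∃ (z : AlgebraicClosure k) (c : E), IsClass R s p E F x γ z c := by
  have hF' : F.map (algebraMap E (AlgebraicClosure k)) ≠ 0 :=
    (Polynomial.map_ne_zero_iff (algebraMap E (AlgebraicClosure k)).injective).mpr hF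
  have hγ0 : γ ≠ 0 := by
    rintro rfl
    rw [zero_pow (by omega)] at hγ
    exact evM_ne_zero R x hx hF' hγ.symm
  have hint : IsIntegral R γ := by
    refine IsIntegral.of_pow (n := p) (by omega) ?_
    rw [hγ]
    change IsIntegral R (evM R M x (F.map (algebraMap E (AlgebraicClosure k))))
    rw [← coe_evB]
    exact (evB R x _).2
  obtain ⟨z, a, hza, hz⟩ := exists_kummer_L s hs hsec E hγ0 hint.tower_top hp (fun σ hσ => by
    rw [hγ]
    exact gal_evM R s hsec x σ E hσ F)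
  refine ⟨z, a, hγ, z.ne_zero, hza, fun σ hσ => ?_⟩
  have h1 : (s σ γ / γ) ^ p = 1 := by
    rw [div_pow, ← map_pow, hγ]
    have h2 : s σ (evE R M x F) = evE R M x F := gal_evM R s hsec x σ E hσ F
    rw [h2, div_self]
    exact evM_ne_zero R x hx hF'
  obtain ⟨ζ, hζ⟩ := root_of_unity_mem (AlgebraicClosure k) M (ξ := s σ γ / γ) (n := p) (by omega) h1
  have h2 : s σ γ = algebraMap (AlgebraicClosure k) M ζ * γ := by
    rw [hζ, div_mul_cancel₀ _ hγ0]
  rw [h2, hz σ hσ ζ h2, map_mul]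
  ring

omit [NumberField k] [Algebra k M] [IsScalarTower k K M] [IsScalarTower k (AlgebraicClosure k) M] in
/-- the two notions of a class -/
theorem IsClass.toLN {s : Gal(AlgebraicClosure k/k) →* Gal(M/K)} {p : ℕ} (hp : p ≠ 0)
    {E : IntermediateField k (AlgebraicClosure k)} [NumberField E] {F : E[X]} {x : R} {γ : M}
    {z : AlgebraicClosure k} {c : E} (h : IsClass R s p E F x γ z c) (hγ : γ ≠ 0) :
    LN.IsClass E.val s p γ z c := by
  refine ⟨hγ, ?_, h.zpow, fun σ hσ => h.gal σ ?_⟩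
  · rintro rfl
    have h1 := h.zpow
    change z ^ p = 0 at h1
    exact h.z0 (pow_eq_zero_iff hp |>.mp h1)
  · rw [IntermediateField.fieldRange_val] at hσ
    exact hσ

/-- the local hypothesis of the classical case -/
def LocalData (p : ℕ) {E : IntermediateField k (AlgebraicClosure k)} [NumberField E]
    (F₁ F₂ H : E[X]) (m : E) : Prop :=
  ∀ w : HeightOneSpectrum (𝓞 E),
    (LN.GoodAt p w F₁ (F₂ * H) m ∧ LN.GoodAt p w F₂ (F₁ * H) m) ∨
    ∃ e : E ≃ₐ[k] E, F₂ = F₁.map (e : E →+* E) ∧ ∀ a, w.valuation E (e a) = w.valuation E a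

/-- the classes in the classical case -/
theorem classical_out (hmax : Pt.IsRadClosed R M (AlgebraicClosure k))
    (s : Gal(AlgebraicClosure k/k) →* Gal(M/K)) (hs : Continuous s)
    (hsec : ∀ σ a, s σ (algebraMap (AlgebraicClosure k) M a) =
      algebraMap (AlgebraicClosure k) M (σ a))
    (ι : ∀ v : HeightOneSpectrum (𝓞 k),
      AlgebraicClosure k →ₐ[k] AlgebraicClosure (v.adicCompletion k))
    (φ : ∀ v : HeightOneSpectrum (𝓞 k),
      integralClosure R M →+* AlgebraicClosure (v.adicCompletion k))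
    (hφ : ∀ v, Respects s (v.adicCompletion k)
      (ι v : _ →+* AlgebraicClosure (v.adicCompletion k)) (φ v))
    (p : ℕ) (E : IntermediateField k (AlgebraicClosure k)) [FiniteDimensional k E] [NumberField E]
    (F₁ F₂ H u v : E[X]) (δ m : E) (x y : R) (hx : Transcendental k (x : K))
    (hrad : RadData R M p E F₁ F₂ H u v δ m x y)
    (hcl : ¬ p ∣ classNumber E)
    (hu : ∀ u : (𝓞 E)ˣ, ∃ w : (𝓞 E)ˣ, (u : 𝓞 E) = (w : 𝓞 E) ^ p ∨ (u : 𝓞 E) = -(w : 𝓞 E) ^ p)
    (hloc : LocalData p F₁ F₂ H m) : ClassOut R s p E F₁ F₂ x := by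
  have hp := hrad.prime
  have hF₁ : F₁ ≠ 0 := by
    rintro rfl
    have h1 := hrad.nc
    rw [mul_zero, natDegree_zero] at h1
    exact lt_irrefl _ h1
  have hF₂ : F₂ ≠ 0 := by
    rintro rfl
    have h1 := hrad.rel
    rw [mul_zero, sub_zero] at h1
    have h2 := hrad.nc
    rw [h1, natDegree_C] at h2
    exact lt_irrefl _ h2
  have hmap : ∀ S : E[X], S ≠ 0 → S.map (algebraMap E (AlgebraicClosure k)) ≠ 0 := fun S hS =>
    (Polynomial.map_ne_zero_iff (algebraMap E (AlgebraicClosure k)).injective).mpr hS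
  have hm0 : (m : AlgebraicClosure k) ≠ 0 := fun h => hrad.m0 (Subtype.ext h)
  have hev : ∀ S T : E[X], evE R M x (S * T) = evE R M x S * evE R M x T := by
    intro S T
    change evM R M x _ = evM R M x _ * evM R M x _
    rw [Polynomial.map_mul, map_mul]
  obtain ⟨γ₁, hγ₁⟩ := root_coprime R hmax p hp.one_le x hx _ _
    (hrad.cop₁.map (mapRingHom (algebraMap E (AlgebraicClosure k)))) (hmap F₁ hF₁) _ hm0
    (algebraMap R M y) (by
      have h1 := hrad.eqn
      rw [mul_assoc, ← hev] at h1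
      exact h1)
  obtain ⟨γ₂, hγ₂⟩ := root_coprime R hmax p hp.one_le x hx _ _
    (hrad.cop₂.map (mapRingHom (algebraMap E (AlgebraicClosure k)))) (hmap F₂ hF₂) _ hm0
    (algebraMap R M y) (by
      have h1 := hrad.eqn
      rw [mul_comm (evE R M x F₁), mul_assoc, ← hev] at h1
      exact h1)
  have hγ₁' : γ₁ ^ p = evE R M x F₁ := hγ₁
  have hγ₂' : γ₂ ^ p = evE R M x F₂ := hγ₂
  have hne : ∀ (γ : M) (S : E[X]), S ≠ 0 → γ ^ p = evE R M x S → γ ≠ 0 := by
    rintro γ S hS h rfl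
    rw [zero_pow hp.ne_zero] at h
    exact evM_ne_zero R x hx (hmap S hS) h.symm
  obtain ⟨z₁, c₁, h1⟩ := exists_class_E R s hs hsec E p hp.one_le x hx F₁ hF₁ γ₁ hγ₁'
  obtain ⟨z₂, c₂, h2⟩ := exists_class_E R s hs hsec E p hp.one_le x hx F₂ hF₂ γ₂ hγ₂'
  have k1 := h1.toLN R hp.ne_zero (hne γ₁ F₁ hF₁ hγ₁')
  have k2 := h2.toLN R hp.ne_zero (hne γ₂ F₂ hF₂ hγ₂')
  have hpv : ∀ w, Fer.PV p w (c₁ / c₂) := fun w =>
    LN.ratio_pv R E.val s hsec ι φ hφ hp x y F₁ F₂ H m (by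
      rw [← evE_eq, ← evE_eq, ← evE_eq]
      exact hrad.eqn.symm) γ₁ γ₂ (by rw [← evE_eq]; exact hγ₁') (by rw [← evE_eq]; exact hγ₂')
      z₁ z₂ c₁ c₂ k1 k2 w (hloc w)
  obtain ⟨b, hb0, hb⟩ := LN.glob hp hcl hu (div_ne_zero k1.hc k2.hc) hpv
  refine ⟨γ₁, γ₂, z₁, z₂, c₁, c₂, b, h1, h2, ?_⟩
  rcases hb with hb | hb
  · left
    rw [← hb, div_mul_cancel₀ _ k2.hc]
  · right
    rw [← neg_mul, ← hb, div_mul_cancel₀ _ k2.hc]

end

theorem val_one_of_dvd {E : Type*} [Field E] [NumberField E] (w : HeightOneSpectrum (𝓞 E)) (a n : 𝓞 E)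
    (h : a ∣ n) (hn : n ∉ w.asIdeal) : w.valuation E (algebraMap (𝓞 E) E a) = 1 := by
  rw [w.valuation_of_algebraMap]
  refine le_antisymm (w.intValuation_le_one a) ?_
  by_contra hlt
  push Not at hlt
  rw [w.intValuation_lt_one_iff_mem] at hlt
  exact hn (w.asIdeal.mem_of_dvd h hlt)

theorem good_of_data {E : Type*} [Field E] [NumberField E] (p : ℕ) (F₁ G A₁ B₁ : (𝓞 E)[X]) (n m : 𝓞 E)
    (hab : A₁ * F₁ + B₁ * G = C n) (hm : m ∣ n) (hl : F₁.leadingCoeff ∣ n)
    (hdeg : p ∣ F₁.natDegree ∨ (¬ p ∣ F₁.natDegree + G.natDegree ∧ G.leadingCoeff ∣ n))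
    (w : HeightOneSpectrum (𝓞 E)) (hw : n ∉ w.asIdeal) :
    LN.GoodAt p w (F₁.map (algebraMap (𝓞 E) E)) (G.map (algebraMap (𝓞 E) E)) (algebraMap (𝓞 E) E m) := by
  have hinj : Function.Injective (algebraMap (𝓞 E) E) := FaithfulSMul.algebraMap_injective (𝓞 E) E
  have hint : ∀ (P : (𝓞 E)[X]) (i : ℕ), w.valuation E ((P.map (algebraMap (𝓞 E) E)).coeff i) ≤ 1 := by
    intro P i
    rw [coeff_map]
    exact w.valuation_le_one _
  refine ⟨hint F₁, hint G, val_one_of_dvd w m n hm hw, ?_, ⟨A₁.map (algebraMap (𝓞 E) E),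
    B₁.map (algebraMap (𝓞 E) E), algebraMap (𝓞 E) E n, hint A₁, hint B₁, val_one_of_dvd w n n dvd_rfl hw, ?_⟩, ?_⟩
  · rw [leadingCoeff_map_of_injective hinj]
    exact val_one_of_dvd w _ n hl hw
  · have h1 := congrArg (Polynomial.map (algebraMap (𝓞 E) E)) hab
    rw [Polynomial.map_add, Polynomial.map_mul, Polynomial.map_mul, map_C] at h1
    exact h1
  · rw [natDegree_map_eq_of_injective hinj, natDegree_map_eq_of_injective hinj, leadingCoeff_map_of_injective hinj]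
    rcases hdeg with h | ⟨h1, h2⟩
    · exact Or.inl h
    · exact Or.inr ⟨h1, val_one_of_dvd w _ n h2 hw⟩

/-- the local data from data over the ring of integers -/
theorem localData_of {k : Type u} [Field k] [NumberField k] (p : ℕ)
    (E : IntermediateField k (AlgebraicClosure k)) [NumberField E]
    (F₁ F₂ H A₁ B₁ A₂ B₂ : (𝓞 E)[X]) (n m : 𝓞 E) (hn : n ≠ 0)
    (hab₁ : A₁ * F₁ + B₁ * (F₂ * H) = C n) (hab₂ : A₂ * F₂ + B₂ * (F₁ * H) = C n)
    (hm : m ∣ n) (hl₁ : F₁.leadingCoeff ∣ n) (hl₂ : F₂.leadingCoeff ∣ n)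
    (hdeg : (p ∣ F₁.natDegree ∧ p ∣ F₂.natDegree) ∨
      (¬ p ∣ (F₁ * F₂ * H).natDegree ∧ (F₁ * F₂ * H).leadingCoeff ∣ n))
    (hbad : ∀ w : HeightOneSpectrum (𝓞 E), n ∈ w.asIdeal →
      ∃ e : E ≃ₐ[k] E, F₂.map (algebraMap (𝓞 E) E) = (F₁.map (algebraMap (𝓞 E) E)).map (e : E →+* E) ∧
        ∀ a, w.valuation E (e a) = w.valuation E a) :
    LocalData p (F₁.map (algebraMap (𝓞 E) E)) (F₂.map (algebraMap (𝓞 E) E))
      (H.map (algebraMap (𝓞 E) E)) (algebraMap (𝓞 E) E m) := by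
  intro w
  by_cases hw : n ∈ w.asIdeal
  · exact Or.inr (hbad w hw)
  have h0 : ∀ l : 𝓞 E, l ∣ n → l ≠ 0 := by
    rintro l h rfl
    exact hn (zero_dvd_iff.mp h)
  have hF₁ : F₁ ≠ 0 := leadingCoeff_ne_zero.mp (h0 _ hl₁)
  have hF₂ : F₂ ≠ 0 := leadingCoeff_ne_zero.mp (h0 _ hl₂)
  left
  rw [← Polynomial.map_mul, ← Polynomial.map_mul]
  constructor
  · refine good_of_data p F₁ (F₂ * H) A₁ B₁ n m hab₁ hm hl₁ ?_ w hw
    rcases hdeg with h | ⟨h1, h2⟩
    · exact Or.inl h.1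
    · right
      have hH : F₂ * H ≠ 0 := by
        intro h
        rw [mul_assoc, h, mul_zero, leadingCoeff_zero] at h2
        exact hn (zero_dvd_iff.mp h2)
      refine ⟨?_, ?_⟩
      · rw [← natDegree_mul hF₁ hH, ← mul_assoc]
        exact h1
      · refine dvd_trans ?_ h2
        rw [mul_assoc, leadingCoeff_mul F₁]
        exact dvd_mul_left _ _
  · refine good_of_data p F₂ (F₁ * H) A₂ B₂ n m hab₂ hm hl₂ ?_ w hw
    rcases hdeg with h | ⟨h1, h2⟩
    · exact Or.inl h.2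
    · right
      have h3 : F₁ * F₂ * H = F₂ * (F₁ * H) := by ring
      rw [h3] at h1 h2
      have hH : F₁ * H ≠ 0 := by
        intro h
        rw [h, mul_zero, leadingCoeff_zero] at h2
        exact hn (zero_dvd_iff.mp h2)
      refine ⟨?_, ?_⟩
      · rw [← natDegree_mul hF₂ hH]
        exact h1
      · refine dvd_trans ?_ h2
        rw [leadingCoeff_mul F₂]
        exact dvd_mul_left _ _

end Pool.Agent.Lib.MP_2f3286_ag.PA
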