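import Pool.Agent.Lib.MP_2f3286_ag.PA.RGal
import Pool.Agent.Lib.MP_2f3286_ag.PA.RClass

/-!
# Coprime radicals: the classical case in its final form
-/

open IsDedekindDomain NumberField IntermediateField Polynomial

namespace Pool.Agent.Lib.MP_2f3286_ag.PA

universe u

section

variable {k : Type u} [Field k] [NumberField k]
    {K : Type*} [Field K] [Algebra k K]
    (R : Subalgebra k K)

/-- The value in `M` of a polynomial with coefficients in the ring of integers of a subfield `E` of the algebraic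
closure of `k` at a function `x`. -/
noncomputable def valueInt (M : Type*) [Field M] [Algebra K M] [Algebra (AlgebraicClosure k) M]
    {E : IntermediateField k (AlgebraicClosure k)} (P : (𝓞 E)[X]) (x : R) : M :=
  P.eval₂ ((algebraMap (AlgebraicClosure k) M).comp ((algebraMap E (AlgebraicClosure k)).comp (algebraMap (𝓞 E) E)))
    (algebraMap R M x)

variable {R}

/-- The classical case. -/
def ClassicalCase (M : Type*) [Field M] [Algebra K M] [Algebra (AlgebraicClosure k) M] (p : ℕ) (x y : R) : Prop :=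
  ∃ (E : IntermediateField k (AlgebraicClosure k)) (_ : NumberField E)
    (F₁ F₂ H A₁ B₁ A₂ B₂ : (𝓞 E)[X]) (m n : 𝓞 E) (u v : E[X]) (δ : E),
    (Nat.card (InfinitePlace E) = 1 ∧ ¬ p ∣ classNumber E ∧
      (∀ a : (𝓞 E)ˣ, ∃ b : (𝓞 E)ˣ, (a : 𝓞 E) = (b : 𝓞 E) ^ p ∨ (a : 𝓞 E) = -(b : 𝓞 E) ^ p) ∧
      (p = 2 → Module.finrank ℚ E = 1)) ∧
    (u ^ p * F₁.map (algebraMap (𝓞 E) E) - v ^ p * F₂.map (algebraMap (𝓞 E) E) = C δ ∧ δ ≠ 0 ∧
      0 < (u ^ p * F₁.map (algebraMap (𝓞 E) E)).natDegree) ∧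
    algebraMap (AlgebraicClosure k) M (m : E) * algebraMap R M y ^ p =
      valueInt R M F₁ x * valueInt R M F₂ x * valueInt R M H x ∧
    (A₁ * F₁ + B₁ * (F₂ * H) = C n ∧ A₂ * F₂ + B₂ * (F₁ * H) = C n ∧
      n ≠ 0 ∧ m ∣ n ∧ F₁.leadingCoeff ∣ n ∧ F₂.leadingCoeff ∣ n) ∧
    ((p ∣ F₁.natDegree ∧ p ∣ F₂.natDegree) ∨
      (¬ p ∣ (F₁ * F₂ * H).natDegree ∧ (F₁ * F₂ * H).leadingCoeff ∣ n)) ∧
    (IsUnit n ∨ ∃ e : E ≃ₐ[k] E, F₂.map (algebraMap (𝓞 E) E) = (F₁.map (algebraMap (𝓞 E) E)).map (e : E →+* E) ∧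
      ∀ w : HeightOneSpectrum (𝓞 E), n ∈ w.asIdeal → ∀ a, w.valuation E (e a) = w.valuation E a)

variable (R)

/-- the classical case gives the data of the criterion -/
theorem classical_data {M : Type*} [Field M] [Algebra K M]
    [Algebra (AlgebraicClosure k) M] [Algebra k M]
    [IsScalarTower k K M] [IsScalarTower k (AlgebraicClosure k) M]
    (hmax : Pt.IsRadClosed R M (AlgebraicClosure k))
    (s : Gal(AlgebraicClosure k/k) →* Gal(M/K)) (hs : Continuous s)
    (hsec : ∀ σ a, s σ (algebraMap (AlgebraicClosure k) M a) =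
      algebraMap (AlgebraicClosure k) M (σ a))
    (ι : ∀ v : HeightOneSpectrum (𝓞 k),
      AlgebraicClosure k →ₐ[k] AlgebraicClosure (v.adicCompletion k))
    (φ : ∀ v : HeightOneSpectrum (𝓞 k),
      integralClosure R M →+* AlgebraicClosure (v.adicCompletion k))
    (hφ : ∀ v, Respects s (v.adicCompletion k)
      (ι v : _ →+* AlgebraicClosure (v.adicCompletion k)) (φ v))
    (p : ℕ) (hp : p.Prime) (x y : R) (hx : Transcendental k (x : K))
    (hcase : ClassicalCase M p x y) : UnitData R (M := M) s x ∧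
      ∃ (S : (AlgebraicClosure k)[X]) (β₁ β₂ : AlgebraicClosure k) (z₁ z₂ : M), β₁ ≠ β₂ ∧
        z₁ ^ p = algebraMap R M x - algebraMap _ M β₁ ∧ z₂ ^ p = algebraMap R M x - algebraMap _ M β₂ ∧
        algebraMap R M y ^ p = evM R M x S := by
  obtain ⟨E, hE, F₁, F₂, H, A₁, B₁, A₂, B₂, m, n, u, v, δ, ⟨hE1, hcl, hu, h2⟩, ⟨hrel, hδ, hdeg0⟩, hy,
    ⟨hab₁, hab₂, hn, hm, hl₁, hl₂⟩, hdeg, hbad⟩ := hcase
  have hfin : FiniteDimensional k E := Module.Finite.of_restrictScalars_finite ℚ k E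
  have hinj : Function.Injective (algebraMap (𝓞 E) E) := FaithfulSMul.algebraMap_injective (𝓞 E) E
  set f₁ := F₁.map (algebraMap (𝓞 E) E) with hf₁
  set f₂ := F₂.map (algebraMap (𝓞 E) E) with hf₂
  set h := H.map (algebraMap (𝓞 E) E) with hh
  have hval : ∀ P : (𝓞 E)[X], valueInt R M P x = evE R M x (P.map (algebraMap (𝓞 E) E)) := by
    intro P
    change _ = eval₂ (algebraMap (AlgebraicClosure k) M) (algebraMap R M x)
      ((P.map (algebraMap (𝓞 E) E)).map (algebraMap E (AlgebraicClosure k)))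
    rw [Polynomial.map_map, eval₂_map]
    rfl
  have hm0 : m ≠ 0 := by
    rintro rfl
    exact hn (zero_dvd_iff.mp hm)
  have hnE : algebraMap (𝓞 E) E n ≠ 0 := (map_ne_zero_iff _ hinj).mpr hn
  have hcop : ∀ A F B G : (𝓞 E)[X], A * F + B * G = C n →
      IsCoprime (F.map (algebraMap (𝓞 E) E)) (G.map (algebraMap (𝓞 E) E)) := by
    intro A F B G hab
    refine ⟨C (algebraMap (𝓞 E) E n)⁻¹ * A.map (algebraMap (𝓞 E) E),
      C (algebraMap (𝓞 E) E n)⁻¹ * B.map (algebraMap (𝓞 E) E), ?_⟩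
    rw [mul_assoc, mul_assoc, ← mul_add, ← Polynomial.map_mul, ← Polynomial.map_mul, ← Polynomial.map_add, hab,
      map_C, ← C_mul, inv_mul_cancel₀ hnE, C_1]
  have hrad : RadData R M p E f₁ f₂ h u v δ (algebraMap (𝓞 E) E m) x y := by
    refine ⟨hp, hrel, hδ, (map_ne_zero_iff _ hinj).mpr hm0, hdeg0, ?_, ?_, ?_⟩
    · have h1 := hcop _ _ _ _ hab₁
      rw [Polynomial.map_mul] at h1
      exact h1
    · have h1 := hcop _ _ _ _ hab₂
      rw [Polynomial.map_mul] at h1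
      exact h1
    · rw [hval, hval, hval] at hy
      exact hy
  have hloc : LocalData p f₁ f₂ h (algebraMap (𝓞 E) E m) := by
    refine localData_of p E F₁ F₂ H A₁ B₁ A₂ B₂ n m hn hab₁ hab₂ hm hl₁ hl₂ hdeg fun w hw => ?_
    rcases hbad with h1 | ⟨e, he, hew⟩
    · exact absurd ((Ideal.eq_top_of_isUnit_mem _ hw h1)) w.isPrime.ne_top
    · exact ⟨e, he, hew w hw⟩
  have hout := classical_out R hmax s hs hsec ι φ hφ p E f₁ f₂ h u v δ _ x y hx hrad hcl hu hloc
  have hdata : UnitData R (M := M) s x := by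
    refine data_of_out R hmax x y hx s hsec p E f₁ f₂ h u v δ _ hrad hout hE1 ?_
    by_cases hp2 : p = 2
    · right
      intro τ a
      have h3 := Subalgebra.bot_eq_top_of_finrank_eq_one (h2 hp2)
      obtain ⟨q, hq⟩ : ∃ q : ℚ, algebraMap ℚ E q = a := by
        have h4 : a ∈ (⊥ : Subalgebra ℚ E) := by rw [h3]; trivial
        exact Algebra.mem_bot.mp h4
      have h5 : (a : AlgebraicClosure k) = (q : AlgebraicClosure k) := by
        rw [← hq]
        exact map_ratCast (algebraMap E (AlgebraicClosure k)) q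
      rw [h5, map_ratCast]
      exact map_ratCast (starRingEnd ℂ) q
    · exact Or.inl hp2
  obtain ⟨γ₁, γ₂, z₁, z₂, c₁, c₂, β, k1, k2, -⟩ := hout
  obtain ⟨-, β₁, β₂, w₁, w₂, hne, e1, e2⟩ := rad_rel R hmax x y hx p E f₁ f₂ h u v δ _ hrad γ₁ γ₂ k1.γpow k2.γpow
    1 1 1 (one_pow p) (one_pow p) one_ne_zero
  have hmk : ((algebraMap (𝓞 E) E m : E) : AlgebraicClosure k) ≠ 0 := fun h => hrad.m0 (Subtype.ext h)
  refine ⟨hdata, C (((algebraMap (𝓞 E) E m : E) : AlgebraicClosure k))⁻¹ *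
    (f₁.map (algebraMap E (AlgebraicClosure k)) * f₂.map (algebraMap E (AlgebraicClosure k)) *
      h.map (algebraMap E (AlgebraicClosure k))), β₁, β₂, w₁, w₂, hne, e1, e2, ?_⟩
  have e3 : algebraMap (AlgebraicClosure k) M ((algebraMap (𝓞 E) E m : E) : AlgebraicClosure k) *
      (algebraMap R M y) ^ p = evM R M x (f₁.map (algebraMap E (AlgebraicClosure k))) *
        evM R M x (f₂.map (algebraMap E (AlgebraicClosure k))) *
        evM R M x (h.map (algebraMap E (AlgebraicClosure k))) := hrad.eqn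
  rw [map_mul, map_mul, map_mul, evM_C, ← e3, map_inv₀, inv_mul_cancel_left₀]
  rw [_root_.map_ne_zero]
  exact hmk

end

end Pool.Agent.Lib.MP_2f3286_ag.PA
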