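import Mathlib

/-!
# Roots with multiplicity prime to `p`
-/

open Polynomial

namespace Pool.Agent.Lib.MP_2f3286_ag.PA

variable {F : Type*} [Field F] [IsAlgClosed F]

/-- a polynomial is a product of powers of linear factors with small exponents and a `p`-th power -/
theorem exists_p_part (p : ℕ) (hp : 0 < p) (P : F[X]) : ∃ (O : Finset F) (g : F[X]),
    (∀ β ∈ O, ¬ p ∣ P.rootMultiplicity β) ∧
    P = (∏ β ∈ O, (X - C β) ^ (P.rootMultiplicity β % p)) * g ^ p := by
  classical
  have hs : P.Splits := IsAlgClosed.splits P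
  obtain ⟨a, ha⟩ : ∃ a : F, a ^ p = P.leadingCoeff := IsAlgClosed.exists_pow_nat_eq P.leadingCoeff hp
  refine ⟨P.roots.toFinset.filter (fun β => ¬ p ∣ P.rootMultiplicity β),
    C a * ∏ β ∈ P.roots.toFinset, (X - C β) ^ (P.rootMultiplicity β / p),
    fun β hβ => (Finset.mem_filter.mp hβ).2, ?_⟩
  have h1 : P = C P.leadingCoeff * ∏ β ∈ P.roots.toFinset, (X - C β) ^ (P.rootMultiplicity β) := by
    conv_lhs => rw [hs.eq_prod_roots]
    rw [Finset.prod_multiset_map_count]
    simp only [count_roots]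
  conv_lhs => rw [h1]
  rw [mul_pow, ← C_pow, ha, ← Finset.prod_pow, Finset.prod_filter, mul_left_comm, ← Finset.prod_mul_distrib]
  congr 1
  refine Finset.prod_congr rfl fun β _ => ?_
  split_ifs with h
  · rw [one_mul, ← pow_mul]
    congr 1
    exact (Nat.div_mul_cancel h).symm
  · rw [← pow_mul, ← pow_add]
    congr 1
    rw [mul_comm]
    exact (Nat.mod_add_div _ _).symm

/-- the degree of a polynomial all of whose roots have multiplicity divisible by `p` -/
theorem dvd_natDegree (p : ℕ) (P : F[X])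
    (h : ∀ β, p ∣ P.rootMultiplicity β) : p ∣ P.natDegree := by
  classical
  have hs : P.Splits := IsAlgClosed.splits P
  rw [hs.natDegree_eq_card_roots, ← Multiset.toFinset_sum_count_eq]
  refine Finset.dvd_sum fun β _ => ?_
  rw [count_roots]
  exact h β

/-- the degree of a polynomial with exactly one root of multiplicity not divisible by `p` -/
theorem not_dvd_natDegree (p : ℕ) (P : F[X]) (β₀ : F)
    (h₀ : ¬ p ∣ P.rootMultiplicity β₀) (h : ∀ β ≠ β₀, p ∣ P.rootMultiplicity β) :
    ¬ p ∣ P.natDegree := by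
  classical
  have hs : P.Splits := IsAlgClosed.splits P
  rw [hs.natDegree_eq_card_roots, ← Multiset.toFinset_sum_count_eq]
  intro hd
  have hmem : β₀ ∈ P.roots.toFinset := by
    by_contra h1
    rw [Multiset.mem_toFinset, ← Multiset.count_eq_zero, count_roots] at h1
    rw [h1] at h₀
    exact h₀ (dvd_zero p)
  rw [← Finset.add_sum_erase _ _ hmem] at hd
  have h2 : p ∣ ∑ x ∈ P.roots.toFinset.erase β₀, Multiset.count x P.roots := by
    refine Finset.dvd_sum fun β hβ => ?_
    rw [count_roots]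
    exact h β (Finset.ne_of_mem_erase hβ)
  have h3 := (Nat.dvd_add_iff_left h2).mpr hd
  rw [count_roots] at h3
  exact h₀ h3

/-- a difference of two `p`-th powers is not constant -/
theorem natDegree_eq_zero_of_pow_sub [CharZero F] (p : ℕ) (hp : 2 ≤ p) (a b : F[X]) (δ : F) (hδ : δ ≠ 0)
    (h : a ^ p - b ^ p = C δ) : a.natDegree = 0 ∧ b.natDegree = 0 := by
  classical
  obtain ⟨ζ, hζ⟩ : ∃ ζ : F, IsPrimitiveRoot ζ p := by
    have : NeZero (p : F) := ⟨by exact_mod_cast (by omega : p ≠ 0)⟩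
    exact HasEnoughRootsOfUnity.exists_primitiveRoot F p
  have hprod : ∀ ξ : F, ξ ^ p = 1 → IsUnit (a - C ξ * b) := by
    intro ξ hξ
    have h1 : a ^ p - (C ξ * b) ^ p = C δ := by
      rw [mul_pow, ← C_pow, hξ, C_1, one_mul, h]
    have h2 : (a - C ξ * b) ∣ C δ := by
      rw [← h1]
      exact sub_dvd_pow_sub_pow _ _ _
    exact isUnit_of_dvd_unit h2 (isUnit_C.mpr hδ.isUnit)
  have h1 := natDegree_eq_zero_of_isUnit (hprod 1 (one_pow p))
  have h2 := natDegree_eq_zero_of_isUnit (hprod ζ hζ.pow_eq_one)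
  have hζ1 : ζ - 1 ≠ 0 := sub_ne_zero.mpr (hζ.ne_one (by omega))
  have e1 := eq_C_of_natDegree_eq_zero h1
  have e2 := eq_C_of_natDegree_eq_zero h2
  have h3 : C (ζ - 1) * b = (a - C 1 * b) - (a - C ζ * b) := by
    rw [C_sub, C_1]; ring
  have h4 : b.natDegree = 0 := by
    have h5 : (C (ζ - 1) * b).natDegree = 0 := by
      rw [h3, e1, e2, ← C_sub, natDegree_C]
    rwa [natDegree_C_mul hζ1] at h5
  refine ⟨?_, h4⟩
  have h5 : a = (a - C 1 * b) + C 1 * b := by ring
  rw [h5, e1, C_1, one_mul, eq_C_of_natDegree_eq_zero h4, ← C_add, natDegree_C]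

/-- two polynomials with constant difference have two roots with multiplicity not divisible by `p` -/
theorem exists_two_roots [CharZero F] (p : ℕ) (hp : 2 ≤ p) (A B : F[X]) (δ : F) (hδ : δ ≠ 0)
    (h : A - B = C δ) (hA : 0 < A.natDegree) :
    ∃ β₁ β₂ : F, β₁ ≠ β₂ ∧ (¬ p ∣ A.rootMultiplicity β₁ ∨ ¬ p ∣ B.rootMultiplicity β₁) ∧
      (¬ p ∣ A.rootMultiplicity β₂ ∨ ¬ p ∣ B.rootMultiplicity β₂) := by
  classical
  have hBA : B = A - C δ := by rw [← h]; ring
  have hdeg : B.natDegree = A.natDegree := by rw [hBA, natDegree_sub_C]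
  have hA0 : A ≠ 0 := by rintro rfl; simp at hA
  have hB0 : B ≠ 0 := by
    intro h1
    rw [h1, natDegree_zero] at hdeg
    omega
  -- a common root is impossible
  have hcop : ∀ β, ¬ p ∣ A.rootMultiplicity β → ¬ p ∣ B.rootMultiplicity β → False := by
    intro β h1 h2
    have h3 : A.IsRoot β := by
      by_contra h4
      rw [rootMultiplicity_eq_zero h4] at h1
      exact h1 (dvd_zero p)
    have h4 : B.IsRoot β := by
      by_contra h4
      rw [rootMultiplicity_eq_zero h4] at h2
      exact h2 (dvd_zero p)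
    have h5 := congrArg (eval β) h
    rw [eval_sub, eval_C, h3, h4, sub_zero] at h5
    exact hδ h5.symm
  have hex : ∃ β₁, ¬ p ∣ A.rootMultiplicity β₁ ∨ ¬ p ∣ B.rootMultiplicity β₁ := by
    by_contra hcon
    push Not at hcon
    obtain ⟨O₁, a, hO₁, ha⟩ := exists_p_part p (by omega) A
    obtain ⟨O₂, b, hO₂, hb⟩ := exists_p_part p (by omega) B
    have e1 : O₁ = ∅ := Finset.eq_empty_iff_forall_notMem.mpr fun β hβ => hO₁ β hβ (hcon β).1
    have e2 : O₂ = ∅ := Finset.eq_empty_iff_forall_notMem.mpr fun β hβ => hO₂ β hβ (hcon β).2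
    rw [e1, Finset.prod_empty, one_mul] at ha
    rw [e2, Finset.prod_empty, one_mul] at hb
    have h1 := natDegree_eq_zero_of_pow_sub p hp a b δ hδ (by rw [← ha, ← hb, h])
    rw [ha, natDegree_pow, h1.1, mul_zero] at hA
    exact lt_irrefl _ hA
  obtain ⟨β₁, hβ₁⟩ := hex
  by_contra hcon
  push Not at hcon
  have hother : ∀ β ≠ β₁, p ∣ A.rootMultiplicity β ∧ p ∣ B.rootMultiplicity β := by
    intro β hβ
    by_contra h1
    have h2 : ¬ p ∣ A.rootMultiplicity β ∨ ¬ p ∣ B.rootMultiplicity β := by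
      by_contra h3
      push Not at h3
      exact h1 h3
    have h3 := hcon β₁ β hβ.symm hβ₁
    exact h1 ⟨h3.1, h3.2⟩
  rcases hβ₁ with h1 | h1
  · have h2 : p ∣ B.rootMultiplicity β₁ := by
      by_contra h3
      exact hcop β₁ h1 h3
    have h3 := not_dvd_natDegree p A β₁ h1 fun β hβ => (hother β hβ).1
    have h4 := dvd_natDegree p B fun β => by
      by_cases hβ : β = β₁
      · rw [hβ]; exact h2
      · exact (hother β hβ).2
    rw [hdeg] at h4
    exact h3 h4
  · have h2 : p ∣ A.rootMultiplicity β₁ := by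
      by_contra h3
      exact hcop β₁ h3 h1
    have h3 := not_dvd_natDegree p B β₁ h1 fun β hβ => (hother β hβ).2
    have h4 := dvd_natDegree p A fun β => by
      by_cases hβ : β = β₁
      · rw [hβ]; exact h2
      · exact (hother β hβ).1
    rw [← hdeg] at h4
    exact h3 h4

end Pool.Agent.Lib.MP_2f3286_ag.PA
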