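import Pool.Agent.Lib.MP_2f3286_ag.PA.Rad
import Pool.Agent.Lib.MP_2f3286_ag.PA.ROdd

/-!
# Roots of order `p` of polynomials in `x` in `M`
-/

open IsDedekindDomain NumberField IntermediateField Polynomial

namespace Pool.Agent.Lib.MP_2f3286_ag.PA

universe u

section

variable {k : Type u} [Field k] [NumberField k]
    {K : Type*} [Field K] [Algebra k K]
    (R : Subalgebra k K)
    {M : Type*} [Field M] [Algebra K M]
    [Algebra (AlgebraicClosure k) M] [Algebra k M]
    [IsScalarTower k K M] [IsScalarTower k (AlgebraicClosure k) M]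

/-- the root of one of two coprime polynomials whose product is a `p`-th power up to a constant -/
theorem root_coprime (hmax : Pt.IsRadClosed R M (AlgebraicClosure k)) (p : ℕ) (hp : 1 ≤ p) (x : R)
    (hx : Transcendental k (x : K)) (P Q : (AlgebraicClosure k)[X]) (hPQ : IsCoprime P Q) (hP : P ≠ 0)
    (m : AlgebraicClosure k) (hm : m ≠ 0) (y : M)
    (hy : algebraMap _ M m * y ^ p = evM R M x P * evM R M x Q) : ∃ ξ : M, ξ ^ p = evM R M x P := by
  refine hmax p _ hp (evM_ne_zero R x hx hP) fun Ψ hΨ => ?_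
  have hev : ∀ P : (AlgebraicClosure k)[X], Ψ (evB R x P) =
      P.eval (Ψ (algebraMap R (integralClosure R M) x)) := by
    intro P
    rw [pt_evB R x (RingHom.id _) Ψ (fun a b hb => hΨ a b hb) P, eval₂_id]
  by_cases h : P.eval (Ψ (algebraMap R (integralClosure R M) x)) = 0
  · refine ⟨y, evB R x Q, evB R x (C m), ?_, ?_, ?_⟩
    · rw [hev]
      intro h0
      obtain ⟨a, b, hab⟩ := hPQ
      have h1 := congrArg (Polynomial.eval (Ψ (algebraMap R (integralClosure R M) x))) hab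
      rw [eval_add, eval_mul, eval_mul, h, h0, mul_zero, mul_zero, add_zero, eval_one] at h1
      exact zero_ne_one h1
    · rw [hev, eval_C]; exact hm
    · rw [coe_evB, coe_evB, evM_C, ← hy, mul_comm]
  · refine ⟨1, 1, evB R x P, ?_, ?_, ?_⟩
    · rw [map_one]; exact one_ne_zero
    · rw [hev]; exact h
    · rw [coe_evB, OneMemClass.coe_one, mul_one, one_pow, one_mul]

theorem root_linear (hmax : Pt.IsRadClosed R M (AlgebraicClosure k)) (p : ℕ) (hp : p.Prime) (x : R)
    (hx : Transcendental k (x : K)) (P : (AlgebraicClosure k)[X]) (hP : P ≠ 0) (ξ : M)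
    (hξ : ξ ^ p = evM R M x P) (β : AlgebraicClosure k) (hβ : ¬ p ∣ P.rootMultiplicity β) :
    ∃ z : M, z ^ p = algebraMap R M x - algebraMap _ M β := by
  have hX : evM R M x (X - C β) = algebraMap R M x - algebraMap _ M β := by
    rw [map_sub, evM_X, evM_C]
  have hX0 : evM R M x (X - C β) ≠ 0 := evM_ne_zero R x hx (X_sub_C_ne_zero β)
  rw [← hX]
  -- exponents
  obtain ⟨a, b, hab⟩ : ∃ a b : ℕ, P.rootMultiplicity β * a = 1 + p * b := by
    have hcop : Nat.Coprime (P.rootMultiplicity β) p := ((Nat.Prime.coprime_iff_not_dvd hp).mpr hβ).symm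
    obtain ⟨a, -, ha⟩ := Nat.exists_mul_mod_eq_one_of_coprime hcop hp.one_lt
    refine ⟨a, P.rootMultiplicity β * a / p, ?_⟩
    conv_lhs => rw [← Nat.mod_add_div (P.rootMultiplicity β * a) p, ha]
  obtain ⟨Q, hQ, hQβ⟩ := exists_eq_pow_rootMultiplicity_mul_and_not_dvd P hP β
  rw [dvd_iff_isRoot, IsRoot.def] at hQβ
  refine hmax p _ hp.one_lt.le hX0 fun Ψ hΨ => ?_
  have hev : ∀ P : (AlgebraicClosure k)[X], Ψ (evB R x P) =
      P.eval (Ψ (algebraMap R (integralClosure R M) x)) := by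
    intro P
    rw [pt_evB R x (RingHom.id _) Ψ (fun a b hb => hΨ a b hb) P, eval₂_id]
  by_cases h : Ψ (algebraMap R (integralClosure R M) x) = β
  · refine ⟨ξ ^ a / evM R M x (X - C β) ^ b, evB R x (Q ^ a), 1, ?_, ?_, ?_⟩
    · rw [hev, eval_pow, h]; exact pow_ne_zero _ hQβ
    · rw [map_one]; exact one_ne_zero
    · rw [coe_evB, div_pow, ← pow_mul, mul_comm a p, pow_mul, hξ]
      have h1 : evM R M x P ^ a = evM R M x (X - C β) ^ (1 + p * b) * evM R M x (Q ^ a) := by
        conv_lhs => rw [hQ, map_mul, map_pow, mul_pow, ← pow_mul, hab]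
        rw [map_pow (evM R M x) Q]
      rw [h1]
      have h2 : (evM R M x (X - C β) ^ b) ^ p ≠ 0 := pow_ne_zero p (pow_ne_zero b hX0)
      rw [OneMemClass.coe_one, mul_one, eq_div_iff h2]
      ring
  · refine ⟨1, 1, evB R x (X - C β), ?_, ?_, ?_⟩
    · rw [map_one]; exact one_ne_zero
    · rw [hev, eval_sub, eval_X, eval_C, sub_ne_zero]
      exact h
    · rw [coe_evB, OneMemClass.coe_one, mul_one, one_pow, one_mul]

omit [NumberField k] in
/-- a difference of integral elements whose `p`-th powers differ by a constant is a unit -/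
theorem unit_of_pow_sub (S : Subring M) (A B c : M) (p : ℕ) (hc : c ≠ 0) (hcS : c⁻¹ ∈ S)
    (h : A ^ p - B ^ p = c) (hA : A ∈ S) (hB : B ∈ S) : (A - B)⁻¹ ∈ S ∧ A - B ≠ 0 := by
  obtain ⟨d, hd, hdS⟩ : ∃ d, (A - B) * d = c ∧ d ∈ S := by
    refine ⟨∑ i ∈ Finset.range p, A ^ i * B ^ (p - 1 - i), ?_, ?_⟩
    · rw [← h, ← Commute.geom_sum₂_mul (Commute.all A B), mul_comm]
    · exact sum_mem fun i _ => mul_mem (pow_mem hA _) (pow_mem hB _)
  have h0 : A - B ≠ 0 := by
    intro h0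
    rw [h0, zero_mul] at hd
    exact hc hd.symm
  refine ⟨?_, h0⟩
  have h1 : (A - B)⁻¹ = d * c⁻¹ := by
    rw [← hd, mul_inv, ← mul_assoc, mul_comm d, mul_assoc, mul_inv_cancel₀, mul_one]
    intro h2
    rw [h2, mul_zero] at hd
    exact hc hd.symm
  rw [h1]
  exact mul_mem hdS hcS

/-- two roots of linear functions -/
theorem root_mem_unit (p : ℕ) (hp : 2 ≤ p) (x : R) (β₁ β₂ : AlgebraicClosure k) (hne : β₁ ≠ β₂) (z₁ z₂ : M)
    (h₁ : z₁ ^ p = algebraMap R M x - algebraMap _ M β₁)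
    (h₂ : z₂ ^ p = algebraMap R M x - algebraMap _ M β₂) : z₁ ∈ unitRing R M := by
  have hint : ∀ z : M, ∀ β : AlgebraicClosure k, z ^ p = algebraMap R M x - algebraMap _ M β →
      IsIntegral R z := by
    intro z β hz
    refine IsIntegral.of_pow (n := p) (by omega) ?_
    rw [hz]
    exact isIntegral_algebraMap.sub (const_int R β)
  have hi₁ := hint z₁ β₁ h₁
  have hi₂ := hint z₂ β₂ h₂
  let S : Subring M := (integralClosure R M).toSubring
  obtain ⟨ζ, hζ⟩ : ∃ ζ : AlgebraicClosure k, IsPrimitiveRoot ζ p := by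
    have : NeZero (p : AlgebraicClosure k) := ⟨by exact_mod_cast (by omega : p ≠ 0)⟩
    exact HasEnoughRootsOfUnity.exists_primitiveRoot (AlgebraicClosure k) p
  have hc0 : algebraMap (AlgebraicClosure k) M (β₂ - β₁) ≠ 0 := by
    rw [_root_.map_ne_zero, sub_ne_zero]; exact hne.symm
  have hunit : ∀ ξ : AlgebraicClosure k, ξ ^ p = 1 → z₁ - algebraMap _ M ξ * z₂ ∈ unitRing R M := by
    intro ξ hξ
    have h3 : z₁ ^ p - (algebraMap _ M ξ * z₂) ^ p = algebraMap (AlgebraicClosure k) M (β₂ - β₁) := by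
      rw [mul_pow, ← map_pow, hξ, map_one, one_mul, h₁, h₂, map_sub]
      ring
    have hA : z₁ ∈ S := hi₁
    have hB : algebraMap _ M ξ * z₂ ∈ S := (const_int R ξ).mul hi₂
    obtain ⟨h4, h5⟩ := unit_of_pow_sub S z₁ (algebraMap _ M ξ * z₂) _ p hc0 (by
      rw [← map_inv₀]; exact const_int R _) h3 hA hB
    exact Subring.subset_closure ⟨hi₁.sub ((const_int R ξ).mul hi₂), h4⟩
  have hu1 := hunit 1 (one_pow p)
  have hu2 := hunit ζ hζ.pow_eq_one
  have hζ1 : ζ - 1 ≠ 0 := sub_ne_zero.mpr (hζ.ne_one (by omega))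
  have h5 : z₁ = algebraMap (AlgebraicClosure k) M (ζ - 1)⁻¹ *
      (algebraMap _ M ζ * (z₁ - algebraMap (AlgebraicClosure k) M 1 * z₂) - (z₁ - algebraMap _ M ζ * z₂)) := by
    have h6 : algebraMap (AlgebraicClosure k) M (ζ - 1) ≠ 0 := by rw [_root_.map_ne_zero]; exact hζ1
    rw [map_inv₀, eq_inv_mul_iff_mul_eq₀ h6, map_sub, map_one, one_mul]
    ring
  rw [h5]
  exact mul_mem (const_mem R _) (sub_mem (mul_mem (const_mem R _) hu1) hu2)

/-- the function `x` is a sum of units -/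
theorem x_mem_p (p : ℕ) (hp : 2 ≤ p) (x : R) (β₁ β₂ : AlgebraicClosure k) (hne : β₁ ≠ β₂) (z₁ z₂ : M)
    (h₁ : z₁ ^ p = algebraMap R M x - algebraMap _ M β₁)
    (h₂ : z₂ ^ p = algebraMap R M x - algebraMap _ M β₂) : algebraMap R M x ∈ unitRing R M := by
  have h3 : algebraMap R M x = z₁ ^ p + algebraMap _ M β₁ := by rw [h₁, sub_add_cancel]
  rw [h3]
  exact add_mem (pow_mem (root_mem_unit R p hp x β₁ β₂ hne z₁ z₂ h₁ h₂) p) (const_mem R β₁)

/-- a root of a polynomial in `x` is in the ring generated by the units -/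
theorem y_mem_p (hmax : Pt.IsRadClosed R M (AlgebraicClosure k)) (p : ℕ) (hp : p.Prime) (x : R)
    (hx : Transcendental k (x : K)) (P : (AlgebraicClosure k)[X]) (hP : P ≠ 0) (y : M)
    (hy : y ^ p = evM R M x P) (β₁ β₂ : AlgebraicClosure k) (hne : β₁ ≠ β₂) (z₁ z₂ : M)
    (h₁ : z₁ ^ p = algebraMap R M x - algebraMap _ M β₁)
    (h₂ : z₂ ^ p = algebraMap R M x - algebraMap _ M β₂) : y ∈ unitRing R M := by
  classical
  have hxU := x_mem_p R p hp.two_le x β₁ β₂ hne z₁ z₂ h₁ h₂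
  have hpoly : ∀ Q : (AlgebraicClosure k)[X], evM R M x Q ∈ unitRing R M := by
    intro Q
    induction Q using Polynomial.induction_on with
    | C a => rw [evM_C]; exact const_mem R a
    | add p q hp hq => rw [map_add]; exact add_mem hp hq
    | monomial n a _ => rw [map_mul, map_pow, evM_X, evM_C]; exact mul_mem (const_mem R a) (pow_mem hxU _)
  obtain ⟨O, g, hO, hg⟩ := exists_p_part p hp.pos P
  choose! z hz using fun (β : AlgebraicClosure k) (hβ : β ∈ O) =>
    root_linear R hmax p hp x hx P hP y hy β (hO β hβ)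
  have hzU : ∀ β ∈ O, z β ∈ unitRing R M := by
    intro β hβ
    by_cases h : β = β₁
    · exact root_mem_unit R p hp.two_le x β β₂ (by rw [h]; exact hne) _ z₂ (hz β hβ) h₂
    · exact root_mem_unit R p hp.two_le x β β₁ h _ z₁ (hz β hβ) h₁
  set Y : M := (∏ β ∈ O, z β ^ (P.rootMultiplicity β % p)) * evM R M x g with hY
  have hYU : Y ∈ unitRing R M := mul_mem (prod_mem fun β hβ => pow_mem (hzU β hβ) _) (hpoly g)
  have h3 : y ^ p = Y ^ p := by
    rw [hy, hY]
    conv_lhs => rw [hg]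
    rw [map_mul, map_prod, map_pow, mul_pow, ← Finset.prod_pow]
    congr 1
    refine Finset.prod_congr rfl fun β hβ => ?_
    rw [← pow_mul, mul_comm, pow_mul, hz β hβ, map_pow, map_sub, evM_X, evM_C]
  -- the quotient is a root of unity
  have hy0 : y ≠ 0 := by
    rintro rfl
    rw [zero_pow hp.ne_zero] at hy
    exact evM_ne_zero R x hx hP hy.symm
  have hY0 : Y ≠ 0 := by
    intro h
    rw [h, zero_pow hp.ne_zero] at h3
    exact pow_ne_zero _ hy0 h3
  have h4 : (y / Y) ^ p = 1 := by rw [div_pow, h3, div_self (pow_ne_zero _ hY0)]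
  have h5 : ∃ ζ : AlgebraicClosure k, algebraMap _ M ζ = y / Y := by
    have h6 : (X ^ p - C 1 : (AlgebraicClosure k)[X]).eval₂ (algebraMap (AlgebraicClosure k) M) (y / Y) = 0 := by
      rw [eval₂_sub, eval₂_pow, eval₂_X, eval₂_C, map_one, h4, sub_self]
    obtain ⟨ζ, -, hζ⟩ := root_mem (algebraMap (AlgebraicClosure k) M)
      (X_pow_sub_C_ne_zero hp.pos (1 : AlgebraicClosure k)) h6
    exact ⟨ζ, hζ⟩
  obtain ⟨ζ, hζ⟩ := h5
  have h6 : y = algebraMap _ M ζ * Y := by rw [hζ, div_mul_cancel₀ _ hY0]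
  rw [h6]
  exact mul_mem (const_mem R _) hYU

end

end Pool.Agent.Lib.MP_2f3286_ag.PA
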