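import Pool.Agent.Lib.MP_2f3286_ag.PA.UCrit
import Pool.Agent.Lib.MP_2f3286_ag.PA.RRoot

/-!
# Coprime radicals: definitions
-/

open IsDedekindDomain NumberField IntermediateField Polynomial

namespace Pool.Agent.Lib.MP_2f3286_ag.PA

universe u

section

variable {k : Type u} [Field k] [NumberField k]
    {K : Type*} [Field K] [Algebra k K]
    (R : Subalgebra k K)
    {M : Type*} [Field M] [Algebra K M]
    [Algebra (AlgebraicClosure k) M] [Algebra k M]
    [IsScalarTower k K M] [IsScalarTower k (AlgebraicClosure k) M]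

/-- the value in `M` of a polynomial over `E` at the function `x` -/
noncomputable def evE (M : Type*) [Field M] [Algebra K M] [Algebra (AlgebraicClosure k) M]
    {E : IntermediateField k (AlgebraicClosure k)} (x : R) (S : E[X]) : M :=
  evM R M x (S.map (algebraMap E (AlgebraicClosure k)))

/-- coprime radicals -/
structure RadData (M : Type*) [Field M] [Algebra K M] [Algebra (AlgebraicClosure k) M]
    (p : ℕ) (E : IntermediateField k (AlgebraicClosure k)) (F₁ F₂ H u v : E[X]) (δ m : E)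
    (x y : R) : Prop where
  prime : p.Prime
  rel : u ^ p * F₁ - v ^ p * F₂ = C δ
  δ0 : δ ≠ 0
  m0 : m ≠ 0
  nc : 0 < (u ^ p * F₁).natDegree
  cop₁ : IsCoprime F₁ (F₂ * H)
  cop₂ : IsCoprime F₂ (F₁ * H)
  eqn : algebraMap (AlgebraicClosure k) M (m : AlgebraicClosure k) * (algebraMap R M y) ^ p =
    evE R M x F₁ * evE R M x F₂ * evE R M x H

/-- `c` is the class of the root `γ` of order `p` of `F(x)`, under the section over `E` -/
structure IsClass (s : Gal(AlgebraicClosure k/k) →* Gal(M/K)) (p : ℕ)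
    (E : IntermediateField k (AlgebraicClosure k)) (F : E[X]) (x : R) (γ : M)
    (z : AlgebraicClosure k) (c : E) : Prop where
  γpow : γ ^ p = evE R M x F
  z0 : z ≠ 0
  zpow : z ^ p = c
  gal : ∀ σ ∈ E.fixingSubgroup, s σ γ * algebraMap (AlgebraicClosure k) M z =
    γ * algebraMap (AlgebraicClosure k) M (σ z)

/-- the result of the class computation -/
def ClassOut (s : Gal(AlgebraicClosure k/k) →* Gal(M/K)) (p : ℕ)
    (E : IntermediateField k (AlgebraicClosure k)) (F₁ F₂ : E[X]) (x : R) : Prop :=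
  ∃ (γ₁ γ₂ : M) (z₁ z₂ : AlgebraicClosure k) (c₁ c₂ β : E),
    IsClass R s p E F₁ x γ₁ z₁ c₁ ∧ IsClass R s p E F₂ x γ₂ z₂ c₂ ∧
    (c₁ = β ^ p * c₂ ∨ c₁ = -(β ^ p * c₂))

end

end Pool.Agent.Lib.MP_2f3286_ag.PA
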