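import Pool.Agent.Lib.MP_2f3286_ag.PA.Crit

/-!
# The sign at the real places
-/

open IsDedekindDomain NumberField IntermediateField Polynomial

namespace Pool.Agent.Lib.MP_2f3286_ag.PA

universe u

section

variable {k : Type u} [Field k] [NumberField k]
    {K : Type*} [Field K] [Algebra k K]
    (R : Subalgebra k K)
    {M : Type*} [Field M] [Algebra K M]
    [Algebra (AlgebraicClosure k) M] [Algebra k M]
    [IsScalarTower k K M] [IsScalarTower k (AlgebraicClosure k) M]

/-- the square root of one of two coprime polynomials whose product is a square -/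
theorem sqrt_coprime (hmax : Pt.IsRadClosed R M (AlgebraicClosure k)) (x : R)
    (hx : Transcendental k (x : K)) (P Q : (AlgebraicClosure k)[X]) (hPQ : IsCoprime P Q) (hQ : Q ≠ 0)
    (y : M) (hy : y ^ 2 = evM R M x P * evM R M x Q) : ∃ ξ : M, ξ ^ 2 = evM R M x Q := by
  refine hmax 2 _ (by norm_num) (evM_ne_zero R x hx hQ) fun Ψ hΨ => ?_
  have hev : ∀ P : (AlgebraicClosure k)[X], Ψ (evB R x P) =
      P.eval (Ψ (algebraMap R (integralClosure R M) x)) := by
    intro P
    rw [pt_evB R x (RingHom.id _) Ψ (fun a b hb => hΨ a b hb) P, eval₂_id]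
  by_cases h : Q.eval (Ψ (algebraMap R (integralClosure R M) x)) = 0
  · refine ⟨y, evB R x P, 1, ?_, ?_, ?_⟩
    · rw [hev]
      intro h0
      obtain ⟨a, b, hab⟩ := hPQ
      have h1 := congrArg (Polynomial.eval (Ψ (algebraMap R (integralClosure R M) x))) hab
      rw [eval_add, eval_mul, eval_mul, h, h0, mul_zero, mul_zero, add_zero, eval_one] at h1
      exact zero_ne_one h1
    · rw [map_one]; exact one_ne_zero
    · rw [coe_evB, OneMemClass.coe_one, mul_one, hy, mul_comm]
  · refine ⟨1, 1, evB R x Q, ?_, ?_, ?_⟩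
    · rw [map_one]; exact one_ne_zero
    · rw [hev]; exact h
    · rw [coe_evB, OneMemClass.coe_one, mul_one, one_pow, one_mul]

/-- a complex number with negative square is purely imaginary -/
theorem conj_of_sq_neg {u : ℂ} (hq : starRingEnd ℂ (u ^ 2) = u ^ 2) (hneg : (u ^ 2).re < 0) :
    starRingEnd ℂ u = -u ∧ u ≠ 0 := by
  have h0 : u ≠ 0 := by
    rintro rfl
    rw [zero_pow two_ne_zero, Complex.zero_re] at hneg
    exact lt_irrefl _ hneg
  refine ⟨?_, h0⟩
  rw [map_pow] at hq
  rcases sq_eq_sq_iff_eq_or_eq_neg.mp hq with h | h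
  · exfalso
    have h1 : ((u.re : ℝ) : ℂ) = u := Complex.conj_eq_iff_re.mp h
    rw [← h1, ← Complex.ofReal_pow, Complex.ofReal_re] at hneg
    exact absurd hneg (not_lt.mpr (sq_nonneg _))
  · exact h

/-- a real value -/
theorem conj_eval {F : Type*} [Field F] (τ : F →+* ℂ) (hτ : ∀ a, starRingEnd ℂ (τ a) = τ a) (Q : F[X])
    (t : ℝ) : starRingEnd ℂ (Q.eval₂ τ (t : ℂ)) = Q.eval₂ τ (t : ℂ) := by
  rw [hom_eval₂, Complex.conj_ofReal]
  congr 1
  ext a
  exact hτ a

/-- the sign -/
theorem sign_of_neg (s : Gal(AlgebraicClosure k/k) →* Gal(M/K))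
    (hsec : ∀ σ a, s σ (algebraMap (AlgebraicClosure k) M a) =
      algebraMap (AlgebraicClosure k) M (σ a)) (x : R)
    (F : IntermediateField k (AlgebraicClosure k)) (Q : F[X]) (η : M)
    (hη : η ^ 2 = evM R M x (Q.map (algebraMap F (AlgebraicClosure k))))
    (τ : AlgebraicClosure k →+* ℂ)
    (hτ : ∀ a : F, starRingEnd ℂ (τ (a : AlgebraicClosure k)) = τ a)
    (φ : integralClosure R M →+* ℂ) (hφ : Respects s ℝ τ φ)
    (t : ℝ) (ht : φ (algebraMap R (integralClosure R M) x) = t)
    (hneg : (Q.eval₂ (τ.comp (algebraMap F (AlgebraicClosure k))) (t : ℂ)).re < 0)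
    (c : Gal(AlgebraicClosure k/k)) (hcF : c ∈ F.fixingSubgroup)
    (hc : ∀ a, τ (c a) = starRingEnd ℂ (τ a)) : s c η = -η := by
  have hint : IsIntegral R η := by
    refine IsIntegral.of_pow (n := 2) (by norm_num) ?_
    rw [hη, ← coe_evB]
    exact (evB R x _).2
  have h1 : φ ⟨η, hint⟩ ^ 2 = Q.eval₂ (τ.comp (algebraMap F (AlgebraicClosure k))) (t : ℂ) := by
    have h2 : (⟨η, hint⟩ : integralClosure R M) ^ 2 =
        evB R x (Q.map (algebraMap F (AlgebraicClosure k))) := by
      apply Subtype.ext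
      rw [coe_evB, ← hη]
      rfl
    rw [← map_pow, h2, pt_evB R x τ φ hφ.1, ht, eval₂_map]
  obtain ⟨h3, h4⟩ := conj_of_sq_neg (u := φ ⟨η, hint⟩) (by
    rw [h1]
    exact conj_eval _ (fun a => hτ a) Q t) (by rw [h1]; exact hneg)
  have h5 : (s c η) ^ 2 = η ^ 2 := by
    rw [← map_pow, hη, gal_evM R s hsec x c F hcF Q]
  rcases sq_eq_sq_iff_eq_or_eq_neg.mp h5 with h | h
  · exfalso
    have h6 := hφ.2 c Complex.conjAe (fun a => hc a) ⟨η, hint⟩ ⟨η, hint⟩ h.symm
    have h7 : φ ⟨η, hint⟩ = starRingEnd ℂ (φ ⟨η, hint⟩) := h6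
    rw [h3] at h7
    exact h4 (self_eq_neg.mp h7)
  · exact h

/-- the real condition -/
def RealCond (s : Gal(AlgebraicClosure k/k) →* Gal(M/K)) (x : R)
    (F : IntermediateField k (AlgebraicClosure k)) (P Q : F[X]) : Prop :=
  ∀ τ : AlgebraicClosure k →+* ℂ, (∀ a : F, starRingEnd ℂ (τ (a : AlgebraicClosure k)) = τ a) ∧
    ∃ φ : integralClosure R M →+* ℂ, Respects s ℝ τ φ ∧ ∃ t : ℝ,
      φ (algebraMap R (integralClosure R M) x) = t ∧
      ((Q.eval₂ (τ.comp (algebraMap F (AlgebraicClosure k))) (t : ℂ)).re < 0 ∨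
        (Q.eval₂ (τ.comp (algebraMap F (AlgebraicClosure k))) (t : ℂ) = 0 ∧
          (P.eval₂ (τ.comp (algebraMap F (AlgebraicClosure k))) (t : ℂ)).re < 0))

theorem exists_conj (F : IntermediateField k (AlgebraicClosure k))
    (τ : AlgebraicClosure k →+* ℂ)
    (hτ : ∀ a : F, starRingEnd ℂ (τ (a : AlgebraicClosure k)) = τ a) :
    ∃ c ∈ F.fixingSubgroup, ∀ a, τ (c a) = starRingEnd ℂ (τ a) := by
  obtain ⟨c, hc⟩ := exists_restrict' (k := k) (kb := AlgebraicClosure k) τ (starRingEnd ℂ) (fun a => by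
    exact hτ (algebraMap k F a))
  refine ⟨c, ?_, hc⟩
  rw [IntermediateField.mem_fixingSubgroup_iff]
  intro a ha
  apply τ.injective
  rw [hc]
  exact hτ ⟨a, ha⟩

theorem minus_of_real (s : Gal(AlgebraicClosure k/k) →* Gal(M/K))
    (hsec : ∀ σ a, s σ (algebraMap (AlgebraicClosure k) M a) =
      algebraMap (AlgebraicClosure k) M (σ a)) (x y : R)
    (F : IntermediateField k (AlgebraicClosure k)) (P Q : F[X]) (ξ₀ : M) (hξ0 : ξ₀ ≠ 0)
    (hξ : ξ₀ ^ 2 = evM R M x (Q.map (algebraMap F (AlgebraicClosure k))))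
    (hy : algebraMap R M y ^ 2 = evM R M x (P.map (algebraMap F (AlgebraicClosure k))) *
      evM R M x (Q.map (algebraMap F (AlgebraicClosure k))))
    (hreal : RealCond R (M := M) s x F P Q) (g : F[X]) :
    MinusCase F s (evM R M x (g.map (algebraMap F (AlgebraicClosure k))) * ξ₀) := by
  intro τ
  obtain ⟨hτ, φ, hφ, t, ht, hsign⟩ := hreal τ
  obtain ⟨c, hcF, hc⟩ := exists_conj F τ hτ
  refine ⟨c, hcF, hc, ?_⟩
  have key : s c ξ₀ = -ξ₀ := by
    rcases hsign with h | ⟨-, h⟩
    · exact sign_of_neg R s hsec x F Q ξ₀ hξ τ hτ φ hφ t ht h c hcF hc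
    · have h1 : (algebraMap R M y / ξ₀) ^ 2 = evM R M x (P.map (algebraMap F (AlgebraicClosure k))) := by
        rw [div_pow, hy, ← hξ, mul_div_cancel_right₀ _ (pow_ne_zero 2 hξ0)]
      have h2 := sign_of_neg R s hsec x F P _ h1 τ hτ φ hφ t ht h c hcF hc
      have h3 : s c (algebraMap R M y) = algebraMap R M y := AlgEquiv.commutes (s c) (y : K)
      by_cases hy0 : algebraMap R M y = 0
      · rw [hy0, zero_pow two_ne_zero, ← hξ] at hy
        have h4 : evM R M x (P.map (algebraMap F (AlgebraicClosure k))) = 0 := by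
          rcases mul_eq_zero.mp hy.symm with h | h
          · exact h
          · exact absurd h (pow_ne_zero 2 hξ0)
        exfalso
        -- the value is zero
        have h5 : (P.eval₂ (τ.comp (algebraMap F (AlgebraicClosure k))) (t : ℂ)) = 0 := by
          have h6 := pt_evB R x τ φ hφ.1 (P.map (algebraMap F (AlgebraicClosure k)))
          rw [ht, eval₂_map] at h6
          rw [← h6]
          have h7 : evB R x (P.map (algebraMap F (AlgebraicClosure k))) =
              (0 : integralClosure R M) := by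
            apply Subtype.ext
            rw [coe_evB, h4]; rfl
          rw [h7, map_zero]
        rw [h5, Complex.zero_re] at h
        exact lt_irrefl _ h
      · rw [map_div₀, h3] at h2
        have hs0 : s c ξ₀ ≠ 0 := by rw [_root_.map_ne_zero]; exact hξ0
        field_simp at h2
        rw [eq_neg_iff_add_eq_zero] at h2 ⊢
        rw [add_comm]; exact h2
  rw [map_mul, key, gal_evM R s hsec x c F hcF g, mul_neg]

end

end Pool.Agent.Lib.MP_2f3286_ag.PA
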