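import Pool.Agent.Lib.MP_2f3286_ag.PA.RUnit
import Pool.Agent.Lib.MP_2f3286_ag.PA.RealCase

/-!
# Coprime radicals: the data of the criterion
-/

open IsDedekindDomain NumberField IntermediateField Polynomial

namespace Pool.Agent.Lib.MP_2f3286_ag.PA

universe u

section

variable {k : Type u} [Field k] [NumberField k]
    {K : Type*} [Field K] [Algebra k K]
    (R : Subalgebra k K)
    {M : Type*} [Field M] [Algebra K M]
    [Algebra (AlgebraicClosure k) M] [Algebra k M]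
    [IsScalarTower k K M] [IsScalarTower k (AlgebraicClosure k) M]

/-- complex conjugations change the sign of the product of the two square roots -/
def MinusRad (s : Gal(AlgebraicClosure k/k) →* Gal(M/K)) (E : IntermediateField k (AlgebraicClosure k))
    (g : M) : Prop :=
  ∀ τ : AlgebraicClosure k →+* ℂ, ∃ σ ∈ E.fixingSubgroup,
    (∀ a, τ (σ a) = starRingEnd ℂ (τ a)) ∧ s σ g = -g

omit [Algebra k M] [IsScalarTower k K M] [IsScalarTower k (AlgebraicClosure k) M] in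
theorem class_ne {s : Gal(AlgebraicClosure k/k) →* Gal(M/K)} {p : ℕ} (hp : p ≠ 0)
    {E : IntermediateField k (AlgebraicClosure k)} {F : E[X]} {x : R} {γ : M}
    {z : AlgebraicClosure k} {c : E} (h : IsClass R s p E F x γ z c) : c ≠ 0 := by
  rintro rfl
  have h1 := h.zpow
  have h2 : ((0 : E) : AlgebraicClosure k) = 0 := rfl
  rw [h2] at h1
  exact h.z0 ((pow_eq_zero_iff hp).mp h1)

omit [NumberField k] [Algebra k M] [IsScalarTower k K M] [IsScalarTower k (AlgebraicClosure k) M] in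
/-- the quotient of the root and the constant is fixed -/
theorem class_fix (s : Gal(AlgebraicClosure k/k) →* Gal(M/K))
    (hsec : ∀ σ a, s σ (algebraMap (AlgebraicClosure k) M a) =
      algebraMap (AlgebraicClosure k) M (σ a)) {p : ℕ}
    {E : IntermediateField k (AlgebraicClosure k)} {F : E[X]} {x : R} {γ : M}
    {z : AlgebraicClosure k} {c : E} (h : IsClass R s p E F x γ z c)
    (σ : Gal(AlgebraicClosure k/k)) (hσ : σ ∈ E.fixingSubgroup) :
    s σ (algebraMap _ M z⁻¹ * γ) = algebraMap _ M z⁻¹ * γ := by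
  have h1 := h.gal σ hσ
  have h2 : algebraMap (AlgebraicClosure k) M z ≠ 0 := by rw [_root_.map_ne_zero]; exact h.z0
  have h3 : algebraMap (AlgebraicClosure k) M (σ z) ≠ 0 := by
    rw [_root_.map_ne_zero, _root_.map_ne_zero]; exact h.z0
  rw [map_mul, hsec, map_inv₀ σ, map_inv₀, map_inv₀]
  rw [inv_mul_eq_div, inv_mul_eq_div, div_eq_div_iff h3 h2]
  rw [h1]

omit [NumberField k] in
theorem gal_evE (s : Gal(AlgebraicClosure k/k) →* Gal(M/K))
    (hsec : ∀ σ a, s σ (algebraMap (AlgebraicClosure k) M a) =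
      algebraMap (AlgebraicClosure k) M (σ a)) (x : R) (σ : Gal(AlgebraicClosure k/k))
    (E : IntermediateField k (AlgebraicClosure k)) (hσ : σ ∈ E.fixingSubgroup) (w : E[X]) :
    s σ (evE R M x w) = evE R M x w :=
  gal_evM R s hsec x σ E hσ w

/-- the plus case -/
theorem rad_plus (hmax : Pt.IsRadClosed R M (AlgebraicClosure k)) (x y : R) (hx : Transcendental k (x : K))
    (s : Gal(AlgebraicClosure k/k) →* Gal(M/K))
    (hsec : ∀ σ a, s σ (algebraMap (AlgebraicClosure k) M a) =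
      algebraMap (AlgebraicClosure k) M (σ a))
    (p : ℕ) (E : IntermediateField k (AlgebraicClosure k)) [FiniteDimensional k E]
    (F₁ F₂ H u v : E[X]) (δ m : E)
    (hrad : RadData R M p E F₁ F₂ H u v δ m x y) (γ₁ γ₂ : M) (z₁ z₂ : AlgebraicClosure k) (c₁ c₂ β : E)
    (h₁ : IsClass R s p E F₁ x γ₁ z₁ c₁) (h₂ : IsClass R s p E F₂ x γ₂ z₂ c₂)
    (hβ : c₁ = β ^ p * c₂) (hE : Nat.card (InfinitePlace E) = 1) : UnitData R (M := M) s x := by
  have hp0 : p ≠ 0 := hrad.prime.ne_zero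
  have hc₁ := class_ne R hp0 h₁
  have hc₂ := class_ne R hp0 h₂
  have hβ0 : β ≠ 0 := by
    rintro rfl
    rw [zero_pow hp0, zero_mul] at hβ
    exact hc₁ hβ
  have hc₁' : (c₁ : AlgebraicClosure k) ≠ 0 := fun h => hc₁ (Subtype.ext h)
  have hc₂' : (c₂ : AlgebraicClosure k) ≠ 0 := fun h => hc₂ (Subtype.ext h)
  have hβ' : (β : AlgebraicClosure k) ≠ 0 := fun h => hβ0 (Subtype.ext h)
  have hβc : (c₁ : AlgebraicClosure k) = (β : AlgebraicClosure k) ^ p * c₂ := by
    have h3 := congrArg (Subtype.val : E → AlgebraicClosure k) hβ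
    exact h3
  obtain ⟨hrel, -⟩ := rad_rel R hmax x y hx p E F₁ F₂ H u v δ m hrad γ₁ γ₂ h₁.γpow h₂.γpow
    ((β : AlgebraicClosure k) * z₁⁻¹) z₂⁻¹ ((c₂ : AlgebraicClosure k)⁻¹) (by
      rw [mul_pow, inv_pow, h₁.zpow, hβc]
      field_simp) (by rw [inv_pow, h₂.zpow]) (inv_ne_zero hc₂')
  refine ⟨E, inferInstance, _, hrel, Or.inl ⟨hE, fun σ hσ => ?_⟩⟩
  have hσβ : σ (β : AlgebraicClosure k) = β := by
    rw [IntermediateField.mem_fixingSubgroup_iff] at hσ
    exact hσ β β.2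
  have e1 : algebraMap _ M ((β : AlgebraicClosure k) * z₁⁻¹) * (evE R M x u * γ₁) =
      algebraMap _ M (β : AlgebraicClosure k) * evE R M x u * (algebraMap _ M z₁⁻¹ * γ₁) := by
    rw [map_mul]; ring
  have e2 : algebraMap _ M z₂⁻¹ * (evE R M x v * γ₂) = evE R M x v * (algebraMap _ M z₂⁻¹ * γ₂) := by
    ring
  rw [e1, e2, map_sub, map_mul (s σ), map_mul (s σ), map_mul (s σ) (evE R M x v), hsec, hσβ,
    gal_evE R s hsec x σ E hσ, gal_evE R s hsec x σ E hσ, class_fix R s hsec h₁ σ hσ,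
    class_fix R s hsec h₂ σ hσ]

/-- the minus case -/
theorem rad_minus (hmax : Pt.IsRadClosed R M (AlgebraicClosure k)) (x y : R) (hx : Transcendental k (x : K))
    (s : Gal(AlgebraicClosure k/k) →* Gal(M/K))
    (hsec : ∀ σ a, s σ (algebraMap (AlgebraicClosure k) M a) =
      algebraMap (AlgebraicClosure k) M (σ a))
    (E : IntermediateField k (AlgebraicClosure k)) [FiniteDimensional k E]
    (F₁ F₂ H u v : E[X]) (δ m : E)
    (hrad : RadData R M 2 E F₁ F₂ H u v δ m x y) (γ₁ γ₂ : M) (z₁ : AlgebraicClosure k) (c₁ : E)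
    (h₁ : IsClass R s 2 E F₁ x γ₁ z₁ c₁) (h₂ : γ₂ ^ 2 = evE R M x F₂)
    (hminus : MinusRad s E (γ₁ * γ₂)) : UnitData R (M := M) s x := by
  have hM2 : CharZero M := charZero_of_injective_algebraMap (algebraMap (AlgebraicClosure k) M).injective
  have hc₁ := class_ne R two_ne_zero h₁
  have hc₁' : (c₁ : AlgebraicClosure k) ≠ 0 := fun h => hc₁ (Subtype.ext h)
  obtain ⟨hrel, -⟩ := rad_rel R hmax x y hx 2 E F₁ F₂ H u v δ m hrad γ₁ γ₂ h₁.γpow h₂
    z₁⁻¹ z₁⁻¹ ((c₁ : AlgebraicClosure k)⁻¹) (by rw [inv_pow, h₁.zpow]) (by rw [inv_pow, h₁.zpow])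
    (inv_ne_zero hc₁')
  set A : M := algebraMap _ M z₁⁻¹ * (evE R M x u * γ₁) with hA
  set B : M := algebraMap _ M z₁⁻¹ * (evE R M x v * γ₂) with hB
  have hinv2 : (algebraMap (AlgebraicClosure k) M z₁⁻¹) ^ 2 = algebraMap _ M ((c₁⁻¹ : E) : AlgebraicClosure k) := by
    rw [← map_pow, inv_pow, h₁.zpow]
    rfl
  have hfixc : ∀ σ ∈ E.fixingSubgroup, ∀ a : E, s σ (algebraMap _ M (a : AlgebraicClosure k)) =
      algebraMap _ M (a : AlgebraicClosure k) := by
    intro σ hσ a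
    rw [IntermediateField.mem_fixingSubgroup_iff] at hσ
    rw [hsec, hσ a a.2]
  have hF₁ : γ₁ ≠ 0 := by
    intro h0
    have h3 := h₁.γpow
    rw [h0, zero_pow two_ne_zero] at h3
    have hF₁0 : F₁ ≠ 0 := by
      rintro rfl
      have h4 := hrad.nc
      rw [mul_zero, natDegree_zero] at h4
      exact lt_irrefl _ h4
    exact evM_ne_zero R x hx ((Polynomial.map_ne_zero_iff
      (algebraMap E (AlgebraicClosure k)).injective).mpr hF₁0) h3.symm
  have hAB : A ^ 2 - B ^ 2 = algebraMap _ M ((δ * c₁⁻¹ : E) : AlgebraicClosure k) := by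
    have h3 : A ^ 2 - B ^ 2 = algebraMap _ M ((c₁⁻¹ : E) : AlgebraicClosure k) *
        (evE R M x u ^ 2 * evE R M x F₁ - evE R M x v ^ 2 * evE R M x F₂) := by
      rw [hA, hB, mul_pow, mul_pow, mul_pow, mul_pow, hinv2, h₁.γpow, h₂]
      ring
    have h4 : evE R M x u ^ 2 * evE R M x F₁ - evE R M x v ^ 2 * evE R M x F₂ =
        algebraMap _ M (δ : AlgebraicClosure k) := by
      have h5 := congrArg (fun S : E[X] => evM R M x (S.map (algebraMap E (AlgebraicClosure k)))) hrad.rel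
      simp only [Polynomial.map_sub, Polynomial.map_mul, Polynomial.map_pow, map_C, map_sub, map_mul,
        map_pow, evM_C] at h5
      exact h5
    rw [h3, h4, ← map_mul, mul_comm]
    rfl
  have hAfix : ∀ σ ∈ E.fixingSubgroup, s σ A = A := by
    intro σ hσ
    have e1 : A = evE R M x u * (algebraMap _ M z₁⁻¹ * γ₁) := by rw [hA]; ring
    rw [e1, map_mul (s σ), gal_evE R s hsec x σ E hσ, class_fix R s hsec h₁ σ hσ]
  have hBsq : ∀ σ ∈ E.fixingSubgroup, s σ B = B ∨ s σ B = -B := by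
    intro σ hσ
    have e1 : B ^ 2 = algebraMap _ M ((c₁⁻¹ : E) : AlgebraicClosure k) *
        (evE R M x v ^ 2 * evE R M x F₂) := by
      rw [hB, mul_pow, mul_pow, hinv2, h₂]
    have e2 : (s σ B) ^ 2 = B ^ 2 := by
      rw [← map_pow, e1, map_mul (s σ), map_mul (s σ), map_pow (s σ), hfixc σ hσ,
        gal_evE R s hsec x σ E hσ, gal_evE R s hsec x σ E hσ]
    exact sq_eq_sq_iff_eq_or_eq_neg.mp e2
  have hneg : ∀ σ ∈ E.fixingSubgroup, s σ B = -B → s σ (A - B) * (A - B) =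
      algebraMap _ M ((δ * c₁⁻¹ : E) : AlgebraicClosure k) := by
    intro σ hσ h
    rw [map_sub, hAfix σ hσ, h, ← hAB]
    ring
  refine ⟨E, inferInstance, A - B, hrel, Or.inr ⟨δ * c₁⁻¹, mul_ne_zero hrad.δ0 (inv_ne_zero hc₁),
    fun σ hσ => ?_, fun τ => ?_⟩⟩
  · rcases hBsq σ hσ with h | h
    · left
      rw [map_sub, hAfix σ hσ, h]
    · right
      exact hneg σ hσ h
  · obtain ⟨σ, hσ, h3, h4⟩ := hminus τ
    refine ⟨σ, hσ, h3, hneg σ hσ ?_⟩
    -- the sign
    have e1 : B * (algebraMap _ M z₁⁻¹ * γ₁) = algebraMap _ M ((c₁⁻¹ : E) : AlgebraicClosure k) *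
        (evE R M x v * (γ₁ * γ₂)) := by
      rw [← hinv2, hB]; ring
    have e3 : s σ (algebraMap _ M ((c₁⁻¹ : E) : AlgebraicClosure k) * (evE R M x v * (γ₁ * γ₂))) =
        algebraMap _ M ((c₁⁻¹ : E) : AlgebraicClosure k) * (evE R M x v * -(γ₁ * γ₂)) := by
      rw [map_mul (s σ) (algebraMap _ M ((c₁⁻¹ : E) : AlgebraicClosure k)), hfixc σ hσ,
        map_mul (s σ) (evE R M x v), gal_evE R s hsec x σ E hσ, h4]
    have e2 : s σ B * (algebraMap _ M z₁⁻¹ * γ₁) =
        algebraMap _ M ((c₁⁻¹ : E) : AlgebraicClosure k) * (evE R M x v * -(γ₁ * γ₂)) := by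
      rw [← e3, ← e1, map_mul (s σ) B, class_fix R s hsec h₁ σ hσ]
    have hz : algebraMap (AlgebraicClosure k) M z₁⁻¹ * γ₁ ≠ 0 := by
      refine mul_ne_zero ?_ hF₁
      rw [_root_.map_ne_zero]
      exact inv_ne_zero h₁.z0
    apply mul_right_cancel₀ hz
    rw [e2, neg_mul, e1]
    ring

/-- totally negative classes -/
theorem minus_of_neg (s : Gal(AlgebraicClosure k/k) →* Gal(M/K))
    (E : IntermediateField k (AlgebraicClosure k))
    (F₁ F₂ : E[X]) (x : R) (γ₁ γ₂ : M) (z₁ z₂ : AlgebraicClosure k) (c₁ c₂ : E)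
    (h₁ : IsClass R s 2 E F₁ x γ₁ z₁ c₁) (h₂ : IsClass R s 2 E F₂ x γ₂ z₂ c₂)
    (hreal : ∀ τ : AlgebraicClosure k →+* ℂ, (∀ a : E, starRingEnd ℂ (τ a) = τ a) ∧
      (τ ((c₁ * c₂ : E) : AlgebraicClosure k)).re < 0) : MinusRad s E (γ₁ * γ₂) := by
  intro τ
  obtain ⟨hτ, hneg⟩ := hreal τ
  obtain ⟨σ, hσ, hconj⟩ := exists_conj E τ hτ
  refine ⟨σ, hσ, hconj, ?_⟩
  have hz : (z₁ * z₂) ^ 2 = ((c₁ * c₂ : E) : AlgebraicClosure k) := by
    rw [mul_pow, h₁.zpow, h₂.zpow]
    rfl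
  have h3 : starRingEnd ℂ (τ (z₁ * z₂)) = -τ (z₁ * z₂) := by
    refine (conj_of_sq_neg ?_ ?_).1
    · rw [← map_pow, hz, hτ]
    · rw [← map_pow, hz]; exact hneg
  have h4 : σ (z₁ * z₂) = -(z₁ * z₂) := by
    apply τ.injective
    rw [hconj, h3, map_neg]
  have h5 : algebraMap (AlgebraicClosure k) M (z₁ * z₂) ≠ 0 := by
    rw [_root_.map_ne_zero]; exact mul_ne_zero h₁.z0 h₂.z0
  apply mul_right_cancel₀ h5
  have h6 := h₁.gal σ hσ
  have h7 := h₂.gal σ hσ
  calc s σ (γ₁ * γ₂) * algebraMap _ M (z₁ * z₂)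
      = (s σ γ₁ * algebraMap _ M z₁) * (s σ γ₂ * algebraMap _ M z₂) := by
        rw [map_mul (s σ), map_mul (algebraMap (AlgebraicClosure k) M)]; ring
    _ = (γ₁ * γ₂) * algebraMap _ M (σ (z₁ * z₂)) := by
        rw [h6, h7, map_mul σ, map_mul (algebraMap (AlgebraicClosure k) M)]; ring
    _ = -(γ₁ * γ₂) * algebraMap _ M (z₁ * z₂) := by
        rw [h4, map_neg]; ring

/-- from the class computation to the data of the criterion -/
theorem data_of_out (hmax : Pt.IsRadClosed R M (AlgebraicClosure k)) (x y : R)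
    (hx : Transcendental k (x : K))
    (s : Gal(AlgebraicClosure k/k) →* Gal(M/K))
    (hsec : ∀ σ a, s σ (algebraMap (AlgebraicClosure k) M a) =
      algebraMap (AlgebraicClosure k) M (σ a))
    (p : ℕ) (E : IntermediateField k (AlgebraicClosure k)) [FiniteDimensional k E]
    (F₁ F₂ H u v : E[X]) (δ m : E)
    (hrad : RadData R M p E F₁ F₂ H u v δ m x y) (hout : ClassOut R (M := M) s p E F₁ F₂ x)
    (hE : Nat.card (InfinitePlace E) = 1)
    (hp : p ≠ 2 ∨ ∀ τ : AlgebraicClosure k →+* ℂ, ∀ a : E, starRingEnd ℂ (τ a) = τ a) :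
    UnitData R (M := M) s x := by
  obtain ⟨γ₁, γ₂, z₁, z₂, c₁, c₂, β, h₁, h₂, hβ⟩ := hout
  rcases hβ with hβ | hβ
  · exact rad_plus R hmax x y hx s hsec p E F₁ F₂ H u v δ m hrad γ₁ γ₂ z₁ z₂ c₁ c₂ β h₁ h₂ hβ hE
  · by_cases hp2 : p = 2
    · subst hp2
      refine rad_minus R hmax x y hx s hsec E F₁ F₂ H u v δ m hrad γ₁ γ₂ z₁ c₁ h₁ h₂.γpow
        (minus_of_neg R s E F₁ F₂ x γ₁ γ₂ z₁ z₂ c₁ c₂ h₁ h₂ fun τ => ?_)
      have hτ : ∀ a : E, starRingEnd ℂ (τ a) = τ a := by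
        rcases hp with hp | hp
        · exact absurd rfl hp
        · exact hp τ
      refine ⟨hτ, ?_⟩
      have hc₁ := class_ne R two_ne_zero h₁
      have hc₂ := class_ne R two_ne_zero h₂
      have hβ0 : β ≠ 0 := by
        rintro rfl
        rw [zero_pow two_ne_zero, zero_mul, neg_zero] at hβ
        exact hc₁ hβ
      set b : E := β * c₂ with hb
      have hb0 : b ≠ 0 := mul_ne_zero hβ0 hc₂
      have h3 : c₁ * c₂ = -b ^ 2 := by rw [hβ, hb]; ring
      have h4 : τ ((c₁ * c₂ : E) : AlgebraicClosure k) = -(τ (b : AlgebraicClosure k)) ^ 2 := by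
        rw [h3]
        change τ (-((b : AlgebraicClosure k)) ^ 2) = _
        rw [map_neg, map_pow]
      have h5 : (((τ (b : AlgebraicClosure k)).re : ℝ) : ℂ) = τ b := Complex.conj_eq_iff_re.mp (hτ b)
      have h6 : (τ (b : AlgebraicClosure k)).re ≠ 0 := by
        intro h0
        rw [h0, Complex.ofReal_zero] at h5
        have h7 : (b : AlgebraicClosure k) = 0 := τ.injective (by rw [← h5, map_zero])
        exact hb0 (Subtype.ext h7)
      rw [h4, ← h5, ← Complex.ofReal_pow, ← Complex.ofReal_neg, Complex.ofReal_re]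
      have h7 : 0 < (τ (b : AlgebraicClosure k)).re ^ 2 := by positivity
      linarith
    · refine rad_plus R hmax x y hx s hsec p E F₁ F₂ H u v δ m hrad γ₁ γ₂ z₁ z₂ c₁ c₂ (-β) h₁ h₂ ?_ hE
      rw [hβ, (hrad.prime.odd_of_ne_two hp2).neg_pow, neg_mul]

/-- the functions in the ring generated by `x` and `y` are sums of units -/
theorem adjoin_mem_p (hmax : Pt.IsRadClosed R M (AlgebraicClosure k)) (x y : R)
    (hx : Transcendental k (x : K)) (p : ℕ) (hp : p.Prime)
    (β₁ β₂ : AlgebraicClosure k) (hne : β₁ ≠ β₂) (z₁ z₂ : M)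
    (h₁ : z₁ ^ p = algebraMap R M x - algebraMap _ M β₁)
    (h₂ : z₂ ^ p = algebraMap R M x - algebraMap _ M β₂)
    (S : (AlgebraicClosure k)[X]) (hy : algebraMap R M y ^ p = evM R M x S)
    (hR : (R : Set K) ⊆ Algebra.adjoin k {(x : K), (y : K)}) (r : R) :
    algebraMap R M r ∈ Subring.closure {b : M | IsIntegral R b ∧ IsIntegral R b⁻¹} := by
  have hxU := x_mem_p R p hp.two_le x β₁ β₂ hne z₁ z₂ h₁ h₂
  have hyU : algebraMap R M y ∈ unitRing R M := by
    by_cases hS : S = 0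
    · have h3 : algebraMap R M y = 0 := by
        rw [hS, map_zero] at hy
        exact (pow_eq_zero_iff hp.ne_zero).mp hy
      rw [h3]
      exact zero_mem _
    · exact y_mem_p R hmax p hp x hx S hS (algebraMap R M y) hy β₁ β₂ hne z₁ z₂ h₁ h₂
  have key : ∀ b : K, b ∈ Algebra.adjoin k {(x : K), (y : K)} → algebraMap K M b ∈ unitRing R M := by
    intro b hb
    induction hb using Algebra.adjoin_induction with
    | mem b hb =>
      rcases hb with rfl | rfl
      · exact hxU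
      · exact hyU
    | algebraMap a =>
      have h3 : algebraMap K M (algebraMap k K a) =
          algebraMap (AlgebraicClosure k) M (algebraMap k (AlgebraicClosure k) a) := by
        rw [← IsScalarTower.algebraMap_apply, ← IsScalarTower.algebraMap_apply]
      rw [h3]
      exact const_mem R _
    | add a b _ _ ha hb => rw [map_add]; exact add_mem ha hb
    | mul a b _ _ ha hb => rw [map_mul]; exact mul_mem ha hb
  exact key r (hR r.2)

end

end Pool.Agent.Lib.MP_2f3286_ag.PA
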