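import Pool.Agent.Lib.MP_2f3286_ag.PA.RGal

/-!
# Coprime radicals: the functions in `k[x, y]` are sums of units
-/

open IsDedekindDomain NumberField IntermediateField Polynomial

namespace Pool.Agent.Lib.MP_2f3286_ag.PA

universe u

section

variable {k : Type u} [Field k] [NumberField k]
    {K : Type*} [Field K] [Algebra k K]
    (R : Subalgebra k K)
    {M : Type*} [Field M] [Algebra K M]
    [Algebra (AlgebraicClosure k) M] [Algebra k M]
    [IsScalarTower k K M] [IsScalarTower k (AlgebraicClosure k) M]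

theorem rad_adjoin_mem (hmax : Pt.IsRadClosed R M (AlgebraicClosure k)) (x y : R)
    (hx : Transcendental k (x : K)) (p : ℕ) (E : IntermediateField k (AlgebraicClosure k))
    (F₁ F₂ H u v : E[X]) (δ m : E) (hrad : RadData R M p E F₁ F₂ H u v δ m x y)
    (hR : (R : Set K) ⊆ Algebra.adjoin k {(x : K), (y : K)}) (r : R) :
    algebraMap R M r ∈ Subring.closure {b : M | IsIntegral R b ∧ IsIntegral R b⁻¹} := by
  have hp1 : 1 ≤ p := hrad.prime.one_lt.le
  have hF₁ : F₁ ≠ 0 := by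
    rintro rfl
    have h4 := hrad.nc
    rw [mul_zero, natDegree_zero] at h4
    exact lt_irrefl _ h4
  have hF₂ : F₂ ≠ 0 := by
    rintro rfl
    have h1 := hrad.rel
    rw [mul_zero, sub_zero] at h1
    have h4 := hrad.nc
    rw [h1, natDegree_C] at h4
    exact lt_irrefl _ h4
  have hm' : (m : AlgebraicClosure k) ≠ 0 := fun h => hrad.m0 (Subtype.ext h)
  let mp : E[X] →+* (AlgebraicClosure k)[X] := mapRingHom (algebraMap E (AlgebraicClosure k))
  obtain ⟨γ₁, hγ₁⟩ := root_coprime R hmax p hp1 x hx (mp F₁) (mp (F₂ * H)) (hrad.cop₁.map mp)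
    ((Polynomial.map_ne_zero_iff (algebraMap E (AlgebraicClosure k)).injective).mpr hF₁)
    (m : AlgebraicClosure k) hm' (algebraMap R M y) (by
      rw [hrad.eqn, map_mul mp, map_mul (evM R M x)]
      exact mul_assoc _ _ _)
  obtain ⟨γ₂, hγ₂⟩ := root_coprime R hmax p hp1 x hx (mp F₂) (mp (F₁ * H)) (hrad.cop₂.map mp)
    ((Polynomial.map_ne_zero_iff (algebraMap E (AlgebraicClosure k)).injective).mpr hF₂)
    (m : AlgebraicClosure k) hm' (algebraMap R M y) (by
      rw [hrad.eqn, map_mul mp, map_mul (evM R M x)]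
      change evM R M x (mp F₁) * evM R M x (mp F₂) * evM R M x (mp H) = _
      ring)
  obtain ⟨-, β₁, β₂, w₁, w₂, hne, e1, e2⟩ := rad_rel R hmax x y hx p E F₁ F₂ H u v δ _ hrad γ₁ γ₂ hγ₁ hγ₂
    1 1 1 (one_pow p) (one_pow p) one_ne_zero
  refine adjoin_mem_p R hmax x y hx p hrad.prime β₁ β₂ hne w₁ w₂ e1 e2
    (C (m : AlgebraicClosure k)⁻¹ * (mp F₁ * mp F₂ * mp H)) ?_ hR r
  have e3 : algebraMap (AlgebraicClosure k) M (m : AlgebraicClosure k) *
      (algebraMap R M y) ^ p = evM R M x (mp F₁) * evM R M x (mp F₂) * evM R M x (mp H) := hrad.eqn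
  rw [map_mul, map_mul, map_mul, evM_C, ← e3, map_inv₀, inv_mul_cancel_left₀]
  rw [_root_.map_ne_zero]
  exact hm'

/-- `x` and `y` are sums of units -/
theorem rad_xy_mem (hmax : Pt.IsRadClosed R M (AlgebraicClosure k)) (x y : R)
    (hx : Transcendental k (x : K)) (p : ℕ) (E : IntermediateField k (AlgebraicClosure k))
    (F₁ F₂ H u v : E[X]) (δ m : E) (hrad : RadData R M p E F₁ F₂ H u v δ m x y) :
    algebraMap R M x ∈ Subring.closure {b : M | IsIntegral R b ∧ IsIntegral R b⁻¹} ∧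
    algebraMap R M y ∈ Subring.closure {b : M | IsIntegral R b ∧ IsIntegral R b⁻¹} := by
  have hp1 : 1 ≤ p := hrad.prime.one_lt.le
  have hF₁ : F₁ ≠ 0 := by
    rintro rfl
    have h4 := hrad.nc
    rw [mul_zero, natDegree_zero] at h4
    exact lt_irrefl _ h4
  have hF₂ : F₂ ≠ 0 := by
    rintro rfl
    have h1 := hrad.rel
    rw [mul_zero, sub_zero] at h1
    have h4 := hrad.nc
    rw [h1, natDegree_C] at h4
    exact lt_irrefl _ h4
  have hm' : (m : AlgebraicClosure k) ≠ 0 := fun h => hrad.m0 (Subtype.ext h)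
  let mp : E[X] →+* (AlgebraicClosure k)[X] := mapRingHom (algebraMap E (AlgebraicClosure k))
  obtain ⟨γ₁, hγ₁⟩ := root_coprime R hmax p hp1 x hx (mp F₁) (mp (F₂ * H)) (hrad.cop₁.map mp)
    ((Polynomial.map_ne_zero_iff (algebraMap E (AlgebraicClosure k)).injective).mpr hF₁)
    (m : AlgebraicClosure k) hm' (algebraMap R M y) (by
      rw [hrad.eqn, map_mul mp, map_mul (evM R M x)]
      exact mul_assoc _ _ _)
  obtain ⟨γ₂, hγ₂⟩ := root_coprime R hmax p hp1 x hx (mp F₂) (mp (F₁ * H)) (hrad.cop₂.map mp)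
    ((Polynomial.map_ne_zero_iff (algebraMap E (AlgebraicClosure k)).injective).mpr hF₂)
    (m : AlgebraicClosure k) hm' (algebraMap R M y) (by
      rw [hrad.eqn, map_mul mp, map_mul (evM R M x)]
      change evM R M x (mp F₁) * evM R M x (mp F₂) * evM R M x (mp H) = _
      ring)
  obtain ⟨-, β₁, β₂, w₁, w₂, hne, e1, e2⟩ := rad_rel R hmax x y hx p E F₁ F₂ H u v δ _ hrad γ₁ γ₂ hγ₁ hγ₂
    1 1 1 (one_pow p) (one_pow p) one_ne_zero
  refine ⟨x_mem_p R p hrad.prime.two_le x β₁ β₂ hne w₁ w₂ e1 e2, ?_⟩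
  have e3 : algebraMap (AlgebraicClosure k) M (m : AlgebraicClosure k) *
      (algebraMap R M y) ^ p = evM R M x (mp F₁) * evM R M x (mp F₂) * evM R M x (mp H) := hrad.eqn
  have e4 : (algebraMap R M y) ^ p =
      evM R M x (C (m : AlgebraicClosure k)⁻¹ * (mp F₁ * mp F₂ * mp H)) := by
    rw [map_mul, map_mul, map_mul, evM_C, ← e3, map_inv₀, inv_mul_cancel_left₀]
    rw [_root_.map_ne_zero]
    exact hm'
  by_cases hS : C (m : AlgebraicClosure k)⁻¹ * (mp F₁ * mp F₂ * mp H) = 0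
  · have h3 : algebraMap R M y = 0 := by
      rw [hS, map_zero] at e4
      exact (pow_eq_zero_iff hrad.prime.ne_zero).mp e4
    rw [h3]
    exact zero_mem _
  · exact y_mem_p R hmax p hrad.prime x hx _ hS (algebraMap R M y) e4 β₁ β₂ hne w₁ w₂ e1 e2

end

end Pool.Agent.Lib.MP_2f3286_ag.PA
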