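import Pool.Agent.Lib.MP_2f3286_ag.PA.RGal

/-!
# Coprime radicals: classes controlled by local solubility, and by real points
-/

open IsDedekindDomain NumberField IntermediateField Polynomial

namespace Pool.Agent.Lib.MP_2f3286_ag.PA

universe u

section

variable {k : Type u} [Field k] [NumberField k]
    {K : Type*} [Field K] [Algebra k K]
    (R : Subalgebra k K)
    {M : Type*} [Field M] [Algebra K M]
    [Algebra (AlgebraicClosure k) M] [Algebra k M]
    [IsScalarTower k K M] [IsScalarTower k (AlgebraicClosure k) M]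

theorem evE_ne_zero {E : IntermediateField k (AlgebraicClosure k)} (x : R)
    (hx : Transcendental k (x : K)) (F : E[X]) (hF : F ≠ 0) : evE R M x F ≠ 0 :=
  evM_ne_zero R x hx ((Polynomial.map_ne_zero_iff (algebraMap E (AlgebraicClosure k)).injective).mpr hF)

theorem evE_int {E : IntermediateField k (AlgebraicClosure k)} (x : R) (F : E[X]) :
    IsIntegral R (evE R M x F) := by
  change IsIntegral R (evM R M x _)
  rw [← coe_evB]
  exact (evB R x _).2

/-- existence of the class -/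
theorem sel_exists_class (s : Gal(AlgebraicClosure k/k) →* Gal(M/K)) (hs : Continuous s)
    (hsec : ∀ σ a, s σ (algebraMap (AlgebraicClosure k) M a) =
      algebraMap (AlgebraicClosure k) M (σ a)) (p : ℕ) (hp : 1 ≤ p)
    (E : IntermediateField k (AlgebraicClosure k)) [FiniteDimensional k E] (F : E[X]) (hF : F ≠ 0)
    (x : R) (hx : Transcendental k (x : K)) (γ : M) (hγ : γ ^ p = evE R M x F) :
    ∃ (z : AlgebraicClosure k) (c : E), IsClass R s p E F x γ z c := by
  have hγ0 : γ ≠ 0 := by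
    rintro rfl
    rw [zero_pow (by omega)] at hγ
    exact evE_ne_zero R x hx F hF hγ.symm
  have hγint : IsIntegral R γ := IsIntegral.of_pow hp (by rw [hγ]; exact evE_int R x F)
  have hfix : ∀ σ ∈ E.fixingSubgroup, s σ (γ ^ p) = γ ^ p := by
    intro σ hσ
    rw [hγ, gal_evE R s hsec x σ E hσ]
  obtain ⟨z, a, hza, hz⟩ := exists_kummer_L s hs hsec E hγ0 hγint.tower_top hp hfix
  refine ⟨z, a, hγ, z.ne_zero, hza, fun σ hσ => ?_⟩
  have h1 : (s σ γ / γ) ^ p = 1 := by
    rw [div_pow, ← map_pow, hfix σ hσ, div_self (pow_ne_zero p hγ0)]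
  obtain ⟨ζ, hζ⟩ := root_of_unity_mem (AlgebraicClosure k) M hp h1
  have h2 : s σ γ = algebraMap (AlgebraicClosure k) M ζ * γ := by
    rw [hζ, div_mul_cancel₀ _ hγ0]
  rw [h2, hz σ hσ ζ h2, map_mul]
  ring

/-- the local equation of a class -/
theorem class_local (s : Gal(AlgebraicClosure k/k) →* Gal(M/K))
    (hsec : ∀ σ a, s σ (algebraMap (AlgebraicClosure k) M a) =
      algebraMap (AlgebraicClosure k) M (σ a)) (p : ℕ) (hp : 1 ≤ p)
    (E : IntermediateField k (AlgebraicClosure k)) [FiniteDimensional k E] (S : E[X])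
    (x : R) (η : M) (z : AlgebraicClosure k) (c : E) (h : IsClass R s p E S x η z c)
    (v : HeightOneSpectrum (𝓞 k))
    (ι : AlgebraicClosure k →ₐ[k] AlgebraicClosure (v.adicCompletion k))
    (φ : integralClosure R M →+* AlgebraicClosure (v.adicCompletion k))
    (hφ : Respects s (v.adicCompletion k) (ι : _ →+* AlgebraicClosure (v.adicCompletion k)) φ)
    (xv : R →ₐ[k] v.adicCompletion k)
    (hxv : ∀ r, algebraMap _ (AlgebraicClosure (v.adicCompletion k)) (xv r) =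
        φ (algebraMap R (integralClosure R M) r))
    {F : Type*} [Field F] [CharZero F] (f : E →+* F) (θ : v.adicCompletion k →+* F)
    (hθ : ∀ a : k, θ (algebraMap k (v.adicCompletion k) a) = f (algebraMap k E a)) :
    ∃ u : F, S.eval₂ f (θ (xv x)) = f c * u ^ p := by
  obtain ⟨ι', φ', h1, h2, h3⟩ := GU.exists_pair_E R E.val s hsec v ι φ hφ xv hxv f θ hθ
  replace h2 : ∀ l : E, ι' (l : AlgebraicClosure k) = algebraMap F _ (f l) := h2
  have hinj := (algebraMap F (AlgebraicClosure F)).injective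
  have hηint : IsIntegral R η := IsIntegral.of_pow hp (by rw [h.γpow]; exact evE_int R x S)
  have hval : φ' ⟨η, hηint⟩ ^ p = algebraMap F _ (S.eval₂ f (θ (xv x))) := by
    have h4 : (⟨η, hηint⟩ : integralClosure R M) ^ p = evB R x (S.map (algebraMap E (AlgebraicClosure k))) := by
      apply Subtype.ext
      rw [coe_evB]
      exact h.γpow
    rw [← map_pow, h4, pt_evB R x _ φ' h1.1, h3, eval₂_map, hom_eval₂]
    exact eval₂_congr (RingHom.ext fun b => h2 b) rfl rfl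
  by_cases hη0 : η = 0
  · refine ⟨0, ?_⟩
    rw [zero_pow (by omega), mul_zero]
    apply hinj
    rw [← hval, map_zero]
    have h4 : (⟨η, hηint⟩ : integralClosure R M) = 0 := Subtype.ext hη0
    rw [h4, map_zero, zero_pow (by omega)]
  · have hzM : algebraMap (AlgebraicClosure k) M z ≠ 0 := by rw [_root_.map_ne_zero]; exact h.z0
    have hform : ∀ σ ∈ E.fixingSubgroup, s σ η = algebraMap (AlgebraicClosure k) M (σ z / z) * η := by
      intro σ hσ
      rw [map_div₀, div_mul_eq_mul_div, eq_div_iff hzM, h.gal σ hσ, mul_comm]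
    obtain ⟨u, hu⟩ := quot_mem (B := integralClosure R M) s (fun a => const_int R a) h1 E
      (fun l => ⟨f l, (h2 l).symm⟩) ⟨η, hηint⟩ (fun σ hσ => ⟨σ z / z, hform σ hσ⟩) (Units.mk0 z h.z0)
      (fun σ hσ ζ hζ => by
        have h4 : algebraMap (AlgebraicClosure k) M ζ = algebraMap (AlgebraicClosure k) M (σ z / z) := by
          apply mul_right_cancel₀ hη0
          rw [← hform σ hσ]
          exact hζ.symm
        have h5 := (algebraMap (AlgebraicClosure k) M).injective h4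
        rw [Units.val_mk0, h5, div_mul_cancel₀ _ h.z0])
    refine ⟨u, hinj ?_⟩
    have hιz : ι' z ≠ 0 := by rw [_root_.map_ne_zero]; exact h.z0
    have hzc : ι' z ^ p = ι' (c : AlgebraicClosure k) := by rw [← map_pow, h.zpow]
    rw [← hval, map_mul, map_pow, hu, ← h2, div_pow, Units.val_mk0, ← hzc,
      mul_div_cancel₀ _ (pow_ne_zero p hιz)]

/-- the class of the third root -/
theorem class_three (s : Gal(AlgebraicClosure k/k) →* Gal(M/K)) (p : ℕ)
    (E : IntermediateField k (AlgebraicClosure k)) [FiniteDimensional k E]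
    (F₁ F₂ H u v : E[X]) (δ m : E) (x y : R) (hx : Transcendental k (x : K))
    (hrad : RadData R M p E F₁ F₂ H u v δ m x y) (γ₁ γ₂ : M) (z₁ z₂ : AlgebraicClosure k) (c₁ c₂ : E)
    (h₁ : IsClass R s p E F₁ x γ₁ z₁ c₁) (h₂ : IsClass R s p E F₂ x γ₂ z₂ c₂)
    (hγ₁ : γ₁ ≠ 0) (hγ₂ : γ₂ ≠ 0) :
    IsClass R s p E (C m⁻¹ * H) x (algebraMap R M y / (γ₁ * γ₂)) (z₁ * z₂)⁻¹ (c₁ * c₂)⁻¹ := by
  have hm : algebraMap (AlgebraicClosure k) M (m : AlgebraicClosure k) ≠ 0 := by
    rw [_root_.map_ne_zero]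
    exact fun h => hrad.m0 (Subtype.ext h)
  have hF₁ : evE R M x F₁ ≠ 0 := by rw [← h₁.γpow]; exact pow_ne_zero _ hγ₁
  have hF₂ : evE R M x F₂ ≠ 0 := by rw [← h₂.γpow]; exact pow_ne_zero _ hγ₂
  refine ⟨?_, inv_ne_zero (mul_ne_zero h₁.z0 h₂.z0), ?_, fun σ hσ => ?_⟩
  · have h3 : evE R M x (C m⁻¹ * H) = (algebraMap _ M (m : AlgebraicClosure k))⁻¹ * evE R M x H := by
      change evM R M x _ = _
      rw [Polynomial.map_mul, map_C, map_mul, evM_C]
      congr 1
      rw [← map_inv₀]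
      rfl
    rw [h3, div_pow, mul_pow, h₁.γpow, h₂.γpow, div_eq_iff (mul_ne_zero hF₁ hF₂)]
    have h4 := hrad.eqn
    have h5 : algebraMap R M y ^ p = (algebraMap _ M (m : AlgebraicClosure k))⁻¹ *
        (evE R M x F₁ * evE R M x F₂ * evE R M x H) := by
      rw [← h4, ← mul_assoc, inv_mul_cancel₀ hm, one_mul]
    rw [h5]
    ring
  · rw [inv_pow, mul_pow, h₁.zpow, h₂.zpow]
    rfl
  · have hz₁ : algebraMap (AlgebraicClosure k) M z₁ ≠ 0 := by rw [_root_.map_ne_zero]; exact h₁.z0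
    have hz₂ : algebraMap (AlgebraicClosure k) M z₂ ≠ 0 := by rw [_root_.map_ne_zero]; exact h₂.z0
    have hσz₁ : algebraMap (AlgebraicClosure k) M (σ z₁) ≠ 0 := by
      rw [_root_.map_ne_zero, _root_.map_ne_zero]; exact h₁.z0
    have hσz₂ : algebraMap (AlgebraicClosure k) M (σ z₂) ≠ 0 := by
      rw [_root_.map_ne_zero, _root_.map_ne_zero]; exact h₂.z0
    have hsγ₁ : s σ γ₁ ≠ 0 := by rw [_root_.map_ne_zero]; exact hγ₁
    have hsγ₂ : s σ γ₂ ≠ 0 := by rw [_root_.map_ne_zero]; exact hγ₂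
    have hsy : s σ (algebraMap R M y) = algebraMap R M y := AlgEquiv.commutes (s σ) (y : K)
    have g1 := h₁.gal σ hσ
    have g2 := h₂.gal σ hσ
    rw [map_div₀, map_mul (s σ), hsy, map_inv₀ (algebraMap _ M), map_inv₀ σ, map_inv₀ (algebraMap _ M),
      map_mul (algebraMap _ M), map_mul σ, map_mul (algebraMap _ M)]
    rw [← div_eq_mul_inv, ← div_eq_mul_inv, div_div, div_div]
    congr 1
    calc s σ γ₁ * s σ γ₂ * (algebraMap _ M z₁ * algebraMap _ M z₂)
        = (s σ γ₁ * algebraMap _ M z₁) * (s σ γ₂ * algebraMap _ M z₂) := by ring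
      _ = γ₁ * γ₂ * (algebraMap _ M (σ z₁) * algebraMap _ M (σ z₂)) := by rw [g1, g2]; ring

/-- the twisted equations have local solutions only for classes of two kinds -/
def SelCondR (p : ℕ) (E : IntermediateField k (AlgebraicClosure k)) [NumberField E]
    (F₁ F₂ H : E[X]) (m : E) : Prop :=
  ∀ d₁ d₂ : E, d₁ ≠ 0 → d₂ ≠ 0 →
    (∀ v : HeightOneSpectrum (𝓞 k), ∃ t : v.adicCompletion k,
      ∀ (w : HeightOneSpectrum (𝓞 E)) (θ : v.adicCompletion k →+* w.adicCompletion E),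
      (∀ a : k, θ (algebraMap k _ a) = algebraMap E _ (algebraMap k E a)) →
      ∃ u₁ u₂ u₃ : w.adicCompletion E, aeval (θ t) F₁ = algebraMap E _ d₁ * u₁ ^ p ∧
        aeval (θ t) F₂ = algebraMap E _ d₂ * u₂ ^ p ∧
        aeval (θ t) H * algebraMap E _ (d₁ * d₂) = algebraMap E _ m * u₃ ^ p) →
    (Nat.card (InfinitePlace E) = 1 ∧ ∃ β : E, d₁ = β ^ p * d₂) ∨
      (p = 2 ∧ ∀ τ : E →+* ℂ, (∀ a, starRingEnd ℂ (τ a) = τ a) ∧ (τ (d₁ * d₂)).re < 0)

theorem data_of_sel (hmax : Pt.IsRadClosed R M (AlgebraicClosure k)) (x y : R)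
    (hx : Transcendental k (x : K))
    (s : Gal(AlgebraicClosure k/k) →* Gal(M/K)) (hs : Continuous s)
    (hsec : ∀ σ a, s σ (algebraMap (AlgebraicClosure k) M a) =
      algebraMap (AlgebraicClosure k) M (σ a))
    (ι : ∀ v : HeightOneSpectrum (𝓞 k),
      AlgebraicClosure k →ₐ[k] AlgebraicClosure (v.adicCompletion k))
    (φ : ∀ v : HeightOneSpectrum (𝓞 k),
      integralClosure R M →+* AlgebraicClosure (v.adicCompletion k))
    (hφ : ∀ v, Respects s (v.adicCompletion k)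
      (ι v : _ →+* AlgebraicClosure (v.adicCompletion k)) (φ v))
    (p : ℕ) (E : IntermediateField k (AlgebraicClosure k)) [FiniteDimensional k E] [NumberField E]
    (F₁ F₂ H u v : E[X]) (δ m : E)
    (hrad : RadData R M p E F₁ F₂ H u v δ m x y) (hsel : SelCondR p E F₁ F₂ H m) :
    UnitData R (M := M) s x := by
  have hp1 : 1 ≤ p := hrad.prime.one_lt.le
  have hF₁ : F₁ ≠ 0 := by
    rintro rfl
    have h4 := hrad.nc
    rw [mul_zero, natDegree_zero] at h4
    exact lt_irrefl _ h4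
  have hF₂ : F₂ ≠ 0 := by
    rintro rfl
    have h1 := hrad.rel
    rw [mul_zero, sub_zero] at h1
    have h4 := hrad.nc
    rw [h1, natDegree_C] at h4
    exact lt_irrefl _ h4
  have hm' : (m : AlgebraicClosure k) ≠ 0 := fun h => hrad.m0 (Subtype.ext h)
  let mp : E[X] →+* (AlgebraicClosure k)[X] := mapRingHom (algebraMap E (AlgebraicClosure k))
  obtain ⟨γ₁, hγ₁⟩ := root_coprime R hmax p hp1 x hx (mp F₁) (mp (F₂ * H)) (hrad.cop₁.map mp)
    ((Polynomial.map_ne_zero_iff (algebraMap E (AlgebraicClosure k)).injective).mpr hF₁)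
    (m : AlgebraicClosure k) hm' (algebraMap R M y) (by
      rw [hrad.eqn, map_mul mp, map_mul (evM R M x)]
      exact mul_assoc _ _ _)
  obtain ⟨γ₂, hγ₂⟩ := root_coprime R hmax p hp1 x hx (mp F₂) (mp (F₁ * H)) (hrad.cop₂.map mp)
    ((Polynomial.map_ne_zero_iff (algebraMap E (AlgebraicClosure k)).injective).mpr hF₂)
    (m : AlgebraicClosure k) hm' (algebraMap R M y) (by
      rw [hrad.eqn, map_mul mp, map_mul (evM R M x)]
      change evM R M x (mp F₁) * evM R M x (mp F₂) * evM R M x (mp H) = _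
      ring)
  have hγ₁' : γ₁ ^ p = evE R M x F₁ := hγ₁
  have hγ₂' : γ₂ ^ p = evE R M x F₂ := hγ₂
  have hγ₁0 : γ₁ ≠ 0 := by
    rintro rfl
    rw [zero_pow (by omega)] at hγ₁'
    exact evE_ne_zero R x hx F₁ hF₁ hγ₁'.symm
  have hγ₂0 : γ₂ ≠ 0 := by
    rintro rfl
    rw [zero_pow (by omega)] at hγ₂'
    exact evE_ne_zero R x hx F₂ hF₂ hγ₂'.symm
  obtain ⟨z₁, c₁, h₁⟩ := sel_exists_class R s hs hsec p hp1 E F₁ hF₁ x hx γ₁ hγ₁'
  obtain ⟨z₂, c₂, h₂⟩ := sel_exists_class R s hs hsec p hp1 E F₂ hF₂ x hx γ₂ hγ₂'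
  have hc₁ := class_ne R hrad.prime.ne_zero h₁
  have hc₂ := class_ne R hrad.prime.ne_zero h₂
  have h₃ := class_three R s p E F₁ F₂ H u v δ m x y hx hrad γ₁ γ₂ z₁ z₂ c₁ c₂ h₁ h₂ hγ₁0 hγ₂0
  have hloc : ∀ v : HeightOneSpectrum (𝓞 k), ∃ t : v.adicCompletion k,
      ∀ (w : HeightOneSpectrum (𝓞 E)) (θ : v.adicCompletion k →+* w.adicCompletion E),
      (∀ a : k, θ (algebraMap k _ a) = algebraMap E _ (algebraMap k E a)) →
      ∃ u₁ u₂ u₃ : w.adicCompletion E, aeval (θ t) F₁ = algebraMap E _ c₁ * u₁ ^ p ∧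
        aeval (θ t) F₂ = algebraMap E _ c₂ * u₂ ^ p ∧
        aeval (θ t) H * algebraMap E _ (c₁ * c₂) = algebraMap E _ m * u₃ ^ p := by
    intro v
    obtain ⟨xv, hxv⟩ := exists_local_point R s v (ι v) (φ v) (hφ v)
    refine ⟨xv x, fun w θ hθ => ?_⟩
    have hchar : CharZero (w.adicCompletion E) := charZero_of_injective_algebraMap
      (algebraMap E (w.adicCompletion E)).injective
    obtain ⟨u₁, e1⟩ := class_local R s hsec p hp1 E F₁ x γ₁ z₁ c₁ h₁ v (ι v) (φ v) (hφ v) xv hxv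
      (algebraMap E (w.adicCompletion E)) θ hθ
    obtain ⟨u₂, e2⟩ := class_local R s hsec p hp1 E F₂ x γ₂ z₂ c₂ h₂ v (ι v) (φ v) (hφ v) xv hxv
      (algebraMap E (w.adicCompletion E)) θ hθ
    obtain ⟨u₃, e3⟩ := class_local R s hsec p hp1 E _ x _ _ _ h₃ v (ι v) (φ v) (hφ v) xv hxv
      (algebraMap E (w.adicCompletion E)) θ hθ
    refine ⟨u₁, u₂, u₃, e1, e2, ?_⟩
    rw [eval₂_mul, eval₂_C, map_inv₀, map_inv₀] at e3
    have hmw : algebraMap E (w.adicCompletion E) m ≠ 0 := by rw [_root_.map_ne_zero]; exact hrad.m0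
    have hcw : algebraMap E (w.adicCompletion E) (c₁ * c₂) ≠ 0 := by
      rw [_root_.map_ne_zero]; exact mul_ne_zero hc₁ hc₂
    rw [aeval_def]
    rw [inv_mul_eq_div, inv_mul_eq_div, div_eq_div_iff hmw hcw] at e3
    rw [e3]
    ring
  rcases hsel c₁ c₂ hc₁ hc₂ hloc with ⟨hE, β, hβ⟩ | ⟨hp2, hτ⟩
  · exact rad_plus R hmax x y hx s hsec p E F₁ F₂ H u v δ m hrad γ₁ γ₂ z₁ z₂ c₁ c₂ β h₁ h₂ hβ hE
  · subst hp2
    exact rad_minus R hmax x y hx s hsec E F₁ F₂ H u v δ m hrad γ₁ γ₂ z₁ c₁ h₁ h₂.γpow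
      (minus_of_neg R s E F₁ F₂ x γ₁ γ₂ z₁ z₂ c₁ c₂ h₁ h₂ fun τ =>
        hτ (τ.comp (algebraMap E (AlgebraicClosure k))))

theorem minus_of_real' (s : Gal(AlgebraicClosure k/k) →* Gal(M/K))
    (hsec : ∀ σ a, s σ (algebraMap (AlgebraicClosure k) M a) =
      algebraMap (AlgebraicClosure k) M (σ a)) (x : R) (Y : M)
    (E : IntermediateField k (AlgebraicClosure k)) (hY : ∀ σ ∈ E.fixingSubgroup, s σ Y = Y)
    (P Q : E[X]) (ξ₀ : M) (hξ0 : ξ₀ ≠ 0)
    (hξ : ξ₀ ^ 2 = evM R M x (Q.map (algebraMap E (AlgebraicClosure k))))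
    (hy : Y ^ 2 = evM R M x (P.map (algebraMap E (AlgebraicClosure k))) *
      evM R M x (Q.map (algebraMap E (AlgebraicClosure k))))
    (hreal : RealCond R (M := M) s x E P Q) : MinusRad s E ξ₀ := by
  intro τ
  obtain ⟨hτ, φ, hφ, t, ht, hsign⟩ := hreal τ
  obtain ⟨c, hcF, hc⟩ := exists_conj E τ hτ
  refine ⟨c, hcF, hc, ?_⟩
  rcases hsign with h | ⟨-, h⟩
  · exact sign_of_neg R s hsec x E Q ξ₀ hξ τ hτ φ hφ t ht h c hcF hc
  · have h1 : (Y / ξ₀) ^ 2 = evM R M x (P.map (algebraMap E (AlgebraicClosure k))) := by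
      rw [div_pow, hy, ← hξ, mul_div_cancel_right₀ _ (pow_ne_zero 2 hξ0)]
    have h2 := sign_of_neg R s hsec x E P _ h1 τ hτ φ hφ t ht h c hcF hc
    have h3 : s c Y = Y := hY c hcF
    by_cases hy0 : Y = 0
    · rw [hy0, zero_pow two_ne_zero, ← hξ] at hy
      have h4 : evM R M x (P.map (algebraMap E (AlgebraicClosure k))) = 0 := by
        rcases mul_eq_zero.mp hy.symm with h | h
        · exact h
        · exact absurd h (pow_ne_zero 2 hξ0)
      exfalso
      -- the value is zero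
      have h5 : (P.eval₂ (τ.comp (algebraMap E (AlgebraicClosure k))) (t : ℂ)) = 0 := by
        have h6 := pt_evB R x τ φ hφ.1 (P.map (algebraMap E (AlgebraicClosure k)))
        rw [ht, eval₂_map] at h6
        rw [← h6]
        have h7 : evB R x (P.map (algebraMap E (AlgebraicClosure k))) =
            (0 : integralClosure R M) := by
          apply Subtype.ext
          rw [coe_evB, h4]; rfl
        rw [h7, map_zero]
      rw [h5, Complex.zero_re] at h
      exact lt_irrefl _ h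
    · rw [map_div₀, h3] at h2
      have hs0 : s c ξ₀ ≠ 0 := by rw [_root_.map_ne_zero]; exact hξ0
      field_simp at h2
      rw [eq_neg_iff_add_eq_zero] at h2 ⊢
      rw [add_comm]; exact h2

theorem data_of_real (hmax : Pt.IsRadClosed R M (AlgebraicClosure k)) (x y : R)
    (hx : Transcendental k (x : K))
    (s : Gal(AlgebraicClosure k/k) →* Gal(M/K)) (hs : Continuous s)
    (hsec : ∀ σ a, s σ (algebraMap (AlgebraicClosure k) M a) =
      algebraMap (AlgebraicClosure k) M (σ a))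
    (E : IntermediateField k (AlgebraicClosure k)) [FiniteDimensional k E]
    (F₁ F₂ H u v : E[X]) (δ m : E)
    (hrad : RadData R M 2 E F₁ F₂ H u v δ m x y)
    (hreal : RealCond R (M := M) s x E (C m * H) (F₁ * F₂)) :
    UnitData R (M := M) s x := by
  have hF₁ : F₁ ≠ 0 := by
    rintro rfl
    have h4 := hrad.nc
    rw [mul_zero, natDegree_zero] at h4
    exact lt_irrefl _ h4
  have hF₂ : F₂ ≠ 0 := by
    rintro rfl
    have h1 := hrad.rel
    rw [mul_zero, sub_zero] at h1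
    have h4 := hrad.nc
    rw [h1, natDegree_C] at h4
    exact lt_irrefl _ h4
  have hm' : (m : AlgebraicClosure k) ≠ 0 := fun h => hrad.m0 (Subtype.ext h)
  let mp : E[X] →+* (AlgebraicClosure k)[X] := mapRingHom (algebraMap E (AlgebraicClosure k))
  obtain ⟨γ₁, hγ₁⟩ := root_coprime R hmax 2 one_le_two x hx (mp F₁) (mp (F₂ * H)) (hrad.cop₁.map mp)
    ((Polynomial.map_ne_zero_iff (algebraMap E (AlgebraicClosure k)).injective).mpr hF₁)
    (m : AlgebraicClosure k) hm' (algebraMap R M y) (by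
      rw [hrad.eqn, map_mul mp, map_mul (evM R M x)]
      exact mul_assoc _ _ _)
  obtain ⟨γ₂, hγ₂⟩ := root_coprime R hmax 2 one_le_two x hx (mp F₂) (mp (F₁ * H)) (hrad.cop₂.map mp)
    ((Polynomial.map_ne_zero_iff (algebraMap E (AlgebraicClosure k)).injective).mpr hF₂)
    (m : AlgebraicClosure k) hm' (algebraMap R M y) (by
      rw [hrad.eqn, map_mul mp, map_mul (evM R M x)]
      change evM R M x (mp F₁) * evM R M x (mp F₂) * evM R M x (mp H) = _
      ring)
  have hγ₁' : γ₁ ^ 2 = evE R M x F₁ := hγ₁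
  have hγ₂' : γ₂ ^ 2 = evE R M x F₂ := hγ₂
  have hγ₁0 : γ₁ ≠ 0 := by
    rintro rfl
    rw [zero_pow two_ne_zero] at hγ₁'
    exact evE_ne_zero R x hx F₁ hF₁ hγ₁'.symm
  have hγ₂0 : γ₂ ≠ 0 := by
    rintro rfl
    rw [zero_pow two_ne_zero] at hγ₂'
    exact evE_ne_zero R x hx F₂ hF₂ hγ₂'.symm
  obtain ⟨z₁, c₁, h₁⟩ := sel_exists_class R s hs hsec 2 one_le_two E F₁ hF₁ x hx γ₁ hγ₁'
  have hmM : algebraMap (AlgebraicClosure k) M (m : AlgebraicClosure k) ≠ 0 := by
    rw [_root_.map_ne_zero]; exact hm'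
  refine rad_minus R hmax x y hx s hsec E F₁ F₂ H u v δ m hrad γ₁ γ₂ z₁ c₁ h₁ hγ₂'
    (minus_of_real' R s hsec x (algebraMap _ M (m : AlgebraicClosure k) * algebraMap R M y) E
      (fun σ hσ => ?_) (C m * H) (F₁ * F₂) (γ₁ * γ₂) (mul_ne_zero hγ₁0 hγ₂0) ?_ ?_ hreal)
  · have hsy : s σ (algebraMap R M y) = algebraMap R M y := AlgEquiv.commutes (s σ) (y : K)
    rw [IntermediateField.mem_fixingSubgroup_iff] at hσ
    rw [map_mul (s σ), hsec, hσ m m.2, hsy]
  · rw [mul_pow, hγ₁', hγ₂', Polynomial.map_mul, map_mul]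
    rfl
  · have h4 := hrad.eqn
    have h5 : evM R M x ((C m * H).map (algebraMap E (AlgebraicClosure k))) =
        algebraMap _ M (m : AlgebraicClosure k) * evE R M x H := by
      rw [Polynomial.map_mul, map_C, map_mul, evM_C]
      rfl
    have h6 : evM R M x ((F₁ * F₂).map (algebraMap E (AlgebraicClosure k))) =
        evE R M x F₁ * evE R M x F₂ := by
      rw [Polynomial.map_mul, map_mul]
      rfl
    rw [h5, h6, mul_pow, pow_two (algebraMap _ M (m : AlgebraicClosure k)), mul_assoc, h4]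
    ring

end

end Pool.Agent.Lib.MP_2f3286_ag.PA
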