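import Pool.Agent.Lib.MP_2f3286_ag.PA.RDefs

/-!
# Coprime radicals: the unit
-/

open IsDedekindDomain NumberField IntermediateField Polynomial

namespace Pool.Agent.Lib.MP_2f3286_ag.PA

universe u

/-- a power is a combination of lower powers -/
theorem integral_of_sum {M : Type*} [Field M] (S : Subring M) (t : M) (n : ℕ) (a : ℕ → M)
    (ha : ∀ i < n, a i ∈ S) (h : t ^ n = ∑ i ∈ Finset.range n, a i * t ^ i) : IsIntegral S t := by
  classical
  let b : ℕ → S := fun i => if hi : a i ∈ S then ⟨a i, hi⟩ else 0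
  have hb : ∀ i < n, (b i : M) = a i := fun i hi => by
    simp only [b]
    rw [dif_pos (ha i hi)]
  let Q : S[X] := -∑ i ∈ Finset.range n, C (b i) * X ^ i
  have hQ : Q.degree < n := by
    simp only [Q]
    rw [degree_neg]
    refine lt_of_le_of_lt (degree_sum_le _ _) ?_
    refine (Finset.sup_lt_iff (WithBot.bot_lt_coe n)).mpr fun i hi => ?_
    refine lt_of_le_of_lt (degree_C_mul_X_pow_le _ _) ?_
    exact WithBot.coe_lt_coe.mpr (Finset.mem_range.mp hi)
  refine ⟨X ^ n + Q, monic_X_pow_add hQ, ?_⟩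
  rw [eval₂_add, eval₂_pow, eval₂_X, h]
  simp only [Q]
  rw [eval₂_neg, eval₂_finsetSum, add_neg_eq_zero]
  refine Finset.sum_congr rfl fun i hi => ?_
  rw [eval₂_mul, eval₂_C, eval₂_pow, eval₂_X]
  congr 1
  exact (hb i (Finset.mem_range.mp hi)).symm

/-- the ratio of two integral elements whose `p`-th powers have a constant difference -/
theorem ratio_eq {M : Type*} [Field M] [CharZero M] (t s : M) (p : ℕ) (hp : 2 ≤ p)
    (h : (t + 1) ^ p - t ^ p = s) :
    t ^ (p - 1) = ∑ i ∈ Finset.range (p - 1), ((if i = 0 then s / p else 0) - (p.choose i : M) / p) * t ^ i := by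
  have hp0 : (p : M) ≠ 0 := by exact_mod_cast (by omega : p ≠ 0)
  obtain ⟨q, rfl⟩ : ∃ q, p = q + 2 := ⟨p - 2, by omega⟩
  have hq1 : q + 2 - 1 = q + 1 := rfl
  rw [hq1]
  have h1 : (t + 1) ^ (q + 2) = t ^ (q + 2) + ((q + 2 : ℕ) : M) * t ^ (q + 1) +
      ∑ i ∈ Finset.range (q + 1), ((q + 2).choose i : M) * t ^ i := by
    rw [add_pow, Finset.sum_range_succ, Finset.sum_range_succ]
    simp only [one_pow, mul_one, Nat.choose_self, Nat.cast_one]
    have h2 : (q + 2).choose (q + 1) = q + 2 := Nat.choose_succ_self_right (q + 1)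
    rw [h2]
    have h3 : ∑ x ∈ Finset.range (q + 1), t ^ x * ((q + 2).choose x : M) =
        ∑ i ∈ Finset.range (q + 1), ((q + 2).choose i : M) * t ^ i :=
      Finset.sum_congr rfl fun i _ => mul_comm _ _
    rw [h3]
    ring
  rw [h1] at h
  have h2 : ((q + 2 : ℕ) : M) * t ^ (q + 1) = s - ∑ i ∈ Finset.range (q + 1), ((q + 2).choose i : M) * t ^ i := by
    rw [← h]; ring
  have h3 : ∑ i ∈ Finset.range (q + 1), ((if i = 0 then s / ((q + 2 : ℕ) : M) else 0) -
      ((q + 2).choose i : M) / ((q + 2 : ℕ) : M)) * t ^ i =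
      s / ((q + 2 : ℕ) : M) - (∑ i ∈ Finset.range (q + 1), ((q + 2).choose i : M) * t ^ i) / ((q + 2 : ℕ) : M) := by
    simp only [sub_mul]
    rw [Finset.sum_sub_distrib]
    congr 1
    · rw [Finset.sum_range_succ']
      simp
    · rw [Finset.sum_div]
      exact Finset.sum_congr rfl fun i _ => by ring
  rw [h3, ← sub_div, eq_div_iff hp0, mul_comm, h2]

section

variable {k : Type u} [Field k] [NumberField k]
    {K : Type*} [Field K] [Algebra k K]
    (R : Subalgebra k K)
    {M : Type*} [Field M] [Algebra K M]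
    [Algebra (AlgebraicClosure k) M] [Algebra k M]
    [IsScalarTower k K M] [IsScalarTower k (AlgebraicClosure k) M]

omit [NumberField k] [Algebra K M] [IsScalarTower k K M] [Algebra k K] in
theorem const_int_adjoin (s : Set M) (a : AlgebraicClosure k) :
    IsIntegral (Algebra.adjoin k s) (algebraMap (AlgebraicClosure k) M a) := by
  have h1 : IsIntegral k a := Algebra.IsIntegral.isIntegral a
  have h2 : IsIntegral k (algebraMap (AlgebraicClosure k) M a) := h1.algebraMap
  exact h2.tower_top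

/-- the relations of the unit -/
theorem rel_of_pow_sub (x : R) (A B : M) (c : AlgebraicClosure k) (hc : c ≠ 0) (p : ℕ) (hp : 2 ≤ p)
    (h : A ^ p - B ^ p = algebraMap _ M c)
    (hA : IsIntegral (Algebra.adjoin k {algebraMap R M x}) A)
    (hB : IsIntegral (Algebra.adjoin k {algebraMap R M x}) B)
    (W : (AlgebraicClosure k)[X]) (hW : 0 < W.natDegree) (hBW : B ^ p = evM R M x W)
    (hxU : algebraMap R M x ∈ unitRing R M) : UnitRel R x (A - B) := by
  classical
  have hM2 : CharZero M := charZero_of_injective_algebraMap (algebraMap (AlgebraicClosure k) M).injective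
  have hcM : algebraMap (AlgebraicClosure k) M c ≠ 0 := by rw [_root_.map_ne_zero]; exact hc
  let S : Subring M := (integralClosure (Algebra.adjoin k {algebraMap R M x}) M).toSubring
  obtain ⟨hinv, hne⟩ := unit_of_pow_sub S A B _ p hcM (by
    rw [← map_inv₀]; exact const_int_adjoin _ _) h hA hB
  set e : M := A - B with he
  let A' := Algebra.adjoin k ({e, e⁻¹} : Set M)
  let S' : Subring M := (integralClosure A' M).toSubring
  have hconst : ∀ a : AlgebraicClosure k, algebraMap _ M a ∈ S' := fun a => const_int_adjoin _ a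
  have heS : e ∈ S' := (isIntegral_algebraMap (x := (⟨e, Algebra.subset_adjoin (Or.inl rfl)⟩ : A')) :
    IsIntegral A' (algebraMap A' M _))
  have heS' : e⁻¹ ∈ S' := (isIntegral_algebraMap (x := (⟨e⁻¹, Algebra.subset_adjoin (Or.inr rfl)⟩ : A')) :
    IsIntegral A' (algebraMap A' M _))
  have hnat : ∀ n : ℕ, (n : M) ∈ S' := fun n => natCast_mem S' n
  have hdiv : ∀ n : ℕ, n ≠ 0 → ((n : M))⁻¹ ∈ S' := by
    intro n _
    have h1 : ((n : M))⁻¹ = algebraMap (AlgebraicClosure k) M ((n : AlgebraicClosure k)⁻¹) := by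
      rw [map_inv₀, map_natCast]
    rw [h1]; exact hconst _
  -- `S'` is integrally closed
  have hclosed : ∀ t : M, IsIntegral S' t → t ∈ S' := by
    intro t ht
    have h1 : IsIntegral (integralClosure A' M) t := ht
    exact isIntegral_trans (R := A') (A := integralClosure A' M) t h1
  set t : M := B * e⁻¹ with ht
  have hteq : (t + 1) ^ p - t ^ p = algebraMap _ M c * (e⁻¹) ^ p := by
    have h1 : t + 1 = A * e⁻¹ := by
      have h2 : B * e⁻¹ + e * e⁻¹ = A * e⁻¹ := by rw [← add_mul, he]; congr 1; ring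
      rw [mul_inv_cancel₀ hne] at h2
      rw [ht, h2]
    rw [h1, ht, mul_pow, mul_pow, ← h]
    ring
  have htS : t ∈ S' := by
    apply hclosed
    refine integral_of_sum S' t (p - 1) (fun i => (if i = 0 then algebraMap (AlgebraicClosure k) M c *
      (e⁻¹) ^ p / (p : M) else 0) - (p.choose i : M) / (p : M)) (fun i _ => ?_) (ratio_eq t _ p hp hteq)
    refine sub_mem ?_ ?_
    · split_ifs
      · rw [div_eq_mul_inv]
        exact mul_mem (mul_mem (hconst c) (pow_mem heS' p)) (hdiv p (by omega))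
      · exact zero_mem _
    · rw [div_eq_mul_inv]
      exact mul_mem (hnat _) (hdiv p (by omega))
  have hBS : B ∈ S' := by
    have h1 : B = t * e := by rw [ht, mul_assoc, inv_mul_cancel₀ hne, mul_one]
    rw [h1]; exact mul_mem htS heS
  have hWS : evM R M x W ∈ S' := by rw [← hBW]; exact pow_mem hBS p
  have hxS : algebraMap R M x ∈ S' := by
    apply hclosed
    have hW0 : W ≠ 0 := by
      intro h0
      rw [h0, natDegree_zero] at hW
      exact lt_irrefl _ hW
    set d := W.natDegree with hd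
    set lc := W.leadingCoeff with hlc
    have hlc0 : lc ≠ 0 := leadingCoeff_ne_zero.mpr hW0
    have hlcM : algebraMap (AlgebraicClosure k) M lc ≠ 0 := by rw [_root_.map_ne_zero]; exact hlc0
    refine integral_of_sum S' (algebraMap R M x) d
      (fun i => (if i = 0 then evM R M x W * algebraMap _ M lc⁻¹ else 0) -
        algebraMap _ M (W.coeff i * lc⁻¹)) (fun i _ => ?_) ?_
    · refine sub_mem ?_ (hconst _)
      split_ifs
      · exact mul_mem hWS (hconst _)
      · exact zero_mem _
    · rw [Finset.sum_congr rfl fun i _ => sub_mul _ _ _, Finset.sum_sub_distrib]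
      have h1 : ∑ i ∈ Finset.range d, (if i = 0 then evM R M x W * algebraMap _ M lc⁻¹ else 0) *
          algebraMap R M x ^ i = evM R M x W * algebraMap _ M lc⁻¹ := by
        obtain ⟨d', hd'⟩ := Nat.exists_eq_succ_of_ne_zero hW.ne'
        rw [hd', Finset.sum_range_succ']
        simp
      rw [h1]
      have h2 : evM R M x W = ∑ i ∈ Finset.range d, algebraMap _ M (W.coeff i) * algebraMap R M x ^ i +
          algebraMap _ M lc * algebraMap R M x ^ d := by
        change eval₂ _ _ W = _
        rw [eval₂_eq_sum_range, Finset.sum_range_succ]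
        rfl
      have h3 : ∑ i ∈ Finset.range d, algebraMap (AlgebraicClosure k) M (W.coeff i * lc⁻¹) *
          algebraMap R M x ^ i = (∑ i ∈ Finset.range d, algebraMap _ M (W.coeff i) *
            algebraMap R M x ^ i) * algebraMap _ M lc⁻¹ := by
        rw [Finset.sum_mul]
        exact Finset.sum_congr rfl fun i _ => by rw [map_mul]; ring
      rw [h3, h2, map_inv₀]
      field_simp
      ring
  exact ⟨hne, hA.sub hB, hinv, hxS, hxU⟩

/-- the unit of coprime radicals -/
theorem rad_rel (hmax : Pt.IsRadClosed R M (AlgebraicClosure k)) (x y : R) (hx : Transcendental k (x : K))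
    (p : ℕ) (E : IntermediateField k (AlgebraicClosure k)) (F₁ F₂ H u v : E[X]) (δ m : E)
    (hrad : RadData R M p E F₁ F₂ H u v δ m x y) (γ₁ γ₂ : M) (h₁ : γ₁ ^ p = evE R M x F₁)
    (h₂ : γ₂ ^ p = evE R M x F₂) (a b q : AlgebraicClosure k) (ha : a ^ p = q) (hb : b ^ p = q) (hq : q ≠ 0) :
    UnitRel R x (algebraMap _ M a * (evE R M x u * γ₁) - algebraMap _ M b * (evE R M x v * γ₂)) ∧
    ∃ (β₁ β₂ : AlgebraicClosure k) (z₁ z₂ : M), β₁ ≠ β₂ ∧
      z₁ ^ p = algebraMap R M x - algebraMap _ M β₁ ∧ z₂ ^ p = algebraMap R M x - algebraMap _ M β₂ := by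
  classical
  have hp2 := hrad.prime.two_le
  let ev : (AlgebraicClosure k)[X] →+* M := evM R M x
  let mp : E[X] →+* (AlgebraicClosure k)[X] := mapRingHom (algebraMap E (AlgebraicClosure k))
  have hevE : ∀ S : E[X], evE R M x S = evM R M x (mp S) := fun S => rfl
  have hinj : Function.Injective (algebraMap E (AlgebraicClosure k)) := (algebraMap E _).injective
  have hmp0 : ∀ S : E[X], S ≠ 0 → mp S ≠ 0 := fun S hS => (Polynomial.map_ne_zero_iff hinj).mpr hS
  have hmpd : ∀ S : E[X], (mp S).natDegree = S.natDegree := fun S => natDegree_map _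
  have hA0 : u ^ p * F₁ ≠ 0 := by
    intro h
    have h1 := hrad.nc
    rw [h, natDegree_zero] at h1
    exact lt_irrefl _ h1
  have hBdeg : (v ^ p * F₂).natDegree = (u ^ p * F₁).natDegree := by
    have h1 : v ^ p * F₂ = u ^ p * F₁ - C δ := by rw [← hrad.rel]; ring
    rw [h1, natDegree_sub_C]
  have hB0 : v ^ p * F₂ ≠ 0 := by
    intro h
    rw [h, natDegree_zero] at hBdeg
    have h1 := hrad.nc
    omega
  have hAM : (evE R M x u * γ₁) ^ p = evM R M x (mp (u ^ p * F₁)) := by
    rw [mul_pow, h₁, hevE, hevE, map_mul mp, map_pow mp, map_mul, map_pow]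
  have hBM : (evE R M x v * γ₂) ^ p = evM R M x (mp (v ^ p * F₂)) := by
    rw [mul_pow, h₂, hevE, hevE, map_mul mp, map_pow mp, map_mul, map_pow]
  have hrelM : evM R M x (mp (u ^ p * F₁)) - evM R M x (mp (v ^ p * F₂)) =
      algebraMap _ M (δ : AlgebraicClosure k) := by
    rw [← map_sub, ← map_sub, hrad.rel]
    change evM R M x (map _ (C δ)) = _
    rw [map_C, evM_C]
    rfl
  have hδ0 : (δ : AlgebraicClosure k) ≠ 0 := fun h => hrad.δ0 (Subtype.ext h)
  -- two roots
  obtain ⟨β₁, β₂, hne, hβ₁, hβ₂⟩ := exists_two_roots p hp2 (mp (u ^ p * F₁)) (mp (v ^ p * F₂))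
    (δ : AlgebraicClosure k) hδ0 (by
      rw [← map_sub, hrad.rel]
      change map _ (C δ) = _
      rw [map_C]
      rfl) (by rw [hmpd]; exact hrad.nc)
  have hroot : ∀ β, (¬ p ∣ (mp (u ^ p * F₁)).rootMultiplicity β ∨
      ¬ p ∣ (mp (v ^ p * F₂)).rootMultiplicity β) → ∃ z : M, z ^ p = algebraMap R M x - algebraMap _ M β := by
    intro β hβ
    rcases hβ with hβ | hβ
    · exact root_linear R hmax p hrad.prime x hx _ (hmp0 _ hA0) _ hAM β hβ
    · exact root_linear R hmax p hrad.prime x hx _ (hmp0 _ hB0) _ hBM β hβ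
  obtain ⟨z₁, hz₁⟩ := hroot β₁ hβ₁
  obtain ⟨z₂, hz₂⟩ := hroot β₂ hβ₂
  refine ⟨?_, β₁, β₂, z₁, z₂, hne, hz₁, hz₂⟩
  have hxU := x_mem_p R p hp2 x β₁ β₂ hne z₁ z₂ hz₁ hz₂
  -- integrality over `k[x]`
  let A₀ := Algebra.adjoin k ({algebraMap R M x} : Set M)
  have hxA : IsIntegral A₀ (algebraMap R M x) := (isIntegral_algebraMap
    (x := (⟨algebraMap R M x, Algebra.subset_adjoin rfl⟩ : A₀)) : IsIntegral A₀ (algebraMap A₀ M _))
  have hpolyA : ∀ Q : (AlgebraicClosure k)[X], IsIntegral A₀ (evM R M x Q) := by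
    intro Q
    induction Q using Polynomial.induction_on with
    | C a => rw [evM_C]; exact const_int_adjoin _ a
    | add p q hp hq => rw [map_add]; exact hp.add hq
    | monomial n a _ =>
      rw [map_mul, map_pow, evM_X, evM_C]
      exact (const_int_adjoin _ a).mul (hxA.pow _)
  have hAint : IsIntegral A₀ (evE R M x u * γ₁) :=
    IsIntegral.of_pow hrad.prime.pos (by rw [hAM]; exact hpolyA _)
  have hBint : IsIntegral A₀ (evE R M x v * γ₂) :=
    IsIntegral.of_pow hrad.prime.pos (by rw [hBM]; exact hpolyA _)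
  refine rel_of_pow_sub R x _ _ (q * δ) (mul_ne_zero hq hδ0) p hp2 ?_
    ((const_int_adjoin _ a).mul hAint) ((const_int_adjoin _ b).mul hBint)
    (C q * mp (v ^ p * F₂)) ?_ ?_ hxU
  · rw [mul_pow (algebraMap _ M a), mul_pow (algebraMap _ M b), ← map_pow, ← map_pow, ha, hb, hAM, hBM,
      ← mul_sub, hrelM, map_mul]
  · rw [natDegree_C_mul hq, hmpd, hBdeg]
    exact hrad.nc
  · rw [mul_pow (algebraMap _ M b), ← map_pow, hb, hBM, map_mul (evM R M x), evM_C]

end

end Pool.Agent.Lib.MP_2f3286_ag.PA
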