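import Pool.Agent.Lib.MP_2f3286_ag.PA.Chi
import Pool.Agent.Lib.MP_2f3286_ag.PA.UCon

/-!
# The functions take finitely many values at the local points, general unit
-/

open IsDedekindDomain NumberField IntermediateField Polynomial

namespace Pool.Agent.Lib.MP_2f3286_ag.PA

universe u

/-- a polynomial over `k` vanishing at the solutions -/
theorem exists_chi_gen {k kb : Type*} [Field k] [Field kb] [Algebra k kb] [IsAlgClosed kb]
    [Algebra.IsAlgebraic k kb] (P : k[X][X]) (m : ℕ) (hP : P.leadingCoeff = X ^ m)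
    (D : ℕ) (hD : 0 < D) (g : kb) (hg : g ≠ 0) :
    ∃ χ : k[X], χ ≠ 0 ∧ ∀ ε η : kb, ε ^ D = g → biv (algebraMap k kb) ε η P = 0 → aeval η χ = 0 := by
  classical
  let Z : Finset kb := (X ^ D - C g : kb[X]).roots.toFinset
  let Q : kb → kb[X] := fun ε => P.map (eval₂RingHom (algebraMap k kb) ε)
  have hZ : ∀ ε, ε ∈ Z ↔ ε ^ D = g := by
    intro ε
    rw [Multiset.mem_toFinset, mem_roots (X_pow_sub_C_ne_zero hD _), IsRoot.def, eval_sub, eval_pow,
      eval_X, eval_C, sub_eq_zero]
  have hQ0 : ∀ ε ∈ Z, Q ε ≠ 0 := by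
    intro ε hε h
    have h1 : (Q ε).coeff P.natDegree = ε ^ m := by
      simp only [Q]
      rw [coeff_map]
      have h2 : P.coeff P.natDegree = X ^ m := hP
      rw [h2, map_pow, coe_eval₂RingHom, eval₂_X]
    rw [h, coeff_zero] at h1
    have h2 : ε = 0 := by
      rcases Nat.eq_zero_or_pos m with h3 | h3
      · rw [h3, pow_zero] at h1
        exact absurd h1 zero_ne_one
      · exact (pow_eq_zero_iff h3.ne').mp h1.symm
    rw [hZ, h2, zero_pow hD.ne'] at hε
    exact hg hε.symm
  refine ⟨∏ ε ∈ Z, ∏ η ∈ (Q ε).roots.toFinset, minpoly k η, ?_, fun ε η hε hη => ?_⟩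
  · refine Finset.prod_ne_zero_iff.mpr fun ε _ => Finset.prod_ne_zero_iff.mpr fun η _ => ?_
    exact minpoly.ne_zero (Algebra.IsIntegral.isIntegral η)
  · have h1 : ε ∈ Z := (hZ ε).mpr hε
    have h2 : η ∈ (Q ε).roots.toFinset := by
      rw [Multiset.mem_toFinset, mem_roots (hQ0 ε h1), IsRoot.def]
      simp only [Q]
      rw [eval_map]
      exact hη
    rw [map_prod, Finset.prod_eq_zero h1]
    rw [map_prod, Finset.prod_eq_zero h2]
    exact minpoly.aeval k η

section

variable {k : Type u} [Field k] [NumberField k]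
    {K : Type*} [Field K] [Algebra k K]
    (R : Subalgebra k K)
    {M : Type*} [Field M] [Algebra K M]
    [Algebra (AlgebraicClosure k) M] [Algebra k M]
    [IsScalarTower k K M] [IsScalarTower k (AlgebraicClosure k) M]

theorem finite_values_gen (s : Gal(AlgebraicClosure k/k) →* Gal(M/K)) (hs : Continuous s)
    (hsec : ∀ σ a, s σ (algebraMap (AlgebraicClosure k) M a) =
      algebraMap (AlgebraicClosure k) M (σ a))
    (S : Finset (HeightOneSpectrum (𝓞 k)))
    (ι : ∀ v : {v : HeightOneSpectrum (𝓞 k) // v ∉ S},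
      AlgebraicClosure k →ₐ[k] AlgebraicClosure (v.1.adicCompletion k))
    (φ : ∀ v : {v : HeightOneSpectrum (𝓞 k) // v ∉ S},
      integralClosure R M →+* AlgebraicClosure (v.1.adicCompletion k))
    (hφ : ∀ v, Respects s (v.1.adicCompletion k)
      (ι v : _ →+* AlgebraicClosure (v.1.adicCompletion k)) (φ v))
    (L : IntermediateField k (AlgebraicClosure k)) [FiniteDimensional k L] [NumberField L]
    (e e' : integralClosure R M) (c₀ : L) (hc₀ : c₀ ≠ 0) (hee' : (e : M) * e' = 1)
    (hroots : ∀ n : ℕ, 1 ≤ n → ∃ b : M, b ^ n = (e : M))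
    (hfix : ∀ σ ∈ L.fixingSubgroup, s σ (e : M) = e)
    (x : R) (P₁ P₂ P₃ : k[X][X]) (hP₁ : P₁.Monic) (hP₂ : P₂.Monic) (m : ℕ)
    (hP₃ : P₃.leadingCoeff = X ^ m)
    (h1 : biv (algebraMap k M) (algebraMap R M x) (e : M) P₁ = 0)
    (h2 : biv (algebraMap k M) (algebraMap R M x) (e' : M) P₂ = 0)
    (h3 : biv (algebraMap k M) (e : M) (algebraMap R M x) P₃ = 0)
    (hcase : UnitCase S L s (e : M) c₀)
    (T : Finset (HeightOneSpectrum (𝓞 k))) (N : ℕ) (hN : 1 ≤ N)
    (hint : ∀ v, v.1 ∉ T → ∀ y z : v.1.adicCompletion k,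
      φ v (algebraMap R (integralClosure R M) x) = algebraMap _ _ y →
      Valued.v y = Valued.v z ^ N → Valued.v y ≤ 1) :
    ∃ χ : k[X], χ ≠ 0 ∧ ∀ v, φ v (algebraMap R (integralClosure R M) (aeval x χ)) = 0 := by
  classical
  have he0 : (e : M) ≠ 0 := fun h => one_ne_zero (α := M) (by rw [← hee', h, zero_mul])
  -- the classes
  obtain ⟨G, hcompat, hG⟩ := exists_hasClasses R s hs hsec L e he0 hroots hfix
  -- places
  choose vb hvb using exists_below (L := k) (F := L)
  choose θ hθ hθv using fun w : HeightOneSpectrum (𝓞 L) =>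
    @exists_completion_hom_val k L _ _ _ _ _ (vb w) w (hvb w)
  choose xv hxv using fun v => exists_local_point R s v.1 (ι v) (φ v) (hφ v)
  have hchar : ∀ w : HeightOneSpectrum (𝓞 L), CharZero (w.adicCompletion L) := fun w =>
    charZero_of_injective_algebraMap (algebraMap L (w.adicCompletion L)).injective
  choose ι' φ' g1 g2 g3 using fun (w : HeightOneSpectrum (𝓞 L)) (hw : vb w ∉ S) =>
    @GU.exists_pair_E k _ _ K _ _ R M _ _ _ L _ _ L.val s hsec (vb w) (ι ⟨vb w, hw⟩)
      (φ ⟨vb w, hw⟩) (hφ _) (xv ⟨vb w, hw⟩) (hxv _) (w.adicCompletion L) _ (hchar w)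
      (algebraMap L (w.adicCompletion L)) (θ w) (hθ w) inferInstance
  replace g2 : ∀ (w : HeightOneSpectrum (𝓞 L)) (hw : vb w ∉ S) (l : L),
      ι' w hw (l : AlgebraicClosure k) =
        algebraMap _ (AlgebraicClosure (w.adicCompletion L)) (algebraMap L (w.adicCompletion L) l) := g2
  choose h hh using fun (w : HeightOneSpectrum (𝓞 L)) (hw : vb w ∉ S) =>
    hG (w.adicCompletion L) inferInstance (hchar w) (algebraMap L (w.adicCompletion L)) (ι' w hw)
      (φ' w hw) (g1 w hw) (g2 w hw) 1 le_rfl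
  let y : ∀ w : HeightOneSpectrum (𝓞 L), w.adicCompletion L := fun w =>
    if hw : vb w ∉ S then algebraMap L _ (G 1 : L) * h w hw ^ 1 else 1
  have hy : ∀ w (hw : vb w ∉ S), φ' w hw e = algebraMap _ _ (y w) := by
    intro w hw
    simp only [y]
    rw [dif_pos hw]
    exact hh w hw
  have hinj : ∀ w : HeightOneSpectrum (𝓞 L), Function.Injective
      (algebraMap (w.adicCompletion L) (AlgebraicClosure (w.adicCompletion L))) := fun w =>
    (algebraMap (w.adicCompletion L) (AlgebraicClosure (w.adicCompletion L))).injective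
  have hee : ∀ w (hw : vb w ∉ S), φ' w hw e * φ' w hw e' = 1 := by
    intro w hw
    rw [← map_mul, ← map_one (φ' w hw)]
    congr 1
    exact Subtype.ext hee'
  have hy0 : ∀ w, vb w ∉ S → y w ≠ 0 := by
    intro w hw h0
    have h4 := hee w hw
    rw [hy w hw, h0, map_zero, zero_mul] at h4
    exact zero_ne_one h4
  have hy' : ∀ w (hw : vb w ∉ S), φ' w hw e' = algebraMap _ _ (y w)⁻¹ := by
    intro w hw
    have h4 := hee w hw
    rw [hy w hw] at h4
    rw [map_inv₀]
    exact eq_inv_of_mul_eq_one_right h4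
  -- the relations
  let κ : k →+* integralClosure R M := (algebraMap R (integralClosure R M)).comp (algebraMap k R)
  have hκ : ((integralClosure R M).val : integralClosure R M →+* M).comp κ = algebraMap k M := by
    ext a
    change algebraMap K M (algebraMap k K a) = _
    rw [← IsScalarTower.algebraMap_apply]
  set xB : integralClosure R M := algebraMap R (integralClosure R M) x with hxB
  have hrelB : ∀ (a b : integralClosure R M) (P : k[X][X]), biv (algebraMap k M) (a : M) (b : M) P = 0 →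
      biv κ a b P = 0 := by
    intro a b P hP
    apply Subtype.ext
    have h4 := map_biv κ ((integralClosure R M).val : integralClosure R M →+* M) a b P
    rw [hκ] at h4
    exact h4.trans hP
  have hκw : ∀ w (hw : vb w ∉ S), (φ' w hw).comp κ =
      (algebraMap (w.adicCompletion L) (AlgebraicClosure (w.adicCompletion L))).comp
        ((algebraMap L (w.adicCompletion L)).comp (algebraMap k L)) := by
    intro w hw
    ext a
    change φ' w hw (κ a) = algebraMap (w.adicCompletion L) _
      (algebraMap L (w.adicCompletion L) (algebraMap k L a))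
    rw [← g2 w hw]
    refine (g1 w hw).1 _ _ ?_
    change algebraMap K M (algebraMap k K a) = algebraMap (AlgebraicClosure k) M (algebraMap k _ a)
    rw [← IsScalarTower.algebraMap_apply, ← IsScalarTower.algebraMap_apply]
  have hrelw : ∀ w (hw : vb w ∉ S) (a b : integralClosure R M) (a' b' : w.adicCompletion L) (P : k[X][X]),
      φ' w hw a = algebraMap _ _ a' → φ' w hw b = algebraMap _ _ b' →
      biv (algebraMap k M) (a : M) (b : M) P = 0 →
      biv ((algebraMap L (w.adicCompletion L)).comp (algebraMap k L)) a' b' P = 0 := by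
    intro w hw a b a' b' P ha hb hP
    apply hinj w
    rw [map_zero, map_biv, ← ha, ← hb, ← hκw w hw, ← map_biv, hrelB a b P hP, map_zero]
  have hxw : ∀ w (hw : vb w ∉ S), φ' w hw xB = algebraMap _ _ (θ w (xv ⟨vb w, hw⟩ x)) := fun w hw =>
    g3 w hw x
  -- the values are units at almost all places
  let xt : ∀ v : HeightOneSpectrum (𝓞 k), v.adicCompletion k := fun v =>
    if hv : v ∉ S then xv ⟨v, hv⟩ x else 0
  have hxt : ∀ v (hv : v ∉ S), xt v = xv ⟨v, hv⟩ x := fun v hv => dif_pos hv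
  have hGw : ∀ w, vb w ∉ S → ∀ n, 1 ≤ n → ∃ h : w.adicCompletion L,
      algebraMap L _ (G n : L) * h ^ n = y w := by
    intro w hw n hn
    obtain ⟨h, hh⟩ := hG (w.adicCompletion L) inferInstance (hchar w)
      (algebraMap L (w.adicCompletion L)) (ι' w hw) (φ' w hw) (g1 w hw) (g2 w hw) n hn
    refine ⟨h, hinj w ?_⟩
    rw [← hh, hy w hw]
  have r1 : ∀ w (hw : vb w ∉ S), biv ((algebraMap L (w.adicCompletion L)).comp (algebraMap k L))
      (θ w (xt (vb w))) (y w) P₁ = 0 := by
    intro w hw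
    rw [hxt _ hw]
    exact hrelw w hw xB e _ _ P₁ (hxw w hw) (hy w hw) h1
  have r2 : ∀ w (hw : vb w ∉ S), biv ((algebraMap L (w.adicCompletion L)).comp (algebraMap k L))
      (θ w (xt (vb w))) (y w)⁻¹ P₂ = 0 := by
    intro w hw
    rw [hxt _ hw]
    exact hrelw w hw xB e' _ _ P₂ (hxw w hw) (hy' w hw) h2
  have r3 : ∀ w (hw : vb w ∉ S), biv ((algebraMap L (w.adicCompletion L)).comp (algebraMap k L))
      (y w) (θ w (xt (vb w))) P₃ = 0 := by
    intro w hw
    rw [hxt _ hw]
    exact hrelw w hw e xB _ _ P₃ (hy w hw) (hxw w hw) h3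
  obtain ⟨T', hT'⟩ := exists_val_one_gen S T vb hvb θ hθv xt y hy0 P₁ P₂ P₃ hP₁ hP₂ m hP₃ r1 r2 r3
    N hN G hGw (fun v hv hvT z hz => by
      rw [hxt v hv] at hz ⊢
      exact hint ⟨v, hv⟩ hvT _ z (hxv _ x).symm hz)
  -- alpha
  set SL : Finset (HeightOneSpectrum (𝓞 L)) := (finite_above (F := L) S).toFinset with hSL
  have hSL' : ∀ w, w ∉ SL → vb w ∉ S := by
    intro w hw hS
    apply hw
    rw [hSL, Set.Finite.mem_toFinset]
    exact ⟨vb w, hS, hvb w⟩
  have hpair : ∀ w ∉ SL, ∃ (ι' : AlgebraicClosure k →+* AlgebraicClosure (w.adicCompletion L))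
      (φ' : integralClosure R M →+* AlgebraicClosure (w.adicCompletion L)),
      Respects s (w.adicCompletion L) ι' φ' ∧
      (∀ l : L, ι' (l : AlgebraicClosure k) = algebraMap _ _ (algebraMap L (w.adicCompletion L) l)) ∧
      φ' e = algebraMap _ _ (y w) := fun w hw =>
    ⟨ι' w (hSL' w hw), φ' w (hSL' w hw), g1 w _, g2 w _, hy w _⟩
  obtain ⟨α, hα⟩ := exists_alpha_of_values R s L e G hcompat hG SL y (fun w hw => hy0 w (hSL' w hw))
    hpair T' hT'
  -- the power
  obtain ⟨D, g, hD, hg, hyD⟩ : ∃ (D : ℕ) (g : L), 0 < D ∧ g ≠ 0 ∧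
      ∀ w ∉ SL, y w ^ D = algebraMap L (w.adicCompletion L) g := by
    rcases hcase with ⟨hS, hL⟩ | ⟨c, γ, hc, hcS, hγ, hγe⟩
    · have hSL0 : SL = ∅ := by
        rw [hSL, Finset.eq_empty_iff_forall_notMem]
        intro w hw
        rw [Set.Finite.mem_toFinset, hS] at hw
        obtain ⟨v, hv, -⟩ := hw
        exact absurd hv (Finset.notMem_empty v)
      have hvS : ∀ w, vb w ∉ S := fun w => by rw [hS]; exact Finset.notMem_empty _
      rw [hSL0] at hα
      obtain ⟨D, g, hD, hg, h4⟩ := pow_plus L hL G y (fun w => hy0 w (hvS w)) (fun w => hGw w (hvS w)) α hα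
      exact ⟨D, g, hD, hg, fun w _ => h4 w⟩
    · exact pow_minus R s hsec L c hc S hcS γ hγ e c₀ hc₀ hγe G hG y
        (fun w hw => hy0 w (hSL' w hw)) hpair α hα
  have hg' : (g : AlgebraicClosure k) ≠ 0 := fun h => hg (Subtype.ext h)
  -- the polynomial
  obtain ⟨χ, hχ0, hχ⟩ := exists_chi_gen (k := k) (kb := AlgebraicClosure k) P₃ m hP₃ D hD
    (g : AlgebraicClosure k) hg'
  refine ⟨χ, hχ0, fun v => ?_⟩
  obtain ⟨w, hw⟩ := exists_prime_over (F := k) (E := L) v.1
  have hvw : vb w = v.1 := by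
    apply HeightOneSpectrum.ext
    have h4 := (hvb w).over
    have h5 := hw.over
    rw [h4, h5]
  obtain ⟨v, hv⟩ := v
  change vb w = v at hvw
  subst hvw
  have hwSL : w ∉ SL := by
    rw [hSL, Set.Finite.mem_toFinset]
    rintro ⟨v', hv', hl⟩
    have h6 : v' = vb w := by
      apply HeightOneSpectrum.ext
      rw [hl.over, (hvb w).over]
    exact hv (h6 ▸ hv')
  -- the value in the algebraic closure
  have h4 : (X ^ D - C (g : AlgebraicClosure k) : (AlgebraicClosure k)[X]).eval₂ (ι' w hv)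
      (algebraMap _ (AlgebraicClosure (w.adicCompletion L)) (y w)) = 0 := by
    rw [eval₂_sub, eval₂_pow, eval₂_X, eval₂_C, ← map_pow, hyD w hwSL, g2 w hv, sub_self]
  obtain ⟨ε, hε, hε'⟩ := root_mem (ι' w hv) (X_pow_sub_C_ne_zero hD _) h4
  have hεD : ε ^ D = g := by
    rw [IsRoot.def, eval_sub, eval_pow, eval_X, eval_C, sub_eq_zero] at hε
    exact hε
  have hε0 : ε ≠ 0 := by
    rintro rfl
    rw [zero_pow hD.ne'] at hεD
    exact hg' hεD.symm
  let Q : (AlgebraicClosure k)[X] := P₃.map (eval₂RingHom (algebraMap k (AlgebraicClosure k)) ε)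
  have hQ0 : Q ≠ 0 := by
    intro h
    have h5 : Q.coeff P₃.natDegree = ε ^ m := by
      simp only [Q]
      rw [coeff_map]
      have h6 : P₃.coeff P₃.natDegree = X ^ m := hP₃
      rw [h6, map_pow, coe_eval₂RingHom, eval₂_X]
    rw [h, coeff_zero] at h5
    exact pow_ne_zero _ hε0 h5.symm
  have hιk : (algebraMap (w.adicCompletion L) (AlgebraicClosure (w.adicCompletion L))).comp
        ((algebraMap L (w.adicCompletion L)).comp (algebraMap k L)) =
        (ι' w hv).comp (algebraMap k (AlgebraicClosure k)) := by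
    ext a
    change algebraMap (w.adicCompletion L) _ (algebraMap L (w.adicCompletion L) (algebraMap k L a)) =
      ι' w hv (algebraMap k _ a)
    exact (g2 w hv (algebraMap k L a)).symm
  have h5 : Q.eval₂ (ι' w hv) (algebraMap _ (AlgebraicClosure (w.adicCompletion L))
      (θ w (xv ⟨vb w, hv⟩ x))) = 0 := by
    have h6 := r3 w hv
    rw [hxt _ hv] at h6
    have h7 := congrArg (algebraMap _ (AlgebraicClosure (w.adicCompletion L))) h6
    rw [map_zero, map_biv, hιk, ← hε'] at h7
    simp only [Q]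
    rw [eval₂_map]
    refine Eq.trans ?_ h7
    unfold biv
    congr 1
    refine Polynomial.ringHom_ext (fun c => ?_) ?_
    · simp
    · simp
  obtain ⟨η, hη, hη'⟩ := root_mem (ι' w hv) hQ0 h5
  have h7 : aeval η χ = 0 := by
    refine hχ ε η hεD ?_
    simp only [Q] at hη
    rw [IsRoot.def, eval_map] at hη
    exact hη
  -- conclusion
  have h8 : aeval (xv ⟨vb w, hv⟩ x) χ = 0 := by
    apply (θ w).injective
    apply hinj w
    rw [map_zero, map_zero, aeval_def, hom_eval₂, hom_eval₂, ← hη']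
    have h9 : (algebraMap (w.adicCompletion L) (AlgebraicClosure (w.adicCompletion L))).comp
        ((θ w).comp (algebraMap k ((vb w).adicCompletion k))) =
        (ι' w hv).comp (algebraMap k (AlgebraicClosure k)) := by
      ext a
      change algebraMap _ _ (θ w (algebraMap k _ a)) = ι' w hv (algebraMap k _ a)
      rw [hθ]
      exact (g2 w hv (algebraMap k L a)).symm
    rw [h9, ← hom_eval₂, ← aeval_def, h7, map_zero]
  have h9 : φ ⟨vb w, hv⟩ (algebraMap R (integralClosure R M) (aeval x χ)) =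
      algebraMap _ _ (xv ⟨vb w, hv⟩ (aeval x χ)) := (hxv ⟨vb w, hv⟩ _).symm
  rw [h9, ← aeval_algHom_apply, h8, map_zero]

end

end Pool.Agent.Lib.MP_2f3286_ag.PA
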