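import Pool.Agent.Lib.MP_2f3286_ag.PA.UCon

/-!
# Local units from bounded contact, for a unit integral over the ring generated by a function
-/

open IsDedekindDomain NumberField Polynomial WithZero

namespace Pool.Agent.Lib.MP_2f3286_ag.PA

/-- the local step -/
theorem val_one_nc {k L : Type*} [Field k] [NumberField k] [Field L] [NumberField L]
    [Algebra k L] (v : HeightOneSpectrum (𝓞 k)) (w : HeightOneSpectrum (𝓞 L))
    (hl : w.asIdeal.LiesOver v.asIdeal)
    (θ : v.adicCompletion k →+* w.adicCompletion L)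
    (hθ : ∀ y, Valued.v (θ y) = Valued.v y ^ (v.asIdeal.ramificationIdx' w.asIdeal))
    (x : v.adicCompletion k) (y : w.adicCompletion L) (hy : y ≠ 0)
    (P₁ P₂ : k[X][X]) (hP₁ : P₁.Monic) (hP₂ : P₂.Monic)
    (hc : ∀ P ∈ ({P₁, P₂} : Set k[X][X]), ∀ i j, (P.coeff i).coeff j ≠ 0 →
      w.valuation L (algebraMap k L ((P.coeff i).coeff j)) = 1)
    (h1 : biv ((algebraMap L (w.adicCompletion L)).comp (algebraMap k L)) (θ x) y P₁ = 0)
    (h2 : biv ((algebraMap L (w.adicCompletion L)).comp (algebraMap k L)) (θ x) y⁻¹ P₂ = 0)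
    (N D : ℕ) (hD : ∀ i, (P₁.coeff i).natDegree ≤ D)
    (g : L) (hg : w.valuation L g = 1) (h : w.adicCompletion L)
    (hh : algebraMap L _ g * h ^ (N * ((Module.finrank k L).factorial * D.factorial)) = y)
    (hcont : ∀ z : v.adicCompletion k, Valued.v x = Valued.v z ^ N → Valued.v x ≤ 1) :
    Valued.v y = 1 := by
  classical
  set f := (algebraMap L (w.adicCompletion L)).comp (algebraMap k L) with hf
  set V : Valuation (w.adicCompletion L) ℤᵐ⁰ := Valued.v with hV
  have hVf : ∀ a : k, V (f a) = w.valuation L (algebraMap k L a) := by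
    intro a
    change Valued.v (algebraMap L (w.adicCompletion L) (algebraMap k L a)) = _
    rw [val_alg]
  -- the values of the coefficients
  have hcoef : ∀ P ∈ ({P₁, P₂} : Set k[X][X]), ∀ i j, V (f ((P.coeff i).coeff j)) ≤ 1 := by
    intro P hP i j
    by_cases h0 : (P.coeff i).coeff j = 0
    · rw [h0, map_zero, map_zero]; exact zero_le_one
    · rw [hVf, hc P hP i j h0]
  have hle : ∀ P ∈ ({P₁, P₂} : Set k[X][X]), ∀ i, ∀ a : w.adicCompletion L, V a ≤ 1 →
      V ((P.coeff i).eval₂ f a) ≤ 1 := by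
    intro P hP i a ha
    rw [← eval_map]
    refine val_eval_of_le V _ (fun j => ?_) a ha
    rw [coeff_map]
    exact hcoef P hP i j
  have hgt : ∀ P ∈ ({P₁, P₂} : Set k[X][X]), ∀ i, P.coeff i ≠ 0 → ∀ a : w.adicCompletion L,
      1 < V a → V ((P.coeff i).eval₂ f a) = V a ^ (P.coeff i).natDegree := by
    intro P hP i hi a ha
    rw [← eval_map]
    have h4 := val_eval_of_gt V ((P.coeff i).map f) (fun j => by rw [coeff_map]; exact hcoef P hP i j) (by
      rw [leadingCoeff_map, hVf]
      exact hc P hP i _ (leadingCoeff_ne_zero.mpr hi)) a ha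
    rw [h4, natDegree_map]
  have m1 : P₁ ∈ ({P₁, P₂} : Set k[X][X]) := Or.inl rfl
  have m2 : P₂ ∈ ({P₁, P₂} : Set k[X][X]) := Or.inr rfl
  rcases le_or_gt (V (θ x)) 1 with hx | hx
  · -- integral value
    have hmon : ∀ P ∈ ({P₁, P₂} : Set k[X][X]), P.Monic → ∀ b : w.adicCompletion L,
        biv f (θ x) b P = 0 → V b ≤ 1 := by
      intro P hP hm b hb
      rw [biv_eq_sum] at hb
      refine le_one_of_sum V _ P.natDegree b (fun j _ => hle P hP j _ hx) ?_ hb
      have h4 : P.coeff P.natDegree = 1 := hm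
      rw [h4, eval₂_one, map_one]
    refine le_antisymm (hmon P₁ m1 hP₁ y h1) ?_
    have h4 := hmon P₂ m2 hP₂ y⁻¹ h2
    rw [map_inv₀] at h4
    have h5 : V y ≠ 0 := (Valuation.ne_zero_iff _).mpr hy
    exact (inv_le_one₀ (zero_lt_iff.mpr h5)).mp h4
  · -- the value has a pole
    by_contra hne
    have hy0 : V y ≠ 0 := (Valuation.ne_zero_iff _).mpr hy
    rw [biv_eq_sum] at h1
    have hlead : P₁.coeff P₁.natDegree = 1 := hP₁
    obtain ⟨i, hi, j, hj, hij, hval, hnz⟩ := exists_two_max V (Finset.range (P₁.natDegree + 1))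
      (fun j => (P₁.coeff j).eval₂ f (θ x) * y ^ j) h1 P₁.natDegree (Finset.self_mem_range_succ _) (by
        rw [hlead, eval₂_one, one_mul]
        exact pow_ne_zero _ hy)
    have hterm : ∀ i, V ((P₁.coeff i).eval₂ f (θ x) * y ^ i) ≠ 0 → P₁.coeff i ≠ 0 := by
      intro i h4 h5
      rw [h5, eval₂_zero, zero_mul, map_zero] at h4
      exact h4 rfl
    have hi0 := hterm i hnz
    have hj0 := hterm j (by rw [← hval]; exact hnz)
    rw [map_mul, map_mul, map_pow, map_pow, hgt P₁ m1 i hi0 _ hx, hgt P₁ m1 j hj0 _ hx] at hval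
    have hX0 : V (θ x) ≠ 0 := fun h => by rw [h] at hx; exact not_lt_zero hx
    -- the symmetric step
    have key : ∀ i j : ℕ, i ≠ j → V (θ x) ^ (P₁.coeff i).natDegree * V y ^ i =
        V (θ x) ^ (P₁.coeff j).natDegree * V y ^ j →
        (P₁.coeff i).natDegree ≤ (P₁.coeff j).natDegree → False := by
      intro i j hij hval hle
      rcases Nat.eq_or_lt_of_le hle with heq | hlt
      · rw [heq] at hval
        have h4 := mul_left_cancel₀ (pow_ne_zero _ hX0) hval
        -- powers
        have h5 : ∀ a b : ℕ, a < b → V y ^ a = V y ^ b → False := by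
          intro a b hab h6
          obtain ⟨d, rfl⟩ := Nat.exists_eq_add_of_lt hab
          rw [add_assoc, pow_add] at h6
          have h7 : V y ^ (d + 1) = 1 := by
            have h8 : V y ^ a * 1 = V y ^ a * V y ^ (d + 1) := by rw [mul_one]; exact h6
            exact (mul_left_cancel₀ (pow_ne_zero _ hy0) h8).symm
          exact hne ((pow_eq_one_iff_of_nonneg zero_le (Nat.succ_ne_zero d)).mp h7)
        rcases Nat.lt_or_gt_of_ne hij with h6 | h6
        · exact h5 i j h6 h4
        · exact h5 j i h6 h4.symm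
      · obtain ⟨d, hd⟩ := Nat.exists_eq_add_of_lt hlt
        set ram := v.asIdeal.ramificationIdx' w.asIdeal with hram
        have hram0 : ram ≠ 0 := Ideal.IsDedekindDomain.ramificationIdx'_ne_zero_of_liesOver w.asIdeal v.ne_bot
        have hramle : ram ≤ Module.finrank k L := by
          have := v.isMaximal
          have : NoZeroSMulDivisors (𝓞 k) (𝓞 L) := ⟨fun {c x} h => by
            rw [Algebra.smul_def, mul_eq_zero] at h
            exact h.imp_left fun h => (FaithfulSMul.algebraMap_eq_zero_iff (𝓞 k) (𝓞 L)).mp h⟩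
          exact Ideal.ramificationIdx_le_finrank (𝓞 L) k L w.asIdeal
        obtain ⟨q₁, hq₁⟩ : ram ∣ (Module.finrank k L).factorial :=
          Nat.dvd_factorial (Nat.pos_of_ne_zero hram0) hramle
        obtain ⟨q₂, hq₂⟩ : (d + 1) ∣ D.factorial := Nat.dvd_factorial (Nat.succ_pos d) (by
          have := hD j; omega)
        have hVy : V y = V h ^ (N * ((Module.finrank k L).factorial * D.factorial)) := by
          rw [← hh, map_mul, map_pow, hV, val_alg, hg, one_mul]
        have hh0 : V h ≠ 0 := by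
          intro h4
          rw [h4] at hVy
          rcases Nat.eq_zero_or_pos (N * ((Module.finrank k L).factorial * D.factorial)) with h5 | h5
          · rw [h5, pow_zero] at hVy
            exact hne hVy
          · rw [zero_pow h5.ne'] at hVy
            exact hy0 hVy
        have h4 : V y ^ i = V (θ x) ^ (d + 1) * V y ^ j := by
          have h5 : (P₁.coeff j).natDegree = (P₁.coeff i).natDegree + (d + 1) := by omega
          rw [h5, pow_add, mul_assoc] at hval
          exact mul_left_cancel₀ (pow_ne_zero _ hX0) hval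
        have h5 : (Valued.v x) ^ (ram * (d + 1)) = ((V h ^ ((q₁ * q₂ : ℤ) * (i - j))) ^ N) ^ (ram * (d + 1)) := by
          have h6 : V (θ x) ^ (d + 1) = V y ^ i * (V y ^ j)⁻¹ := by
            rw [h4, mul_assoc, mul_inv_cancel₀ (pow_ne_zero _ hy0), mul_one]
          rw [pow_mul, ← hθ, h6, hVy, hq₁, hq₂]
          rw [← zpow_natCast (V h ^ _) i, ← zpow_natCast (V h ^ _) j, ← zpow_neg, ← zpow_add₀ (pow_ne_zero _ hh0),
            ← zpow_natCast (V h), ← zpow_mul, ← zpow_natCast, ← zpow_natCast, ← zpow_mul, ← zpow_mul]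
          congr 1
          push_cast
          ring
        have h6 := (pow_left_inj₀ zero_le zero_le (Nat.mul_ne_zero hram0 (Nat.succ_ne_zero d))).mp h5
        obtain ⟨z, hz⟩ := HeightOneSpectrum.valuedAdicCompletion_surjective k v
          (V h ^ ((q₁ * q₂ : ℤ) * (i - j)))
        have h7 := hcont z (by rw [hz]; exact h6)
        rw [hV, hθ] at hx
        exact absurd hx (not_lt.mpr (pow_le_one' h7 _))
    rcases le_total (P₁.coeff i).natDegree (P₁.coeff j).natDegree with h4 | h4
    · exact key i j hij hval h4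
    · exact key j i hij.symm hval.symm h4

/-- the values are units at almost all places -/
theorem exists_val_one_nc {k L : Type*} [Field k] [NumberField k] [Field L] [NumberField L]
    [Algebra k L] (S T : Finset (HeightOneSpectrum (𝓞 k)))
    (vb : HeightOneSpectrum (𝓞 L) → HeightOneSpectrum (𝓞 k))
    (hvb : ∀ w : HeightOneSpectrum (𝓞 L), w.asIdeal.LiesOver (vb w).asIdeal)
    (θ : ∀ w : HeightOneSpectrum (𝓞 L), (vb w).adicCompletion k →+* w.adicCompletion L)
    (hθ : ∀ (w : HeightOneSpectrum (𝓞 L)) (y : (vb w).adicCompletion k), Valued.v (θ w y) = Valued.v y ^ ((vb w).asIdeal.ramificationIdx' w.asIdeal))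
    (x : ∀ v : HeightOneSpectrum (𝓞 k), v.adicCompletion k)
    (y : ∀ w : HeightOneSpectrum (𝓞 L), w.adicCompletion L) (hy : ∀ w, vb w ∉ S → y w ≠ 0)
    (P₁ P₂ : k[X][X]) (hP₁ : P₁.Monic) (hP₂ : P₂.Monic)
    (h1 : ∀ w, vb w ∉ S → biv ((algebraMap L (w.adicCompletion L)).comp (algebraMap k L))
      (θ w (x (vb w))) (y w) P₁ = 0)
    (h2 : ∀ w, vb w ∉ S → biv ((algebraMap L (w.adicCompletion L)).comp (algebraMap k L))
      (θ w (x (vb w))) (y w)⁻¹ P₂ = 0)
    (N : ℕ) (hN : 1 ≤ N) (G : ℕ → Lˣ)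
    (hG : ∀ w, vb w ∉ S → ∀ n, 1 ≤ n → ∃ h : w.adicCompletion L, algebraMap L _ (G n : L) * h ^ n = y w)
    (hcont : ∀ v ∉ S, v ∉ T → ∀ z : v.adicCompletion k, Valued.v (x v) = Valued.v z ^ N →
      Valued.v (x v) ≤ 1) :
    ∃ T' : Finset (HeightOneSpectrum (𝓞 L)), ∀ w ∉ T', Valued.v (y w) = 1 := by
  classical
  let D : ℕ := ∑ i ∈ Finset.range (P₁.natDegree + 1), (P₁.coeff i).natDegree
  have hD : ∀ i, (P₁.coeff i).natDegree ≤ D := by
    intro i
    rcases Nat.lt_or_ge P₁.natDegree i with h | h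
    · rw [coeff_eq_zero_of_natDegree_lt h, natDegree_zero]; exact Nat.zero_le _
    · exact Finset.single_le_sum (f := fun i => (P₁.coeff i).natDegree) (fun _ _ => Nat.zero_le _)
        (Finset.mem_range.mpr (Nat.lt_succ_of_le h))
  set n := N * ((Module.finrank k L).factorial * D.factorial) with hn
  have hn1 : 1 ≤ n := Nat.mul_pos hN (Nat.mul_pos (Nat.factorial_pos _) (Nat.factorial_pos _))
  obtain ⟨A₁, hA₁⟩ := exists_good (L := L) P₁
  obtain ⟨A₂, hA₂⟩ := exists_good (L := L) P₂
  refine ⟨(finite_above (F := L) (S ∪ T)).toFinset ∪ (finite_val_ne_one (G n).ne_zero).toFinset ∪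
    A₁ ∪ A₂, fun w hw => ?_⟩
  simp only [Finset.mem_union, Set.Finite.mem_toFinset, Set.mem_ofPred_eq, not_or, not_exists, not_and,
    not_not] at hw
  obtain ⟨⟨⟨hw1, hw2⟩, hw3⟩, hw4⟩ := hw
  have hS : vb w ∉ S := fun h => hw1 (vb w) (Or.inl h) (hvb w)
  have hT : vb w ∉ T := fun h => hw1 (vb w) (Or.inr h) (hvb w)
  obtain ⟨h, hh⟩ := hG w hS n hn1
  refine val_one_nc (vb w) w (hvb w) (θ w) (hθ w) (x (vb w)) (y w) (hy w hS) P₁ P₂ hP₁ hP₂ ?_
    (h1 w hS) (h2 w hS) N D hD (G n : L) hw2 h hh (hcont (vb w) hS hT)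
  rintro P (rfl | rfl)
  · exact hA₁ w hw3
  · exact hA₂ w hw4

end Pool.Agent.Lib.MP_2f3286_ag.PA
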