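import Pool.Agent.Lib.MP_2f3286_ag.PA.UCrit
import Pool.Agent.Lib.MP_2f3286_ag.PA.VChi
import Pool.Agent.Lib.MP_2f3286_ag.PA.VRel
import Pool.Agent.Lib.MP_2f3286_ag.PA.Crit
import Pool.Agent.Lib.MP_2f3286_ag.GU.Final

/-!
# The criterion for a general unit
-/

open IsDedekindDomain NumberField IntermediateField Polynomial

namespace Pool.Agent.Lib.MP_2f3286_ag.PA

open Full

universe u

section

variable {k : Type u} [Field k] [NumberField k]
    {K : Type*} [Field K] [Algebra k K]
    (R : Subalgebra k K)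
    {M : Type*} [Field M] [Algebra K M]
    [Algebra (AlgebraicClosure k) M] [Algebra k M]
    [IsScalarTower k K M] [IsScalarTower k (AlgebraicClosure k) M]

/-- `e` is a nonconstant unit, `e` and its inverse are integral over the ring generated by the function `x` -/
structure NUnit (x : R) (e : M) : Prop where
  ne : e ≠ 0
  int : IsIntegral (Algebra.adjoin k {algebraMap R M x}) e
  int_inv : IsIntegral (Algebra.adjoin k {algebraMap R M x}) e⁻¹
  nalg : ¬ IsAlgebraic k e
  x_mem : algebraMap R M x ∈ unitRing R M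

omit [NumberField k] in
theorem UnitRel.nunit {x : R} (hx : Transcendental k (x : K)) {e : M} (h : UnitRel R x e) : NUnit R x e :=
  ⟨h.ne, h.int, h.int_inv, h.not_algebraic R hx, h.x_mem⟩

/-- the data of the criterion -/
def NUnitData (s : Gal(AlgebraicClosure k/k) →* Gal(M/K)) (x : R) : Prop :=
  ∃ (E : IntermediateField k (AlgebraicClosure k)) (_ : FiniteDimensional k E) (e : M),
    NUnit R x e ∧ UnitGal E s e

omit [NumberField k] in
theorem UnitData.ndata {s : Gal(AlgebraicClosure k/k) →* Gal(M/K)} {x : R} (hx : Transcendental k (x : K))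
    (h : UnitData R (M := M) s x) : NUnitData R (M := M) s x := by
  obtain ⟨E, hE, e, h1, h2⟩ := h
  exact ⟨E, hE, e, h1.nunit R hx, h2⟩

/-- the functions take finitely many values -/
theorem unit_chi_nc (s : Gal(AlgebraicClosure k/k) →* Gal(M/K)) (hs : Continuous s)
    (hsec : ∀ σ a, s σ (algebraMap (AlgebraicClosure k) M a) =
      algebraMap (AlgebraicClosure k) M (σ a))
    (hmax : Pt.IsRadClosed R M (AlgebraicClosure k))
    (ι : ∀ v : HeightOneSpectrum (𝓞 k),
      AlgebraicClosure k →ₐ[k] AlgebraicClosure (v.adicCompletion k))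
    (φ : ∀ v : HeightOneSpectrum (𝓞 k),
      integralClosure R M →+* AlgebraicClosure (v.adicCompletion k))
    (hφ : ∀ v, Respects s (v.adicCompletion k)
      (ι v : _ →+* AlgebraicClosure (v.adicCompletion k)) (φ v))
    (x : R) (hx : Transcendental k (x : K))
    (E : IntermediateField k (AlgebraicClosure k)) [FiniteDimensional k E]
    (e : M) (hrel : NUnit R x e) (hgal : UnitGal E s e)
    (T : Finset (HeightOneSpectrum (𝓞 k))) (N : ℕ) (hN : 1 ≤ N)
    (hint : ∀ v ∉ T, ∀ y z : v.adicCompletion k,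
      φ v (algebraMap R (integralClosure R M) x) = algebraMap _ _ y →
      Valued.v y = Valued.v z ^ N → Valued.v y ≤ 1) :
    ∃ χ : k[X], χ ≠ 0 ∧ ∀ v, φ v (algebraMap R (integralClosure R M) (aeval x χ)) = 0 := by
  classical
  have hM2 : CharZero M := charZero_of_injective_algebraMap (algebraMap (AlgebraicClosure k) M).injective
  have hne := hrel.ne
  have hei : IsIntegral R e := integral_of_adjoin R x e hrel.int
  have hei' : IsIntegral R e⁻¹ := integral_of_adjoin R x e⁻¹ hrel.int_inv
  have hnalg := hrel.nalg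
  -- the field `L`
  obtain ⟨L, hLfin, hLnf, c₀, hc₀, hLe, hcase⟩ : ∃ (L : IntermediateField k (AlgebraicClosure k))
      (_ : FiniteDimensional k L) (_ : NumberField L) (c₀ : L), c₀ ≠ 0 ∧
      (∀ σ ∈ L.fixingSubgroup, s σ e = e) ∧ UnitCase ∅ L s e c₀ := by
    rcases hgal with ⟨h1, h2⟩ | ⟨c, hc, h1, h2⟩
    · have hEnf : NumberField E := NumberField.of_module_finite k E
      refine ⟨E, inferInstance, hEnf, 1, one_ne_zero, h2, Or.inl ⟨rfl, ?_⟩⟩
      rw [← Nat.card_eq_fintype_card]
      exact h1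
    · have hcE : ∀ σ ∈ E.fixingSubgroup, s σ (algebraMap _ M (c : AlgebraicClosure k)) =
          algebraMap _ M (c : AlgebraicClosure k) := by
        intro σ hσ
        rw [IntermediateField.mem_fixingSubgroup_iff] at hσ
        rw [hsec, hσ c c.2]
      set cM' : M := algebraMap _ M (c : AlgebraicClosure k) with hcM
      have hcM0 : cM' ≠ 0 := by
        rw [hcM, _root_.map_ne_zero]
        exact fun h => hc (Subtype.ext h)
      let W : M := (e + cM' * e⁻¹) / 2
      let ξ : M := (e - cM' * e⁻¹) / 2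
      have hξW : W + ξ = e := by
        simp only [W, ξ]
        ring
      have hξ2 : ξ ^ 2 = W ^ 2 - cM' := by
        simp only [W, ξ]
        field_simp
        ring
      have hswap : ∀ σ ∈ E.fixingSubgroup, s σ e * e = cM' → s σ W = W ∧ s σ ξ = -ξ := by
        intro σ hσ h
        have h3 : s σ e = cM' * e⁻¹ := by
          rw [← h, mul_assoc, mul_inv_cancel₀ hne, mul_one]
        have h4 : s σ (cM' * e⁻¹) = e := by
          rw [map_mul, hcE σ hσ, map_inv₀, h3, mul_inv, inv_inv, ← mul_assoc, mul_inv_cancel₀ hcM0, one_mul]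
        constructor
        · simp only [W]
          rw [map_div₀, map_add, h4, h3, map_ofNat, add_comm]
        · simp only [ξ]
          rw [map_div₀, map_sub, h4, h3, map_ofNat]
          ring
      have hid : ∀ σ ∈ E.fixingSubgroup, s σ e = e → s σ W = W := by
        intro σ hσ h
        simp only [W]
        rw [map_div₀, map_add, map_mul, map_inv₀, hcE σ hσ, h, map_ofNat]
      have hξ0 : ξ ≠ 0 := by
        intro h
        have h3 : e ^ 2 = cM' := by
          have h4 : W = e := by rw [← hξW, h, add_zero]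
          rw [h, h4, zero_pow two_ne_zero] at hξ2
          exact sub_eq_zero.mp hξ2.symm
        apply hnalg
        refine IsAlgebraic.of_pow (n := 2) (by norm_num) ?_
        rw [h3, hcM]
        exact (Algebra.IsAlgebraic.isAlgebraic (R := k) (c : AlgebraicClosure k)).algebraMap
      have hWint : IsIntegral K ξ := by
        have h3 : IsIntegral K e := hei.tower_top
        have h4 : IsIntegral K e⁻¹ := hei'.tower_top
        have h5 : IsIntegral K cM' := (const_int R (M := M) (c : AlgebraicClosure k)).tower_top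
        have h6 : IsIntegral K ((2 : M)⁻¹) := by
          have h7 : ((2 : M)⁻¹) = algebraMap K M (2⁻¹) := by rw [map_inv₀, map_ofNat]
          rw [h7]; exact isIntegral_algebraMap
        simp only [ξ]
        rw [div_eq_mul_inv]
        exact (h3.sub (h5.mul h4)).mul h6
      obtain ⟨L, hEL, hLfin, hLnf, hLξ, hcase⟩ := exists_field s hs hsec E W ξ (fun σ hσ => by
        rcases h1 σ hσ with h | h
        · exact hid σ hσ h
        · exact (hswap σ hσ h).1) hξ0 hWint c hξ2 (Or.inl fun τ => by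
          obtain ⟨σ, hσ, h3, h4⟩ := h2 τ
          exact ⟨σ, hσ, h3, (hswap σ hσ h4).2⟩)
      rw [hξW] at hcase
      refine ⟨L, hLfin, hLnf, IntermediateField.inclusion hEL c, ?_, fun σ hσ => ?_, hcase⟩
      · intro h
        exact hc ((IntermediateField.inclusion hEL).toRingHom.injective (h.trans (map_zero _).symm))
      · have hσE : σ ∈ E.fixingSubgroup := by
          rw [IntermediateField.mem_fixingSubgroup_iff] at hσ ⊢
          exact fun x hx => hσ x (hEL hx)
        rcases h1 σ hσE with h | h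
        · exact h
        · exfalso
          have h3 := (hswap σ hσE h).2
          rw [hLξ σ hσ] at h3
          exact hξ0 (self_eq_neg.mp h3)
  -- the relations
  obtain ⟨P₁, hP₁, hr₁⟩ := exists_biv_of_integral _ _ hrel.int
  obtain ⟨P₂, hP₂, hr₂⟩ := exists_biv_of_integral _ _ hrel.int_inv
  obtain ⟨P₃, hr₃, hP₃⟩ := exists_prim_rel (kb := AlgebraicClosure k) _ _ P₁ hP₁.ne_zero hr₁ hnalg
  obtain ⟨χ, hχ, h⟩ := finite_values_nc R s hs hsec ∅ (fun v => ι v.1) (fun v => φ v.1) (fun v => hφ v.1)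
    L ⟨e, hei⟩ ⟨e⁻¹, hei'⟩ c₀ hc₀ (mul_inv_cancel₀ hne)
    (fun n hn => Full.root_of_unit hmax _ hei hei' n hn) hLe x P₁ P₂ P₃ hP₁ hP₂ (fun ε _ => hP₃ ε) hr₁ hr₂ hr₃ hcase T N hN
    (fun v hv y z => hint v.1 hv y z)
  exact ⟨χ, hχ, fun v => h ⟨v, Finset.notMem_empty v⟩⟩

/-- the criterion -/
theorem unit_final_nc [IsGalois K M] (hRn : ∀ y : K, IsIntegral R y → y ∈ R) (hfg : R.FG)
    (x : R) (hx : Transcendental k (x : K))
    [FiniteDimensional (IntermediateField.adjoin k {(x : K)}) K]
    (hun : ∀ Ψ : integralClosure R M →+* AlgebraicClosure k,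
      (∀ (a : AlgebraicClosure k) (b : integralClosure R M), (b : M) = algebraMap _ M a → Ψ b = a) →
      ∀ g ∈ geomGroup K M (AlgebraicClosure k),
        (∀ b b' : integralClosure R M, (b' : M) = g b → Ψ b' = Ψ b) → g = 1)
    (hmax : Pt.IsRadClosed R M (AlgebraicClosure k))
    (s : Gal(AlgebraicClosure k/k) →* Gal(M/K)) (hs : Continuous s)
    (hsec : ∀ σ a, s σ (algebraMap (AlgebraicClosure k) M a) =
      algebraMap (AlgebraicClosure k) M (σ a))
    (ι : ∀ v : HeightOneSpectrum (𝓞 k),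
      AlgebraicClosure k →ₐ[k] AlgebraicClosure (v.adicCompletion k))
    (φ : ∀ v : HeightOneSpectrum (𝓞 k),
      integralClosure R M →+* AlgebraicClosure (v.adicCompletion k))
    (hφ : ∀ v, Respects s (v.adicCompletion k)
      (ι v : _ →+* AlgebraicClosure (v.adicCompletion k)) (φ v))
    (hdata : NUnitData R (M := M) s x)
    (T : Finset (HeightOneSpectrum (𝓞 k))) (N : ℕ) (hN : 1 ≤ N)
    (hint : ∀ v ∉ T, ∀ y z : v.adicCompletion k,
      φ v (algebraMap R (integralClosure R M) x) = algebraMap _ _ y →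
      Valued.v y = Valued.v z ^ N → Valued.v y ≤ 1) :
    ∃ (c₀ : k) (Δ : Subgroup Gal(AlgebraicClosure k/k))
      (Ψ : integralClosure R M →+* AlgebraicClosure k),
      IsOpen (Δ : Set Gal(AlgebraicClosure k/k)) ∧
      (∀ (a : AlgebraicClosure k) (b : integralClosure R M), (b : M) = algebraMap _ M a → Ψ b = a) ∧
      (∀ σ ∈ Δ, ∀ b b' : integralClosure R M, (b' : M) = s σ b → Ψ b' = σ (Ψ b)) ∧
      Ψ (algebraMap R _ x) = algebraMap k _ c₀ ∧
      (∀ v, φ v (algebraMap R _ x) = ι v (algebraMap k _ c₀)) ∧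
      (∀ Ψ' : integralClosure R M →+* AlgebraicClosure k,
        (∀ (a : AlgebraicClosure k) (b : integralClosure R M), (b : M) = algebraMap _ M a →
          Ψ' b = a) → (∀ r : R, Ψ' (algebraMap R _ r) = Ψ (algebraMap R _ r)) →
        (∃ Δ' : Subgroup Gal(AlgebraicClosure k/k), IsOpen (Δ' : Set Gal(AlgebraicClosure k/k)) ∧
          ∀ σ ∈ Δ', ∀ b b' : integralClosure R M, (b' : M) = s σ b → Ψ' b' = σ (Ψ' b)) → Ψ' = Ψ) ∧
      ((∀ r : R, ∃ c : k, Ψ (algebraMap R _ r) = algebraMap k _ c) →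
        Respects s k (RingHom.id _) Ψ) ∧
      ((∀ r : R, algebraMap R M r ∈
        Subring.closure {b : M | IsIntegral R b ∧ IsIntegral R b⁻¹}) →
        (∀ r : R, ∃ c : k, Ψ (algebraMap R _ r) = algebraMap k _ c ∧
          ∀ v, φ v (algebraMap R _ r) = ι v (algebraMap k _ c)) ∧
        ∀ Ψ' : integralClosure R M →+* AlgebraicClosure k,
          Respects s k (RingHom.id _) Ψ' → Ψ' = Ψ) := by
  obtain ⟨E, _, e, hrel, hgal⟩ := hdata
  obtain ⟨χ, hχ, hvan⟩ := unit_chi_nc R s hs hsec hmax ι φ hφ x hx E e hrel hgal T N hN hint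
  obtain ⟨d, Δ, Ψ, g1, g2, g3, g4, g5, g6, g7, g8⟩ := GU.gu_final R hRn hfg x hx hrel.x_mem hun hmax s hs
    hsec ∅ (fun v => ι v.1) (fun v => φ v.1) (fun v => hφ v.1) ∅ (Finset.Subset.refl _) χ hχ
    (fun v _ => hvan v.1)
  have hv : ∀ v : HeightOneSpectrum (𝓞 k), v ∉ (∅ : Finset (HeightOneSpectrum (𝓞 k))) :=
    fun v => Finset.notMem_empty v
  refine ⟨d, Δ, Ψ, g1, g2, g3, g4, fun v => g5 ⟨v, hv v⟩, g6, g7, fun h => ⟨fun r => ?_, (g8 h).2⟩⟩
  obtain ⟨c, hc, hc'⟩ := (g8 h).1 r
  exact ⟨c, hc, fun v => hc' ⟨v, hv v⟩⟩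

end

end Pool.Agent.Lib.MP_2f3286_ag.PA
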