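import Pool.Agent.Lib.MP_2f3286_ag.PA.SUnit
import Pool.Agent.Lib.MP_2f3286_ag.PA.VCrit

/-!
# Selmer sets: the data of the criterion
-/

open IsDedekindDomain NumberField IntermediateField Polynomial

namespace Pool.Agent.Lib.MP_2f3286_ag.PA

universe u

section

variable {k : Type u} [Field k] [NumberField k]
    {K : Type*} [Field K] [Algebra k K]
    (R : Subalgebra k K)
    {M : Type*} [Field M] [Algebra K M]
    [Algebra (AlgebraicClosure k) M] [Algebra k M]
    [IsScalarTower k K M] [IsScalarTower k (AlgebraicClosure k) M]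

/-- the orbit of a triple is finite -/
theorem orbit_finite (k : Type*) [Field k] (G : Subgroup Gal(AlgebraicClosure k/k))
    (a b w : AlgebraicClosure k) :
    (Set.range fun σ : G => ((σ : Gal(AlgebraicClosure k/k)) a, (σ : Gal(AlgebraicClosure k/k)) b,
      (σ : Gal(AlgebraicClosure k/k)) w)).Finite := by
  have h1 : ∀ c : AlgebraicClosure k, (Set.range fun σ : G => (σ : Gal(AlgebraicClosure k/k)) c).Finite := by
    intro c
    refine ((minpoly k c).rootSet_finite (AlgebraicClosure k)).subset ?_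
    rintro _ ⟨σ, rfl⟩
    rw [mem_rootSet]
    refine ⟨minpoly.ne_zero (Algebra.IsIntegral.isIntegral c), ?_⟩
    exact root_smul (minpoly k c) (σ : Gal(AlgebraicClosure k/k)) (minpoly.aeval k c)
  refine ((h1 a).prod ((h1 b).prod (h1 w))).subset ?_
  rintro _ ⟨σ, rfl⟩
  exact ⟨⟨σ, rfl⟩, ⟨σ, rfl⟩, ⟨σ, rfl⟩⟩

theorem ndata_of_pair (x : R) (hx : Transcendental k (x : K))
    [FiniteDimensional (IntermediateField.adjoin k {(x : K)}) K] [Algebra.IsAlgebraic K M]
    (s : Gal(AlgebraicClosure k/k) →* Gal(M/K))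
    (hsec : ∀ σ a, s σ (algebraMap (AlgebraicClosure k) M a) =
      algebraMap (AlgebraicClosure k) M (σ a)) (f : k[X]) (hf : f ≠ 0)
    (g : AlgebraicClosure k → M) (d : AlgebraicClosure k → AlgebraicClosure k)
    (heq : EqvRoots R s 2 f x g d)
    (E : IntermediateField k (AlgebraicClosure k)) [FiniteDimensional k E]
    (α β δ w : AlgebraicClosure k) (hα : aeval α f = 0) (hβ : aeval β f = 0) (hne : α ≠ β)
    (hδE : δ ∈ E) (hδ : δ ≠ 0) (hw : w ^ 2 = δ * (d α * d β))
    (hst : ∀ σ ∈ E.fixingSubgroup, (σ α = α ∧ σ β = β) ∨ (σ α = β ∧ σ β = α) → σ w = w)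
    (hcase : (δ = 1 ∧ Nat.card (InfinitePlace E) = 1) ∨
      ∀ τ : AlgebraicClosure k →+* ℂ, (∀ a ∈ E, starRingEnd ℂ (τ a) = τ a) ∧ (τ δ).re < 0) :
    NUnitData R (M := M) s x := by
  classical
  have hM2 : CharZero M := charZero_of_injective_algebraMap (algebraMap k M).injective
  -- the square root of `δ`
  obtain ⟨D, hD, hD1⟩ : ∃ D : AlgebraicClosure k, D ^ 2 = δ ∧ (δ = 1 → D = 1) := by
    by_cases h : δ = 1
    · exact ⟨1, by rw [h, one_pow], fun _ => rfl⟩
    · obtain ⟨D, hD⟩ := IsAlgClosed.exists_pow_nat_eq δ two_pos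
      exact ⟨D, hD, fun h1 => absurd h1 h⟩
  have hD0 : D ≠ 0 := by
    rintro rfl
    rw [zero_pow two_ne_zero] at hD
    exact hδ hD.symm
  -- the roots
  let S : Finset (AlgebraicClosure k) := (f.aroots (AlgebraicClosure k)).toFinset
  have hS : ∀ a, a ∈ S ↔ aeval a f = 0 := by
    intro a
    rw [Multiset.mem_toFinset, mem_aroots]
    exact ⟨fun h => h.2, fun h => ⟨hf, h⟩⟩
  -- the triples
  let G := E.fixingSubgroup
  let T : Finset (AlgebraicClosure k × AlgebraicClosure k × AlgebraicClosure k) :=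
    (orbit_finite k G α β w).toFinset
  have hTmem : ∀ t, t ∈ T ↔ ∃ σ ∈ E.fixingSubgroup, (σ α, σ β, σ w) = t := by
    intro t
    rw [Set.Finite.mem_toFinset, Set.mem_range]
    exact ⟨fun ⟨σ, h⟩ => ⟨σ, σ.2, h⟩, fun ⟨σ, h1, h2⟩ => ⟨⟨σ, h1⟩, h2⟩⟩
  have hfix : ∀ σ ∈ E.fixingSubgroup, ∀ a ∈ E, σ a = a := by
    intro σ hσ a ha
    rw [IntermediateField.mem_fixingSubgroup_iff] at hσ
    exact hσ a ha
  have hT : PairSet S d δ α β w T := by
    refine ⟨?_, ?_, ?_, ?_, (hTmem _).mpr ⟨1, one_mem _, rfl⟩, ?_⟩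
    · intro t ht
      obtain ⟨σ, hσ, rfl⟩ := (hTmem t).mp ht
      exact (hS _).mpr (root_smul f σ hα)
    · intro t ht
      obtain ⟨σ, hσ, rfl⟩ := (hTmem t).mp ht
      exact (hS _).mpr (root_smul f σ hβ)
    · intro t ht
      obtain ⟨σ, hσ, rfl⟩ := (hTmem t).mp ht
      exact fun h => hne (σ.injective h)
    · intro t ht
      obtain ⟨σ, hσ, rfl⟩ := (hTmem t).mp ht
      change σ w ^ 2 = δ * (d (σ α) * d (σ β))
      rw [heq.deqv α hα, heq.deqv β hβ, ← map_pow, hw, map_mul, map_mul, hfix σ hσ δ hδE]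
    · intro t ht h
      obtain ⟨σ, hσ, rfl⟩ := (hTmem t).mp ht
      exact hst σ hσ h
  have hTst : ∀ σ ∈ E.fixingSubgroup, ∀ t ∈ T, (σ t.1, σ t.2.1, σ t.2.2) ∈ T := by
    intro σ hσ t ht
    obtain ⟨τ, hτ, rfl⟩ := (hTmem t).mp ht
    exact (hTmem _).mpr ⟨σ * τ, mul_mem hσ hτ, rfl⟩
  have hg : ∀ a ∈ S, algebraMap _ M (d a) * g a ^ 2 = algebraMap R M x - algebraMap _ M a :=
    fun a ha => heq.eqn a ((hS a).mp ha)
  have hd : ∀ a ∈ S, d a ≠ 0 := fun a ha => heq.d0 a ((hS a).mp ha)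
  have hsx : ∀ σ, s σ (algebraMap R M x) = algebraMap R M x := fun σ => AlgEquiv.commutes (s σ) (x : K)
  -- the unit and its conjugate
  let e : M := ∏ t ∈ T, pairU R x g D 1 t
  let e' : M := ∏ t ∈ T, pairU R x g D (-1) t
  let c : AlgebraicClosure k := ∏ t ∈ T, (t.1 - t.2.1) ^ 2
  have hc0 : c ≠ 0 := Finset.prod_ne_zero_iff.mpr fun t ht => pow_ne_zero 2 (sub_ne_zero.mpr (hT.ne t ht))
  have hcM : algebraMap (AlgebraicClosure k) M c ≠ 0 := by rw [_root_.map_ne_zero]; exact hc0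
  have hee : e * e' = algebraMap _ M c := by
    change (∏ t ∈ T, _) * (∏ t ∈ T, _) = _
    rw [← Finset.prod_mul_distrib, map_prod]
    exact Finset.prod_congr rfl fun t ht => pairU_mul R x g D δ hD hδ d t (hg _ (hT.mem₁ t ht))
      (hg _ (hT.mem₂ t ht)) (hT.sq t ht)
  have he0 : e ≠ 0 := fun h => hcM (by rw [← hee, h, zero_mul])
  have hinv : e⁻¹ = algebraMap _ M c⁻¹ * e' := by
    rw [map_inv₀, ← hee, mul_inv, mul_assoc, inv_mul_cancel₀, mul_one]
    intro h
    exact hcM (by rw [← hee, h, mul_zero])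
  -- the action
  have hreindex : ∀ σ ∈ E.fixingSubgroup, ∀ F : (AlgebraicClosure k × AlgebraicClosure k × AlgebraicClosure k) → M,
      ∏ t ∈ T, F (σ t.1, σ t.2.1, σ t.2.2) = ∏ t ∈ T, F t := by
    intro σ hσ F
    refine Finset.prod_bij' (fun t _ => (σ t.1, σ t.2.1, σ t.2.2))
      (fun t _ => (σ⁻¹ t.1, σ⁻¹ t.2.1, σ⁻¹ t.2.2)) (fun t ht => hTst σ hσ t ht)
      (fun t ht => hTst σ⁻¹ (inv_mem hσ) t ht) (fun t _ => ?_) (fun t _ => ?_) (fun t _ => rfl)
    · simp only [← AlgEquiv.mul_apply, inv_mul_cancel, AlgEquiv.one_apply]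
    · simp only [← AlgEquiv.mul_apply, mul_inv_cancel, AlgEquiv.one_apply]
  have hact : ∀ σ ∈ E.fixingSubgroup, ∀ ε ε' : ℤ, algebraMap (AlgebraicClosure k) M (σ D) * ε =
      algebraMap _ M D * ε' → ∀ t ∈ T, s σ (pairU R x g D ε' t) =
      pairU R x g D ε (σ t.1, σ t.2.1, σ t.2.2) := by
    intro σ hσ ε ε' hε t ht
    have hDM : algebraMap (AlgebraicClosure k) M D ≠ 0 := by rw [_root_.map_ne_zero]; exact hD0
    have hσDM : algebraMap (AlgebraicClosure k) M (σ D) ≠ 0 := by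
      rw [_root_.map_ne_zero, _root_.map_ne_zero]; exact hD0
    have h1 : (ε' : M) * algebraMap (AlgebraicClosure k) M (σ t.2.2 / σ D) =
        ε * algebraMap (AlgebraicClosure k) M (σ t.2.2 / D) := by
      rw [map_div₀, map_div₀, mul_div_assoc', mul_div_assoc', div_eq_div_iff hσDM hDM]
      linear_combination (- algebraMap (AlgebraicClosure k) M (σ t.2.2)) * hε
    simp only [pairU, map_add, map_sub, map_mul (s σ), map_ofNat, map_intCast, hsx, hsec,
      heq.geqv _ ((hS _).mp (hT.mem₁ t ht)), heq.geqv _ ((hS _).mp (hT.mem₂ t ht)), map_div₀ σ]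
    linear_combination (2 * (s σ (g t.1) * s σ (g t.2.1))) * h1
  have hplus : ∀ σ ∈ E.fixingSubgroup, σ D = D → s σ e = e := by
    intro σ hσ h
    change s σ (∏ t ∈ T, _) = _
    rw [map_prod, Finset.prod_congr rfl fun t ht => hact σ hσ 1 1 (by rw [h]) t ht]
    exact hreindex σ hσ fun t => pairU R x g D 1 t
  have hminus : ∀ σ ∈ E.fixingSubgroup, σ D = -D → s σ e * e = algebraMap _ M c := by
    intro σ hσ h
    have h1 : s σ e = e' := by
      change s σ (∏ t ∈ T, _) = _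
      rw [map_prod, Finset.prod_congr rfl fun t ht => hact σ hσ (-1) 1 (by rw [h, map_neg]; push_cast; ring) t ht]
      exact hreindex σ hσ fun t => pairU R x g D (-1) t
    rw [h1, mul_comm, hee]
  have hsign : ∀ σ ∈ E.fixingSubgroup, σ D = D ∨ σ D = -D := by
    intro σ hσ
    apply sq_eq_sq_iff_eq_or_eq_neg.mp
    rw [← map_pow, hD, hfix σ hσ δ hδE]
  -- integrality
  have hintA : ∀ a : AlgebraicClosure k, IsIntegral (Algebra.adjoin k {algebraMap R M x})
      (algebraMap (AlgebraicClosure k) M a) := fun a => const_int_adjoin _ a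
  have hintx : IsIntegral (Algebra.adjoin k {algebraMap R M x}) (algebraMap R M x) :=
    (isIntegral_algebraMap (x := (⟨algebraMap R M x, Algebra.subset_adjoin rfl⟩ :
      Algebra.adjoin k {algebraMap R M x})))
  have hintg : ∀ a ∈ S, IsIntegral (Algebra.adjoin k {algebraMap R M x}) (g a) := by
    intro a ha
    refine IsIntegral.of_pow (n := 2) (by norm_num) ?_
    have h1 : g a ^ 2 = algebraMap _ M (d a)⁻¹ * (algebraMap R M x - algebraMap _ M a) := by
      rw [← hg a ha, map_inv₀, inv_mul_cancel_left₀]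
      rw [_root_.map_ne_zero]
      exact hd a ha
    rw [h1]
    exact (hintA _).mul (hintx.sub (hintA a))
  have hintU : ∀ ε : ℤ, ∀ t ∈ T, IsIntegral (Algebra.adjoin k {algebraMap R M x}) (pairU R x g D ε t) := by
    intro ε t ht
    have h2 : IsIntegral (Algebra.adjoin k {algebraMap R M x}) (2 : M) := by
      have h3 := hintA 2
      rwa [map_ofNat] at h3
    have h3 : IsIntegral (Algebra.adjoin k {algebraMap R M x}) (ε : M) := by
      have h4 := hintA ε
      rwa [map_intCast] at h4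
    exact (((h2.mul hintx).sub (hintA _)).sub (hintA _)).add
      (h3.mul ((h2.mul (hintA _)).mul ((hintg _ (hT.mem₁ t ht)).mul (hintg _ (hT.mem₂ t ht)))))
  have hinte : IsIntegral (Algebra.adjoin k {algebraMap R M x}) e :=
    IsIntegral.prod _ fun t ht => hintU 1 t ht
  have hinte' : IsIntegral (Algebra.adjoin k {algebraMap R M x}) e⁻¹ := by
    rw [hinv]
    exact (hintA _).mul (IsIntegral.prod _ fun t ht => hintU (-1) t ht)
  -- `x` is a sum of units
  have hxU : algebraMap R M x ∈ unitRing R M := by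
    obtain ⟨r₁, hr₁⟩ := IsAlgClosed.exists_pow_nat_eq (d α) two_pos
    obtain ⟨r₂, hr₂⟩ := IsAlgClosed.exists_pow_nat_eq (d β) two_pos
    refine x_mem_p R 2 le_rfl x α β hne (algebraMap _ M r₁ * g α) (algebraMap _ M r₂ * g β) ?_ ?_
    · rw [mul_pow, ← map_pow, hr₁, heq.eqn α hα]
    · rw [mul_pow, ← map_pow, hr₂, heq.eqn β hβ]
  refine ⟨E, inferInstance, e, ⟨he0, hinte, hinte', ?_, hxU⟩, ?_⟩
  · exact prod_not_const R x hx g d S hg D δ hD hδ α β w
      (fun a ha => exists_flip R x hx g d S hd hg a ha) T hT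
  · rcases hcase with ⟨h1, h2⟩ | h1
    · left
      refine ⟨h2, fun σ hσ => hplus σ hσ ?_⟩
      rw [hD1 h1, map_one]
    · right
      have hcE : c ∈ E := by
        apply mem_of_fixed_L
        intro σ hσ
        change σ (∏ t ∈ T, _) = _
        rw [map_prod]
        refine Finset.prod_bij' (fun t _ => (σ t.1, σ t.2.1, σ t.2.2))
          (fun t _ => (σ⁻¹ t.1, σ⁻¹ t.2.1, σ⁻¹ t.2.2)) (fun t ht => hTst σ hσ t ht)
          (fun t ht => hTst σ⁻¹ (inv_mem hσ) t ht) (fun t _ => ?_) (fun t _ => ?_) (fun t _ => ?_)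
        · simp only [← AlgEquiv.mul_apply, inv_mul_cancel, AlgEquiv.one_apply]
        · simp only [← AlgEquiv.mul_apply, mul_inv_cancel, AlgEquiv.one_apply]
        · rw [map_pow, map_sub]
      refine ⟨⟨c, hcE⟩, fun h => hc0 (congrArg Subtype.val h), fun σ hσ => ?_, fun τ => ?_⟩
      · rcases hsign σ hσ with h | h
        · exact Or.inl (hplus σ hσ h)
        · exact Or.inr (hminus σ hσ h)
      · obtain ⟨h2, h3⟩ := h1 τ
        obtain ⟨σ, hσ, hτ⟩ := exists_conj E τ fun a => h2 a a.2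
        refine ⟨σ, hσ, hτ, hminus σ hσ ?_⟩
        apply τ.injective
        rw [hτ, map_neg]
        refine (conj_of_sq_neg (u := τ D) ?_ ?_).1
        · rw [← map_pow, hD]
          exact h2 δ hδE
        · rw [← map_pow, hD]
          exact h3

end

end Pool.Agent.Lib.MP_2f3286_ag.PA
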