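import Pool.Agent.Lib.MP_2f3286_ag.PA.RSel

/-!
# Selmer sets: equivariant roots of linear functions
-/

open IsDedekindDomain NumberField IntermediateField Polynomial

namespace Pool.Agent.Lib.MP_2f3286_ag.PA

universe u

/-- an equivariant choice -/
theorem exists_equivariant {G X Y : Type*} [Group G] [MulAction G X] (act : G → Y → Y)
    (hmul : ∀ g h y, act (g * h) y = act g (act h y))
    (S : Set X) (hS : ∀ g : G, ∀ a ∈ S, g • a ∈ S) (P : X → Y → Prop)
    (hP : ∀ (g : G) a y, P a y → P (g • a) (act g y))
    (hex : ∀ a ∈ S, ∃ y, P a y ∧ ∀ g : G, g • a = a → act g y = y) [Nonempty Y] :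
    ∃ F : X → Y, ∀ a ∈ S, P a (F a) ∧ ∀ g : G, F (g • a) = act g (F a) := by
  classical
  choose! y hy hfix using hex
  let rep : X → X := fun a => (Quotient.mk (MulAction.orbitRel G X) a).out
  have hrep : ∀ a, ∃ g : G, g • rep a = a := by
    intro a
    have h1 : Quotient.mk (MulAction.orbitRel G X) a = Quotient.mk (MulAction.orbitRel G X) (rep a) :=
      (Quotient.out_eq _).symm
    have h2 : MulAction.orbitRel G X a (rep a) := Quotient.exact h1
    rw [MulAction.orbitRel_apply] at h2
    exact MulAction.mem_orbit_iff.mp h2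
  choose t ht using hrep
  have hrepS : ∀ a ∈ S, rep a ∈ S := by
    intro a ha
    have h1 : rep a = (t a)⁻¹ • a := eq_inv_smul_iff.mpr (ht a)
    rw [h1]
    exact hS _ _ ha
  have hrepeq : ∀ (g : G) (a : X), rep (g • a) = rep a := by
    intro g a
    have h1 : Quotient.mk (MulAction.orbitRel G X) (g • a) = Quotient.mk (MulAction.orbitRel G X) a :=
      Quotient.sound (s := MulAction.orbitRel G X) (MulAction.mem_orbit a g)
    change (Quotient.mk (MulAction.orbitRel G X) (g • a)).out = _
    rw [h1]
  refine ⟨fun a => act (t a) (y (rep a)), fun a ha => ⟨?_, fun g => ?_⟩⟩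
  · have h1 := hP (t a) _ _ (hy (rep a) (hrepS a ha))
    rwa [ht a] at h1
  · change act (t (g • a)) (y (rep (g • a))) = act g (act (t a) (y (rep a)))
    rw [hrepeq, ← hmul]
    have h1 : ((g * t a)⁻¹ * t (g • a)) • rep a = rep a := by
      rw [mul_smul, inv_smul_eq_iff, mul_smul, ht a, ← hrepeq g a]
      exact ht (g • a)
    have h2 := hfix (rep a) (hrepS a ha) _ h1
    calc act (t (g • a)) (y (rep a)) = act ((g * t a) * ((g * t a)⁻¹ * t (g • a))) (y (rep a)) := by
          rw [mul_inv_cancel_left]
      _ = act (g * t a) (act ((g * t a)⁻¹ * t (g • a)) (y (rep a))) := hmul _ _ _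
      _ = act (g * t a) (y (rep a)) := by rw [h2]

section

variable {k : Type u} [Field k] [NumberField k]
    {K : Type*} [Field K] [Algebra k K]
    (R : Subalgebra k K)
    {M : Type*} [Field M] [Algebra K M]
    [Algebra (AlgebraicClosure k) M] [Algebra k M]
    [IsScalarTower k K M] [IsScalarTower k (AlgebraicClosure k) M]

/-- the roots of order `p` of the linear factors, invariant under the section, and their classes -/
structure EqvRoots (s : Gal(AlgebraicClosure k/k) →* Gal(M/K)) (p : ℕ) (f : k[X]) (x : R)
    (g : AlgebraicClosure k → M) (d : AlgebraicClosure k → AlgebraicClosure k) : Prop where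
  d0 : ∀ α, aeval α f = 0 → d α ≠ 0
  eqn : ∀ α, aeval α f = 0 → algebraMap _ M (d α) * g α ^ p = algebraMap R M x - algebraMap _ M α
  deqv : ∀ α, aeval α f = 0 → ∀ σ : Gal(AlgebraicClosure k/k), d (σ α) = σ (d α)
  geqv : ∀ α, aeval α f = 0 → ∀ σ : Gal(AlgebraicClosure k/k), g (σ α) = s σ (g α)

omit [NumberField k] in
theorem root_smul (f : k[X]) (σ : Gal(AlgebraicClosure k/k)) {α : AlgebraicClosure k}
    (h : aeval α f = 0) : aeval (σ α) f = 0 := by
  have h1 : aeval (σ α) f = σ (aeval α f) := by
    exact aeval_algHom_apply (σ : AlgebraicClosure k →ₐ[k] AlgebraicClosure k) α f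
  rw [h1, h, map_zero]

theorem exists_eqvRoots (hmax : Pt.IsRadClosed R M (AlgebraicClosure k)) (x : R)
    (hx : Transcendental k (x : K))
    (s : Gal(AlgebraicClosure k/k) →* Gal(M/K)) (hs : Continuous s)
    (hsec : ∀ σ a, s σ (algebraMap (AlgebraicClosure k) M a) =
      algebraMap (AlgebraicClosure k) M (σ a)) (p : ℕ) (hp : p.Prime) (f : k[X]) (hf : f.Separable)
    (y : M) (hy : y ^ p = evM R M x (f.map (algebraMap k (AlgebraicClosure k)))) :
    ∃ (g : AlgebraicClosure k → M) (d : AlgebraicClosure k → AlgebraicClosure k),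
      EqvRoots R s p f x g d := by
  classical
  have hfm : (f.map (algebraMap k (AlgebraicClosure k))) ≠ 0 :=
    (Polynomial.map_ne_zero_iff (algebraMap k (AlgebraicClosure k)).injective).mpr hf.ne_zero
  have hsx : ∀ σ, s σ (algebraMap R M x) = algebraMap R M x := fun σ => AlgEquiv.commutes (s σ) (x : K)
  obtain ⟨F, hF⟩ := exists_equivariant (G := Gal(AlgebraicClosure k/k)) (X := AlgebraicClosure k)
    (Y := M × AlgebraicClosure k) (fun σ q => (s σ q.1, σ q.2)) (fun g h q => by simp) {α | aeval α f = 0} (fun σ α hα => root_smul f σ hα)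
    (fun α q => q.2 ≠ 0 ∧ algebraMap _ M q.2 * q.1 ^ p = algebraMap R M x - algebraMap _ M α)
    (fun σ α q hq => by
      refine ⟨?_, ?_⟩
      · change σ q.2 ≠ 0
        rw [_root_.map_ne_zero]
        exact hq.1
      · change algebraMap _ M (σ q.2) * (s σ q.1) ^ p = _
        rw [← hsec, ← map_pow, ← map_mul, hq.2, map_sub, hsx, hsec]
        rfl)
    (fun α hα => by
      have hα' : aeval α f = 0 := hα
      have hmul : ¬ p ∣ (f.map (algebraMap k (AlgebraicClosure k))).rootMultiplicity α := by
        have h1 : (f.map (algebraMap k (AlgebraicClosure k))).rootMultiplicity α ≤ 1 :=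
          rootMultiplicity_le_one_of_separable (hf.map) α
        have h2 : 0 < (f.map (algebraMap k (AlgebraicClosure k))).rootMultiplicity α := by
          rw [rootMultiplicity_pos hfm, IsRoot.def, eval_map_algebraMap]
          exact hα'
        intro h3
        have h4 := Nat.le_of_dvd h2 h3
        have h5 := hp.two_le
        omega
      obtain ⟨γ, hγ⟩ := root_linear R hmax p hp x hx _ hfm y hy α hmul
      let E : IntermediateField k (AlgebraicClosure k) := IntermediateField.adjoin k {α}
      have hEfin : FiniteDimensional k E :=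
        IntermediateField.adjoin.finiteDimensional (Algebra.IsIntegral.isIntegral α)
      have hαE : α ∈ E := IntermediateField.mem_adjoin_simple_self k α
      have hev : evE R M x ((X : E[X]) - C ⟨α, hαE⟩) = algebraMap R M x - algebraMap _ M α := by
        change evM R M x _ = _
        rw [Polynomial.map_sub, map_X, map_C, map_sub, evM_X, evM_C]
        rfl
      obtain ⟨z, c, hc⟩ := sel_exists_class R s hs hsec p hp.one_lt.le E (X - C ⟨α, hαE⟩)
        (X_sub_C_ne_zero _) x hx γ (by rw [hγ, hev])
      have hzM : algebraMap (AlgebraicClosure k) M z ≠ 0 := by rw [_root_.map_ne_zero]; exact hc.z0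
      refine ⟨(γ / algebraMap _ M z, z ^ p), ⟨pow_ne_zero p hc.z0, ?_⟩, fun σ hσ => ?_⟩
      · change algebraMap _ M (z ^ p) * (γ / algebraMap _ M z) ^ p = _
        rw [div_pow, map_pow, mul_div_cancel₀ _ (pow_ne_zero p hzM), hγ]
      · have hσ' : σ α = α := hσ
        have hσE : σ ∈ E.fixingSubgroup := by
          rw [IntermediateField.mem_fixingSubgroup_iff]
          intro b hb
          have h1 : E ≤ IntermediateField.fixedField (Subgroup.zpowers σ) := by
            rw [IntermediateField.adjoin_simple_le_iff, IntermediateField.mem_fixedField_iff]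
            intro τ hτ
            obtain ⟨n, rfl⟩ := Subgroup.mem_zpowers_iff.mp hτ
            have h7 : σ ∈ MulAction.stabilizer Gal(AlgebraicClosure k/k) α :=
              MulAction.mem_stabilizer_iff.mpr hσ'
            exact MulAction.mem_stabilizer_iff.mp (zpow_mem h7 n)
          have h2 := h1 hb
          rw [IntermediateField.mem_fixedField_iff] at h2
          exact h2 σ (Subgroup.mem_zpowers σ)
        apply Prod.ext
        · change s σ (γ / algebraMap _ M z) = γ / algebraMap _ M z
          have hσz : algebraMap (AlgebraicClosure k) M (σ z) ≠ 0 := by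
            rw [_root_.map_ne_zero, _root_.map_ne_zero]; exact hc.z0
          rw [map_div₀, hsec, div_eq_div_iff hσz hzM]
          exact hc.gal σ hσE
        · change σ (z ^ p) = z ^ p
          rw [hc.zpow]
          rw [IntermediateField.mem_fixingSubgroup_iff] at hσE
          exact hσE c c.2)
  refine ⟨fun α => (F α).1, fun α => (F α).2, ⟨fun α hα => (hF α hα).1.1, fun α hα => (hF α hα).1.2,
    fun α hα σ => ?_, fun α hα σ => ?_⟩⟩
  · exact congrArg Prod.snd ((hF α hα).2 σ)
  · exact congrArg Prod.fst ((hF α hα).2 σ)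

end

end Pool.Agent.Lib.MP_2f3286_ag.PA
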