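import Mathlib

/-!
# Selmer sets: independence of the square roots of linear functions
-/

open IntermediateField Polynomial

namespace Pool.Agent.Lib.MP_2f3286_ag.PA

section

variable {kb : Type*} [Field kb] {M : Type*} [Field M] [Algebra kb M]

/-- a product of different linear factors is no square of a rational function -/
theorem not_square_base (x : M) (hx : Transcendental kb x) (T : Finset kb) (hT : T.Nonempty)
    (u : M) (hu : u ∈ IntermediateField.adjoin kb {x}) :
    u ^ 2 ≠ ∏ γ ∈ T, (x - algebraMap kb M γ) := by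
  classical
  intro h
  obtain ⟨r, q, rfl⟩ := (IntermediateField.mem_adjoin_simple_iff kb u).mp hu
  have hinj : Function.Injective (aeval x : kb[X] →ₐ[kb] M) := transcendental_iff_injective.mp hx
  have hprod : ∏ γ ∈ T, (x - algebraMap kb M γ) = aeval x (∏ γ ∈ T, (X - C γ)) := by
    rw [map_prod]
    refine Finset.prod_congr rfl fun γ _ => ?_
    rw [map_sub, aeval_X, aeval_C]
  rw [hprod] at h
  have hp0 : (∏ γ ∈ T, (X - C γ) : kb[X]) ≠ 0 := Finset.prod_ne_zero_iff.mpr fun γ _ => X_sub_C_ne_zero γ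
  have hq0 : q ≠ 0 := by
    rintro rfl
    rw [map_zero, div_zero, zero_pow two_ne_zero] at h
    exact hp0 (hinj (h.symm.trans (map_zero _).symm))
  have hqx : aeval x q ≠ 0 := fun h1 => hq0 (hinj (h1.trans (map_zero _).symm))
  have h1 : r * r = q * q * ∏ γ ∈ T, (X - C γ) := by
    apply hinj
    rw [map_mul, map_mul, map_mul, ← h]
    field_simp
  have hr0 : r ≠ 0 := by
    rintro rfl
    rw [mul_zero] at h1
    exact mul_ne_zero (mul_ne_zero hq0 hq0) hp0 h1.symm
  obtain ⟨γ, hγ⟩ := hT
  have h2 := congrArg (rootMultiplicity γ) h1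
  have h3 : rootMultiplicity γ (∏ γ ∈ T, (X - C γ) : kb[X]) = 1 := by
    rw [← Finset.mul_prod_erase T _ hγ]
    have h4 : (∏ β ∈ T.erase γ, (X - C β) : kb[X]) ≠ 0 :=
      Finset.prod_ne_zero_iff.mpr fun β _ => X_sub_C_ne_zero β
    rw [rootMultiplicity_mul (mul_ne_zero (X_sub_C_ne_zero γ) h4), rootMultiplicity_X_sub_C_self,
      rootMultiplicity_eq_zero]
    rw [IsRoot.def, eval_prod, Finset.prod_eq_zero_iff]
    rintro ⟨β, hβ, h5⟩
    rw [eval_sub, eval_X, eval_C, sub_eq_zero] at h5
    exact Finset.ne_of_mem_erase hβ h5.symm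
  rw [rootMultiplicity_mul (mul_ne_zero hr0 hr0), rootMultiplicity_mul (mul_ne_zero (mul_ne_zero hq0 hq0) hp0),
    rootMultiplicity_mul (mul_ne_zero hq0 hq0), h3] at h2
  omega

/-- adjunction of a square root -/
theorem exists_adjoin_sqrt [CharZero M] (F : IntermediateField kb M) (g : M) (hg : g ^ 2 ∈ F)
    (hgF : g ∉ F) : ∃ F' : IntermediateField kb M, F ≤ F' ∧ g ∈ F' ∧
      ∀ a ∈ F', ∃ u ∈ F, ∃ v ∈ F, a = u + v * g := by
  have hne : ∀ u ∈ F, ∀ v ∈ F, u + v * g ≠ 0 → u ^ 2 - v ^ 2 * g ^ 2 ≠ 0 := by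
    intro u hu v hv h h0
    have h1 : (u + v * g) * (u - v * g) = 0 := by rw [← h0]; ring
    rcases mul_eq_zero.mp h1 with h2 | h2
    · exact h h2
    · have h3 : v = 0 := by
        by_contra h4
        apply hgF
        have h5 : g = u / v := by
          rw [eq_div_iff h4]
          linear_combination -h2
        rw [h5]
        exact div_mem hu hv
      rw [h3, zero_mul, sub_zero] at h2
      rw [h2, h3, zero_mul, zero_add] at h
      exact h rfl
  refine ⟨{ carrier := {a | ∃ u ∈ F, ∃ v ∈ F, a = u + v * g}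
            mul_mem' := ?_
            one_mem' := ⟨1, one_mem F, 0, zero_mem F, by ring⟩
            add_mem' := ?_
            zero_mem' := ⟨0, zero_mem F, 0, zero_mem F, by ring⟩
            algebraMap_mem' := fun r => ⟨algebraMap kb M r, F.algebraMap_mem r, 0, zero_mem F, by ring⟩
            inv_mem' := ?_ }, ?_, ?_, fun a ha => ha⟩
  · rintro _ _ ⟨u, hu, v, hv, rfl⟩ ⟨u', hu', v', hv', rfl⟩
    exact ⟨u * u' + v * v' * g ^ 2, add_mem (mul_mem hu hu') (mul_mem (mul_mem hv hv') hg),
      u * v' + v * u', add_mem (mul_mem hu hv') (mul_mem hv hu'), by ring⟩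
  · rintro _ _ ⟨u, hu, v, hv, rfl⟩ ⟨u', hu', v', hv', rfl⟩
    exact ⟨u + u', add_mem hu hu', v + v', add_mem hv hv', by ring⟩
  · rintro _ ⟨u, hu, v, hv, rfl⟩
    by_cases h : u + v * g = 0
    · exact ⟨0, zero_mem F, 0, zero_mem F, by rw [h, inv_zero]; ring⟩
    · have h1 := hne u hu v hv h
      have h2 : u ^ 2 - v ^ 2 * g ^ 2 ∈ F := sub_mem (pow_mem hu 2) (mul_mem (pow_mem hv 2) hg)
      refine ⟨u / (u ^ 2 - v ^ 2 * g ^ 2), div_mem hu h2, -v / (u ^ 2 - v ^ 2 * g ^ 2),
        div_mem (neg_mem hv) h2, ?_⟩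
      rw [inv_eq_iff_eq_inv, ← mul_eq_one_iff_eq_inv₀]
      · field_simp
        ring
      · intro h3
        have h4 : (u + v * g) * (u / (u ^ 2 - v ^ 2 * g ^ 2) + -v / (u ^ 2 - v ^ 2 * g ^ 2) * g) = 1 := by
          field_simp
          ring
        rw [h3, mul_zero] at h4
        exact zero_ne_one h4
  · intro a ha
    exact ⟨a, ha, 0, zero_mem F, by ring⟩
  · exact ⟨0, zero_mem F, 1, one_mem F, by ring⟩

/-- the square roots of linear functions are independent -/
theorem exists_indep [CharZero M] (x : M) (hx : Transcendental kb x) (g : kb → M) (S : Finset kb)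
    (hg : ∀ α ∈ S, g α ^ 2 = x - algebraMap kb M α) :
    ∃ F : IntermediateField kb M, x ∈ F ∧ (∀ α ∈ S, g α ∈ F) ∧
      ∀ T : Finset kb, T.Nonempty → Disjoint T S → ∀ u ∈ F, u ^ 2 ≠ ∏ γ ∈ T, (x - algebraMap kb M γ) := by
  classical
  induction S using Finset.induction_on with
  | empty =>
    exact ⟨IntermediateField.adjoin kb {x}, IntermediateField.mem_adjoin_simple_self kb x,
      fun α hα => absurd hα (Finset.notMem_empty α), fun T hT _ u hu => not_square_base x hx T hT u hu⟩
  | insert β S hβ ih =>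
    obtain ⟨F, hxF, hgF, hF⟩ := ih fun α hα => hg α (Finset.mem_insert_of_mem hα)
    have hgβ := hg β (Finset.mem_insert_self β S)
    have hxβ : x - algebraMap kb M β ∈ F := sub_mem hxF (F.algebraMap_mem β)
    have hnot : g β ∉ F := by
      intro h
      have h1 := hF {β} (Finset.singleton_nonempty β) (Finset.disjoint_singleton_left.mpr hβ) (g β) h
      rw [Finset.prod_singleton] at h1
      exact h1 hgβ
    obtain ⟨F', hFF', hgF', hF'⟩ := exists_adjoin_sqrt F (g β) (by rw [hgβ]; exact hxβ) hnot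
    refine ⟨F', hFF' hxF, fun α hα => ?_, fun T hT hTS a ha h => ?_⟩
    · rcases Finset.mem_insert.mp hα with rfl | h
      · exact hgF'
      · exact hFF' (hgF α h)
    · obtain ⟨u, hu, v, hv, rfl⟩ := hF' a ha
      have hTS' : Disjoint T S := hTS.mono_right (Finset.subset_insert β S)
      have hβT : β ∉ T := fun h1 => Finset.disjoint_left.mp hTS h1 (Finset.mem_insert_self β S)
      have hpF : ∏ γ ∈ T, (x - algebraMap kb M γ) ∈ F :=
        prod_mem fun γ _ => sub_mem hxF (F.algebraMap_mem γ)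
      have h1 : 2 * u * v * g β = (∏ γ ∈ T, (x - algebraMap kb M γ)) - u ^ 2 - v ^ 2 * (x - algebraMap kb M β) := by
        rw [← h, ← hgβ]; ring
      have h2 : 2 * u * v = 0 := by
        by_contra h3
        apply hnot
        have h4 : g β = ((∏ γ ∈ T, (x - algebraMap kb M γ)) - u ^ 2 - v ^ 2 * (x - algebraMap kb M β)) /
            (2 * u * v) := by
          rw [eq_div_iff h3, ← h1]; ring
        rw [h4]
        refine div_mem (sub_mem (sub_mem hpF (pow_mem hu 2)) (mul_mem (pow_mem hv 2) hxβ)) ?_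
        exact mul_mem (mul_mem (ofNat_mem F 2) hu) hv
      have h3 : u = 0 ∨ v = 0 := by
        rcases mul_eq_zero.mp h2 with h4 | h4
        · rcases mul_eq_zero.mp h4 with h5 | h5
          · exact absurd h5 two_ne_zero
          · exact Or.inl h5
        · exact Or.inr h4
      rcases h3 with rfl | rfl
      · have h4 := hF (insert β T) (Finset.insert_nonempty β T)
          (Finset.disjoint_insert_left.mpr ⟨hβ, hTS'⟩) (v * (x - algebraMap kb M β)) (mul_mem hv hxβ)
        apply h4
        rw [Finset.prod_insert hβT, ← h, ← hgβ]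
        ring
      · have h4 := hF T hT hTS' u hu
        apply h4
        rw [← h]
        ring

/-- an automorphism which changes the sign of one square root -/
theorem exists_flip_of_field [CharZero M] (F : IntermediateField kb M) [Algebra.IsAlgebraic F M] (g : M)
    (hg : g ^ 2 ∈ F) (hgF : g ∉ F) : ∃ σ : AlgebraicClosure M →+* AlgebraicClosure M,
      (∀ a ∈ F, σ (algebraMap M _ a) = algebraMap M _ a) ∧
      σ (algebraMap M _ g) = -algebraMap M _ g := by
  have h1 : Algebra.IsAlgebraic F (AlgebraicClosure M) := Algebra.IsAlgebraic.trans F M (AlgebraicClosure M)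
  have h2 : IsAlgClosure F (AlgebraicClosure M) := ⟨inferInstance, h1⟩
  have h3 : Normal F (AlgebraicClosure M) := IsAlgClosure.normal F _
  let c : F := ⟨g ^ 2, hg⟩
  have hirr : Irreducible (X ^ 2 - C c : F[X]) := by
    rw [irreducible_iff_roots_eq_zero_of_degree_le_three]
    · rw [Multiset.eq_zero_iff_forall_notMem]
      intro a ha
      rw [mem_roots (X_pow_sub_C_ne_zero two_pos c), IsRoot.def, eval_sub, eval_pow, eval_X, eval_C, sub_eq_zero] at ha
      have h4 : (a : M) ^ 2 = g ^ 2 := congrArg Subtype.val ha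
      rcases sq_eq_sq_iff_eq_or_eq_neg.mp h4 with h | h
      · exact hgF (h ▸ a.2)
      · apply hgF
        have h5 : g = -(a : M) := by rw [h, neg_neg]
        rw [h5]
        exact neg_mem a.2
    · rw [natDegree_X_pow_sub_C]
    · rw [natDegree_X_pow_sub_C]; norm_num
  have hmon : (X ^ 2 - C c : F[X]).Monic := monic_X_pow_sub_C c two_ne_zero
  have hc : algebraMap F (AlgebraicClosure M) c = (algebraMap M (AlgebraicClosure M) g) ^ 2 := by
    rw [← map_pow]
    rfl
  have e1 : X ^ 2 - C c = minpoly F (algebraMap M (AlgebraicClosure M) g) :=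
    minpoly.eq_of_irreducible_of_monic hirr (by
      rw [map_sub, map_pow, aeval_X, aeval_C, hc, sub_self]) hmon
  have e2 : X ^ 2 - C c = minpoly F (-algebraMap M (AlgebraicClosure M) g) :=
    minpoly.eq_of_irreducible_of_monic hirr (by
      rw [map_sub, map_pow, aeval_X, aeval_C, hc, neg_sq, sub_self]) hmon
  have h4 : IsConjRoot F (-algebraMap M (AlgebraicClosure M) g) (algebraMap M (AlgebraicClosure M) g) :=
    e2.symm.trans e1
  obtain ⟨σ, hσ⟩ := isConjRoot_iff_exists_algEquiv.mp h4
  refine ⟨(σ : AlgebraicClosure M →+* AlgebraicClosure M), fun a ha => ?_, hσ.symm ▸ rfl⟩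
  exact σ.commutes (⟨a, ha⟩ : F)

end

end Pool.Agent.Lib.MP_2f3286_ag.PA
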