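import Pool.Agent.Lib.MP_2f3286_ag.PA.SEqv
import Pool.Agent.Lib.MP_2f3286_ag.PA.SFlip

/-!
# Selmer sets: automorphisms changing the sign of one root
-/

open IsDedekindDomain NumberField IntermediateField Polynomial

namespace Pool.Agent.Lib.MP_2f3286_ag.PA

universe u

section

variable {k : Type u} [Field k] [NumberField k]
    {K : Type*} [Field K] [Algebra k K]
    (R : Subalgebra k K)
    {M : Type*} [Field M] [Algebra K M]
    [Algebra (AlgebraicClosure k) M] [Algebra k M]
    [IsScalarTower k K M] [IsScalarTower k (AlgebraicClosure k) M]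

omit [NumberField k] in
theorem alg_over (x : R) [FiniteDimensional (IntermediateField.adjoin k {(x : K)}) K]
    [Algebra.IsAlgebraic K M] (F : IntermediateField (AlgebraicClosure k) M)
    (hx : algebraMap R M x ∈ F) : Algebra.IsAlgebraic F M := by
  let A : IntermediateField k K := IntermediateField.adjoin k {(x : K)}
  have hA : Algebra.IsAlgebraic A M := Algebra.IsAlgebraic.trans A K M
  have hmem : ∀ a : A, algebraMap K M (a : K) ∈ F := by
    intro a
    have h1 : A ≤ (F.restrictScalars k).comap (IsScalarTower.toAlgHom k K M) := by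
      rw [IntermediateField.adjoin_simple_le_iff]
      exact hx
    exact h1 a.2
  let j : A →+* F := (((algebraMap K M).comp (algebraMap A K)).codRestrict F.toSubfield hmem)
  refine ⟨fun b => ?_⟩
  obtain ⟨P, hP, hb⟩ := hA.isAlgebraic b
  refine ⟨P.map j, (Polynomial.map_ne_zero_iff j.injective).mpr hP, ?_⟩
  rw [aeval_def, eval₂_map]
  exact hb

/-- an automorphism which changes the sign of one of the roots -/
theorem exists_flip (x : R) (hx : Transcendental k (x : K))
    [FiniteDimensional (IntermediateField.adjoin k {(x : K)}) K] [Algebra.IsAlgebraic K M]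
    (g : AlgebraicClosure k → M) (d : AlgebraicClosure k → AlgebraicClosure k)
    (S : Finset (AlgebraicClosure k)) (hd : ∀ α ∈ S, d α ≠ 0)
    (hg : ∀ α ∈ S, algebraMap _ M (d α) * g α ^ 2 = algebraMap R M x - algebraMap _ M α)
    (α : AlgebraicClosure k) (hα : α ∈ S) :
    ∃ σ : AlgebraicClosure M →+* AlgebraicClosure M,
      (∀ a : AlgebraicClosure k, σ (algebraMap M _ (algebraMap _ M a)) =
        algebraMap M _ (algebraMap _ M a)) ∧
      σ (algebraMap M _ (algebraMap R M x)) = algebraMap M _ (algebraMap R M x) ∧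
      (∀ β ∈ S, β ≠ α → σ (algebraMap M _ (g β)) = algebraMap M _ (g β)) ∧
      σ (algebraMap M _ (g α)) = -algebraMap M _ (g α) := by
  classical
  have hM2 : CharZero M := charZero_of_injective_algebraMap (algebraMap (AlgebraicClosure k) M).injective
  have hxM : Transcendental (AlgebraicClosure k) (algebraMap R M x) := by
    intro h
    have h2 : IsAlgebraic k (algebraMap K M (x : K)) := h.restrictScalars k
    exact hx ((isAlgebraic_algebraMap_iff (algebraMap K M).injective).mp h2)
  choose r hr using fun β : AlgebraicClosure k => IsAlgClosed.exists_pow_nat_eq (d β) two_pos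
  have hr0 : ∀ β ∈ S, algebraMap _ M (r β) ≠ 0 := by
    intro β hβ h
    rw [_root_.map_eq_zero] at h
    have h1 := hr β
    rw [h, zero_pow two_ne_zero] at h1
    exact hd β hβ h1.symm
  have hh : ∀ β ∈ S, (algebraMap _ M (r β) * g β) ^ 2 = algebraMap R M x - algebraMap _ M β := by
    intro β hβ
    rw [mul_pow, ← map_pow, hr, hg β hβ]
  obtain ⟨F, hxF, hgF, hF⟩ := exists_indep (algebraMap R M x) hxM (fun β => algebraMap _ M (r β) * g β)
    (S.erase α) (fun β hβ => hh β (Finset.mem_of_mem_erase hβ))
  have halg := alg_over R x F hxF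
  have hnot : algebraMap _ M (r α) * g α ∉ F := by
    intro h
    have h1 := hF {α} (Finset.singleton_nonempty α)
      (Finset.disjoint_singleton_left.mpr (Finset.notMem_erase α S)) _ h
    rw [Finset.prod_singleton] at h1
    exact h1 (hh α hα)
  obtain ⟨σ, h1, h2⟩ := exists_flip_of_field F (algebraMap _ M (r α) * g α) (by
    rw [hh α hα]
    exact sub_mem hxF (F.algebraMap_mem α)) hnot
  have hcon : ∀ a : AlgebraicClosure k, σ (algebraMap M _ (algebraMap _ M a)) =
      algebraMap M _ (algebraMap _ M a) := fun a => h1 _ (F.algebraMap_mem a)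
  refine ⟨σ, hcon, h1 _ hxF, fun β hβ hne => ?_, ?_⟩
  · have h3 := h1 _ (hgF β (Finset.mem_erase.mpr ⟨hne, hβ⟩))
    rw [map_mul, map_mul, hcon] at h3
    exact mul_left_cancel₀ (by rw [_root_.map_ne_zero]; exact hr0 β hβ) h3
  · rw [map_mul, map_mul, hcon, ← mul_neg] at h2
    exact mul_left_cancel₀ (by rw [_root_.map_ne_zero]; exact hr0 α hα) h2

end

end Pool.Agent.Lib.MP_2f3286_ag.PA
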