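import Pool.Agent.Lib.MP_2f3286_ag.PA.SFlip2

/-!
# Selmer sets: the unit
-/

open IsDedekindDomain NumberField IntermediateField Polynomial

namespace Pool.Agent.Lib.MP_2f3286_ag.PA

universe u

section

variable {k : Type u} [Field k] [NumberField k]
    {K : Type*} [Field K] [Algebra k K]
    (R : Subalgebra k K)
    {M : Type*} [Field M] [Algebra K M]
    [Algebra (AlgebraicClosure k) M] [Algebra k M]
    [IsScalarTower k K M] [IsScalarTower k (AlgebraicClosure k) M]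

/-- the unit of a pair of roots, with a sign -/
noncomputable def pairU (x : R) (g : AlgebraicClosure k → M) (D : AlgebraicClosure k) (ε : ℤ)
    (t : AlgebraicClosure k × AlgebraicClosure k × AlgebraicClosure k) : M :=
  2 * algebraMap R M x - algebraMap _ M t.1 - algebraMap _ M t.2.1 +
    ε * (2 * algebraMap _ M (t.2.2 / D) * (g t.1 * g t.2.1))

/-- the triples -/
structure PairSet (S : Finset (AlgebraicClosure k)) (d : AlgebraicClosure k → AlgebraicClosure k)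
    (δ α₀ β₀ w₀ : AlgebraicClosure k)
    (T : Finset (AlgebraicClosure k × AlgebraicClosure k × AlgebraicClosure k)) : Prop where
  mem₁ : ∀ t ∈ T, t.1 ∈ S
  mem₂ : ∀ t ∈ T, t.2.1 ∈ S
  ne : ∀ t ∈ T, t.1 ≠ t.2.1
  sq : ∀ t ∈ T, t.2.2 ^ 2 = δ * (d t.1 * d t.2.1)
  base : (α₀, β₀, w₀) ∈ T
  uniq : ∀ t ∈ T, (t.1 = α₀ ∧ t.2.1 = β₀) ∨ (t.1 = β₀ ∧ t.2.1 = α₀) → t.2.2 = w₀

omit [NumberField k] [Algebra k M] [IsScalarTower k K M] [IsScalarTower k (AlgebraicClosure k) M] in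
theorem pairU_mul (x : R) (g : AlgebraicClosure k → M) (D δ : AlgebraicClosure k) (hD : D ^ 2 = δ)
    (hδ : δ ≠ 0) (d : AlgebraicClosure k → AlgebraicClosure k)
    (t : AlgebraicClosure k × AlgebraicClosure k × AlgebraicClosure k)
    (h₁ : algebraMap _ M (d t.1) * g t.1 ^ 2 = algebraMap R M x - algebraMap _ M t.1)
    (h₂ : algebraMap _ M (d t.2.1) * g t.2.1 ^ 2 = algebraMap R M x - algebraMap _ M t.2.1)
    (hw : t.2.2 ^ 2 = δ * (d t.1 * d t.2.1)) :
    pairU R x g D 1 t * pairU R x g D (-1) t = algebraMap _ M ((t.1 - t.2.1) ^ 2) := by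
  have h3 : algebraMap (AlgebraicClosure k) M (t.2.2 / D) ^ 2 =
      algebraMap _ M (d t.1) * algebraMap _ M (d t.2.1) := by
    rw [← map_pow, div_pow, hw, hD, ← map_mul, mul_div_cancel_left₀ _ hδ]
  have h4 : algebraMap (AlgebraicClosure k) M (t.2.2 / D) ^ 2 * (g t.1 ^ 2 * g t.2.1 ^ 2) =
      (algebraMap R M x - algebraMap _ M t.1) * (algebraMap R M x - algebraMap _ M t.2.1) := by
    rw [h3, ← h₁, ← h₂]; ring
  simp only [pairU, Int.cast_one, Int.cast_neg, map_pow, map_sub]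
  linear_combination (-4) * h4

/-- the product of the units is not constant -/
theorem prod_not_const (x : R) (hx : Transcendental k (x : K))
    (g : AlgebraicClosure k → M) (d : AlgebraicClosure k → AlgebraicClosure k)
    (S : Finset (AlgebraicClosure k))
    (hg : ∀ α ∈ S, algebraMap _ M (d α) * g α ^ 2 = algebraMap R M x - algebraMap _ M α)
    (D δ : AlgebraicClosure k) (hD : D ^ 2 = δ) (hδ : δ ≠ 0) (α₀ β₀ w₀ : AlgebraicClosure k)
    (hflip : ∀ α ∈ S, ∃ σ : AlgebraicClosure M →+* AlgebraicClosure M,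
      (∀ a : AlgebraicClosure k, σ (algebraMap M _ (algebraMap _ M a)) =
        algebraMap M _ (algebraMap _ M a)) ∧
      σ (algebraMap M _ (algebraMap R M x)) = algebraMap M _ (algebraMap R M x) ∧
      (∀ β ∈ S, β ≠ α → σ (algebraMap M _ (g β)) = algebraMap M _ (g β)) ∧
      σ (algebraMap M _ (g α)) = -algebraMap M _ (g α))
    (T : Finset (AlgebraicClosure k × AlgebraicClosure k × AlgebraicClosure k))
    (hT : PairSet S d δ α₀ β₀ w₀ T) :
    ¬ IsAlgebraic k (∏ t ∈ T, pairU R x g D 1 t) := by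
  classical
  intro halg
  have hM2 : CharZero M := charZero_of_injective_algebraMap (algebraMap k M).injective
  -- algebraic elements are constants
  have hconst : ∀ b : M, IsAlgebraic k b → ∃ a : AlgebraicClosure k, algebraMap _ M a = b := by
    rintro b ⟨P, hP, hb⟩
    have h1 : (P.map (algebraMap k (AlgebraicClosure k))).eval₂ (algebraMap (AlgebraicClosure k) M) b = 0 := by
      rw [eval₂_map, ← IsScalarTower.algebraMap_eq]
      exact hb
    obtain ⟨a, -, ha⟩ := root_mem (algebraMap (AlgebraicClosure k) M)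
      ((Polynomial.map_ne_zero_iff (algebraMap k (AlgebraicClosure k)).injective).mpr hP) h1
    exact ⟨a, ha⟩
  obtain ⟨c, hc⟩ := hconst _ halg
  let j : M →+* AlgebraicClosure M := algebraMap M (AlgebraicClosure M)
  let U : (AlgebraicClosure k × AlgebraicClosure k × AlgebraicClosure k) → AlgebraicClosure M :=
    fun t => j (pairU R x g D 1 t)
  let V : (AlgebraicClosure k × AlgebraicClosure k × AlgebraicClosure k) → AlgebraicClosure M :=
    fun t => j (pairU R x g D (-1) t)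
  have hUV : ∀ t ∈ T, U t * V t = j (algebraMap _ M ((t.1 - t.2.1) ^ 2)) := by
    intro t ht
    change j _ * j _ = _
    rw [← map_mul, pairU_mul R x g D δ hD hδ d t (hg _ (hT.mem₁ t ht)) (hg _ (hT.mem₂ t ht)) (hT.sq t ht)]
  have hκ : ∀ t ∈ T, j (algebraMap _ M ((t.1 - t.2.1) ^ 2)) ≠ 0 := by
    intro t ht
    rw [_root_.map_ne_zero, _root_.map_ne_zero]
    exact pow_ne_zero 2 (sub_ne_zero.mpr (hT.ne t ht))
  have hU0 : ∀ t ∈ T, U t ≠ 0 := fun t ht h => hκ t ht (by rw [← hUV t ht, h, zero_mul])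
  have hV0 : ∀ t ∈ T, V t ≠ 0 := fun t ht h => hκ t ht (by rw [← hUV t ht, h, mul_zero])
  -- the action of a change of sign
  have hact : ∀ α ∈ S, ∃ σ : AlgebraicClosure M →+* AlgebraicClosure M,
      (∀ a : AlgebraicClosure k, σ (j (algebraMap _ M a)) = j (algebraMap _ M a)) ∧
      (∀ t ∈ T, (t.1 = α ∨ t.2.1 = α) → σ (U t) = V t ∧ σ (V t) = U t) ∧
      (∀ t ∈ T, ¬ (t.1 = α ∨ t.2.1 = α) → σ (U t) = U t ∧ σ (V t) = V t) := by
    intro α hα
    obtain ⟨σ, h1, h2, h3, h4⟩ := hflip α hα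
    have hform : ∀ (ε : ℤ) (t : AlgebraicClosure k × AlgebraicClosure k × AlgebraicClosure k),
        σ (j (pairU R x g D ε t)) = 2 * j (algebraMap R M x) - j (algebraMap _ M t.1) -
          j (algebraMap _ M t.2.1) + ε * (2 * j (algebraMap _ M (t.2.2 / D)) *
            (σ (j (g t.1)) * σ (j (g t.2.1)))) := by
      intro ε t
      simp only [pairU, map_add, map_sub, map_mul, map_ofNat, map_intCast]
      rw [h2, h1, h1, h1]
    have hform' : ∀ (ε : ℤ) (t : AlgebraicClosure k × AlgebraicClosure k × AlgebraicClosure k),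
        j (pairU R x g D ε t) = 2 * j (algebraMap R M x) - j (algebraMap _ M t.1) -
          j (algebraMap _ M t.2.1) + ε * (2 * j (algebraMap _ M (t.2.2 / D)) *
            (j (g t.1) * j (g t.2.1))) := by
      intro ε t
      simp only [pairU, map_add, map_sub, map_mul, map_ofNat, map_intCast]
    refine ⟨σ, h1, fun t ht h => ?_, fun t ht h => ?_⟩
    · have h5 : σ (j (g t.1)) * σ (j (g t.2.1)) = -(j (g t.1) * j (g t.2.1)) := by
        rcases h with h | h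
        · have h6 : t.2.1 ≠ α := fun h7 => hT.ne t ht (h.trans h7.symm)
          rw [h3 _ (hT.mem₂ t ht) h6, h, h4, neg_mul]
        · have h6 : t.1 ≠ α := fun h7 => hT.ne t ht (h7.trans h.symm)
          rw [h3 _ (hT.mem₁ t ht) h6, h, h4, mul_neg]
      constructor
      · change σ (j _) = j _
        rw [hform, hform', h5]
        push_cast
        ring
      · change σ (j _) = j _
        rw [hform, hform', h5]
        push_cast
        ring
    · rw [not_or] at h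
      constructor
      · change σ (j _) = j _
        rw [hform, hform', h3 _ (hT.mem₁ t ht) h.1, h3 _ (hT.mem₂ t ht) h.2]
      · change σ (j _) = j _
        rw [hform, hform', h3 _ (hT.mem₁ t ht) h.1, h3 _ (hT.mem₂ t ht) h.2]
  have hα₀ : α₀ ∈ S := hT.mem₁ _ hT.base
  have hβ₀ : β₀ ∈ S := hT.mem₂ _ hT.base
  have hne : α₀ ≠ β₀ := hT.ne _ hT.base
  obtain ⟨ρ, hρc, hρ1, hρ2⟩ := hact α₀ hα₀
  obtain ⟨ρ', -, hρ1', hρ2'⟩ := hact β₀ hβ₀
  -- first step
  let T₁ := T.filter fun t => t.1 = α₀ ∨ t.2.1 = α₀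
  let T₁' := T.filter fun t => ¬ (t.1 = α₀ ∨ t.2.1 = α₀)
  have hT₁ : ∀ t ∈ T₁, t ∈ T ∧ (t.1 = α₀ ∨ t.2.1 = α₀) := fun t ht => Finset.mem_filter.mp ht
  have hT₁' : ∀ t ∈ T₁', t ∈ T ∧ ¬ (t.1 = α₀ ∨ t.2.1 = α₀) := fun t ht => Finset.mem_filter.mp ht
  have e1 : (∏ t ∈ T₁, U t) * ∏ t ∈ T₁', U t = j (algebraMap _ M c) := by
    rw [Finset.prod_filter_mul_prod_filter_not, hc, map_prod]
  have e2 : (∏ t ∈ T₁, V t) * ∏ t ∈ T₁', U t = j (algebraMap _ M c) := by
    have h1 := congrArg ρ e1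
    rw [map_mul, map_prod, map_prod, hρc] at h1
    rw [← h1]
    congr 1
    · exact Finset.prod_congr rfl fun t ht => (hρ1 t (hT₁ t ht).1 (hT₁ t ht).2).1.symm
    · exact Finset.prod_congr rfl fun t ht => (hρ2 t (hT₁' t ht).1 (hT₁' t ht).2).1.symm
  have hne1 : ∏ t ∈ T₁', U t ≠ 0 := Finset.prod_ne_zero_iff.mpr fun t ht => hU0 t (hT₁' t ht).1
  have e3 : ∏ t ∈ T₁, U t = ∏ t ∈ T₁, V t := mul_right_cancel₀ hne1 (e1.trans e2.symm)
  -- second step
  let T₂ := T₁.filter fun t => t.1 = β₀ ∨ t.2.1 = β₀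
  let T₃ := T₁.filter fun t => ¬ (t.1 = β₀ ∨ t.2.1 = β₀)
  have hT₂ : ∀ t ∈ T₂, t ∈ T₁ ∧ (t.1 = β₀ ∨ t.2.1 = β₀) := fun t ht => Finset.mem_filter.mp ht
  have hT₃ : ∀ t ∈ T₃, t ∈ T₁ ∧ ¬ (t.1 = β₀ ∨ t.2.1 = β₀) := fun t ht => Finset.mem_filter.mp ht
  have e4 : (∏ t ∈ T₂, U t) * ∏ t ∈ T₃, U t = (∏ t ∈ T₂, V t) * ∏ t ∈ T₃, V t := by
    rw [Finset.prod_filter_mul_prod_filter_not, Finset.prod_filter_mul_prod_filter_not, e3]
  have e5 : (∏ t ∈ T₂, V t) * ∏ t ∈ T₃, U t = (∏ t ∈ T₂, U t) * ∏ t ∈ T₃, V t := by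
    have h1 := congrArg ρ' e4
    rw [map_mul, map_mul, map_prod, map_prod, map_prod, map_prod] at h1
    have h2 : ∏ t ∈ T₂, ρ' (U t) = ∏ t ∈ T₂, V t := Finset.prod_congr rfl fun t ht =>
      (hρ1' t (hT₁ t (hT₂ t ht).1).1 (hT₂ t ht).2).1
    have h3 : ∏ t ∈ T₂, ρ' (V t) = ∏ t ∈ T₂, U t := Finset.prod_congr rfl fun t ht =>
      (hρ1' t (hT₁ t (hT₂ t ht).1).1 (hT₂ t ht).2).2
    have h4 : ∏ t ∈ T₃, ρ' (U t) = ∏ t ∈ T₃, U t := Finset.prod_congr rfl fun t ht =>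
      (hρ2' t (hT₁ t (hT₃ t ht).1).1 (hT₃ t ht).2).1
    have h5 : ∏ t ∈ T₃, ρ' (V t) = ∏ t ∈ T₃, V t := Finset.prod_congr rfl fun t ht =>
      (hρ2' t (hT₁ t (hT₃ t ht).1).1 (hT₃ t ht).2).2
    rw [h2, h3, h4, h5] at h1
    exact h1
  have hne3 : ∏ t ∈ T₃, U t ≠ 0 :=
    Finset.prod_ne_zero_iff.mpr fun t ht => hU0 t (hT₁ t (hT₃ t ht).1).1
  have e6 : (∏ t ∈ T₂, U t) ^ 2 = (∏ t ∈ T₂, V t) ^ 2 := by
    apply mul_right_cancel₀ hne3
    linear_combination (∏ t ∈ T₂, U t) * e4 - (∏ t ∈ T₂, V t) * e5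
  -- the pair
  let t₀ : AlgebraicClosure k × AlgebraicClosure k × AlgebraicClosure k := (α₀, β₀, w₀)
  have hsame : ∀ t ∈ T₂, ∀ ε : ℤ, pairU R x g D ε t = pairU R x g D ε t₀ := by
    intro t ht ε
    obtain ⟨h1, h2⟩ := hT₂ t ht
    obtain ⟨h3, h4⟩ := hT₁ t h1
    have h5 : (t.1 = α₀ ∧ t.2.1 = β₀) ∨ (t.1 = β₀ ∧ t.2.1 = α₀) := by
      rcases h4 with h4 | h4
      · rcases h2 with h2 | h2
        · exact absurd (h4.symm.trans h2) hne
        · exact Or.inl ⟨h4, h2⟩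
      · rcases h2 with h2 | h2
        · exact Or.inr ⟨h2, h4⟩
        · exact absurd (h4.symm.trans h2) hne
    have h6 := hT.uniq t h3 h5
    rcases h5 with ⟨h7, h8⟩ | ⟨h7, h8⟩
    · simp only [pairU, t₀, h6, h7, h8]
    · simp only [pairU, t₀, h6, h7, h8]
      ring
  have ht₀ : t₀ ∈ T₂ := Finset.mem_filter.mpr ⟨Finset.mem_filter.mpr ⟨hT.base, Or.inl rfl⟩, Or.inr rfl⟩
  have hn : 0 < T₂.card := Finset.card_pos.mpr ⟨t₀, ht₀⟩
  have e7 : ∏ t ∈ T₂, U t = U t₀ ^ T₂.card := by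
    rw [Finset.prod_congr rfl fun t ht => congrArg j (hsame t ht 1)]
    exact Finset.prod_const _
  have e8 : ∏ t ∈ T₂, V t = V t₀ ^ T₂.card := by
    rw [Finset.prod_congr rfl fun t ht => congrArg j (hsame t ht (-1))]
    exact Finset.prod_const _
  rw [e7, e8] at e6
  have e9 : j (pairU R x g D 1 t₀ ^ (T₂.card * 4)) =
      j (algebraMap _ M (((α₀ - β₀) ^ 2) ^ (T₂.card * 2))) := by
    have h1 := hUV t₀ hT.base
    have h2 : U t₀ ^ (T₂.card * 4) = (U t₀ * V t₀) ^ (T₂.card * 2) := by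
      have h3 : U t₀ ^ (T₂.card * 4) = (U t₀ ^ T₂.card) ^ 2 * (U t₀ ^ T₂.card) ^ 2 := by ring
      rw [h3]
      conv_lhs => rw [e6]
      rw [← e6]
      rw [mul_pow]
      have h4 : V t₀ ^ (T₂.card * 2) = (V t₀ ^ T₂.card) ^ 2 := by ring
      rw [h4, ← e6]
      ring
    rw [map_pow]
    change U t₀ ^ (T₂.card * 4) = _
    rw [h2, h1, ← map_pow, ← map_pow]
  have e10 := j.injective e9
  have halg₀ : IsAlgebraic k (pairU R x g D 1 t₀) := by
    refine IsAlgebraic.of_pow (n := T₂.card * 4) (by omega) ?_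
    rw [e10]
    exact (Algebra.IsAlgebraic.isAlgebraic (R := k) (((α₀ - β₀) ^ 2) ^ (T₂.card * 2))).algebraMap
  obtain ⟨a, ha⟩ := hconst _ halg₀
  have e11 := pairU_mul R x g D δ hD hδ d t₀ (hg _ hα₀) (hg _ hβ₀) (hT.sq _ hT.base)
  have ha0 : a ≠ 0 := by
    rintro rfl
    rw [← ha, map_zero, zero_mul, eq_comm, _root_.map_eq_zero] at e11
    exact pow_ne_zero 2 (sub_ne_zero.mpr hne) e11
  have e12 : pairU R x g D (-1) t₀ = algebraMap _ M ((α₀ - β₀) ^ 2 / a) := by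
    rw [map_div₀, eq_div_iff (by rw [_root_.map_ne_zero]; exact ha0), ha, mul_comm]
    exact e11
  have e13 : algebraMap R M x = algebraMap _ M ((a + (α₀ - β₀) ^ 2 / a + 2 * (α₀ + β₀)) / 4) := by
    rw [map_div₀, map_add, map_add, ← e12, ha, map_mul, map_add, map_ofNat, map_ofNat]
    simp only [pairU, t₀, Int.cast_one, Int.cast_neg]
    field_simp
    ring
  apply hx
  have h1 : IsAlgebraic k (algebraMap K M (x : K)) := by
    change IsAlgebraic k (algebraMap R M x)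
    rw [e13]
    exact (Algebra.IsAlgebraic.isAlgebraic (R := k) (_ : AlgebraicClosure k)).algebraMap
  exact (isAlgebraic_algebraMap_iff (algebraMap K M).injective).mp h1

end

end Pool.Agent.Lib.MP_2f3286_ag.PA
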