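import Pool.Agent.Lib.MP_2f3286_ag.PA.Cases

/-!
# The class of the section when the twisted double covers are controlled by local solubility
-/

open IsDedekindDomain NumberField IntermediateField Polynomial

namespace Pool.Agent.Lib.MP_2f3286_ag.PA

universe u

/-- the infinite places of the trivial extension -/
theorem card_bot_eq (k : Type*) [Field k] [NumberField k] :
    Nat.card (InfinitePlace (⊥ : IntermediateField k (AlgebraicClosure k))) =
      Nat.card (InfinitePlace k) := by
  let e : (⊥ : IntermediateField k (AlgebraicClosure k)) ≃ₐ[k] k := IntermediateField.botEquiv k _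
  refine Nat.card_congr
    { toFun := fun w => w.comap (e.symm : k →+* (⊥ : IntermediateField k (AlgebraicClosure k)))
      invFun := fun w => w.comap (e : (⊥ : IntermediateField k (AlgebraicClosure k)) →+* k)
      left_inv := fun w => ?_
      right_inv := fun w => ?_ }
  · change (w.comap _).comap _ = w
    rw [← InfinitePlace.comap_comp]
    have h : ((e.symm : k →+* (⊥ : IntermediateField k (AlgebraicClosure k))).comp
        (e : (⊥ : IntermediateField k (AlgebraicClosure k)) →+* k)) = RingHom.id _ :=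
      RingHom.ext fun a => e.symm_apply_apply a
    rw [h, InfinitePlace.comap_id]
  · change (w.comap _).comap _ = w
    rw [← InfinitePlace.comap_comp]
    have h : ((e : (⊥ : IntermediateField k (AlgebraicClosure k)) →+* k).comp
        (e.symm : k →+* (⊥ : IntermediateField k (AlgebraicClosure k)))) = RingHom.id _ :=
      RingHom.ext fun a => e.apply_symm_apply a
    rw [h, InfinitePlace.comap_id]

section

variable {k : Type u} [Field k] [NumberField k]
    {K : Type*} [Field K] [Algebra k K]
    (R : Subalgebra k K)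
    {M : Type*} [Field M] [Algebra K M]
    [Algebra (AlgebraicClosure k) M] [Algebra k M]
    [IsScalarTower k K M] [IsScalarTower k (AlgebraicClosure k) M]

/-- the twisted equations have local solutions only for classes of two kinds -/
def SelCond (k : Type*) [Field k] [NumberField k] (P Q : k[X]) : Prop :=
  ∀ d : k, d ≠ 0 →
    (∀ v : HeightOneSpectrum (𝓞 k), ∃ t u u' : v.adicCompletion k,
      aeval t Q = algebraMap k _ d * u ^ 2 ∧ aeval t P = algebraMap k _ d * u' ^ 2) →
    (Nat.card (InfinitePlace k) = 1 ∧ IsSquare d) ∨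
      ∀ τ : k →+* ℂ, (∀ a, starRingEnd ℂ (τ a) = τ a) ∧ (τ d).re < 0

/-- the minus or the plus case -/
theorem sel_case
    (s : Gal(AlgebraicClosure k/k) →* Gal(M/K)) (hs : Continuous s)
    (hsec : ∀ σ a, s σ (algebraMap (AlgebraicClosure k) M a) =
      algebraMap (AlgebraicClosure k) M (σ a))
    (ι : ∀ v : HeightOneSpectrum (𝓞 k),
      AlgebraicClosure k →ₐ[k] AlgebraicClosure (v.adicCompletion k))
    (φ : ∀ v : HeightOneSpectrum (𝓞 k),
      integralClosure R M →+* AlgebraicClosure (v.adicCompletion k))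
    (hφ : ∀ v, Respects s (v.adicCompletion k)
      (ι v : _ →+* AlgebraicClosure (v.adicCompletion k)) (φ v))
    (x y : R) (P Q : k[X])
    (hy : algebraMap R M y ^ 2 = evM R M x (P.map (algebraMap k (AlgebraicClosure k))) *
      evM R M x (Q.map (algebraMap k (AlgebraicClosure k))))
    (hsel : SelCond k P Q)
    (ξ₀ : M) (hξ0 : ξ₀ ≠ 0) (hξ : ξ₀ ^ 2 = evM R M x (Q.map (algebraMap k (AlgebraicClosure k)))) :
    (∀ τ : AlgebraicClosure k →+* ℂ, ∃ c : Gal(AlgebraicClosure k/k),
      (∀ a, τ (c a) = starRingEnd ℂ (τ a)) ∧ s c ξ₀ = -ξ₀) ∨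
      (Nat.card (InfinitePlace k) = 1 ∧ ∀ σ, s σ ξ₀ = ξ₀) := by
  classical
  have hM2 : CharZero M := charZero_of_injective_algebraMap (algebraMap (AlgebraicClosure k) M).injective
  -- the function over `k`
  have hQK : ∀ S : k[X], evM R M x (S.map (algebraMap k (AlgebraicClosure k))) =
      algebraMap K M (S.eval₂ (algebraMap k K) (x : K)) := by
    intro S
    rw [hom_eval₂]
    change eval₂ _ _ (S.map _) = _
    rw [eval₂_map]
    refine eval₂_congr ?_ rfl rfl
    rw [← IsScalarTower.algebraMap_eq, ← IsScalarTower.algebraMap_eq]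
  have hη : (algebraMap R M y / ξ₀) ^ 2 = evM R M x (P.map (algebraMap k (AlgebraicClosure k))) := by
    rw [div_pow, hy, ← hξ, mul_div_cancel_right₀ _ (pow_ne_zero 2 hξ0)]
  set η₀ : M := algebraMap R M y / ξ₀ with hη₀
  have hg0 : Q.eval₂ (algebraMap k K) (x : K) ≠ 0 := by
    intro h
    rw [hQK, h, map_zero] at hξ
    exact hξ0 (pow_eq_zero_iff two_ne_zero |>.mp hξ)
  obtain ⟨c, z, a, hc, hz, hza⟩ := exists_kummer s hs hsec (T := ξ₀) (n := 2) (by norm_num) hg0
    (by rw [hξ, hQK])
  -- the signs
  have hsq : ∀ σ, (s σ ξ₀) ^ 2 = ξ₀ ^ 2 := by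
    intro σ
    rw [← map_pow, hξ, hQK, AlgEquiv.commutes]
  have hc1 : ∀ σ, (c σ : AlgebraicClosure k) ^ 2 = 1 := by
    intro σ
    apply (algebraMap (AlgebraicClosure k) M).injective
    have h1 := hsq σ
    rw [hc, mul_pow] at h1
    rw [map_pow, map_one]
    exact mul_right_cancel₀ (pow_ne_zero 2 hξ0) (by rw [one_mul]; exact h1)
  have hcη : ∀ σ, s σ η₀ = algebraMap (AlgebraicClosure k) M (c σ) * η₀ := by
    intro σ
    have h1 : s σ (algebraMap R M y) = algebraMap R M y := AlgEquiv.commutes (s σ) (y : K)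
    have h2 : algebraMap (AlgebraicClosure k) M (c σ) ≠ 0 := by
      rw [_root_.map_ne_zero]; exact (c σ).ne_zero
    have h3 : algebraMap (AlgebraicClosure k) M (c σ) ^ 2 = 1 := by
      rw [← map_pow, hc1, map_one]
    rw [hη₀, map_div₀, h1, hc, div_eq_iff (mul_ne_zero h2 hξ0)]
    calc algebraMap R M y = 1 * (algebraMap R M y / ξ₀ * ξ₀) := by
          rw [one_mul, div_mul_cancel₀ _ hξ0]
      _ = algebraMap (AlgebraicClosure k) M (c σ) ^ 2 * (algebraMap R M y / ξ₀ * ξ₀) := by rw [h3]
      _ = _ := by ring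
  have hint : ∀ (u : M) (S : k[X]), u ^ 2 = evM R M x (S.map (algebraMap k (AlgebraicClosure k))) →
      IsIntegral R u := by
    intro u S hu
    refine IsIntegral.of_pow (n := 2) (by norm_num) ?_
    rw [hu, ← coe_evB]
    exact (evB R x _).2
  -- the local solutions
  have hloc : ∀ v : HeightOneSpectrum (𝓞 k), ∃ t u u' : v.adicCompletion k,
      aeval t Q = algebraMap k _ (a : k) * u ^ 2 ∧ aeval t P = algebraMap k _ (a : k) * u' ^ 2 := by
    intro v
    obtain ⟨xv, hxv⟩ := exists_local_point R s v (ι v) (φ v) (hφ v)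
    have hchar : CharZero (v.adicCompletion k) := charZero_of_injective_algebraMap
      (algebraMap k (v.adicCompletion k)).injective
    have hιz : (ι v : AlgebraicClosure k →+* AlgebraicClosure (v.adicCompletion k))
        (z : AlgebraicClosure k) ≠ 0 := by
      rw [_root_.map_ne_zero]; exact z.ne_zero
    have hιk : ∀ b : k, (ι v : AlgebraicClosure k →+* AlgebraicClosure (v.adicCompletion k))
        (algebraMap k (AlgebraicClosure k) b) =
        algebraMap (v.adicCompletion k) (AlgebraicClosure (v.adicCompletion k)) (algebraMap k _ b) := by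
      intro b
      rw [← IsScalarTower.algebraMap_apply]
      exact (ι v).commutes b
    have key : ∀ (u : M) (S : k[X]) (hu : u ^ 2 = evM R M x (S.map (algebraMap k (AlgebraicClosure k)))),
        (∀ σ, s σ u = algebraMap (AlgebraicClosure k) M (c σ) * u) →
        ∃ Z : v.adicCompletion k, aeval (xv x) S =
          algebraMap k _ (a : k) * Z ^ 2 := by
      intro u S hu hcu
      have hui := hint u S hu
      have hinj := (algebraMap (v.adicCompletion k) (AlgebraicClosure (v.adicCompletion k))).injective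
      have hS : φ v ⟨u, hui⟩ ^ 2 = algebraMap _ _ (aeval (xv x) S) := by
        have h2 : (⟨u, hui⟩ : integralClosure R M) ^ 2 = evB R x (S.map (algebraMap k (AlgebraicClosure k))) := by
          apply Subtype.ext
          rw [coe_evB, ← hu]
          rfl
        rw [← map_pow, h2, pt_evB R x _ (φ v) (hφ v).1, ← hxv, aeval_def, hom_eval₂, eval₂_map]
        exact eval₂_congr (RingHom.ext fun b => hιk b) rfl rfl
      by_cases hu0 : u = 0
      · refine ⟨0, ?_⟩
        rw [zero_pow two_ne_zero, mul_zero]
        apply hinj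
        rw [← hS, map_zero]
        have h3 : (⟨u, hui⟩ : integralClosure R M) = 0 := Subtype.ext hu0
        rw [h3, map_zero, zero_pow two_ne_zero]
      · have hL : ∀ b : (⊥ : IntermediateField k (AlgebraicClosure k)), ∃ w : v.adicCompletion k,
            algebraMap (v.adicCompletion k) (AlgebraicClosure (v.adicCompletion k)) w =
              (ι v : AlgebraicClosure k →+* AlgebraicClosure (v.adicCompletion k))
                (b : AlgebraicClosure k) := by
          intro b
          obtain ⟨b', hb'⟩ := IntermediateField.mem_bot.mp b.2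
          refine ⟨algebraMap k _ b', ?_⟩
          rw [← hb', hιk]
        obtain ⟨Z, hZ⟩ := quot_mem (B := integralClosure R M) s (fun a => const_int R a) (hφ v) ⊥ hL
          ⟨u, hui⟩ (fun σ _ => ⟨c σ, hcu σ⟩) z (fun σ _ ζ hζ => by
            have h3 : algebraMap (AlgebraicClosure k) M ζ = algebraMap _ M (c σ : AlgebraicClosure k) := by
              have h4 : s σ u = algebraMap (AlgebraicClosure k) M ζ * u := hζ
              rw [hcu σ] at h4
              exact (mul_right_cancel₀ hu0 h4).symm
            rw [(algebraMap (AlgebraicClosure k) M).injective h3]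
            exact (hz σ).symm)
        refine ⟨Z, ?_⟩
        apply hinj
        rw [← hS, map_mul, map_pow, hZ, div_pow]
        have h5 : algebraMap (v.adicCompletion k) (AlgebraicClosure (v.adicCompletion k))
            (algebraMap k _ (a : k)) = (ι v : _ →+* AlgebraicClosure (v.adicCompletion k))
              (z : AlgebraicClosure k) ^ 2 := by
          rw [← map_pow, hza, hιk]
        rw [h5, mul_div_cancel₀ _ (pow_ne_zero 2 hιz)]
    obtain ⟨Z, hZ⟩ := key ξ₀ Q hξ hc
    obtain ⟨Z', hZ'⟩ := key η₀ P hη hcη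
    exact ⟨xv x, Z, Z', hZ, hZ'⟩
  rcases hsel (a : k) a.ne_zero hloc with ⟨hcard, b, hb⟩ | hτ
  · right
    refine ⟨hcard, fun σ => ?_⟩
    have h1 : (z : AlgebraicClosure k) ^ 2 = algebraMap k _ b ^ 2 := by rw [hza, hb, ← pow_two, map_pow]
    have h2 : σ (z : AlgebraicClosure k) = z := by
      rcases sq_eq_sq_iff_eq_or_eq_neg.mp h1 with h | h
      · rw [h, AlgEquiv.commutes]
      · rw [h, map_neg, AlgEquiv.commutes]
    have h3 : (c σ : AlgebraicClosure k) = 1 := by
      have h4 := hz σ
      rw [h2] at h4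
      exact mul_right_cancel₀ z.ne_zero (by rw [one_mul]; exact h4)
    rw [hc, h3, map_one, one_mul]
  · left
    intro τ
    have hτk : ∀ a : k, starRingEnd ℂ (τ (algebraMap k (AlgebraicClosure k) a)) =
        τ (algebraMap k (AlgebraicClosure k) a) := (hτ (τ.comp (algebraMap k (AlgebraicClosure k)))).1
    obtain ⟨γ, -, hγ⟩ := exists_conj (⊥ : IntermediateField k (AlgebraicClosure k)) τ (fun a => by
      obtain ⟨a', ha'⟩ := IntermediateField.mem_bot.mp a.2
      rw [← ha']
      exact hτk a')
    refine ⟨γ, hγ, ?_⟩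
    have h1 : τ (z : AlgebraicClosure k) ^ 2 = τ (algebraMap k (AlgebraicClosure k) a) := by
      rw [← map_pow, hza]
    have h2 : starRingEnd ℂ (τ z) = -τ z := by
      refine (conj_of_sq_neg ?_ ?_).1
      · rw [h1, hτk]
      · rw [h1]
        exact (hτ (τ.comp (algebraMap k (AlgebraicClosure k)))).2
    have h3 : γ (z : AlgebraicClosure k) = -z := by
      apply τ.injective
      rw [hγ, h2, map_neg]
    have h4 : (c γ : AlgebraicClosure k) = -1 := by
      have h5 := hz γ
      rw [h3] at h5
      exact mul_right_cancel₀ z.ne_zero (by rw [neg_one_mul]; exact h5)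
    rw [hc, h4, map_neg, map_one, neg_one_mul]

theorem crit_of_sel (hmax : Pt.IsRadClosed R M (AlgebraicClosure k))
    (s : Gal(AlgebraicClosure k/k) →* Gal(M/K)) (hs : Continuous s)
    (hsec : ∀ σ a, s σ (algebraMap (AlgebraicClosure k) M a) =
      algebraMap (AlgebraicClosure k) M (σ a))
    (ι : ∀ v : HeightOneSpectrum (𝓞 k),
      AlgebraicClosure k →ₐ[k] AlgebraicClosure (v.adicCompletion k))
    (φ : ∀ v : HeightOneSpectrum (𝓞 k),
      integralClosure R M →+* AlgebraicClosure (v.adicCompletion k))
    (hφ : ∀ v, Respects s (v.adicCompletion k)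
      (ι v : _ →+* AlgebraicClosure (v.adicCompletion k)) (φ v))
    (x y : R) (hx : Transcendental k (x : K))
    (P Q : k[X]) (w g : k[X]) (c₀ : k) (hw : 0 < w.natDegree) (hc₀ : c₀ ≠ 0)
    (hwg : w ^ 2 - C c₀ = Q * g ^ 2) (hPQ : IsCoprime P Q)
    (hy : algebraMap R M y ^ 2 = evM R M x (P.map (algebraMap k (AlgebraicClosure k))) *
      evM R M x (Q.map (algebraMap k (AlgebraicClosure k))))
    (hsel : SelCond k P Q) :
    CritData R (M := M) s x := by
  have hQ0 : Q ≠ 0 := by
    rintro rfl
    rw [zero_mul, sub_eq_zero] at hwg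
    have h1 := congrArg natDegree hwg
    rw [natDegree_pow, natDegree_C] at h1
    omega
  have hQ0' : Q.map (algebraMap k (AlgebraicClosure k)) ≠ 0 :=
    (Polynomial.map_ne_zero_iff (algebraMap k (AlgebraicClosure k)).injective).mpr hQ0
  obtain ⟨ξ₀, hξ₀⟩ := sqrt_coprime R hmax x hx _ _ (hPQ.map (mapRingHom (algebraMap k (AlgebraicClosure k))))
    hQ0' (algebraMap R M y) hy
  have hξ₀' : ξ₀ ^ 2 = evM R M x (Q.map (algebraMap k (AlgebraicClosure k))) := hξ₀
  have hξ0 : ξ₀ ≠ 0 := by
    rintro rfl
    rw [zero_pow two_ne_zero] at hξ₀'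
    exact evM_ne_zero R x hx hQ0' hξ₀'.symm
  let F : IntermediateField k (AlgebraicClosure k) := ⊥
  have hmap : ∀ S : k[X], (S.map (algebraMap k F)).map (algebraMap F (AlgebraicClosure k)) =
      S.map (algebraMap k (AlgebraicClosure k)) := by
    intro S
    rw [Polynomial.map_map]
    rfl
  have hfixg : ∀ σ : Gal(AlgebraicClosure k/k), s σ (evM R M x (g.map (algebraMap k (AlgebraicClosure k)))) =
      evM R M x (g.map (algebraMap k (AlgebraicClosure k))) := by
    intro σ
    have h1 := gal_evM R s hsec x σ F (by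
      rw [IntermediateField.fixingSubgroup_bot]; trivial) (g.map (algebraMap k F))
    rw [hmap] at h1
    exact h1
  refine ⟨F, inferInstance, w.map (algebraMap k F), algebraMap k F c₀,
    evM R M x (g.map (algebraMap k (AlgebraicClosure k))) * ξ₀, by rw [natDegree_map]; exact hw,
    by rw [_root_.map_ne_zero]; exact hc₀, ?_, ?_⟩
  · rw [hmap]
    have h1 := congrArg (fun S : k[X] => evM R M x (S.map (algebraMap k (AlgebraicClosure k)))) hwg
    simp only [Polynomial.map_sub, Polynomial.map_mul, Polynomial.map_pow, map_C, map_sub, map_mul,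
      map_pow, evM_C] at h1
    rw [mul_pow, hξ₀', mul_comm]
    exact h1.symm
  · rcases sel_case R s hs hsec ι φ hφ x y P Q hy hsel ξ₀ hξ0 hξ₀' with h | ⟨hcard, h⟩
    · left
      intro τ
      obtain ⟨c, hc, hcξ⟩ := h τ
      refine ⟨c, by rw [IntermediateField.fixingSubgroup_bot]; trivial, hc, ?_⟩
      rw [map_mul, hfixg, hcξ, mul_neg]
    · right
      refine ⟨(card_bot_eq k).trans hcard, fun σ _ => ?_⟩
      rw [map_mul, hfixg, h]

end

end Pool.Agent.Lib.MP_2f3286_ag.PA
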