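import Pool.Agent.Lib.MP_2f3286_ag.PA.VCrit
import Pool.Agent.Lib.MP_2f3286_ag.GU.Final2

/-!
# The criterion for a general unit: all functions in the ring generated by the units
-/

open IsDedekindDomain NumberField IntermediateField Polynomial

namespace Pool.Agent.Lib.MP_2f3286_ag.PA

open Full

universe u

section

variable {k : Type u} [Field k] [NumberField k]
    {K : Type*} [Field K] [Algebra k K]
    (R : Subalgebra k K)
    {M : Type*} [Field M] [Algebra K M]
    [Algebra (AlgebraicClosure k) M] [Algebra k M]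
    [IsScalarTower k K M] [IsScalarTower k (AlgebraicClosure k) M]

/-- the data of the criterion give the hypothesis on the values -/
theorem ndata_chi
    (s : Gal(AlgebraicClosure k/k) →* Gal(M/K)) (hs : Continuous s)
    (hsec : ∀ σ a, s σ (algebraMap (AlgebraicClosure k) M a) =
      algebraMap (AlgebraicClosure k) M (σ a))
    (hmax : Pt.IsRadClosed R M (AlgebraicClosure k))
    (ι : ∀ v : HeightOneSpectrum (𝓞 k),
      AlgebraicClosure k →ₐ[k] AlgebraicClosure (v.adicCompletion k))
    (φ : ∀ v : HeightOneSpectrum (𝓞 k),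
      integralClosure R M →+* AlgebraicClosure (v.adicCompletion k))
    (hφ : ∀ v, Respects s (v.adicCompletion k)
      (ι v : _ →+* AlgebraicClosure (v.adicCompletion k)) (φ v))
    (x : R) (hx : Transcendental k (x : K))
    (hdata : NUnitData R (M := M) s x)
    (T : Finset (HeightOneSpectrum (𝓞 k))) (N : ℕ) (hN : 1 ≤ N)
    (hint : ∀ v ∉ T, ∀ y z : v.adicCompletion k,
      φ v (algebraMap R (integralClosure R M) x) = algebraMap _ _ y →
      Valued.v y = Valued.v z ^ N → Valued.v y ≤ 1) :
    algebraMap R M x ∈ Subring.closure {b : M | IsIntegral R b ∧ IsIntegral R b⁻¹} ∧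
    ∃ χ : k[X], χ ≠ 0 ∧ ∀ v, φ v (algebraMap R (integralClosure R M) (aeval x χ)) = 0 := by
  obtain ⟨E, _, e, hrel, hgal⟩ := hdata
  exact ⟨hrel.x_mem, unit_chi_nc R s hs hsec hmax ι φ hφ x hx E e hrel hgal T N hN hint⟩

end

end Pool.Agent.Lib.MP_2f3286_ag.PA
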